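import Pool.Agent.Helper40.EV.Defs

/-! Tools for the random polytope argument: the volume of a simplex and Andreief's identity. -/

set_option autoImplicit false

namespace Pool.H40.EV

open MeasureTheory Set Matrix
open scoped ENNReal

/-- the solid simplex of size `s` -/
def Del (d : ℕ) (s : ℝ) : Set (Fin d → ℝ) := {x | (∀ i, 0 ≤ x i) ∧ ∑ i, x i ≤ s}

lemma measurableSet_Del (d : ℕ) (s : ℝ) : MeasurableSet (Del d s) := by
  have h1 : MeasurableSet {x : Fin d → ℝ | ∀ i, 0 ≤ x i} := by
    rw [Set.ofPred_forall]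
    exact MeasurableSet.iInter fun i => measurableSet_le measurable_const (measurable_pi_apply i)
  have h2 : MeasurableSet {x : Fin d → ℝ | ∑ i, x i ≤ s} :=
    measurableSet_le (Finset.measurable_sum _ fun i _ => measurable_pi_apply i) measurable_const
  exact h1.inter h2

lemma volume_Del_le (d : ℕ) : ∀ s : ℝ, 0 ≤ s →
    volume (Del d s) ≤ ENNReal.ofReal (s ^ d / (d.factorial : ℝ)) := by
  induction d with
  | zero =>
    intro s _
    calc volume (Del 0 s) ≤ volume (univ : Set (Fin 0 → ℝ)) := measure_mono (subset_univ _)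
      _ = 1 := by
        rw [volume_pi, Measure.pi_of_empty, Measure.dirac_apply_of_mem (mem_univ _)]
      _ ≤ _ := by simp
  | succ d ih =>
    intro s hs
    have hmp := volume_preserving_piFinSuccAbove (fun _ : Fin (d + 1) => ℝ) 0
    have hpre : Del (d + 1) s = (MeasurableEquiv.piFinSuccAbove (fun _ : Fin (d + 1) => ℝ) 0) ⁻¹'
        {z : ℝ × (Fin d → ℝ) | 0 ≤ z.1 ∧ z.2 ∈ Del d (s - z.1)} := by
      ext x
      simp only [Del, mem_ofPred_eq, mem_preimage, Fin.forall_fin_succ, Fin.sum_univ_succ,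
        MeasurableEquiv.piFinSuccAbove_apply, Fin.insertNthEquiv_symm_apply]
      constructor
      · rintro ⟨⟨h1, h2⟩, h3⟩
        refine ⟨h1, fun i => ?_, ?_⟩
        · simpa [Fin.removeNth] using h2 i
        · have : ∑ i, Fin.removeNth 0 x i = ∑ i : Fin d, x i.succ := by
            simp [Fin.removeNth]
          rw [this]; linarith
      · rintro ⟨h1, h2, h3⟩
        refine ⟨⟨h1, fun i => ?_⟩, ?_⟩
        · simpa [Fin.removeNth] using h2 i
        · have : ∑ i, Fin.removeNth 0 x i = ∑ i : Fin d, x i.succ := by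
            simp [Fin.removeNth]
          rw [this] at h3; linarith
    have hms : MeasurableSet {z : ℝ × (Fin d → ℝ) | 0 ≤ z.1 ∧ z.2 ∈ Del d (s - z.1)} := by
      have := (MeasurableEquiv.piFinSuccAbove (fun _ : Fin (d + 1) => ℝ) 0).measurableSet_preimage
        (s := {z : ℝ × (Fin d → ℝ) | 0 ≤ z.1 ∧ z.2 ∈ Del d (s - z.1)})
      rw [← this, ← hpre]
      exact measurableSet_Del _ _
    rw [hpre, hmp.measure_preimage hms.nullMeasurableSet]
    have hprod : (volume : Measure (ℝ × (Fin d → ℝ)))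
        {z : ℝ × (Fin d → ℝ) | 0 ≤ z.1 ∧ z.2 ∈ Del d (s - z.1)} =
        ∫⁻ t : ℝ, volume (Prod.mk t ⁻¹'
          {z : ℝ × (Fin d → ℝ) | 0 ≤ z.1 ∧ z.2 ∈ Del d (s - z.1)}) := by
      rw [Measure.volume_eq_prod, Measure.prod_apply hms]
    have hle : ∀ t : ℝ, volume (Prod.mk t ⁻¹'
          {z : ℝ × (Fin d → ℝ) | 0 ≤ z.1 ∧ z.2 ∈ Del d (s - z.1)}) ≤
        (Icc 0 s).indicator (fun t => ENNReal.ofReal ((s - t) ^ d / (d.factorial : ℝ))) t := by
      intro t
      by_cases ht : t ∈ Icc 0 s
      · rw [indicator_of_mem ht]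
        refine le_trans (measure_mono ?_) (ih (s - t) (by linarith [ht.2]))
        intro y hy
        exact hy.2
      · rw [indicator_of_notMem ht]
        have hemp : Prod.mk t ⁻¹'
          {z : ℝ × (Fin d → ℝ) | 0 ≤ z.1 ∧ z.2 ∈ Del d (s - z.1)} = ∅ := by
          ext y
          simp only [mem_preimage, mem_ofPred_eq, mem_empty_iff_false, iff_false, Del]
          rintro ⟨h1, h2, h3⟩
          apply ht
          refine ⟨h1, ?_⟩
          have := Finset.sum_nonneg (fun i (_ : i ∈ Finset.univ) => h2 i)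
          linarith
        rw [hemp, measure_empty]
    have hint : (∫ t in Icc 0 s, (s - t) ^ d / (d.factorial : ℝ)) =
        s ^ (d + 1) / ((d + 1).factorial : ℝ) := by
      rw [integral_Icc_eq_integral_Ioc, ← intervalIntegral.integral_of_le hs,
        intervalIntegral.integral_div,
        intervalIntegral.integral_comp_sub_left (fun t => t ^ d) s, integral_pow,
        Nat.factorial_succ]
      have : (d.factorial : ℝ) ≠ 0 := by positivity
      push_cast
      field_simp
      simp
    rw [hprod]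
    calc _ ≤ ∫⁻ t : ℝ, (Icc 0 s).indicator
          (fun t => ENNReal.ofReal ((s - t) ^ d / (d.factorial : ℝ))) t := lintegral_mono hle
      _ = ∫⁻ t in Icc 0 s, ENNReal.ofReal ((s - t) ^ d / (d.factorial : ℝ)) :=
          lintegral_indicator measurableSet_Icc _
      _ = ENNReal.ofReal (∫ t in Icc 0 s, (s - t) ^ d / (d.factorial : ℝ)) := by
          refine (ofReal_integral_eq_lintegral_ofReal ?_ ?_).symm
          · apply ContinuousOn.integrableOn_compact isCompact_Icc
            fun_prop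
          · rw [Filter.EventuallyLE, ae_restrict_iff' measurableSet_Icc]
            refine Filter.Eventually.of_forall fun t ht => ?_
            have : 0 ≤ s - t := by linarith [ht.2]
            show (0 : ℝ) ≤ _
            positivity
      _ = _ := by rw [hint]

lemma convex_Del (d : ℕ) (s : ℝ) : Convex ℝ (Del d s) := by
  intro x hx y hy a b ha hb hab
  refine ⟨fun i => ?_, ?_⟩
  · have h1 := hx.1 i
    have h2 := hy.1 i
    simp only [Pi.add_apply, Pi.smul_apply, smul_eq_mul]
    positivity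
  · have h1 := hx.2
    have h2 := hy.2
    have : ∑ i, (a • x + b • y) i = a * ∑ i, x i + b * ∑ i, y i := by
      simp only [Pi.add_apply, Pi.smul_apply, smul_eq_mul, Finset.sum_add_distrib,
        Finset.mul_sum]
    rw [this]
    calc a * ∑ i, x i + b * ∑ i, y i ≤ a * s + b * s :=
          add_le_add (mul_le_mul_of_nonneg_left h1 ha) (mul_le_mul_of_nonneg_left h2 hb)
      _ = s := by rw [← add_mul, hab, one_mul]

lemma det_ph (d : ℕ) (x : Fin (d + 1) → (Fin d → ℝ)) :
    (Matrix.of fun i => ph (x i)).det =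
      (Matrix.of fun (i j : Fin d) => x i.succ j - x 0 j).det := by
  set A : Matrix (Fin (d + 1)) (Fin (d + 1)) ℝ := Matrix.of fun i => ph (x i) with hA
  set B : Matrix (Fin (d + 1)) (Fin (d + 1)) ℝ :=
    Matrix.of fun i j => if i = 0 then ph (x 0) j else ph (x i) j - ph (x 0) j with hB
  have h1 : A.det = B.det := by
    apply Matrix.det_eq_of_forall_row_eq_smul_add_const (fun i => if i = 0 then 0 else 1) 0
    · simp
    · intro i j
      by_cases hi : i = 0
      · simp [hA, hB, hi]
      · simp [hA, hB, hi]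
  rw [h1, Matrix.det_succ_column_zero, Fin.sum_univ_succ]
  have h2 : ∀ i : Fin d, B i.succ 0 = 0 := by
    intro i
    simp [hB, ph, Fin.succ_ne_zero]
  simp only [h2, mul_zero, zero_mul, Finset.sum_const_zero, add_zero]
  have h3 : B 0 0 = 1 := by simp [hB, ph]
  have h4 : B.submatrix (Fin.succAbove 0) Fin.succ =
      Matrix.of fun (i j : Fin d) => x i.succ j - x 0 j := by
    ext i j
    simp [hB, ph, Fin.succ_ne_zero]
  rw [h3, h4]
  simp

theorem simplex_volume_le (d : ℕ) (x : Fin (d + 1) → (Fin d → ℝ)) :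
    volume (convexHull ℝ (range x)) ≤
      ENNReal.ofReal (|(Matrix.of fun i => ph (x i)).det| / (d.factorial : ℝ)) := by
  set M : Matrix (Fin d) (Fin d) ℝ := (Matrix.of fun (i j : Fin d) => x i.succ j - x 0 j)ᵀ
    with hM
  set L : (Fin d → ℝ) →ₗ[ℝ] (Fin d → ℝ) := Matrix.toLin' M with hL
  set S : Set (Fin d → ℝ) := (fun y => x 0 + y) '' (L '' Del d 1) with hS
  have hsub : convexHull ℝ (range x) ⊆ S := by
    apply convexHull_min
    · rintro _ ⟨i, rfl⟩
      refine Fin.cases ?_ (fun j => ?_) i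
      · refine ⟨0, ⟨0, ⟨fun i => le_rfl, by simp⟩, map_zero _⟩, by simp⟩
      · refine ⟨L (Pi.single j 1), ⟨Pi.single j 1, ⟨fun i => ?_, ?_⟩, rfl⟩, ?_⟩
        · rw [Pi.single_apply]; split_ifs <;> norm_num
        · rw [Finset.sum_pi_single']; simp
        · rw [hL, Matrix.toLin'_apply, Matrix.mulVec_single_one]
          ext k
          simp [hM]
    · exact ((convex_Del d 1).linear_image L).translate (x 0)
  calc volume (convexHull ℝ (range x)) ≤ volume S := measure_mono hsub
    _ = volume (L '' Del d 1) := by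
        rw [hS, image_add_left, measure_preimage_add]
    _ = ENNReal.ofReal |LinearMap.det L| * volume (Del d 1) :=
        Measure.addHaar_image_linearMap _ _ _
    _ ≤ ENNReal.ofReal |LinearMap.det L| * ENNReal.ofReal (1 ^ d / (d.factorial : ℝ)) := by
        gcongr
        exact volume_Del_le d 1 zero_le_one
    _ = _ := by
        rw [← ENNReal.ofReal_mul (abs_nonneg _), hL, LinearMap.det_toLin', hM,
          Matrix.det_transpose, det_ph]
        congr 1
        rw [one_pow]
        ring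

theorem andreief {X : Type*} [MeasurableSpace X] (ν : Measure X) [SigmaFinite ν] {r : ℕ}
    (Φ : X → Fin r → ℝ) (hΦ : Measurable Φ)
    (hint : ∀ i j, Integrable (fun x => Φ x i * Φ x j) ν) :
    ∫⁻ x : Fin r → X, ENNReal.ofReal ((Matrix.of fun i => Φ (x i)).det ^ 2)
        ∂(Measure.pi fun _ : Fin r => ν) =
      ENNReal.ofReal ((r.factorial : ℝ) * (Matrix.of fun i j => ∫ x, Φ x i * Φ x j ∂ν).det) := by
  have hdet : ∀ x : Fin r → X, (Matrix.of fun i => Φ (x i)).det ^ 2 =
      ∑ σ : Equiv.Perm (Fin r), ∑ τ : Equiv.Perm (Fin r),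
        ((Equiv.Perm.sign σ : ℤ) : ℝ) * ((Equiv.Perm.sign τ : ℤ) : ℝ) *
          ∏ i, (Φ (x i) (σ i) * Φ (x i) (τ i)) := by
    intro x
    have h1 : (Matrix.of fun i => Φ (x i)).det =
        ∑ σ : Equiv.Perm (Fin r), ((Equiv.Perm.sign σ : ℤ) : ℝ) * ∏ i, Φ (x i) (σ i) := by
      rw [← Matrix.det_transpose, Matrix.det_apply']
      rfl
    rw [h1, sq, Finset.sum_mul_sum]
    refine Finset.sum_congr rfl fun σ _ => Finset.sum_congr rfl fun τ _ => ?_
    rw [Finset.prod_mul_distrib]
    ring
  have hI : ∀ σ τ : Equiv.Perm (Fin r), Integrable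
      (fun x : Fin r → X => ∏ i, (Φ (x i) (σ i) * Φ (x i) (τ i)))
      (Measure.pi fun _ : Fin r => ν) := by
    intro σ τ
    exact Integrable.fintype_prod (f := fun i x => Φ x (σ i) * Φ x (τ i)) fun i => hint _ _
  have hII : Integrable (fun x : Fin r → X => (Matrix.of fun i => Φ (x i)).det ^ 2)
      (Measure.pi fun _ : Fin r => ν) := by
    simp_rw [hdet]
    exact integrable_finsetSum _ fun σ _ => integrable_finsetSum _ fun τ _ =>
      (hI σ τ).const_mul _
  rw [← ofReal_integral_eq_lintegral_ofReal hII (Filter.Eventually.of_forall fun x => sq_nonneg _)]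
  congr 1
  simp_rw [hdet]
  rw [integral_finsetSum _ fun σ _ => integrable_finsetSum _ fun τ _ => (hI σ τ).const_mul _]
  have h2 : ∀ σ : Equiv.Perm (Fin r), (∫ x : Fin r → X, ∑ τ : Equiv.Perm (Fin r),
        ((Equiv.Perm.sign σ : ℤ) : ℝ) * ((Equiv.Perm.sign τ : ℤ) : ℝ) *
          ∏ i, (Φ (x i) (σ i) * Φ (x i) (τ i)) ∂(Measure.pi fun _ : Fin r => ν)) =
      (Matrix.of fun i j => ∫ x, Φ x i * Φ x j ∂ν).det := by
    intro σ
    rw [integral_finsetSum _ fun τ _ => (hI σ τ).const_mul _]
    simp_rw [integral_const_mul]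
    have h3 : ∀ τ : Equiv.Perm (Fin r), (∫ x : Fin r → X, ∏ i, (Φ (x i) (σ i) * Φ (x i) (τ i))
        ∂(Measure.pi fun _ : Fin r => ν)) =
        ∏ i, (Matrix.of fun i j => ∫ x, Φ x i * Φ x j ∂ν) (σ i) (τ i) := by
      intro τ
      exact integral_fintype_prod_eq_prod (fun i x => Φ x (σ i) * Φ x (τ i))
    simp_rw [h3]
    set G := (Matrix.of fun i j => ∫ x, Φ x i * Φ x j ∂ν) with hG
    have h4 : (G.submatrix σ id).det = ((Equiv.Perm.sign σ : ℤ) : ℝ) * G.det :=
      Matrix.det_permute σ G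
    have h5 : (G.submatrix σ id).det = ∑ τ : Equiv.Perm (Fin r),
        ((Equiv.Perm.sign τ : ℤ) : ℝ) * ∏ i, G (σ i) (τ i) := by
      rw [← Matrix.det_transpose, Matrix.det_apply']
      rfl
    have h6 : ∑ τ : Equiv.Perm (Fin r), ((Equiv.Perm.sign σ : ℤ) : ℝ) *
        ((Equiv.Perm.sign τ : ℤ) : ℝ) * ∏ i, G (σ i) (τ i) =
        ((Equiv.Perm.sign σ : ℤ) : ℝ) * (G.submatrix σ id).det := by
      rw [h5, Finset.mul_sum]
      exact Finset.sum_congr rfl fun τ _ => by ring
    have h7 : ((Equiv.Perm.sign σ : ℤ) : ℝ) * ((Equiv.Perm.sign σ : ℤ) : ℝ) = 1 := by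
      rcases Int.units_eq_one_or (Equiv.Perm.sign σ) with h | h <;> rw [h] <;> simp
    rw [h6, h4, ← mul_assoc, h7, one_mul]
  simp_rw [h2]
  rw [Finset.sum_const, Finset.card_univ, Fintype.card_perm, Fintype.card_fin, nsmul_eq_mul]

end Pool.H40.EV
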