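import Pool.Agent.Helper40.EV.Defs

/-! EV-12: splitting a product measure along a set of indices, and the Blaschke–Petkantschin
change of variables (for graphs of affine functions). -/

set_option autoImplicit false

namespace Pool.H40.EV

open MeasureTheory Set Matrix
open scoped ENNReal

theorem split_pi {α : Type*} [MeasurableSpace α] (μ : Measure α) [SigmaFinite μ] (n r : ℕ)
    (I : Finset (Fin n)) (hI : I.card = r) (F : (Fin r → α) → ℝ≥0∞) (hF : Measurable F)
    (S : Set ((Fin r → α) × α)) (hS : MeasurableSet S) :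
    ∫⁻ X : Fin n → α, F (fun i => X (I.orderEmbOfFin hI i)) *
        ({X : Fin n → α | ∀ j ∉ I, ((fun i => X (I.orderEmbOfFin hI i)), X j) ∈ S}.indicator 1 X)
        ∂(Measure.pi fun _ : Fin n => μ) =
      ∫⁻ Y : Fin r → α, F Y * (μ {z | (Y, z) ∈ S}) ^ (n - r) ∂(Measure.pi fun _ : Fin r => μ) := by
  classical
  -- the equivalence of index types
  let e : Fin r ⊕ {j : Fin n // ¬ j ∈ I} ≃ Fin n :=
    (Equiv.sumCongr (I.orderIsoOfFin hI).toEquiv (Equiv.refl _)).trans
      (Equiv.sumCompl (fun j => j ∈ I))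
  have he1 : ∀ i : Fin r, e (Sum.inl i) = I.orderEmbOfFin hI i := by
    intro i
    simp [e]
  have he2 : ∀ j : {j : Fin n // ¬ j ∈ I}, e (Sum.inr j) = j := by
    intro j
    simp [e]
  have hmp1 := measurePreserving_piCongrLeft (α := fun _ : Fin n => α) (fun _ : Fin n => μ) e
  have hmp2 := measurePreserving_sumPiEquivProdPi_symm
    (X := fun _ : Fin r ⊕ {j : Fin n // ¬ j ∈ I} => α) (fun _ => μ)
  have hmp := hmp1.comp hmp2
  rw [← hmp.lintegral_comp_emb
    ((MeasurableEquiv.measurableEmbedding _).comp (MeasurableEquiv.measurableEmbedding _))]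
  have hval1 : ∀ (p : (Fin r → α) × ({j : Fin n // ¬ j ∈ I} → α)) (i : Fin r),
      ((MeasurableEquiv.piCongrLeft (fun _ : Fin n => α) e) ∘
        (MeasurableEquiv.sumPiEquivProdPi
          (fun _ : Fin r ⊕ {j : Fin n // ¬ j ∈ I} => α)).symm) p (I.orderEmbOfFin hI i) = p.1 i := by
    intro p i
    rw [← he1 i]
    rw [Function.comp_apply]
    exact Equiv.piCongrLeft_apply_apply (P := fun _ : Fin n => α) e _ (Sum.inl i)
  have hval2 : ∀ (p : (Fin r → α) × ({j : Fin n // ¬ j ∈ I} → α)) (j : {j : Fin n // ¬ j ∈ I}),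
      ((MeasurableEquiv.piCongrLeft (fun _ : Fin n => α) e) ∘
        (MeasurableEquiv.sumPiEquivProdPi
          (fun _ : Fin r ⊕ {j : Fin n // ¬ j ∈ I} => α)).symm) p (j : Fin n) = p.2 j := by
    intro p j
    conv_lhs => rw [← he2 j]
    rw [Function.comp_apply]
    exact Equiv.piCongrLeft_apply_apply (P := fun _ : Fin n => α) e _ (Sum.inr j)
  have hcongr : ∀ p : (Fin r → α) × ({j : Fin n // ¬ j ∈ I} → α),
      F (fun i => ((MeasurableEquiv.piCongrLeft (fun _ : Fin n => α) e) ∘
        (MeasurableEquiv.sumPiEquivProdPi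
          (fun _ : Fin r ⊕ {j : Fin n // ¬ j ∈ I} => α)).symm) p (I.orderEmbOfFin hI i)) *
        ({X : Fin n → α | ∀ j ∉ I, ((fun i => X (I.orderEmbOfFin hI i)), X j) ∈ S}.indicator 1
          (((MeasurableEquiv.piCongrLeft (fun _ : Fin n => α) e) ∘
        (MeasurableEquiv.sumPiEquivProdPi
          (fun _ : Fin r ⊕ {j : Fin n // ¬ j ∈ I} => α)).symm) p)) =
      F p.1 * ({p : (Fin r → α) × ({j : Fin n // ¬ j ∈ I} → α) |
        ∀ j, (p.1, p.2 j) ∈ S}.indicator 1 p) := by
    intro p
    simp_rw [hval1 p]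
    congr 1
    by_cases h : ∀ j, (p.1, p.2 j) ∈ S
    · rw [Set.indicator_of_mem, Set.indicator_of_mem]
      · rfl
      · exact h
      · intro j hj
        simp_rw [hval1 p]
        have := h ⟨j, hj⟩
        rw [← hval2 p ⟨j, hj⟩] at this
        exact this
    · rw [Set.indicator_of_notMem, Set.indicator_of_notMem]
      · exact h
      · intro h'
        apply h
        intro j
        have := h' (j : Fin n) j.2
        simp_rw [hval1 p, hval2 p j] at this
        exact this
  rw [lintegral_congr hcongr]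
  have hSm : MeasurableSet {p : (Fin r → α) × ({j : Fin n // ¬ j ∈ I} → α) |
        ∀ j, (p.1, p.2 j) ∈ S} := by
    have : {p : (Fin r → α) × ({j : Fin n // ¬ j ∈ I} → α) | ∀ j, (p.1, p.2 j) ∈ S} =
        ⋂ j, (fun p : (Fin r → α) × ({j : Fin n // ¬ j ∈ I} → α) => (p.1, p.2 j)) ⁻¹' S := by
      ext p; simp
    rw [this]
    refine MeasurableSet.iInter fun j => ?_
    exact (measurable_fst.prodMk ((measurable_pi_apply j).comp measurable_snd)) hS
  have hmeas : Measurable (fun p : (Fin r → α) × ({j : Fin n // ¬ j ∈ I} → α) =>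
      F p.1 * ({p : (Fin r → α) × ({j : Fin n // ¬ j ∈ I} → α) |
        ∀ j, (p.1, p.2 j) ∈ S}.indicator
          (1 : ((Fin r → α) × ({j : Fin n // ¬ j ∈ I} → α)) → ℝ≥0∞) p)) :=
    (hF.comp measurable_fst).mul (measurable_one.indicator hSm)
  have hpi1 : (Measure.pi fun i : Fin r =>
      (fun _ : Fin r ⊕ {j : Fin n // ¬ j ∈ I} => μ) (Sum.inl i)) =
      (Measure.pi fun _ : Fin r => μ) := rfl
  rw [lintegral_prod _ hmeas.aemeasurable]
  refine lintegral_congr fun Y => ?_
  have hsec : MeasurableSet {z | (Y, z) ∈ S} := measurable_prodMk_left hS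
  have hinner : ∀ W : {j : Fin n // ¬ j ∈ I} → α,
      F (Y, W).1 * ({p : (Fin r → α) × ({j : Fin n // ¬ j ∈ I} → α) |
        ∀ j, (p.1, p.2 j) ∈ S}.indicator
          (1 : ((Fin r → α) × ({j : Fin n // ¬ j ∈ I} → α)) → ℝ≥0∞) (Y, W)) =
      F Y * ((Set.univ.pi fun _ : {j : Fin n // ¬ j ∈ I} => {z | (Y, z) ∈ S}).indicator
        (1 : ({j : Fin n // ¬ j ∈ I} → α) → ℝ≥0∞) W) := by
    intro W
    congr 1
    by_cases h : ∀ j, (Y, W j) ∈ S
    · rw [Set.indicator_of_mem, Set.indicator_of_mem]
      · rfl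
      · intro j _; exact h j
      · exact h
    · rw [Set.indicator_of_notMem, Set.indicator_of_notMem]
      · intro h'; exact h fun j => h' j (Set.mem_univ _)
      · exact h
  rw [lintegral_congr hinner]
  rw [lintegral_const_mul _ (measurable_one.indicator (MeasurableSet.univ_pi fun _ => hsec))]
  congr 1
  rw [lintegral_indicator_one (MeasurableSet.univ_pi fun _ => hsec), Measure.pi_pi]
  rw [Finset.prod_const, Finset.card_univ]
  congr 1
  rw [Fintype.card_subtype_compl, Fintype.card_fin]
  simp [hI]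

theorem blaschke_petkantschin {X : Type*} [MeasurableSpace X] (ν : Measure X) [SigmaFinite ν]
    {r : ℕ} (Φ : X → Fin r → ℝ) (hΦ : Measurable Φ) (f : (Fin r → X × ℝ) → ℝ≥0∞)
    (hf : Measurable f) :
    ∫⁻ Y : Fin r → X × ℝ, {Y : Fin r → X × ℝ | (Matrix.of fun i => Φ (Y i).1).det ≠ 0}.indicator f Y
        ∂(Measure.pi fun _ : Fin r => ν.prod volume) =
      ∫⁻ A : Fin r → ℝ, ∫⁻ x : Fin r → X, ENNReal.ofReal |(Matrix.of fun i => Φ (x i)).det| *
        f (fun i => (x i, A ⬝ᵥ Φ (x i))) ∂(Measure.pi fun _ : Fin r => ν) := by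
  classical
  -- measurability facts
  have hdet : Measurable (fun x : Fin r → X =>
      (Matrix.of fun i => Φ (x i) : Matrix (Fin r) (Fin r) ℝ).det) := by
    simp_rw [Matrix.det_apply']
    refine Finset.measurable_sum _ fun σ _ => ?_
    refine measurable_const.mul ?_
    refine Finset.measurable_prod _ fun i _ => ?_
    exact (measurable_pi_apply i).comp (hΦ.comp (measurable_pi_apply (σ i)))
  have hcombine : Measurable (fun p : (Fin r → X) × (Fin r → ℝ) =>
      (fun i => (p.1 i, p.2 i) : Fin r → X × ℝ)) := by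
    refine measurable_pi_lambda _ fun i => ?_
    exact ((measurable_pi_apply i).comp measurable_fst).prodMk
      ((measurable_pi_apply i).comp measurable_snd)
  have hmp := (measurePreserving_arrowProdEquivProdArrow X ℝ (Fin r) (fun _ => ν)
    (fun _ => volume)).symm
  rw [← hmp.lintegral_comp_emb (MeasurableEquiv.measurableEmbedding _)]
  have happ : ∀ p : (Fin r → X) × (Fin r → ℝ),
      (MeasurableEquiv.arrowProdEquivProdArrow X ℝ (Fin r)).symm p = fun i => (p.1 i, p.2 i) := by
    intro p; rfl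
  simp_rw [happ]
  have hset : MeasurableSet {Y : Fin r → X × ℝ | (Matrix.of fun i => Φ (Y i).1).det ≠ 0} := by
    have h1 : Measurable (fun Y : Fin r → X × ℝ => (fun i => (Y i).1 : Fin r → X)) := by
      refine measurable_pi_lambda _ fun i => ?_
      exact measurable_fst.comp (measurable_pi_apply i)
    exact (hdet.comp h1) (measurableSet_singleton (0 : ℝ)).compl
  have hmeas : Measurable (fun p : (Fin r → X) × (Fin r → ℝ) =>
      {Y : Fin r → X × ℝ | (Matrix.of fun i => Φ (Y i).1).det ≠ 0}.indicator f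
        (fun i => (p.1 i, p.2 i))) := (hf.indicator hset).comp hcombine
  rw [lintegral_prod _ hmeas.aemeasurable]
  have hg : Measurable (fun p : (Fin r → ℝ) × (Fin r → X) =>
      ENNReal.ofReal |(Matrix.of fun i => Φ (p.2 i) : Matrix (Fin r) (Fin r) ℝ).det| *
        f (fun i => (p.2 i, p.1 ⬝ᵥ Φ (p.2 i)))) := by
    refine Measurable.mul ?_ ?_
    · refine ENNReal.measurable_ofReal.comp ?_
      have : Measurable (fun p : (Fin r → ℝ) × (Fin r → X) =>
        (Matrix.of fun i => Φ (p.2 i) : Matrix (Fin r) (Fin r) ℝ).det) :=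
        hdet.comp measurable_snd
      exact continuous_abs.measurable.comp this
    · refine hf.comp (measurable_pi_lambda _ fun i => ?_)
      refine ((measurable_pi_apply i).comp measurable_snd).prodMk ?_
      have : (fun p : (Fin r → ℝ) × (Fin r → X) => p.1 ⬝ᵥ Φ (p.2 i)) =
          fun p => ∑ j, p.1 j * Φ (p.2 i) j := rfl
      rw [this]
      refine Finset.measurable_sum _ fun j _ => ?_
      refine ((measurable_pi_apply j).comp measurable_fst).mul ?_
      exact (measurable_pi_apply j).comp (hΦ.comp ((measurable_pi_apply i).comp measurable_snd))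
  have hswap := lintegral_lintegral_swap (μ := (volume : Measure (Fin r → ℝ)))
    (ν := (Measure.pi fun _ : Fin r => ν))
    (f := fun A x => ENNReal.ofReal |(Matrix.of fun i => Φ (x i) : Matrix (Fin r) (Fin r) ℝ).det| *
        f (fun i => (x i, A ⬝ᵥ Φ (x i)))) hg.aemeasurable
  rw [hswap]
  refine lintegral_congr fun x => ?_
  set M : Matrix (Fin r) (Fin r) ℝ := Matrix.of fun i => Φ (x i) with hM
  by_cases h0 : M.det = 0
  · have h1 : ∀ t : Fin r → ℝ, {Y : Fin r → X × ℝ |
        (Matrix.of fun i => Φ (Y i).1).det ≠ 0}.indicator f (fun i => ((x, t).1 i, (x, t).2 i)) = 0 := by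
      intro t
      rw [Set.indicator_of_notMem]
      intro h
      exact h h0
    rw [lintegral_congr h1]
    simp [h0]
  · have h1 : ∀ t : Fin r → ℝ, {Y : Fin r → X × ℝ |
        (Matrix.of fun i => Φ (Y i).1).det ≠ 0}.indicator f (fun i => ((x, t).1 i, (x, t).2 i)) =
        f (fun i => (x i, t i)) := by
      intro t
      rw [Set.indicator_of_mem]
      exact h0
    rw [lintegral_congr h1]
    have hfx : Measurable (fun t : Fin r → ℝ => f (fun i => (x i, t i))) := by
      refine hf.comp (measurable_pi_lambda _ fun i => ?_)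
      exact measurable_const.prodMk (measurable_pi_apply i)
    have hmap := Real.map_matrix_volume_pi_eq_smul_volume_pi h0
    have hmeasM : Measurable (Matrix.toLin' M) :=
      (LinearMap.continuous_on_pi (Matrix.toLin' M)).measurable
    have h2 : ∫⁻ A : Fin r → ℝ, f (fun i => (x i, A ⬝ᵥ Φ (x i))) =
        ∫⁻ t, f (fun i => (x i, t i)) ∂(Measure.map (Matrix.toLin' M) volume) := by
      rw [lintegral_map hfx hmeasM]
      refine lintegral_congr fun A => ?_
      congr 1
      funext i
      congr 1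
      rw [Matrix.toLin'_apply]
      show A ⬝ᵥ Φ (x i) = M i ⬝ᵥ A
      rw [dotProduct_comm]
      rfl
    rw [lintegral_const_mul]
    · rw [h2, hmap, lintegral_smul_measure, smul_eq_mul, ← mul_assoc, ← ENNReal.ofReal_mul (abs_nonneg _),
        ← abs_mul, mul_inv_cancel₀ h0, abs_one, ENNReal.ofReal_one, one_mul]
      rfl
    · refine hf.comp (measurable_pi_lambda _ fun i => ?_)
      refine measurable_const.prodMk ?_
      have : (fun A : Fin r → ℝ => A ⬝ᵥ Φ (x i)) = fun A => ∑ j, A j * Φ (x i) j := rfl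
      rw [this]
      refine Finset.measurable_sum _ fun j _ => ?_
      exact (measurable_pi_apply j).mul measurable_const

end Pool.H40.EV
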