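import Pool.Agent.Helper40.EV.BProbB
import Pool.Agent.Helper40.EV.Tools1
import Pool.Agent.Helper40.EV.Tools2

/-! EV-14, part E: the integral computation (Blaschke–Petkantschin + Andreief). -/

set_option autoImplicit false

namespace Pool.H40.EV

open MeasureTheory Set Matrix
open scoped ENNReal

namespace BP

variable {m : ℕ}

/-- the weight `|det M| / (m+1)!` -/
noncomputable def W1 (Y : Fin (m + 1) → Pt m) : ℝ≥0∞ :=
  ENNReal.ofReal (|(MY Y).det| / ((m + 1).factorial : ℝ))

theorem measurable_W1 : Measurable (W1 : (Fin (m + 1) → Pt m) → ℝ≥0∞) := by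
  unfold W1
  exact ((continuous_det_MY.measurable.norm).div_const _).ennreal_ofReal

/-- the rest of the weight -/
noncomputable def W2 (K : Set (Pt m)) (σ : ℝ) (N : ℕ) (A : Fin (m + 1) → ℝ) : ℝ≥0∞ :=
  ENNReal.ofReal (mv K σ A) * ENNReal.ofReal (vol K - sv K σ A) ^ N

theorem measurable_W2 (K : Set (Pt m)) (hK : MeasurableSet K) (σ : ℝ) (N : ℕ) :
    Measurable (W2 K σ N) := by
  unfold W2
  exact (measurable_mv K hK σ).ennreal_ofReal.mul
    ((measurable_const.sub (measurable_sv K hK σ)).ennreal_ofReal.pow_const N)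

theorem isCompact_sect (K : Set (Pt m)) (hK : IsCompact K) (A : Fin (m + 1) → ℝ) :
    IsCompact (sect K A) := by
  have h1 : Continuous fun x : Fin m → ℝ => ((x, aff A x) : Pt m) :=
    continuous_id.prodMk (continuous_aff.comp (continuous_const.prodMk continuous_id))
  have h2 : IsClosed (sect K A) := hK.isClosed.preimage h1
  refine (hK.image continuous_fst).of_isClosed_subset h2 ?_
  intro x hx
  exact ⟨(x, aff A x), hx, rfl⟩

theorem core (K : Set (Pt m)) (hK : IsCompact K) (σ : ℝ) (N : ℕ) :
    ∫⁻ Y : Fin (m + 1) → Pt m, {Y : Fin (m + 1) → Pt m | (MY Y).det ≠ 0}.indicator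
        (fun Y => W1 Y * W2 K σ N (AY Y)) Y ∂(Measure.pi fun _ => volume.restrict K) =
      RR K σ N := by
  have hKm := hK.measurableSet
  have hpim : MeasurableSet (univ.pi fun _ : Fin (m + 1) => K) :=
    MeasurableSet.univ_pi fun _ => hKm
  rw [← Measure.restrict_pi_pi, ← lintegral_indicator hpim]
  set f : (Fin (m + 1) → Pt m) → ℝ≥0∞ :=
    (univ.pi fun _ : Fin (m + 1) => K).indicator (fun Y => W1 Y * W2 K σ N (AY Y)) with hf
  have hfm : Measurable f :=
    (measurable_W1.mul ((measurable_W2 K hKm σ N).comp measurable_AY)).indicator hpim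
  have h1 : ((univ.pi fun _ : Fin (m + 1) => K).indicator
      ({Y : Fin (m + 1) → Pt m | (MY Y).det ≠ 0}.indicator
        (fun Y => W1 Y * W2 K σ N (AY Y)))) =
      {Y : Fin (m + 1) → Pt m | (Matrix.of fun i => ph (Y i).1).det ≠ 0}.indicator f := by
    rw [hf, indicator_indicator, indicator_indicator, inter_comm]
    rfl
  have h2 := blaschke_petkantschin (volume : Measure (Fin m → ℝ)) ph
    continuous_ph.measurable f hfm
  rw [h1]
  refine h2.trans ?_
  unfold RR
  refine lintegral_congr fun A => ?_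
  -- inner integral
  have hsm : MeasurableSet (sect K A) := (isCompact_sect K hK A).measurableSet
  have hsp : MeasurableSet (univ.pi fun _ : Fin (m + 1) => sect K A) :=
    MeasurableSet.univ_pi fun _ => hsm
  have h3 : ∀ x : Fin (m + 1) → (Fin m → ℝ),
      ENNReal.ofReal |(Matrix.of fun i => ph (x i)).det| * f (fun i => (x i, A ⬝ᵥ ph (x i))) =
      (univ.pi fun _ : Fin (m + 1) => sect K A).indicator (fun x =>
        (ENNReal.ofReal (1 / ((m + 1).factorial : ℝ)) * W2 K σ N A) *
          ENNReal.ofReal ((Matrix.of fun i => ph (x i)).det ^ 2)) x := by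
    intro x
    by_cases hx : x ∈ (univ.pi fun _ : Fin (m + 1) => sect K A)
    · have hx' : (fun i => (x i, A ⬝ᵥ ph (x i))) ∈ (univ.pi fun _ : Fin (m + 1) => K) :=
        fun i hi => hx i hi
      rw [indicator_of_mem hx, hf, indicator_of_mem hx']
      by_cases hd : (Matrix.of fun i => ph (x i)).det = 0
      · rw [hd]; simp
      · have hA : AY (fun i => ((x i, A ⬝ᵥ ph (x i)) : Pt m)) = A :=
          AY_unique (fun i => ((x i, A ⬝ᵥ ph (x i)) : Pt m)) hd A fun i => rfl
        rw [hA]
        have hW : W1 (fun i => ((x i, A ⬝ᵥ ph (x i)) : Pt m)) =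
          ENNReal.ofReal (|(Matrix.of fun i => ph (x i)).det| / ((m + 1).factorial : ℝ)) := rfl
        rw [hW, ← mul_assoc, ← ENNReal.ofReal_mul (abs_nonneg _), mul_comm _ (W2 K σ N A),
          mul_comm _ (W2 K σ N A), mul_assoc, ← ENNReal.ofReal_mul (by positivity)]
        congr 2
        rw [← sq_abs]
        ring
    · have hx' : (fun i => (x i, A ⬝ᵥ ph (x i))) ∉ (univ.pi fun _ : Fin (m + 1) => K) :=
        fun h => hx fun i hi => h i hi
      rw [indicator_of_notMem hx, hf, indicator_of_notMem hx', mul_zero]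
  rw [lintegral_congr h3, lintegral_indicator hsp, Measure.restrict_pi_pi,
    lintegral_const_mul' _ _ ?_, andreief (volume.restrict (sect K A)) ph
      continuous_ph.measurable ?_]
  · have h4 : (Matrix.of fun i j => ∫ x in sect K A, ph x i * ph x j) = Gm K A := rfl
    rw [h4, W2, ← ENNReal.ofReal_pow (sub_nonneg.mpr (sv_le K hK σ A)),
      ← ENNReal.ofReal_mul (mv_nonneg K hKm σ A), ← ENNReal.ofReal_mul (by positivity),
      ← ENNReal.ofReal_mul]
    · congr 1
      have : ((m + 1).factorial : ℝ) ≠ 0 := by positivity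
      field_simp
    · have h5 := mv_nonneg K hKm σ A
      have h6 := sub_nonneg.mpr (sv_le K hK σ A)
      positivity
  · intro i j
    have h5 : Continuous fun x : Fin m → ℝ => ph x i * ph x j :=
      ((continuous_apply i).comp continuous_ph).mul ((continuous_apply j).comp continuous_ph)
    exact h5.continuousOn.integrableOn_compact (isCompact_sect K hK A)
  · unfold W2
    exact ENNReal.mul_ne_top ENNReal.ofReal_ne_top
      (ENNReal.mul_ne_top ENNReal.ofReal_ne_top (ENNReal.pow_ne_top ENNReal.ofReal_ne_top))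

end BP
end Pool.H40.EV
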