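import Pool.Agent.Helper40.EV.BProbD
import Pool.Agent.Helper40.EV.BProbE

/-! EV-14: `B_prob`. -/

set_option autoImplicit false

namespace Pool.H40.EV

open MeasureTheory Set Matrix
open scoped ENNReal

namespace BP

variable {m : ℕ}

/-- complement of the cap cut off by the hyperplane through `Y` -/
def SS (K : Set (Pt m)) (σ : ℝ) : Set ((Fin (m + 1) → Pt m) × Pt m) :=
  {p | p.2 ∉ cap K σ (AY p.1)}

theorem measurableSet_capY (K : Set (Pt m)) (hK : MeasurableSet K) (σ : ℝ) :
    MeasurableSet {p : (Fin (m + 1) → Pt m) × Pt m | p.2 ∈ cap K σ (AY p.1)} := by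
  have h := measurableSet_capset K hK σ
  exact ((measurable_AY.comp measurable_fst).prodMk measurable_snd) h

theorem measurableSet_SS (K : Set (Pt m)) (hK : MeasurableSet K) (σ : ℝ) :
    MeasurableSet (SS K σ) := (measurableSet_capY K hK σ).compl

/-- vertical distance on the cap -/
noncomputable def c2 (K : Set (Pt m)) (σ : ℝ) (p : (Fin (m + 1) → Pt m) × Pt m) : ℝ≥0∞ :=
  {p : (Fin (m + 1) → Pt m) × Pt m | p.2 ∈ cap K σ (AY p.1)}.indicator
    (fun p => ENNReal.ofReal (σ * (p.2.2 - aff (AY p.1) p.2.1))) p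

theorem measurable_c2 (K : Set (Pt m)) (hK : MeasurableSet K) (σ : ℝ) :
    Measurable (c2 K σ) := by
  refine Measurable.indicator ?_ (measurableSet_capY K hK σ)
  refine (measurable_const.mul ?_).ennreal_ofReal
  refine (measurable_snd.comp measurable_snd).sub ?_
  exact continuous_aff.measurable.comp
    ((measurable_AY.comp measurable_fst).prodMk (measurable_fst.comp measurable_snd))

theorem measurable_XJ {n : ℕ} (J : {J : Finset (Fin n) // J.card = m + 1}) :
    Measurable (XJ J : (Fin n → Pt m) → _) :=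
  measurable_pi_lambda _ fun _ => measurable_pi_apply _

/-- indicator of `det ≠ 0` times the weight `W1` -/
noncomputable def V1 (Y : Fin (m + 1) → Pt m) : ℝ≥0∞ :=
  {Y : Fin (m + 1) → Pt m | (MY Y).det ≠ 0}.indicator W1 Y

theorem measurableSet_det : MeasurableSet {Y : Fin (m + 1) → Pt m | (MY Y).det ≠ 0} :=
  (measurableSet_eq_fun continuous_det_MY.measurable measurable_const).compl

theorem measurable_V1 : Measurable (V1 : (Fin (m + 1) → Pt m) → ℝ≥0∞) :=
  measurable_W1.indicator measurableSet_det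

/-- the indicator that no other point lies in the cap -/
noncomputable def IJ {n : ℕ} (K : Set (Pt m)) (σ : ℝ) (J : {J : Finset (Fin n) // J.card = m + 1})
    (X : Fin n → Pt m) : ℝ≥0∞ :=
  {X : Fin n → Pt m | ∀ j ∉ J.1, (XJ J X, X j) ∈ SS K σ}.indicator 1 X

theorem measurable_IJ {n : ℕ} (K : Set (Pt m)) (hK : MeasurableSet K) (σ : ℝ)
    (J : {J : Finset (Fin n) // J.card = m + 1}) : Measurable (IJ K σ J) := by
  refine measurable_one.indicator ?_
  have : {X : Fin n → Pt m | ∀ j ∉ J.1, (XJ J X, X j) ∈ SS K σ} =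
      ⋂ j, ⋂ (_ : j ∉ J.1), (fun X : Fin n → Pt m => (XJ J X, X j)) ⁻¹' SS K σ := by
    ext X; simp
  rw [this]
  refine MeasurableSet.iInter fun j => MeasurableSet.iInter fun _ => ?_
  exact ((measurable_XJ J).prodMk (measurable_pi_apply j)) (measurableSet_SS K hK σ)

/-- the bound for one `J` and one side -/
noncomputable def GJ {n : ℕ} (K : Set (Pt m)) (σ : ℝ) (J : {J : Finset (Fin n) // J.card = m + 1})
    (p : Pt m × (Fin n → Pt m)) : ℝ≥0∞ :=
  V1 (XJ J p.2) * IJ K σ J p.2 * c2 K σ (XJ J p.2, p.1)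

theorem measurable_GJ {n : ℕ} (K : Set (Pt m)) (hK : MeasurableSet K) (σ : ℝ)
    (J : {J : Finset (Fin n) // J.card = m + 1}) : Measurable (GJ K σ J) := by
  unfold GJ
  refine ((measurable_V1.comp ((measurable_XJ J).comp measurable_snd)).mul
    ((measurable_IJ K hK σ J).comp measurable_snd)).mul ?_
  exact (measurable_c2 K hK σ).comp (((measurable_XJ J).comp measurable_snd).prodMk measurable_fst)

theorem lintegral_GJ {n : ℕ} (K : Set (Pt m)) (hK : IsCompact K) (σ : ℝ)
    (J : {J : Finset (Fin n) // J.card = m + 1}) :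
    ∫⁻ p, GJ K σ J p ∂((volume.restrict K).prod (Measure.pi fun _ : Fin n => volume.restrict K)) =
      RR K σ (n - (m + 1)) := by
  have hKm := hK.measurableSet
  rw [lintegral_prod_symm _ (measurable_GJ K hKm σ J).aemeasurable]
  have h1 : ∀ X : Fin n → Pt m, ∫⁻ y, GJ K σ J (y, X) ∂(volume.restrict K) =
      V1 (XJ J X) * ENNReal.ofReal (mv K σ (AY (XJ J X))) * IJ K σ J X := by
    intro X
    simp only [GJ]
    have hm : Measurable fun y => c2 K σ (XJ J X, y) :=
      (measurable_c2 K hKm σ).comp measurable_prodMk_left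
    rw [lintegral_const_mul _ hm]
    have h2 := lintegral_cap K hK σ (AY (XJ J X))
    have h3 : ∫⁻ y, c2 K σ (XJ J X, y) ∂(volume.restrict K) =
        ENNReal.ofReal (mv K σ (AY (XJ J X))) := by
      rw [← h2]
      refine lintegral_congr fun y => ?_
      rfl
    rw [h3]
    ring
  rw [lintegral_congr h1]
  have h4 := split_pi (volume.restrict K) n (m + 1) J.1 J.2
    (fun Y => V1 Y * ENNReal.ofReal (mv K σ (AY Y)))
    (measurable_V1.mul (((measurable_mv K hKm σ).comp measurable_AY).ennreal_ofReal))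
    (SS K σ) (measurableSet_SS K hKm σ)
  refine Eq.trans ?_ (h4.trans ?_)
  · rfl
  · rw [← core K hK σ (n - (m + 1))]
    refine lintegral_congr fun Y => ?_
    have h5 : (volume.restrict K) {z | (Y, z) ∈ SS K σ} =
        ENNReal.ofReal (vol K - sv K σ (AY Y)) := measure_compl_cap K hK σ (AY Y)
    rw [h5, V1]
    by_cases hd : Y ∈ {Y : Fin (m + 1) → Pt m | (MY Y).det ≠ 0}
    · rw [indicator_of_mem hd, indicator_of_mem hd, W2]
      ring
    · rw [indicator_of_notMem hd, indicator_of_notMem hd]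
      simp

/-- the pointwise bound after integration over the test point -/
theorem bound_ae (K : Set (Pt m)) (hK : IsCompact K) (n : ℕ) :
    ∀ᵐ Z : Fin (n + 1) → Pt m ∂(Measure.pi fun _ : Fin (n + 1) => volume.restrict K),
      (volume.restrict K) {x | x ∈ convexHull ℝ (range Z)} ≤
        (volume.restrict K) {x | x ∈ convexHull ℝ (range fun j : Fin n => Z j.succ)} +
          ∑ J : {J : Finset (Fin n) // J.card = m + 1},
            (GJ K 1 J (Z 0, fun j => Z j.succ) + GJ K (-1) J (Z 0, fun j => Z j.succ)) := by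
  classical
  have hKm := hK.measurableSet
  set μ : Measure (Pt m) := volume.restrict K with hμ
  have : (volume : Measure (Pt m)).IsAddHaarMeasure :=
    inferInstanceAs ((volume : Measure (Fin m → ℝ)).prod (volume : Measure ℝ)).IsAddHaarMeasure
  have hnull : ∀ s : AffineSubspace ℝ (Pt m), s ≠ ⊤ → μ s = 0 := fun s hs =>
    le_antisymm ((Measure.restrict_apply_le _ _).trans
      (Measure.addHaar_affineSubspace volume s hs).le) zero_le
  have hlp := Measure.ae_ae_of_ae_prod (lp_ae μ hnull (n + 1))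
  -- the determinants of the last `n` points
  have hdet : ∀ᵐ Z : Fin (n + 1) → Pt m ∂(Measure.pi fun _ : Fin (n + 1) => μ),
      ∀ J : {J : Finset (Fin n) // J.card = m + 1},
        (MY (XJ J fun j => Z j.succ)).det ≠ 0 := by
    have hmp := (measurePreserving_piFinSuccAbove
      (fun _ : Fin (n + 1) => μ) 0).quasiMeasurePreserving
    have h2 : Measure.QuasiMeasurePreserving
        (Prod.snd : Pt m × (Fin n → Pt m) → _) (μ.prod (Measure.pi fun _ => μ))
        (Measure.pi fun _ => μ) := Measure.quasiMeasurePreserving_snd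
    exact (h2.comp hmp).ae (ae_det K n)
  have hmem : ∀ᵐ Z : Fin (n + 1) → Pt m ∂(Measure.pi fun _ : Fin (n + 1) => μ), Z 0 ∈ K := by
    have h1 := Measure.quasiMeasurePreserving_eval (fun _ : Fin (n + 1) => μ) 0
    exact h1.ae (ae_restrict_mem hKm)
  filter_upwards [hlp, hdet, hmem] with Z hZ hd hZ0
  set X : Fin n → Pt m := fun j => Z j.succ with hX
  set y := Z 0 with hy
  have hZc : (Fin.cons y X : Fin (n + 1) → Pt m) = Z := Fin.cons_self_tail Z
  have hfr : Module.finrank ℝ (Pt m) = m + 1 := by simp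
  -- the exceptional sets
  let E : ℝ → {J : Finset (Fin n) // J.card = m + 1} → Set (Pt m) := fun σ J =>
    {x | x ∈ convexHull ℝ (insert y (range (XJ J X))) ∧ y ∈ cap K σ (AY (XJ J X)) ∧
      ∀ j, X j ∉ cap K σ (AY (XJ J X))}
  have hE : ∀ σ, (σ = 1 ∨ σ = -1) → ∀ J, μ (E σ J) ≤ GJ K σ J (y, X) := by
    intro σ hσ J
    by_cases hc : y ∈ cap K σ (AY (XJ J X)) ∧ ∀ j, X j ∉ cap K σ (AY (XJ J X))
    · have h1 : μ (E σ J) ≤ volume (convexHull ℝ (insert y (range (XJ J X)))) :=
        (Measure.restrict_apply_le _ _).trans (measure_mono fun x hx => hx.1)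
      refine h1.trans ((volume_simplex_le (XJ J X) y (hd J)).trans (le_of_eq ?_))
      have h2 : V1 (XJ J X) = ENNReal.ofReal (|(MY (XJ J X)).det| / ((m + 1).factorial : ℝ)) := by
        rw [V1, indicator_of_mem (show XJ J X ∈ {Y : Fin (m + 1) → Pt m | (MY Y).det ≠ 0} from
          hd J)]
        rfl
      have h3 : IJ K σ J X = 1 := by
        rw [IJ, indicator_of_mem]
        · rfl
        · exact fun j _ => hc.2 j
      have h4 : c2 K σ (XJ J X, y) = ENNReal.ofReal |y.2 - aff (AY (XJ J X)) y.1| := by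
        have hmem' : (XJ J X, y) ∈ {p : (Fin (m + 1) → Pt m) × Pt m | p.2 ∈ cap K σ (AY p.1)} :=
          hc.1
        rw [c2, indicator_of_mem hmem']
        congr 1
        have h5 : 0 < σ * (y.2 - aff (AY (XJ J X)) y.1) := hc.1.2
        have h6 : |σ * (y.2 - aff (AY (XJ J X)) y.1)| = |y.2 - aff (AY (XJ J X)) y.1| := by
          rw [abs_mul]
          rcases hσ with rfl | rfl <;> simp
        rw [← h6, abs_of_pos h5]
      simp only [GJ]
      rw [h2, h3, h4, mul_one]
    · have : E σ J = ∅ := by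
        ext x
        simp only [E, mem_ofPred_eq, mem_empty_iff_false, iff_false]
        exact fun h => hc h.2
      rw [this, measure_empty]
      exact zero_le
  have hsub : {x | x ∈ convexHull ℝ (range Z)} ≤ᵐ[μ]
      ({x | x ∈ convexHull ℝ (range X)} ∪ ⋃ J, (E 1 J ∪ E (-1) J) : Set (Pt m)) := by
    filter_upwards [hZ] with x hx hxZ
    by_cases hxX : x ∈ convexHull ℝ (range X)
    · exact Or.inl hxX
    · right
      obtain ⟨I, hI, hxI, -, l, hl, hl'⟩ := hx hxZ (Pi.single 0 1)
      rw [hfr] at hI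
      obtain ⟨J, σ, hσ, h1, h2, h3⟩ := pointwise K n X y x hZ0 hd hxX I hI
        (by rw [hZc]; exact hxI) l (by rw [hZc]; exact hl) (by rw [hZc]; exact hl')
      refine mem_iUnion.mpr ⟨J, ?_⟩
      rcases hσ with rfl | rfl
      · exact Or.inl ⟨h1, h2, h3⟩
      · exact Or.inr ⟨h1, h2, h3⟩
  calc μ {x | x ∈ convexHull ℝ (range Z)}
      ≤ μ ({x | x ∈ convexHull ℝ (range X)} ∪ ⋃ J, (E 1 J ∪ E (-1) J)) := measure_mono_ae hsub
    _ ≤ μ {x | x ∈ convexHull ℝ (range X)} + μ (⋃ J, (E 1 J ∪ E (-1) J)) := measure_union_le _ _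
    _ ≤ μ {x | x ∈ convexHull ℝ (range X)} + ∑ J, μ (E 1 J ∪ E (-1) J) := by
        gcongr
        exact measure_iUnion_fintype_le _ _
    _ ≤ μ {x | x ∈ convexHull ℝ (range X)} +
          ∑ J : {J : Finset (Fin n) // J.card = m + 1},
            (GJ K 1 J (y, X) + GJ K (-1) J (y, X)) := by
        gcongr with J _
        exact (measure_union_le _ _).trans
          (add_le_add (hE 1 (Or.inl rfl) J) (hE (-1) (Or.inr rfl) J))

end BP

theorem B_prob (m : ℕ) (K : Set (Pt m)) (hK : Convex ℝ K) (hKc : IsCompact K) (n : ℕ)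
    (hn : m + 1 ≤ n) :
    hullMass (volume.restrict K) (n + 1) ≤ volume K * hullMass (volume.restrict K) n +
      (n.choose (m + 1) : ℕ) * (RR K 1 (n - (m + 1)) + RR K (-1) (n - (m + 1))) := by
  classical
  set μ : Measure (Pt m) := volume.restrict K with hμ
  have h1 : hullMass μ (n + 1) ≤ ∫⁻ Z : Fin (n + 1) → Pt m,
      (μ {x | x ∈ convexHull ℝ (range fun j : Fin n => Z j.succ)} +
          ∑ J : {J : Finset (Fin n) // J.card = m + 1},
            (BP.GJ K 1 J (Z 0, fun j => Z j.succ) + BP.GJ K (-1) J (Z 0, fun j => Z j.succ)))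
      ∂(Measure.pi fun _ => μ) := lintegral_mono_ae (BP.bound_ae K hKc n)
  refine h1.trans ?_
  have hmp := measurePreserving_piFinSuccAbove (fun _ : Fin (n + 1) => μ) 0
  have h2 := hmp.lintegral_comp_emb (MeasurableEquiv.measurableEmbedding _)
    (fun p : Pt m × (Fin n → Pt m) => (μ {x | x ∈ convexHull ℝ (range p.2)} +
          ∑ J : {J : Finset (Fin n) // J.card = m + 1}, (BP.GJ K 1 J p + BP.GJ K (-1) J p)))
  refine (le_of_eq h2).trans ?_
  have hGm : ∀ σ J, Measurable (BP.GJ (n := n) K σ J) := fun σ J =>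
    BP.measurable_GJ K hKc.measurableSet σ J
  have hsm : Measurable fun p : Pt m × (Fin n → Pt m) =>
      ∑ J : {J : Finset (Fin n) // J.card = m + 1}, (BP.GJ K 1 J p + BP.GJ K (-1) J p) :=
    Finset.measurable_sum _ fun J _ => (hGm 1 J).add (hGm (-1) J)
  rw [lintegral_add_right _ hsm]
  refine add_le_add ?_ ?_
  · refine (lintegral_prod_le _).trans ?_
    simp only
    rw [lintegral_const, mul_comm, hμ, Measure.restrict_apply_univ]
    rfl
  · rw [lintegral_finsetSum (f := fun J p => BP.GJ K 1 J p + BP.GJ K (-1) J p) Finset.univ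
      fun J _ => (hGm 1 J).add (hGm (-1) J)]
    have h3 : ∀ J : {J : Finset (Fin n) // J.card = m + 1},
        ∫⁻ p, (BP.GJ K 1 J p + BP.GJ K (-1) J p) ∂(μ.prod (Measure.pi fun _ : Fin n => μ)) =
        RR K 1 (n - (m + 1)) + RR K (-1) (n - (m + 1)) := by
      intro J
      rw [lintegral_add_left (hGm 1 J), BP.lintegral_GJ K hKc 1 J, BP.lintegral_GJ K hKc (-1) J]
    refine le_of_eq ?_
    refine (Finset.sum_congr rfl fun J _ => h3 J).trans ?_
    rw [Finset.sum_const, Finset.card_univ, Fintype.card_finset_len, Fintype.card_fin,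
      nsmul_eq_mul]

end Pool.H40.EV
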