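import Mathlib

/-! Definitions for the monotonicity of the expected number of vertices (MP_2bdbd0_pr). -/

set_option autoImplicit false

namespace Pool.H40.EV

open MeasureTheory Set Matrix
open scoped ENNReal

variable {m : ℕ}

/-- The lifted vector `(1, x)`. -/
def ph (x : Fin m → ℝ) : Fin (m + 1) → ℝ := vecCons 1 x

/-- The affine function `x ↦ A · (1, x)`. -/
def aff (A : Fin (m + 1) → ℝ) (x : Fin m → ℝ) : ℝ := A ⬝ᵥ ph x

/-- Points `(x', t)` of `ℝ^m × ℝ` (so the dimension is `d = m + 1`). -/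
abbrev Pt (m : ℕ) := (Fin m → ℝ) × ℝ

/-- The space `ℝ^(m+1) × ℝ` of vectors `((s, w'), w_d)`. -/
abbrev FF (m : ℕ) := (Fin (m + 1) → ℝ) × ℝ

/-- Volume of `K` as a real number. -/
noncomputable def vol {E : Type*} [MeasureSpace E] (K : Set E) : ℝ := (volume K).toReal

/-- The cap of `K` above (`σ = 1`) or below (`σ = -1`) the hyperplane `t = A · (1, x')`. -/
def cap (K : Set (Pt m)) (σ : ℝ) (A : Fin (m + 1) → ℝ) : Set (Pt m) :=
  {x | x ∈ K ∧ 0 < σ * (x.2 - aff A x.1)}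

/-- Volume of the cap. -/
noncomputable def sv (K : Set (Pt m)) (σ : ℝ) (A : Fin (m + 1) → ℝ) : ℝ := vol (cap K σ A)

/-- `∫_cap (1, x', t)`; the `0`-th coordinate of the first component is the volume of the cap. -/
noncomputable def wv (K : Set (Pt m)) (σ : ℝ) (A : Fin (m + 1) → ℝ) : FF m :=
  (fun j => ∫ x in cap K σ A, ph x.1 j, ∫ x in cap K σ A, x.2)

/-- First moment of the cap with respect to the (vertical) distance to the hyperplane. -/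
noncomputable def mv (K : Set (Pt m)) (σ : ℝ) (A : Fin (m + 1) → ℝ) : ℝ :=
  ∫ x in cap K σ A, σ * (x.2 - aff A x.1)

/-- Projection to `ℝ^m` of the section of `K` by the hyperplane `t = A · (1, x')`. -/
def sect (K : Set (Pt m)) (A : Fin (m + 1) → ℝ) : Set (Fin m → ℝ) :=
  {x | (x, aff A x) ∈ K}

/-- The matrix `∫_{sect} (1,x)(1,x)^T`. -/
noncomputable def Gm (K : Set (Pt m)) (A : Fin (m + 1) → ℝ) :
    Matrix (Fin (m + 1)) (Fin (m + 1)) ℝ :=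
  Matrix.of fun i j => ∫ x in sect K A, ph x i * ph x j

/-- Hyperplanes meeting the boundary of `K` in a null set. -/
def Good (K : Set (Pt m)) : Set (Fin (m + 1) → ℝ) :=
  {A | volume {x : Fin m → ℝ | (x, aff A x) ∈ frontier K} = 0}

/-- The lift zonoid of `K`. -/
def Yset (K : Set (Pt m)) : Set (FF m) :=
  {z | ∃ g : Pt m → ℝ, Measurable g ∧ (∀ x, 0 ≤ g x ∧ g x ≤ 1) ∧
    z = (fun j => ∫ x in K, g x * ph x.1 j, ∫ x in K, g x * x.2)}

/-- The cone `{(s, w) : 0 < s ≤ |K|, w ∈ s K}`. -/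
def coneK (K : Set (Pt m)) : Set (FF m) :=
  {z | 0 < z.1 0 ∧ z.1 0 ≤ vol K ∧ ((z.1 0)⁻¹ • (fun j : Fin m => z.1 j.succ), (z.1 0)⁻¹ * z.2) ∈ K}

/-- The mass of `{(X, x) : x ∈ conv {X_1, …, X_n}}` for `n + 1` points chosen with `ν`. -/
noncomputable def hullMass {E : Type*} [MeasurableSpace E] [AddCommGroup E] [Module ℝ E]
    (ν : Measure E) (n : ℕ) : ℝ≥0∞ :=
  ∫⁻ X : Fin n → E, ν {x | x ∈ convexHull ℝ (range X)} ∂(Measure.pi fun _ : Fin n => ν)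

/-- The integral `∫ (V - s_σ)^N m_σ det G dA`. -/
noncomputable def RR (K : Set (Pt m)) (σ : ℝ) (N : ℕ) : ℝ≥0∞ :=
  ∫⁻ A : Fin (m + 1) → ℝ,
    ENNReal.ofReal ((vol K - sv K σ A) ^ N * mv K σ A * (Gm K A).det)

/-- For `K ⊆ ℝ^(k+1) × ℝ` and a hyperplane `A`: those `τ` for which the centroid of the cap,
moved by `τ/s` in the direction `(1, 0, …, 0, A_1)`, stays in `K`. -/
def Tset {k : ℕ} (K : Set (Pt (k + 1))) (σ : ℝ) (A : Fin (k + 1 + 1) → ℝ) : Set ℝ :=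
  {τ | ((sv K σ A)⁻¹ • ((fun j : Fin (k + 1) => (wv K σ A).1 j.succ) + τ • (Pi.single 0 1 : Fin (k+1) → ℝ)),
    (sv K σ A)⁻¹ * ((wv K σ A).2 + τ * A 1)) ∈ K}

/-- The weight obtained by sweeping tangent segments. -/
noncomputable def TT {k : ℕ} (K : Set (Pt (k + 1))) (σ : ℝ) (N : ℕ) : ℝ≥0∞ :=
  ∫⁻ A : Fin (k + 1 + 1) → ℝ,
    ENNReal.ofReal ((vol K - sv K σ A) ^ N * (Gm K A).det * (Gm K A)⁻¹ 1 1) *
      ∫⁻ τ in Tset K σ A, ENNReal.ofReal |τ|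

/-- The truncation of a real number to `[0, 1]`. -/
noncomputable def clip (t : ℝ) : ℝ := max 0 (min 1 t)

/-- `∫_K clip (B · (1,x)) dx` for `K ⊆ ℝ^d`. -/
noncomputable def MM {d : ℕ} (K : Set (Fin d → ℝ)) (B : Fin (d + 1) → ℝ) : ℝ :=
  ∫ x in K, clip (aff B x)

/-- The matrix `∫_{K, 0 ≤ B·(1,x) ≤ 1} (1,x)(1,x)^T`. -/
noncomputable def Gam {d : ℕ} (K : Set (Fin d → ℝ)) (B : Fin (d + 1) → ℝ) :
    Matrix (Fin (d + 1)) (Fin (d + 1)) ℝ :=
  Matrix.of fun i j => ∫ x in {x | x ∈ K ∧ 0 ≤ aff B x ∧ aff B x ≤ 1}, ph x i * ph x j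

/-- The lift zonoid of `K ⊆ ℝ^d`. -/
def Yset' {d : ℕ} (K : Set (Fin d → ℝ)) : Set (Fin (d + 1) → ℝ) :=
  {z | ∃ g : (Fin d → ℝ) → ℝ, Measurable g ∧ (∀ x, 0 ≤ g x ∧ g x ≤ 1) ∧
    z = fun j => ∫ x in K, g x * ph x j}

end Pool.H40.EV
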