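import Mathlib
import Pool.Agent.Helper40.EV.Defs

/-! EV-8: the geometric half of the upper bound for the lift zonoid. -/

set_option autoImplicit false

namespace Pool.H40.EV

open MeasureTheory Set Matrix Filter Topology
open scoped ENNReal

namespace CG

variable {d : ℕ}

lemma ph_zero (x : Fin d → ℝ) : ph x 0 = 1 := rfl

lemma ph_succ (x : Fin d → ℝ) (j : Fin d) : ph x j.succ = x j := rfl

lemma continuous_ph : Continuous (ph : (Fin d → ℝ) → Fin (d + 1) → ℝ) := by
  refine continuous_pi (fun j => ?_)
  refine Fin.cases ?_ (fun j => ?_) j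
  · simp only [ph_zero]; exact continuous_const
  · simp only [ph_succ]; exact continuous_apply j

lemma aff_eq (B : Fin (d + 1) → ℝ) (x : Fin d → ℝ) :
    aff B x = B 0 + ∑ j : Fin d, B j.succ * x j := by
  unfold aff dotProduct
  rw [Fin.sum_univ_succ, ph_zero, mul_one]
  simp only [ph_succ]

lemma aff_sub (B B' : Fin (d + 1) → ℝ) (x : Fin d → ℝ) :
    aff (B - B') x = aff B x - aff B' x := by
  unfold aff; rw [sub_dotProduct]

lemma continuous_aff : Continuous (fun p : (Fin (d + 1) → ℝ) × (Fin d → ℝ) => aff p.1 p.2) := by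
  simp only [aff_eq]
  fun_prop

lemma continuous_aff_right (B : Fin (d + 1) → ℝ) : Continuous (aff B : (Fin d → ℝ) → ℝ) :=
  continuous_aff.comp (continuous_const.prodMk continuous_id)

/-- an affine function vanishing on an open set is zero -/
lemma aff_eq_zero_of_open {δ : Fin (d + 1) → ℝ} {U : Set (Fin d → ℝ)} (hU : IsOpen U)
    (hne : U.Nonempty) (h : ∀ x ∈ U, aff δ x = 0) : δ = 0 := by
  obtain ⟨x0, hx0⟩ := hne
  have hs : ∀ j : Fin d, δ j.succ = 0 := by
    intro j
    have hcont : Continuous (fun t : ℝ => x0 + t • (Pi.single j 1 : Fin d → ℝ)) := by fun_prop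
    have hnhds : ∀ᶠ t : ℝ in 𝓝 0, x0 + t • (Pi.single j 1 : Fin d → ℝ) ∈ U := by
      apply hcont.continuousAt.eventually_mem
      simpa using hU.mem_nhds hx0
    obtain ⟨t, ht, htU⟩ := ((hnhds.filter_mono nhdsWithin_le_nhds).and
      (self_mem_nhdsWithin (s := Ioi (0 : ℝ)))).exists
    have h1 := h _ ht
    have h2 := h _ hx0
    rw [aff_eq] at h1 h2
    have h3 : ∑ i : Fin d, δ i.succ * (x0 + t • (Pi.single j 1 : Fin d → ℝ)) i =
        (∑ i : Fin d, δ i.succ * x0 i) + t * δ j.succ := by
      simp only [Pi.add_apply, Pi.smul_apply, smul_eq_mul, mul_add, Finset.sum_add_distrib]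
      congr 1
      rw [Finset.sum_eq_single j]
      · rw [Pi.single_eq_same]; ring
      · intro b _ hb; rw [Pi.single_eq_of_ne hb]; ring
      · intro hj; exact absurd (Finset.mem_univ j) hj
    rw [h3] at h1
    have h4 : t * δ j.succ = 0 := by linarith
    rcases mul_eq_zero.mp h4 with h5 | h5
    · exact absurd h5 (ne_of_gt htU)
    · exact h5
  have h0 : δ 0 = 0 := by
    have h2 := h _ hx0
    rw [aff_eq] at h2
    simpa [hs] using h2
  funext j
  refine Fin.cases h0 (fun j => hs j) j

/-- level sets of affine functions are null unless the function is constant -/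
lemma level_null (B : Fin (d + 1) → ℝ) (c : ℝ) (h : ∃ x : Fin d → ℝ, aff B x ≠ c) :
    volume {x : Fin d → ℝ | aff B x = c} = 0 := by
  set L : (Fin d → ℝ) →ₗ[ℝ] ℝ := ∑ j : Fin d, B j.succ • LinearMap.proj j with hL
  have hLx : ∀ x, L x = ∑ j : Fin d, B j.succ * x j := by
    intro x
    rw [hL, LinearMap.sum_apply]
    rfl
  by_cases hne : ({x : Fin d → ℝ | aff B x = c}).Nonempty
  · obtain ⟨x0, hx0⟩ := hne
    have hx0' : aff B x0 = c := hx0
    set s : AffineSubspace ℝ (Fin d → ℝ) := AffineSubspace.mk' x0 (LinearMap.ker L) with hs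
    have hmem : ∀ x, x ∈ s ↔ aff B x = c := by
      intro x
      rw [hs, AffineSubspace.mem_mk', LinearMap.mem_ker, vsub_eq_sub, map_sub, hLx, hLx]
      rw [aff_eq] at hx0' ⊢
      constructor
      · intro h; linarith
      · intro h; linarith
    have hset : {x : Fin d → ℝ | aff B x = c} = (s : Set (Fin d → ℝ)) := by
      ext x; exact (hmem x).symm
    rw [hset]
    apply Measure.addHaar_affineSubspace
    intro htop
    obtain ⟨y, hy⟩ := h
    apply hy
    rw [← hmem, htop]
    exact AffineSubspace.mem_top _ _ _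
  · rw [Set.not_nonempty_iff_eq_empty.mp hne]; exact measure_empty

lemma clip_lip (s t : ℝ) : |clip s - clip t| ≤ |s - t| := by
  unfold clip
  refine (abs_max_sub_max_le_max _ _ _ _).trans ?_
  rw [sub_self, abs_zero]
  refine max_le (abs_nonneg _) ((abs_min_sub_min_le_max _ _ _ _).trans ?_)
  rw [sub_self, abs_zero]
  exact max_le (abs_nonneg _) le_rfl

lemma continuous_clip : Continuous clip := by
  unfold clip; fun_prop

lemma clip_nonneg (t : ℝ) : 0 ≤ clip t := le_max_left _ _

lemma clip_le_one (t : ℝ) : clip t ≤ 1 := max_le zero_le_one (min_le_left _ _)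

lemma clip_of_mem {t : ℝ} (h0 : 0 ≤ t) (h1 : t ≤ 1) : clip t = t := by
  unfold clip; rw [min_eq_right h1, max_eq_right h0]

lemma clip_of_neg {t : ℝ} (h : t ≤ 0) : clip t = 0 := by
  unfold clip; exact max_eq_left ((min_le_right _ _).trans h)

lemma clip_of_gt {t : ℝ} (h : 1 ≤ t) : clip t = 1 := by
  unfold clip; rw [min_eq_left h]; exact max_eq_right zero_le_one

/-- if the truncation lies strictly between 0 and 1, it did nothing -/
lemma eq_of_clip_mem {t : ℝ} (h0 : 0 < clip t) (h1 : clip t < 1) : clip t = t := by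
  by_cases h2 : t ≤ 0
  · rw [clip_of_neg h2] at h0; exact absurd h0 (lt_irrefl _)
  · by_cases h3 : 1 ≤ t
    · rw [clip_of_gt h3] at h1; exact absurd h1 (lt_irrefl _)
    · exact clip_of_mem (by linarith) (by linarith)

lemma clip_mono {s t : ℝ} (h : s ≤ t) : clip s ≤ clip t := by
  unfold clip
  exact max_le_max le_rfl (min_le_min le_rfl h)

lemma clip_prod_nonneg (s t : ℝ) : 0 ≤ (clip s - clip t) * (s - t) := by
  rcases le_total s t with h | h
  · exact mul_nonneg_of_nonpos_of_nonpos (by linarith [clip_mono h]) (by linarith)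
  · exact mul_nonneg (by linarith [clip_mono h]) (by linarith)

lemma hasDerivAt_clip {t : ℝ} (h0 : t ≠ 0) (h1 : t ≠ 1) :
    HasDerivAt clip (indicator (Icc (0 : ℝ) 1) (fun _ => (1 : ℝ)) t) t := by
  rcases lt_or_gt_of_ne h0 with h | h
  · rw [indicator_of_notMem (by simp [mem_Icc]; intro h'; linarith)]
    refine (hasDerivAt_const t (0 : ℝ)).congr_of_eventuallyEq ?_
    filter_upwards [Iio_mem_nhds h] with s hs
    exact clip_of_neg (le_of_lt hs)
  · rcases lt_or_gt_of_ne h1 with h' | h'
    · rw [indicator_of_mem (by simp [mem_Icc]; exact ⟨h.le, h'.le⟩)]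
      refine (hasDerivAt_id t).congr_of_eventuallyEq ?_
      filter_upwards [Ioo_mem_nhds h h'] with s hs
      exact clip_of_mem hs.1.le hs.2.le
    · rw [indicator_of_notMem (by simp [mem_Icc]; intro _; exact h')]
      refine (hasDerivAt_const t (1 : ℝ)).congr_of_eventuallyEq ?_
      filter_upwards [Ioi_mem_nhds h'] with s hs
      exact clip_of_gt (le_of_lt hs)

/-- the linear form `B ↦ aff B x` -/
noncomputable def ev (x : Fin d → ℝ) : (Fin (d + 1) → ℝ) →L[ℝ] ℝ :=
  LinearMap.toContinuousLinearMap
    { toFun := fun B => aff B x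
      map_add' := by intro B B'; unfold aff; rw [add_dotProduct]
      map_smul' := by intro c B; unfold aff; rw [smul_dotProduct]; rfl }

lemma ev_apply (x : Fin d → ℝ) (B : Fin (d + 1) → ℝ) : ev x B = aff B x := rfl

lemma abs_aff_le (B : Fin (d + 1) → ℝ) (x : Fin d → ℝ) :
    |aff B x| ≤ (d + 1 : ℝ) * ‖B‖ * ‖ph x‖ := by
  unfold aff dotProduct
  refine (Finset.abs_sum_le_sum_abs _ _).trans ?_
  calc ∑ i : Fin (d + 1), |B i * ph x i| ≤ ∑ _i : Fin (d + 1), ‖B‖ * ‖ph x‖ := by
        refine Finset.sum_le_sum (fun i _ => ?_)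
        rw [abs_mul]
        exact mul_le_mul (norm_le_pi_norm B i) (norm_le_pi_norm (ph x) i) (abs_nonneg _)
          (norm_nonneg _)
    _ = _ := by rw [Finset.sum_const, Finset.card_univ, Fintype.card_fin, nsmul_eq_mul]
                push_cast; ring

/-- the map into the lift zonoid -/
noncomputable def WW (K : Set (Fin d → ℝ)) (B : Fin (d + 1) → ℝ) : Fin (d + 1) → ℝ :=
  ∫ x in K, clip (aff B x) • ph x

lemma integrable_of_cont {K : Set (Fin d → ℝ)} (hKc : IsCompact K) {E : Type*}
    [NormedAddCommGroup E] {f : (Fin d → ℝ) → E} (hf : Continuous f) :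
    Integrable f (volume.restrict K) :=
  (hf.continuousOn.integrableOn_compact hKc)

lemma WW_apply {K : Set (Fin d → ℝ)} (hKc : IsCompact K) (B : Fin (d + 1) → ℝ)
    (j : Fin (d + 1)) : WW K B j = ∫ x in K, clip (aff B x) * ph x j := by
  unfold WW
  have h : Integrable (fun x => clip (aff B x) • ph x) (volume.restrict K) :=
    integrable_of_cont hKc
      ((continuous_clip.comp (continuous_aff_right B)).smul continuous_ph)
  exact ((ContinuousLinearMap.proj (R := ℝ) (φ := fun _ : Fin (d + 1) => ℝ) j).integral_comp_comm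
    h).symm

lemma hasFDerivAt_WW {K : Set (Fin d → ℝ)} (hKc : IsCompact K) (B : Fin (d + 1) → ℝ)
    (h0 : volume {x : Fin d → ℝ | aff B x = 0} = 0)
    (h1 : volume {x : Fin d → ℝ | aff B x = 1} = 0) :
    HasFDerivAt (WW K) (LinearMap.toContinuousLinearMap (Matrix.toLin' (Gam K B))) B := by
  have hSm : MeasurableSet {x : Fin d → ℝ | 0 ≤ aff B x ∧ aff B x ≤ 1} :=
    ((isClosed_le continuous_const (continuous_aff_right B)).inter
      (isClosed_le (continuous_aff_right B) continuous_const)).measurableSet
  set F' : (Fin d → ℝ) → (Fin (d + 1) → ℝ) →L[ℝ] (Fin (d + 1) → ℝ) := fun x =>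
    (indicator {x : Fin d → ℝ | 0 ≤ aff B x ∧ aff B x ≤ 1} (fun _ => (1 : ℝ)) x) •
      (ev x).smulRight (ph x) with hF'
  have hevc : Continuous (fun x : Fin d → ℝ => (ev x).smulRight (ph x)) := by
    refine continuous_clm_apply.mpr (fun δ => ?_)
    exact (continuous_aff_right δ).smul continuous_ph
  have hmain := hasFDerivAt_integral_of_dominated_loc_of_lip (μ := volume.restrict K)
    (F := fun B x => clip (aff B x) • ph x) (F' := F') (x₀ := B) (s := univ)
    (bound := fun x => (d + 1 : ℝ) * ‖ph x‖ ^ 2) Filter.univ_mem ?_ ?_ ?_ ?_ ?_ ?_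
  · obtain ⟨hint, hder⟩ := hmain
    have e : ∫ x in K, F' x = LinearMap.toContinuousLinearMap (Matrix.toLin' (Gam K B)) := by
      ext δ j
      have hj : ∀ i j : Fin (d + 1), Integrable (fun x : Fin d → ℝ =>
          indicator {x : Fin d → ℝ | 0 ≤ aff B x ∧ aff B x ≤ 1} (fun x => ph x i * ph x j) x)
          (volume.restrict K) := by
        intro i j
        refine Integrable.indicator ?_ hSm
        have := continuous_ph (d := d)
        exact integrable_of_cont hKc (by fun_prop)
      have e1 : (∫ x in K, F' x) δ j = ∫ x in K, (F' x δ) j := by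
        rw [ContinuousLinearMap.integral_apply hint]
        exact ((ContinuousLinearMap.proj (R := ℝ) (φ := fun _ : Fin (d + 1) => ℝ)
          j).integral_comp_comm (hint.apply_continuousLinearMap δ)).symm
      rw [e1]
      have e2 : ∀ x, (F' x δ) j = ∑ i : Fin (d + 1), δ i *
          indicator {x : Fin d → ℝ | 0 ≤ aff B x ∧ aff B x ≤ 1} (fun x => ph x i * ph x j) x := by
        intro x
        by_cases hx : x ∈ {x : Fin d → ℝ | 0 ≤ aff B x ∧ aff B x ≤ 1}
        · simp only [hF', indicator_of_mem hx]
          rw [one_smul, ContinuousLinearMap.smulRight_apply, Pi.smul_apply, ev_apply, smul_eq_mul]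
          unfold aff dotProduct
          rw [Finset.sum_mul]
          refine Finset.sum_congr rfl (fun i _ => ?_)
          ring
        · simp only [hF', indicator_of_notMem hx]
          simp
      simp only [e2]
      rw [integral_finsetSum _ (fun i _ => (hj i j).const_mul _)]
      show _ = (Matrix.toLin' (Gam K B)) δ j
      rw [Matrix.toLin'_apply, Matrix.mulVec, dotProduct]
      refine Finset.sum_congr rfl (fun i _ => ?_)
      rw [integral_const_mul, integral_indicator hSm, Measure.restrict_restrict hSm, mul_comm]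
      congr 1
      unfold Gam
      rw [Matrix.of_apply]
      have e3 : {x : Fin d → ℝ | 0 ≤ aff B x ∧ aff B x ≤ 1} ∩ K =
          {x | x ∈ K ∧ 0 ≤ aff B x ∧ aff B x ≤ 1} := by
        ext x; simp only [mem_inter_iff, mem_ofPred_eq]; tauto
      rw [e3]
      refine integral_congr_ae (Filter.Eventually.of_forall (fun x => ?_))
      show ph x i * ph x j = ph x j * ph x i
      ring
    rw [e] at hder
    exact hder
  · refine Filter.Eventually.of_forall (fun B' => ?_)
    exact ((continuous_clip.comp (continuous_aff_right B')).smul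
      continuous_ph).aestronglyMeasurable
  · exact integrable_of_cont hKc
      ((continuous_clip.comp (continuous_aff_right B)).smul continuous_ph)
  · have h2 : AEStronglyMeasurable (indicator {x : Fin d → ℝ | 0 ≤ aff B x ∧ aff B x ≤ 1}
        (fun _ => (1 : ℝ))) (volume.restrict K) :=
      (measurable_const.indicator hSm).aestronglyMeasurable
    exact h2.smul hevc.aestronglyMeasurable
  · refine Filter.Eventually.of_forall (fun x => ?_)
    refine LipschitzOnWith.of_dist_le_mul (fun B1 _ B2 _ => ?_)
    rw [Real.coe_nnabs, abs_of_nonneg (by positivity), dist_eq_norm, dist_eq_norm, ← sub_smul,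
      norm_smul, Real.norm_eq_abs]
    have h2 := (clip_lip (aff B1 x) (aff B2 x))
    rw [← aff_sub] at h2
    have h3 := h2.trans (abs_aff_le (B1 - B2) x)
    calc |clip (aff B1 x) - clip (aff B2 x)| * ‖ph x‖ ≤
          ((d + 1 : ℝ) * ‖B1 - B2‖ * ‖ph x‖) * ‖ph x‖ :=
          mul_le_mul_of_nonneg_right h3 (norm_nonneg _)
      _ = _ := by ring
  · exact integrable_of_cont hKc (by have := continuous_ph (d := d); fun_prop)
  · have hae : ∀ᵐ x : Fin d → ℝ ∂(volume.restrict K), aff B x ≠ 0 ∧ aff B x ≠ 1 := by
      apply ae_restrict_of_ae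
      rw [Filter.eventually_and]
      constructor
      · rw [ae_iff]; simpa using h0
      · rw [ae_iff]; simpa using h1
    filter_upwards [hae] with x hx
    have h4 := (hasDerivAt_clip hx.1 hx.2).comp_hasFDerivAt B (ev x).hasFDerivAt
    have h5 := h4.smul_const (ph x)
    refine h5.congr_fderiv ?_
    ext δ j
    simp only [hF', ContinuousLinearMap.smulRight_apply, _root_.smul_apply, Pi.smul_apply,
      smul_eq_mul]
    have : indicator (Icc (0 : ℝ) 1) (fun _ => (1 : ℝ)) (aff B x) =
        indicator {x : Fin d → ℝ | 0 ≤ aff B x ∧ aff B x ≤ 1} (fun _ => (1 : ℝ)) x := by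
      simp only [indicator, mem_Icc, mem_ofPred_eq]
    rw [ev_apply, this]
    ring

lemma WW_inj {K : Set (Fin d → ℝ)} (hK : Convex ℝ K) (hKc : IsCompact K)
    {B B' : Fin (d + 1) → ℝ} (h0 : volume {x : Fin d → ℝ | aff B x = 0} = 0)
    (h1 : volume {x : Fin d → ℝ | aff B x = 1} = 0) (hdet : (Gam K B).det ≠ 0)
    (h : WW K B = WW K B') : B = B' := by
  set f : (Fin d → ℝ) → ℝ := fun x => (clip (aff B x) - clip (aff B' x)) * (aff B x - aff B' x)
    with hf
  have hfc : Continuous f := by
    have c1 := continuous_aff_right B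
    have c2 := continuous_aff_right B'
    have c3 := continuous_clip
    exact ((c3.comp c1).sub (c3.comp c2)).mul (c1.sub c2)
  have hf0 : ∀ x, 0 ≤ f x := fun x => clip_prod_nonneg _ _
  have hint : ∀ (C : Fin (d + 1) → ℝ) (j : Fin (d + 1)), Integrable
      (fun x : Fin d → ℝ => clip (aff C x) * ph x j) (volume.restrict K) := by
    intro C j
    exact integrable_of_cont hKc ((continuous_clip.comp (continuous_aff_right C)).mul
      ((continuous_apply j).comp continuous_ph))
  have hzero : ∫ x in K, f x = 0 := by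
    have e1 : ∀ x, f x = ∑ j : Fin (d + 1), (B j - B' j) *
        (clip (aff B x) * ph x j - clip (aff B' x) * ph x j) := by
      intro x
      rw [hf]
      show (clip (aff B x) - clip (aff B' x)) * (aff B x - aff B' x) = _
      rw [← aff_sub]
      unfold aff dotProduct
      rw [Finset.mul_sum]
      refine Finset.sum_congr rfl (fun j _ => ?_)
      rw [Pi.sub_apply]
      ring
    simp only [e1]
    have hint2 : ∀ j : Fin (d + 1), Integrable (fun x : Fin d → ℝ => (B j - B' j) *
        (clip (aff B x) * ph x j - clip (aff B' x) * ph x j)) (volume.restrict K) :=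
      fun j => ((hint B j).sub (hint B' j)).const_mul _
    rw [integral_finsetSum _ (fun j _ => hint2 j)]
    refine Finset.sum_eq_zero (fun j _ => ?_)
    rw [integral_const_mul, integral_sub (hint B j) (hint B' j), ← WW_apply hKc, ← WW_apply hKc, h,
      sub_self, mul_zero]
  have hae : f =ᵐ[volume.restrict K] 0 :=
    (integral_eq_zero_iff_of_nonneg hf0 (integrable_of_cont hKc hfc)).mp hzero
  have hU : EqOn f 0 (interior K) := by
    refine Measure.eqOn_open_of_ae_eq (μ := volume) ?_ isOpen_interior hfc.continuousOn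
      continuousOn_const
    exact ae_restrict_of_ae_restrict_of_subset interior_subset hae
  -- a point of the interior where the affine function is strictly between 0 and 1
  have hex : ∃ x ∈ interior K, 0 < aff B x ∧ aff B x < 1 := by
    by_contra hcon
    push Not at hcon
    apply hdet
    have hnull : volume {x | x ∈ K ∧ 0 ≤ aff B x ∧ aff B x ≤ 1} = 0 := by
      refine measure_mono_null (t := frontier K ∪ ({x | aff B x = 0} ∪ {x | aff B x = 1})) ?_ ?_
      · rintro x ⟨hxK, hx0, hx1⟩
        by_cases hxi : x ∈ interior K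
        · right
          rcases eq_or_lt_of_le hx0 with h2 | h2
          · left; exact h2.symm
          · right; exact le_antisymm hx1 (hcon x hxi h2)
        · left
          exact ⟨subset_closure hxK, hxi⟩
      · rw [measure_union_null_iff, measure_union_null_iff]
        exact ⟨hK.addHaar_frontier volume, h0, h1⟩
    have hG : Gam K B = 0 := by
      ext i j
      unfold Gam
      rw [Matrix.of_apply, Matrix.zero_apply]
      exact setIntegral_measure_zero _ hnull
    rw [hG, Matrix.det_zero]
  obtain ⟨x0, hx0K, hx0⟩ := hex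
  have hV : IsOpen (interior K ∩ {x | 0 < aff B x ∧ aff B x < 1}) := by
    refine isOpen_interior.inter ?_
    exact (isOpen_lt continuous_const (continuous_aff_right B)).inter
      (isOpen_lt (continuous_aff_right B) continuous_const)
  have hδ := aff_eq_zero_of_open (δ := B - B') hV ⟨x0, hx0K, hx0⟩ (fun x hx => by
    have h2 := hU hx.1
    obtain ⟨h3, h4⟩ := hx.2
    have hc : clip (aff B x) = aff B x := clip_of_mem h3.le h4.le
    rw [aff_sub]
    rcases mul_eq_zero.mp h2 with h5 | h5
    · have h6 : clip (aff B' x) = aff B x := by rw [hc] at h5; linarith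
      have h7 : clip (aff B' x) = aff B' x := eq_of_clip_mem (by rw [h6]; exact h3)
        (by rw [h6]; exact h4)
      rw [← h7, h6, sub_self]
    · exact h5)
  exact sub_eq_zero.mp hδ

lemma measurable_Gam {K : Set (Fin d → ℝ)} (i j : Fin (d + 1)) :
    Measurable (fun B : Fin (d + 1) → ℝ => Gam K B i j) := by
  have hS : MeasurableSet {p : (Fin (d + 1) → ℝ) × (Fin d → ℝ) |
      0 ≤ aff p.1 p.2 ∧ aff p.1 p.2 ≤ 1} :=
    ((isClosed_le continuous_const continuous_aff).inter
      (isClosed_le continuous_aff continuous_const)).measurableSet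
  have hm : Measurable (fun p : (Fin (d + 1) → ℝ) × (Fin d → ℝ) =>
      indicator {p : (Fin (d + 1) → ℝ) × (Fin d → ℝ) | 0 ≤ aff p.1 p.2 ∧ aff p.1 p.2 ≤ 1}
        (fun p => ph p.2 i * ph p.2 j) p) := by
    refine Measurable.indicator ?_ hS
    have h1 : Continuous (fun p : (Fin (d + 1) → ℝ) × (Fin d → ℝ) => ph p.2) :=
      continuous_ph.comp continuous_snd
    exact (((continuous_apply i).comp h1).mul ((continuous_apply j).comp h1)).measurable
  have h2 := (hm.stronglyMeasurable.integral_prod_right' (ν := volume.restrict K)).measurable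
  have e : (fun B : Fin (d + 1) → ℝ => Gam K B i j) = fun B => ∫ x in K,
      indicator {p : (Fin (d + 1) → ℝ) × (Fin d → ℝ) | 0 ≤ aff p.1 p.2 ∧ aff p.1 p.2 ≤ 1}
        (fun p => ph p.2 i * ph p.2 j) (B, x) := by
    funext B
    have hSB : MeasurableSet {x : Fin d → ℝ | 0 ≤ aff B x ∧ aff B x ≤ 1} :=
      ((isClosed_le continuous_const (continuous_aff_right B)).inter
        (isClosed_le (continuous_aff_right B) continuous_const)).measurableSet
    have e2 : ∀ x : Fin d → ℝ,
        indicator {p : (Fin (d + 1) → ℝ) × (Fin d → ℝ) | 0 ≤ aff p.1 p.2 ∧ aff p.1 p.2 ≤ 1}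
          (fun p => ph p.2 i * ph p.2 j) (B, x) =
        indicator {x : Fin d → ℝ | 0 ≤ aff B x ∧ aff B x ≤ 1} (fun x => ph x i * ph x j) x := by
      intro x; rfl
    simp only [e2]
    rw [integral_indicator hSB, Measure.restrict_restrict hSB]
    unfold Gam
    rw [Matrix.of_apply]
    have e3 : {x : Fin d → ℝ | 0 ≤ aff B x ∧ aff B x ≤ 1} ∩ K =
        {x | x ∈ K ∧ 0 ≤ aff B x ∧ aff B x ≤ 1} := by
      ext x; simp only [mem_inter_iff, mem_ofPred_eq]; tauto
    rw [e3]
  rw [e]
  exact h2

lemma measurable_det_Gam {K : Set (Fin d → ℝ)} :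
    Measurable (fun B : Fin (d + 1) → ℝ => (Gam K B).det) := by
  simp only [Matrix.det_apply]
  refine Finset.measurable_fun_sum _ (fun σ _ => ?_)
  refine Measurable.const_smul ?_ _
  exact Finset.measurable_fun_prod _ (fun i _ => measurable_Gam _ _)

end CG

open CG in
theorem C_geo (d : ℕ) (K : Set (Fin d → ℝ)) (hK : Convex ℝ K) (hKc : IsCompact K)
    (hKi : (interior K).Nonempty) (N : ℕ) :
    ∃ I : Set (Fin (d + 1) → ℝ), MeasurableSet I ∧ I ⊆ Yset' K ∧
      ∫⁻ B : Fin (d + 1) → ℝ, ENNReal.ofReal ((vol K - MM K B) ^ N * (Gam K B).det) ≤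
        ∫⁻ z in I, ENNReal.ofReal ((vol K - z 0) ^ N) := by
  classical
  set e0 : Fin (d + 1) → ℝ := Pi.single 0 1 with he0
  have haffe0 : ∀ x : Fin d → ℝ, aff e0 x = 1 := by
    intro x
    rw [aff_eq, he0, Pi.single_eq_same, Finset.sum_eq_zero, add_zero]
    intro j _
    rw [Pi.single_eq_of_ne (Fin.succ_ne_zero j), zero_mul]
  have hn0 : ∀ B : Fin (d + 1) → ℝ, B ≠ 0 → volume {x : Fin d → ℝ | aff B x = 0} = 0 := by
    intro B hB
    apply level_null
    by_contra hcon
    push Not at hcon
    exact hB (aff_eq_zero_of_open isOpen_univ univ_nonempty (fun x _ => hcon x))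
  have hn1 : ∀ B : Fin (d + 1) → ℝ, B ≠ e0 → volume {x : Fin d → ℝ | aff B x = 1} = 0 := by
    intro B hB
    apply level_null
    by_contra hcon
    push Not at hcon
    apply hB
    rw [← sub_eq_zero]
    exact aff_eq_zero_of_open isOpen_univ univ_nonempty (fun x _ => by
      rw [aff_sub, hcon x, haffe0, sub_self])
  set D : Set (Fin (d + 1) → ℝ) := {B | (B ≠ 0 ∧ B ≠ e0) ∧ 0 < (Gam K B).det} with hD
  have hDm : MeasurableSet D := by
    refine MeasurableSet.inter ?_ (measurableSet_lt measurable_const measurable_det_Gam)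
    exact ((measurableSet_singleton 0).compl).inter ((measurableSet_singleton e0).compl)
  have hder : ∀ B ∈ D, HasFDerivWithinAt (WW K)
      (LinearMap.toContinuousLinearMap (Matrix.toLin' (Gam K B))) D B := fun B hB =>
    (hasFDerivAt_WW hKc B (hn0 B hB.1.1) (hn1 B hB.1.2)).hasFDerivWithinAt
  have hinj : InjOn (WW K) D := fun B hB B' _ h =>
    WW_inj hK hKc (hn0 B hB.1.1) (hn1 B hB.1.2) hB.2.ne' h
  refine ⟨WW K '' D, measurable_image_of_fderivWithin hDm hder hinj, ?_, ?_⟩
  · rintro _ ⟨B, _, rfl⟩
    refine ⟨fun x => clip (aff B x), (continuous_clip.comp (continuous_aff_right B)).measurable,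
      fun x => ⟨clip_nonneg _, clip_le_one _⟩, ?_⟩
    funext j
    exact WW_apply hKc B j
  · rw [lintegral_image_eq_lintegral_abs_det_fderiv_mul volume hDm hder hinj]
    have hW0 : ∀ B, WW K B 0 = MM K B := by
      intro B
      rw [WW_apply hKc]
      unfold MM
      simp only [ph_zero, mul_one]
    have hMM : ∀ B, 0 ≤ vol K - MM K B := by
      intro B
      have h1 : MM K B ≤ ∫ _x in K, (1 : ℝ) := by
        refine integral_mono ?_ ?_ (fun x => clip_le_one _)
        · exact integrable_of_cont hKc (continuous_clip.comp (continuous_aff_right B))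
        · exact integrable_of_cont hKc continuous_const
      rw [setIntegral_const, smul_eq_mul, mul_one] at h1
      exact sub_nonneg.mpr h1
    have hae : (fun B : Fin (d + 1) → ℝ =>
        ENNReal.ofReal ((vol K - MM K B) ^ N * (Gam K B).det)) =ᵐ[volume]
        D.indicator (fun B => ENNReal.ofReal ((vol K - MM K B) ^ N * (Gam K B).det)) := by
      have h1 : ∀ᵐ B : Fin (d + 1) → ℝ, B ∉ ({0, e0} : Set (Fin (d + 1) → ℝ)) := by
        rw [ae_iff]
        simp only [not_not]
        exact (Set.toFinite ({0, e0} : Set (Fin (d + 1) → ℝ))).measure_zero volume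
      filter_upwards [h1] with B hB
      simp only [mem_insert_iff, mem_singleton_iff, not_or] at hB
      by_cases hBD : B ∈ D
      · rw [indicator_of_mem hBD]
      · rw [indicator_of_notMem hBD]
        have h2 : (Gam K B).det ≤ 0 := by
          by_contra h3
          push Not at h3
          exact hBD ⟨hB, h3⟩
        exact ENNReal.ofReal_of_nonpos (mul_nonpos_of_nonneg_of_nonpos (pow_nonneg (hMM B) N) h2)
    rw [lintegral_congr_ae hae, lintegral_indicator hDm]
    refine le_of_eq (setLIntegral_congr_fun hDm (fun B hB => ?_))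
    have h4 : (LinearMap.toContinuousLinearMap (Matrix.toLin' (Gam K B))).det = (Gam K B).det := by
      rw [← LinearMap.det_toLin' (Gam K B)]
      rfl
    show ENNReal.ofReal ((vol K - MM K B) ^ N * (Gam K B).det) = _
    rw [h4, hW0, abs_of_pos hB.2, ← ENNReal.ofReal_mul hB.2.le, mul_comm]

end Pool.H40.EV
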