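import Pool.Agent.Helper40.EV.Base

/-! Interpolation of heights by affine functions (used by CProb.lean). -/

set_option autoImplicit false

namespace Pool.H40.EV

open MeasureTheory Set Matrix
open scoped ENNReal

/-- The coefficient vector `M⁻¹ t` with `M = (Φ (x_i))_i`. -/
noncomputable def interp {X : Type*} {r : ℕ} (Φ : X → Fin r → ℝ) (Y : Fin r → X × ℝ) :
    Fin r → ℝ :=
  (Matrix.of fun i => Φ (Y i).1)⁻¹.mulVec fun i => (Y i).2

theorem measurable_det {X : Type*} [MeasurableSpace X] {r : ℕ} {Φ : X → Fin r → ℝ}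
    (hΦ : Measurable Φ) : Measurable fun x : Fin r → X => (Matrix.of fun i => Φ (x i)).det := by
  have h1 : Measurable fun x : Fin r → X => (fun i => Φ (x i) : Fin r → Fin r → ℝ) :=
    measurable_pi_lambda _ fun i => hΦ.comp (measurable_pi_apply i)
  have h2 : Continuous fun M : Fin r → Fin r → ℝ => (Matrix.of M).det :=
    Continuous.matrix_det continuous_id
  exact h2.measurable.comp h1

theorem measurable_interp {X : Type*} [MeasurableSpace X] {r : ℕ} {Φ : X → Fin r → ℝ}
    (hΦ : Measurable Φ) : Measurable (interp Φ) := by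
  have h1 : Measurable fun Y : Fin r → X × ℝ => (fun i => Φ (Y i).1 : Fin r → Fin r → ℝ) :=
    measurable_pi_lambda _ fun i => hΦ.comp (measurable_fst.comp (measurable_pi_apply i))
  have h3 : ∀ i j, Measurable fun Y : Fin r → X × ℝ =>
      (Matrix.of fun i => Φ (Y i).1).adjugate i j := by
    intro i j
    have hc : Continuous fun M : Fin r → Fin r → ℝ => (Matrix.of M).adjugate i j :=
      (Continuous.matrix_adjugate (A := fun M : Fin r → Fin r → ℝ => Matrix.of M)
        continuous_id).matrix_elem i j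
    exact hc.measurable.comp h1
  have h5 : Measurable fun Y : Fin r → X × ℝ => (Matrix.of fun i => Φ (Y i).1).det :=
    (measurable_det hΦ).comp
      (measurable_pi_lambda _ fun i => measurable_fst.comp (measurable_pi_apply i))
  refine measurable_pi_lambda _ fun i => ?_
  have h6 : (fun Y : Fin r → X × ℝ => interp Φ Y i) = fun Y : Fin r → X × ℝ =>
      ((Matrix.of fun i => Φ (Y i).1).det)⁻¹ *
      ∑ j, (Matrix.of fun i => Φ (Y i).1).adjugate i j * (Y j).2 := by
    funext Y
    rw [interp, Matrix.inv_def, Matrix.smul_mulVec, Ring.inverse_eq_inv']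
    rfl
  rw [h6]
  refine h5.inv.mul (Finset.measurable_sum _ fun j _ => (h3 i j).mul ?_)
  exact measurable_snd.comp (measurable_pi_apply j)

theorem interp_eq {X : Type*} {r : ℕ} (Φ : X → Fin r → ℝ) (Y : Fin r → X × ℝ)
    (hdet : (Matrix.of fun i => Φ (Y i).1).det ≠ 0) (B : Fin r → ℝ)
    (hB : ∀ i, B ⬝ᵥ Φ (Y i).1 = (Y i).2) : interp Φ Y = B := by
  have h1 : (fun i => (Y i).2) = (Matrix.of fun i => Φ (Y i).1).mulVec B := by
    funext i
    rw [← hB i, dotProduct_comm]
    rfl
  rw [interp, h1, Matrix.mulVec_mulVec, Matrix.nonsing_inv_mul _ (isUnit_iff_ne_zero.mpr hdet),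
    Matrix.one_mulVec]

variable {m : ℕ}

theorem det_ne_zero_of_affineIndependent {x : Fin (m + 1) → Fin m → ℝ}
    (h : AffineIndependent ℝ x) : (Matrix.of fun i => ph (x i)).det ≠ 0 := by
  intro h0
  obtain ⟨v, hv, hv0⟩ := Matrix.exists_vecMul_eq_zero_iff.mpr h0
  apply hv
  rw [affineIndependent_iff] at h
  have e : ∀ j, ∑ i, v i * ph (x i) j = 0 := by
    intro j
    have := congrFun hv0 j
    simpa [Matrix.vecMul, dotProduct] using this
  have h1 : ∑ i, v i = 0 := by
    have := e 0
    simpa using this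
  have h2 : ∑ i, v i • x i = 0 := by
    funext j
    have := e j.succ
    simpa [Finset.sum_apply] using this
  funext i
  exact h Finset.univ v h1 h2 i (Finset.mem_univ i)

theorem exists_aff (l : (Fin m → ℝ) →ᵃ[ℝ] ℝ) : ∃ B : Fin (m + 1) → ℝ, ∀ x, l x = aff B x := by
  refine ⟨vecCons (l 0) fun j => l.linear (Pi.single j 1), fun x => ?_⟩
  rw [aff_eq]
  have h1 : l x = l.linear x + l 0 := by
    have := congrFun l.decomp x
    simpa using this
  have h2 : l.linear x = ∑ j, l.linear (Pi.single j 1) * x j := by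
    conv_lhs => rw [← Finset.univ_sum_single x]
    rw [map_sum]
    refine Finset.sum_congr rfl fun j _ => ?_
    have : (Pi.single j (x j) : Fin m → ℝ) = x j • Pi.single j (1 : ℝ) := by
      rw [← Pi.single_smul, smul_eq_mul, mul_one]
    rw [this, map_smul, smul_eq_mul, mul_comm]
  rw [h1, h2]
  simp [add_comm]

theorem range_orderEmbOfFin_comp {E : Type*} {n r : ℕ} (X : Fin n → E) (I : Finset (Fin n))
    (hI : I.card = r) :
    range (fun i => X (I.orderEmbOfFin hI i)) = X '' (I : Set (Fin n)) := by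
  have : (fun i => X (I.orderEmbOfFin hI i)) = X ∘ (I.orderEmbOfFin hI) := rfl
  rw [this, range_comp, Finset.range_orderEmbOfFin]

theorem affineIndependent_orderEmbOfFin {E : Type*} [AddCommGroup E] [Module ℝ E] {n r : ℕ}
    (X : Fin n → E) (I : Finset (Fin n)) (hI : I.card = r)
    (h : AffineIndependent ℝ (fun i : I => X i)) :
    AffineIndependent ℝ (fun i => X (I.orderEmbOfFin hI i)) := by
  let f : Fin r ↪ I := ⟨fun i => ⟨I.orderEmbOfFin hI i, Finset.orderEmbOfFin_mem I hI i⟩, by
    intro a b hab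
    simpa using hab⟩
  exact h.comp_embedding f

end Pool.H40.EV
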