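import Pool.Agent.Helper40.EV.Defs

/-! EV-10: general position almost surely. -/

set_option autoImplicit false

namespace Pool.H40.EV

open MeasureTheory Set Matrix
open scoped ENNReal

section GP

variable {E : Type*} [NormedAddCommGroup E] [NormedSpace ℝ E] [FiniteDimensional ℝ E]
    [MeasurableSpace E] [BorelSpace E]

/-- Adding one random point to an affinely independent family. -/
theorem gp_step (μ : Measure E) [SigmaFinite μ]
    (hμ : ∀ s : AffineSubspace ℝ E, s ≠ ⊤ → μ s = 0) {α ι : Type*} [MeasurableSpace α] [Fintype ι]
    (ρ : Measure α) [SFinite ρ] (f : α → ι → E) (hf : Measurable f)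
    (hAI : ∀ᵐ a ∂ρ, AffineIndependent ℝ (f a)) (hc : Fintype.card ι ≤ Module.finrank ℝ E) :
    ∀ᵐ z ∂(ρ.prod μ), AffineIndependent ℝ (fun o : Option ι => o.elim z.2 (f z.1)) := by
  have hprop := FiniteDimensional.proper ℝ E
  have hg : Measurable (fun (z : α × E) (o : Option ι) => o.elim z.2 (f z.1)) := by
    refine measurable_pi_iff.2 fun o => ?_
    cases o with
    | none => exact measurable_snd
    | some i => exact (measurable_pi_iff.1 hf i).comp measurable_fst
  have hS : MeasurableSet {z : α × E | ¬ AffineIndependent ℝ (fun o : Option ι => o.elim z.2 (f z.1))} := by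
    have h1 : MeasurableSet {q : Option ι → E | AffineIndependent ℝ q} :=
      (isOpen_setOfPred_affineIndependent (𝕜 := ℝ) (E := E) (ι := Option ι)).measurableSet
    exact (hg h1).compl
  rw [ae_iff, Measure.measure_prod_null hS]
  filter_upwards [hAI] with a ha
  have hne : affineSpan ℝ (range (f a)) ≠ ⊤ := by
    intro h
    rw [ha.affineSpan_eq_top_iff_card_eq_finrank_add_one] at h
    omega
  refine measure_mono_null ?_ (hμ _ hne)
  intro x hx
  by_contra hxs
  apply hx
  refine AffineIndependent.affineIndependent_of_notMem_span (i := (none : Option ι)) ?_ ?_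
  · have : (fun y : {y : Option ι // y ≠ none} => (y : Option ι).elim x (f a)) =
        f a ∘ (fun y : {y : Option ι // y ≠ none} => (y : Option ι).get (Option.ne_none_iff_isSome.1 y.2)) := by
      funext y
      obtain ⟨y, hy⟩ := y
      cases y with
      | none => exact absurd rfl hy
      | some i => rfl
    simp only
    rw [this]
    refine ha.comp_embedding ⟨_, ?_⟩
    rintro ⟨y, hy⟩ ⟨z, hz⟩ h
    cases y with
    | none => exact absurd rfl hy
    | some i =>
      cases z with
      | none => exact absurd rfl hz
      | some j => simpa using h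
  · intro h
    apply hxs
    have hsub : (fun o : Option ι => o.elim x (f a)) '' {o | o ≠ none} ⊆ range (f a) := by
      rintro _ ⟨o, ho, rfl⟩
      cases o with
      | none => exact absurd rfl ho
      | some i => exact ⟨i, rfl⟩
    exact affineSpan_mono ℝ hsub h

/-- The first part: random families are affinely independent. -/
theorem gp_pi (μ : Measure E) [SigmaFinite μ]
    (hμ : ∀ s : AffineSubspace ℝ E, s ≠ ⊤ → μ s = 0) (n : ℕ) :
    ∀ᵐ X : Fin n → E ∂(Measure.pi fun _ : Fin n => μ),
      ∀ I : Finset (Fin n), I.card ≤ Module.finrank ℝ E + 1 →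
        AffineIndependent ℝ (fun i : I => X i) := by
  induction n with
  | zero =>
    refine Filter.Eventually.of_forall fun X I _ => ?_
    exact affineIndependent_of_subsingleton ℝ _
  | succ n ih =>
    have hmp := measurePreserving_piFinSuccAbove (fun _ : Fin (n+1) => μ) 0
    have key : ∀ᵐ z : E × (Fin n → E) ∂(μ.prod (Measure.pi fun _ : Fin n => μ)),
        ∀ I : Finset (Fin (n+1)), I.card ≤ Module.finrank ℝ E + 1 →
          AffineIndependent ℝ (fun i : I => (Fin.cons z.1 z.2 : Fin (n+1) → E) i) := by
      rw [ae_all_iff]
      intro I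
      by_cases hI : I.card ≤ Module.finrank ℝ E + 1
      swap
      · exact Filter.Eventually.of_forall fun _ h => absurd h hI
      classical
      set J : Finset (Fin n) := Finset.univ.filter (fun i => i.succ ∈ I) with hJ
      have hJsub : J.image Fin.succ ⊆ I.erase 0 := by
        intro i hi
        rw [Finset.mem_image] at hi
        obtain ⟨j, hj, rfl⟩ := hi
        rw [hJ, Finset.mem_filter] at hj
        exact Finset.mem_erase.2 ⟨Fin.succ_ne_zero j, hj.2⟩
      have hJcard : J.card ≤ (I.erase 0).card := by
        rw [← Finset.card_image_of_injective J (Fin.succ_injective n)]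
        exact Finset.card_le_card hJsub
      by_cases h0 : (0 : Fin (n+1)) ∈ I
      · have hJc : J.card ≤ Module.finrank ℝ E := by
          rw [Finset.card_erase_of_mem h0] at hJcard
          omega
        have hst := gp_step μ hμ (Measure.pi fun _ : Fin n => μ)
          (fun (Y : Fin n → E) (i : J) => Y i) (measurable_pi_iff.2 fun i => measurable_pi_apply _)
          (by
            filter_upwards [ih] with Y hY
            exact hY J (by omega))
          (by rw [Fintype.card_coe]; exact hJc)
        have hsw := (Measure.measurePreserving_swap (μ := μ)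
          (ν := Measure.pi fun _ : Fin n => μ)).quasiMeasurePreserving.ae hst
        filter_upwards [hsw] with z hz _
        have hmap : ∀ i : I, ∃ o : Option J, (Fin.cons z.1 z.2 : Fin (n+1) → E) i =
            o.elim z.1 (fun j : J => z.2 j) ∧
            (i : Fin (n+1)) = o.elim 0 (fun j : J => (j : Fin n).succ) := by
          rintro ⟨i, hi⟩
          by_cases hi0 : i = 0
          · subst hi0
            exact ⟨none, by simp, rfl⟩
          · obtain ⟨j, rfl⟩ := Fin.exists_succ_eq.2 hi0
            refine ⟨some ⟨j, ?_⟩, by simp, rfl⟩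
            rw [hJ, Finset.mem_filter]
            exact ⟨Finset.mem_univ _, hi⟩
        choose g hg1 hg2 using hmap
        have hinj : Function.Injective g := by
          intro a b hab
          apply Subtype.ext
          rw [hg2 a, hg2 b, hab]
        have := hz.comp_embedding ⟨g, hinj⟩
        have he : (fun i : I => (Fin.cons z.1 z.2 : Fin (n+1) → E) i) =
            (fun o : Option J => o.elim (Prod.swap z).2 (fun i : J => (Prod.swap z).1 i)) ∘ g := by
          funext i
          exact hg1 i
        rw [he]
        exact this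
      · have hJc : J.card ≤ Module.finrank ℝ E + 1 := by
          rw [Finset.erase_eq_of_notMem h0] at hJcard
          omega
        have h2 := (Measure.quasiMeasurePreserving_snd (μ := μ)
          (ν := Measure.pi fun _ : Fin n => μ)).ae ih
        filter_upwards [h2] with z hz _
        have hz' := hz J hJc
        have hmap : ∀ i : I, ∃ j : J, (i : Fin (n+1)) = (j : Fin n).succ := by
          rintro ⟨i, hi⟩
          obtain ⟨j, rfl⟩ := Fin.exists_succ_eq.2 (show i ≠ 0 by rintro rfl; exact h0 hi)
          exact ⟨⟨j, by rw [hJ, Finset.mem_filter]; exact ⟨Finset.mem_univ _, hi⟩⟩, rfl⟩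
        choose g hg using hmap
        have hinj : Function.Injective g := by
          intro a b hab
          apply Subtype.ext
          rw [hg a, hg b, hab]
        have := hz'.comp_embedding ⟨g, hinj⟩
        have he : (fun i : I => (Fin.cons z.1 z.2 : Fin (n+1) → E) i) =
            (fun j : J => z.2 j) ∘ g := by
          funext i
          simp only [Function.comp]
          rw [hg i, Fin.cons_succ]
        rw [he]
        exact this
    have h3 := hmp.quasiMeasurePreserving.ae key
    filter_upwards [h3] with X hX I hI
    have := hX I hI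
    have he : (fun i : I => X i) = (fun i : I => (Fin.cons
        ((MeasurableEquiv.piFinSuccAbove (fun _ : Fin (n+1) => E) 0) X).1
        ((MeasurableEquiv.piFinSuccAbove (fun _ : Fin (n+1) => E) 0) X).2 : Fin (n+1) → E) i) := by
      funext i
      obtain ⟨i, hi⟩ := i
      refine Fin.cases (motive := fun i => ∀ hi : i ∈ I, X (⟨i, hi⟩ : I) = (Fin.cons
        ((MeasurableEquiv.piFinSuccAbove (fun _ : Fin (n+1) => E) 0) X).1
        ((MeasurableEquiv.piFinSuccAbove (fun _ : Fin (n+1) => E) 0) X).2 : Fin (n+1) → E) (⟨i, hi⟩ : I)) ?_ ?_ i hi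
      · intro _; rfl
      · intro j hj; rfl
    rw [he]
    exact this

theorem gp_ae (μ : Measure E) [SigmaFinite μ]
    (hμ : ∀ s : AffineSubspace ℝ E, s ≠ ⊤ → μ s = 0) (n : ℕ) :
    ∀ᵐ Z : (Fin n → E) × E ∂((Measure.pi fun _ : Fin n => μ).prod μ),
      (∀ I : Finset (Fin n), I.card ≤ Module.finrank ℝ E + 1 →
        AffineIndependent ℝ (fun i : I => Z.1 i)) ∧
      (∀ I : Finset (Fin n), I.card ≤ Module.finrank ℝ E →
        Z.2 ∉ affineSpan ℝ (Z.1 '' (I : Set (Fin n)))) := by
  have h1 := (Measure.quasiMeasurePreserving_fst (μ := Measure.pi fun _ : Fin n => μ)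
    (ν := μ)).ae (gp_pi μ hμ n)
  have h2 : ∀ᵐ Z : (Fin n → E) × E ∂((Measure.pi fun _ : Fin n => μ).prod μ),
      ∀ I : Finset (Fin n), I.card ≤ Module.finrank ℝ E →
        Z.2 ∉ affineSpan ℝ (Z.1 '' (I : Set (Fin n))) := by
    rw [ae_all_iff]
    intro I
    by_cases hI : I.card ≤ Module.finrank ℝ E
    swap
    · exact Filter.Eventually.of_forall fun _ h => absurd h hI
    have hst := gp_step μ hμ (Measure.pi fun _ : Fin n => μ)
      (fun (Y : Fin n → E) (i : I) => Y i) (measurable_pi_iff.2 fun i => measurable_pi_apply _)
      (by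
        filter_upwards [gp_pi μ hμ n] with Y hY
        exact hY I (by omega))
      (by rw [Fintype.card_coe]; exact hI)
    filter_upwards [hst] with Z hZ _ hmem
    have := hZ.notMem_affineSpan_sdiff none univ
    apply this
    refine affineSpan_mono ℝ ?_ hmem
    rintro _ ⟨i, hi, rfl⟩
    exact ⟨some ⟨i, hi⟩, by simp, rfl⟩
  filter_upwards [h1, h2] with Z hZ1 hZ2
  exact ⟨hZ1, hZ2⟩

theorem hullMass_small (μ : Measure E) [SigmaFinite μ]
    (hμ : ∀ s : AffineSubspace ℝ E, s ≠ ⊤ → μ s = 0) (n : ℕ) (hn : n ≤ Module.finrank ℝ E) :
    hullMass μ n = 0 := by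
  unfold hullMass
  have h : ∀ X : Fin n → E, μ {x | x ∈ convexHull ℝ (range X)} = 0 := by
    intro X
    have hne : affineSpan ℝ (range X) ≠ ⊤ := by
      intro h
      cases n with
      | zero =>
        have hr : range X = ∅ := range_eq_empty X
        rw [hr, AffineSubspace.span_empty] at h
        exact AffineSubspace.bot_ne_top ℝ E E h
      | succ n =>
        have h1 := finrank_vectorSpan_range_le ℝ X (n := n) (by simp)
        have h2 : vectorSpan ℝ (range X) = ⊤ := by
          rw [← direction_affineSpan, h, AffineSubspace.direction_top]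
        rw [h2, finrank_top] at h1
        omega
    refine measure_mono_null ?_ (hμ _ hne)
    intro x hx
    exact convexHull_subset_affineSpan _ hx
  rw [lintegral_congr h, lintegral_zero]

end GP

end Pool.H40.EV
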