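import Pool.Agent.Helper40.EV.LP
import Pool.Agent.Helper40.EV.GP

/-! Almost sure linear programming duality: consequence of EV-9 and EV-10. -/

set_option autoImplicit false

namespace Pool.H40.EV

open MeasureTheory Set Matrix
open scoped ENNReal

theorem lp_ae {E : Type*} [NormedAddCommGroup E] [NormedSpace ℝ E] [FiniteDimensional ℝ E]
    [MeasurableSpace E] [BorelSpace E] (μ : Measure E) [SigmaFinite μ]
    (hμ : ∀ s : AffineSubspace ℝ E, s ≠ ⊤ → μ s = 0) (n : ℕ) :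
    ∀ᵐ Z : (Fin n → E) × E ∂((Measure.pi fun _ : Fin n => μ).prod μ),
      Z.2 ∈ convexHull ℝ (range Z.1) → ∀ c : Fin n → ℝ,
        ∃ I : Finset (Fin n), I.card = Module.finrank ℝ E + 1 ∧
          Z.2 ∈ convexHull ℝ (Z.1 '' (I : Set (Fin n))) ∧
          AffineIndependent ℝ (fun i : I => Z.1 i) ∧
          ∃ l : E →ᵃ[ℝ] ℝ, (∀ i ∈ I, l (Z.1 i) = c i) ∧ ∀ j, l (Z.1 j) ≤ c j := by
  filter_upwards [gp_ae μ hμ n] with Z hZ hmem c
  obtain ⟨I, hI, hx, l, hl, hl'⟩ := lp_pivot n Z.1 Z.2 hZ.1 hZ.2 hmem c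
  exact ⟨I, hI, hx, hZ.1 I hI.le, l, hl, hl'⟩

end Pool.H40.EV
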