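import Pool.Agent.Helper40.EV.Base
import Pool.Agent.Helper40.EV.Interp
import Pool.Agent.Helper40.EV.LPae
import Pool.Agent.Helper40.EV.Tools1
import Pool.Agent.Helper40.EV.Tools2

/-! EV-13: the probabilistic upper bound for `hullMass` with random heights. -/

set_option autoImplicit false

namespace Pool.H40.EV

open MeasureTheory Set Matrix
open scoped ENNReal

/-- the uniform distribution on `[0,1]` -/
noncomputable def unif : Measure ℝ := volume.restrict (Icc 0 1)

instance isProb_unif : IsProbabilityMeasure unif := ⟨by simp [unif]⟩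

theorem unif_ge (b : ℝ) : unif {t | b ≤ t} = ENNReal.ofReal (1 - clip b) := by
  have h1 : {t : ℝ | b ≤ t} ∩ Icc 0 1 = Icc (max b 0) 1 := by
    ext t
    simp only [mem_inter_iff, mem_ofPred_eq, mem_Icc, max_le_iff]
    tauto
  rw [unif, Measure.restrict_apply (show MeasurableSet {t : ℝ | b ≤ t} from measurableSet_Ici), h1,
    Real.volume_Icc, clip]
  rcases le_total b 1 with hb | hb
  · rw [min_eq_right hb, max_comm]
  · rw [min_eq_left hb, max_eq_right (zero_le_one : (0:ℝ) ≤ 1), sub_self, ENNReal.ofReal_zero,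
      ENNReal.ofReal_eq_zero]
    have : b ≤ max b 0 := le_max_left _ _
    linarith

theorem clip_nonneg (t : ℝ) : 0 ≤ clip t := le_max_left _ _

theorem clip_le_one (t : ℝ) : clip t ≤ 1 := max_le zero_le_one (min_le_left _ _)

theorem continuous_clip : Continuous clip :=
  continuous_const.max (continuous_const.min continuous_id)

section

variable {d : ℕ} {K : Set (Fin d → ℝ)}

theorem integrable_clip (hKc : IsCompact K) (B : Fin (d + 1) → ℝ) :
    Integrable (fun x => clip (aff B x)) (volume.restrict K) := by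
  have := (continuous_clip.comp (continuous_aff_right B)).continuousOn.integrableOn_compact
    (μ := volume) hKc
  exact this

theorem MM_le (hKc : IsCompact K) (B : Fin (d + 1) → ℝ) : MM K B ≤ vol K := by
  have : IsFiniteMeasure (volume.restrict K) :=
    ⟨by rw [Measure.restrict_apply_univ]; exact hKc.measure_lt_top⟩
  have h1 : MM K B ≤ ∫ _ in K, (1 : ℝ) :=
    integral_mono (integrable_clip hKc B) (integrable_const 1) fun x => clip_le_one _
  simpa [vol, Measure.real] using h1

theorem section_mass (hKc : IsCompact K) (B : Fin (d + 1) → ℝ) :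
    ((volume.restrict K).prod unif) {z : (Fin d → ℝ) × ℝ | aff B z.1 ≤ z.2} =
      ENNReal.ofReal (vol K - MM K B) := by
  have : IsFiniteMeasure (volume.restrict K) :=
    ⟨by rw [Measure.restrict_apply_univ]; exact hKc.measure_lt_top⟩
  have hm : MeasurableSet {z : (Fin d → ℝ) × ℝ | aff B z.1 ≤ z.2} :=
    (isClosed_le ((continuous_aff_right B).comp continuous_fst) continuous_snd).measurableSet
  rw [Measure.prod_apply hm]
  have h1 : ∀ x : Fin d → ℝ, unif (Prod.mk x ⁻¹' {z : (Fin d → ℝ) × ℝ | aff B z.1 ≤ z.2}) =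
      ENNReal.ofReal (1 - clip (aff B x)) := fun x => unif_ge (aff B x)
  simp only [h1]
  have hi : Integrable (fun x => 1 - clip (aff B x)) (volume.restrict K) :=
    (integrable_const 1).sub (integrable_clip hKc B)
  rw [← ofReal_integral_eq_lintegral_ofReal hi
    (Filter.Eventually.of_forall fun x => sub_nonneg.mpr (clip_le_one _)),
    integral_sub (integrable_const 1) (integrable_clip hKc B)]
  congr 2
  simp [vol, Measure.real]

theorem fst_preserving (μ : Measure (Fin d → ℝ)) [SigmaFinite μ] (n : ℕ) :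
    MeasurePreserving (fun (Y : Fin n → (Fin d → ℝ) × ℝ) i => (Y i).1)
      (Measure.pi fun _ => μ.prod unif) (Measure.pi fun _ => μ) :=
  measurePreserving_pi (fun _ => μ.prod unif) (fun _ => μ) fun _ => measurePreserving_fst

/-- the event attached to an index set -/
def goodSet (d n : ℕ) (I : Finset (Fin n)) (hI : I.card = d + 1) :
    Set (Fin n → (Fin d → ℝ) × ℝ) :=
  {Y | (Matrix.of fun i => ph (Y (I.orderEmbOfFin hI i)).1).det ≠ 0 ∧
    ∀ j ∉ I, aff (interp ph fun i => Y (I.orderEmbOfFin hI i)) (Y j).1 ≤ (Y j).2}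

theorem good_of_lp {n : ℕ} (Y : Fin n → (Fin d → ℝ) × ℝ) (I : Finset (Fin n))
    (hI : I.card = d + 1) (hind : AffineIndependent ℝ (fun i : I => (Y i).1))
    (l : (Fin d → ℝ) →ᵃ[ℝ] ℝ) (hl : ∀ i ∈ I, l (Y i).1 = (Y i).2) (hl' : ∀ j, l (Y j).1 ≤ (Y j).2) :
    Y ∈ goodSet d n I hI := by
  have hdet : (Matrix.of fun i => ph (Y (I.orderEmbOfFin hI i)).1).det ≠ 0 :=
    det_ne_zero_of_affineIndependent
      (affineIndependent_orderEmbOfFin (fun i => (Y i).1) I hI hind)
  obtain ⟨B, hB⟩ := exists_aff l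
  have hint : (interp ph fun i => Y (I.orderEmbOfFin hI i)) = B := by
    refine interp_eq ph (fun i => Y (I.orderEmbOfFin hI i)) hdet B fun i => ?_
    have h1 := hl _ (Finset.orderEmbOfFin_mem I hI i)
    rw [hB] at h1
    exact h1
  refine ⟨hdet, fun j _ => ?_⟩
  rw [hint, ← hB]
  exact hl' j

theorem ae_bound (hKc : IsCompact K) (n : ℕ) :
    ∀ᵐ Y : Fin n → (Fin d → ℝ) × ℝ
      ∂(Measure.pi fun _ : Fin n => (volume.restrict K).prod unif),
      (volume.restrict K) {x | x ∈ convexHull ℝ (range fun i => (Y i).1)} ≤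
        ∑ I : {I : Finset (Fin n) // I.card = d + 1},
          (goodSet d n I.1 I.2).indicator (fun Y => ENNReal.ofReal
            (|(Matrix.of fun i => ph (Y (I.1.orderEmbOfFin I.2 i)).1).det| / (d.factorial : ℝ))) Y := by
  have : IsFiniteMeasure (volume.restrict K) :=
    ⟨by rw [Measure.restrict_apply_univ]; exact hKc.measure_lt_top⟩
  have hμ : ∀ s : AffineSubspace ℝ (Fin d → ℝ), s ≠ ⊤ → (volume.restrict K) s = 0 := by
    intro s hs
    exact le_antisymm ((Measure.restrict_apply_le _ _).trans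
      (Measure.addHaar_affineSubspace volume s hs).le) bot_le
  have h1 := Measure.ae_ae_of_ae_prod (lp_ae (volume.restrict K) hμ n)
  have h2 := (fst_preserving (volume.restrict K) n).quasiMeasurePreserving.ae h1
  filter_upwards [h2] with Y hY
  have hsub : ∀ᵐ x ∂(volume.restrict K), x ∈ {x | x ∈ convexHull ℝ (range fun i => (Y i).1)} →
      x ∈ ⋃ I : {I : Finset (Fin n) // I.card = d + 1},
        {x | Y ∈ goodSet d n I.1 I.2 ∧ x ∈ convexHull ℝ
          (range fun i => (Y (I.1.orderEmbOfFin I.2 i)).1)} := by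
    filter_upwards [hY] with x hx hxc
    obtain ⟨I, hI, hxI, hind, l, hl, hl'⟩ := hx hxc fun i => (Y i).2
    have hI' : I.card = d + 1 := by simpa using hI
    refine mem_iUnion.mpr ⟨⟨I, hI'⟩, good_of_lp Y I hI' hind l hl hl', ?_⟩
    have := range_orderEmbOfFin_comp (fun i => (Y i).1) I hI'
    rw [this]
    exact hxI
  refine (measure_mono_ae hsub).trans ((measure_iUnion_le _).trans ?_)
  rw [tsum_fintype]
  refine Finset.sum_le_sum fun I _ => ?_
  by_cases hg : Y ∈ goodSet d n I.1 I.2
  · rw [indicator_of_mem hg]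
    refine (measure_mono (t := convexHull ℝ (range fun i => (Y (I.1.orderEmbOfFin I.2 i)).1))
      fun x hx => hx.2).trans ?_
    exact (Measure.restrict_apply_le _ _).trans
      (simplex_volume_le d fun i => (Y (I.1.orderEmbOfFin I.2 i)).1)
  · rw [indicator_of_notMem hg]
    have : {x | Y ∈ goodSet d n I.1 I.2 ∧ x ∈ convexHull ℝ
          (range fun i => (Y (I.1.orderEmbOfFin I.2 i)).1)} = ∅ := by
      ext x
      simp [hg]
    rw [this, measure_empty]

/-- the section set -/
def Sset (d : ℕ) : Set ((Fin (d + 1) → (Fin d → ℝ) × ℝ) × ((Fin d → ℝ) × ℝ)) :=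
  {q | aff (interp ph q.1) q.2.1 ≤ q.2.2}

theorem measurableSet_Sset (d : ℕ) : MeasurableSet (Sset d) := by
  have h1 : Measurable fun q : (Fin (d + 1) → (Fin d → ℝ) × ℝ) × ((Fin d → ℝ) × ℝ) =>
      aff (interp ph q.1) q.2.1 :=
    continuous_aff.measurable.comp
      (((measurable_interp measurable_ph).comp measurable_fst).prodMk
        (measurable_fst.comp measurable_snd))
  exact measurableSet_le h1 (measurable_snd.comp measurable_snd)

/-- the weight -/
noncomputable def wt (d : ℕ) (Y : Fin (d + 1) → (Fin d → ℝ) × ℝ) : ℝ≥0∞ :=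
  ENNReal.ofReal (|(Matrix.of fun i => ph (Y i).1).det| / (d.factorial : ℝ))

theorem measurable_det_fst (d : ℕ) : Measurable fun Y : Fin (d + 1) → (Fin d → ℝ) × ℝ =>
    (Matrix.of fun i => ph (Y i).1).det :=
  (measurable_det measurable_ph).comp
      (measurable_pi_lambda _ fun i => measurable_fst.comp (measurable_pi_apply i))

theorem measurable_wt (d : ℕ) : Measurable (wt d) :=
  ENNReal.measurable_ofReal.comp (((measurable_det_fst d).norm).div_const _)

/-- nonzero determinant -/
def NZ (d : ℕ) : Set (Fin (d + 1) → (Fin d → ℝ) × ℝ) :=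
  {Y | (Matrix.of fun i => ph (Y i).1).det ≠ 0}

theorem measurableSet_NZ (d : ℕ) : MeasurableSet (NZ d) :=
  (measurable_det_fst d) (measurableSet_singleton (0 : ℝ)).compl

theorem measurable_sub {α : Type*} [MeasurableSpace α] {n r : ℕ} (I : Finset (Fin n))
    (hI : I.card = r) : Measurable fun (Y : Fin n → α) (i : Fin r) => Y (I.orderEmbOfFin hI i) :=
  measurable_pi_lambda _ fun _ => measurable_pi_apply _

theorem term_eq {n : ℕ} (I : Finset (Fin n)) (hI : I.card = d + 1)
    (Y : Fin n → (Fin d → ℝ) × ℝ) :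
    (goodSet d n I hI).indicator (fun Y => ENNReal.ofReal
            (|(Matrix.of fun i => ph (Y (I.orderEmbOfFin hI i)).1).det| / (d.factorial : ℝ))) Y =
      (NZ d).indicator (wt d) (fun i => Y (I.orderEmbOfFin hI i)) *
        ({X : Fin n → (Fin d → ℝ) × ℝ | ∀ j ∉ I,
          ((fun i => X (I.orderEmbOfFin hI i)), X j) ∈ Sset d}.indicator 1 Y) := by
  by_cases h1 : (fun i => Y (I.orderEmbOfFin hI i)) ∈ NZ d
  · by_cases h2 : Y ∈ {X : Fin n → (Fin d → ℝ) × ℝ | ∀ j ∉ I,
          ((fun i => X (I.orderEmbOfFin hI i)), X j) ∈ Sset d}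
    · rw [indicator_of_mem h1, indicator_of_mem h2,
        indicator_of_mem (show Y ∈ goodSet d n I hI from ⟨h1, h2⟩), Pi.one_apply, mul_one]
      rfl
    · rw [indicator_of_notMem h2,
        indicator_of_notMem (show Y ∉ goodSet d n I hI from fun h => h2 h.2), mul_zero]
  · rw [indicator_of_notMem h1,
        indicator_of_notMem (show Y ∉ goodSet d n I hI from fun h => h1 h.1), zero_mul]

theorem measurableSet_sub {n : ℕ} (I : Finset (Fin n)) (hI : I.card = d + 1) :
    MeasurableSet {X : Fin n → (Fin d → ℝ) × ℝ | ∀ j ∉ I,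
          ((fun i => X (I.orderEmbOfFin hI i)), X j) ∈ Sset d} := by
  have : {X : Fin n → (Fin d → ℝ) × ℝ | ∀ j ∉ I,
          ((fun i => X (I.orderEmbOfFin hI i)), X j) ∈ Sset d} =
      ⋂ j : Fin n, ⋂ (_ : j ∉ I), {X : Fin n → (Fin d → ℝ) × ℝ |
        ((fun i => X (I.orderEmbOfFin hI i)), X j) ∈ Sset d} := by
    ext X
    simp
  rw [this]
  refine MeasurableSet.iInter fun j => MeasurableSet.iInter fun _ => ?_
  exact ((measurable_sub I hI).prodMk (measurable_pi_apply j)) (measurableSet_Sset d)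

theorem measurable_term {n : ℕ} (I : Finset (Fin n)) (hI : I.card = d + 1) :
    Measurable ((goodSet d n I hI).indicator (fun Y => ENNReal.ofReal
            (|(Matrix.of fun i => ph (Y (I.orderEmbOfFin hI i)).1).det| / (d.factorial : ℝ)))) := by
  have h : ((goodSet d n I hI).indicator (fun Y => ENNReal.ofReal
            (|(Matrix.of fun i => ph (Y (I.orderEmbOfFin hI i)).1).det| / (d.factorial : ℝ)))) =
      fun Y => (NZ d).indicator (wt d) (fun i => Y (I.orderEmbOfFin hI i)) *
        ({X : Fin n → (Fin d → ℝ) × ℝ | ∀ j ∉ I,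
          ((fun i => X (I.orderEmbOfFin hI i)), X j) ∈ Sset d}.indicator 1 Y) := by
    funext Y
    exact term_eq I hI Y
  rw [h]
  refine Measurable.mul ?_ ?_
  · exact ((measurable_wt d).indicator (measurableSet_NZ d)).comp (measurable_sub I hI)
  · exact measurable_one.indicator (measurableSet_sub I hI)

theorem measurable_MM (hKc : IsCompact K) : Measurable (MM K) := by
  have : IsFiniteMeasure (volume.restrict K) :=
    ⟨by rw [Measure.restrict_apply_univ]; exact hKc.measure_lt_top⟩
  have h1 : StronglyMeasurable fun q : (Fin (d + 1) → ℝ) × (Fin d → ℝ) => clip (aff q.1 q.2) :=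
    (continuous_clip.comp continuous_aff).stronglyMeasurable
  exact (h1.integral_prod_right' (ν := volume.restrict K)).measurable

theorem term_integral (hKc : IsCompact K) {n : ℕ} (I : Finset (Fin n)) (hI : I.card = d + 1) :
    ∫⁻ Y : Fin n → (Fin d → ℝ) × ℝ, (goodSet d n I hI).indicator (fun Y => ENNReal.ofReal
            (|(Matrix.of fun i => ph (Y (I.orderEmbOfFin hI i)).1).det| / (d.factorial : ℝ))) Y
      ∂(Measure.pi fun _ : Fin n => (volume.restrict K).prod unif) =
    ∫⁻ Y : Fin (d + 1) → (Fin d → ℝ) × ℝ, (NZ d).indicator (wt d) Y *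
      ENNReal.ofReal (vol K - MM K (interp ph Y)) ^ (n - (d + 1))
      ∂(Measure.pi fun _ : Fin (d + 1) => (volume.restrict K).prod unif) := by
  have : IsFiniteMeasure (volume.restrict K) :=
    ⟨by rw [Measure.restrict_apply_univ]; exact hKc.measure_lt_top⟩
  simp only [term_eq]
  rw [split_pi ((volume.restrict K).prod unif) n (d + 1) I hI _
    ((measurable_wt d).indicator (measurableSet_NZ d)) (Sset d) (measurableSet_Sset d)]
  refine lintegral_congr fun Y => ?_
  congr 2
  exact section_mass hKc (interp ph Y)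

/-- all heights in `[0,1]` -/
def HT (d : ℕ) : Set (Fin (d + 1) → (Fin d → ℝ) × ℝ) :=
  univ.pi fun _ => (univ : Set (Fin d → ℝ)) ×ˢ Icc (0:ℝ) 1

theorem pi_unif (μ : Measure (Fin d → ℝ)) [SigmaFinite μ] :
    (Measure.pi fun _ : Fin (d + 1) => μ.prod unif) =
      (Measure.pi fun _ : Fin (d + 1) => μ.prod (volume : Measure ℝ)).restrict (HT d) := by
  rw [HT, Measure.restrict_pi_pi]
  congr 1
  funext _
  rw [unif, ← Measure.prod_restrict, Measure.restrict_univ]

theorem measurableSet_HT (d : ℕ) : MeasurableSet (HT d) :=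
  MeasurableSet.univ_pi fun _ => MeasurableSet.univ.prod measurableSet_Icc

theorem inner_step (hKc : IsCompact K) (N : ℕ) (A : Fin (d + 1) → ℝ) :
    ∫⁻ x : Fin (d + 1) → (Fin d → ℝ), ENNReal.ofReal |(Matrix.of fun i => ph (x i)).det| *
      (HT d).indicator (fun Y => wt d Y * ENNReal.ofReal (vol K - MM K (interp ph Y)) ^ N)
        (fun i => (x i, A ⬝ᵥ ph (x i))) ∂(Measure.pi fun _ : Fin (d + 1) => volume.restrict K) =
    (d + 1 : ℕ) * ENNReal.ofReal ((vol K - MM K A) ^ N * (Gam K A).det) := by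
  have : IsFiniteMeasure (volume.restrict K) :=
    ⟨by rw [Measure.restrict_apply_univ]; exact hKc.measure_lt_top⟩
  have hs : MeasurableSet {x : Fin d → ℝ | 0 ≤ aff A x ∧ aff A x ≤ 1} :=
    ((isClosed_le continuous_const (continuous_aff_right A)).inter
      (isClosed_le (continuous_aff_right A) continuous_const)).measurableSet
  have hV : 0 ≤ vol K - MM K A := sub_nonneg.mpr (MM_le hKc A)
  have h1 : ∀ x : Fin (d + 1) → (Fin d → ℝ),
      ENNReal.ofReal |(Matrix.of fun i => ph (x i)).det| *
      (HT d).indicator (fun Y => wt d Y * ENNReal.ofReal (vol K - MM K (interp ph Y)) ^ N)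
        (fun i => (x i, A ⬝ᵥ ph (x i))) =
      (univ.pi fun _ : Fin (d + 1) => {x : Fin d → ℝ | 0 ≤ aff A x ∧ aff A x ≤ 1}).indicator
        (fun x => ENNReal.ofReal ((vol K - MM K A) ^ N / (d.factorial : ℝ)) *
          ENNReal.ofReal ((Matrix.of fun i => ph (x i)).det ^ 2)) x := by
    intro x
    by_cases hx : x ∈ univ.pi fun _ : Fin (d + 1) => {x : Fin d → ℝ | 0 ≤ aff A x ∧ aff A x ≤ 1}
    · have hx' : (fun i => (x i, A ⬝ᵥ ph (x i)) : Fin (d + 1) → (Fin d → ℝ) × ℝ) ∈ HT d := by
        intro i hi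
        exact ⟨mem_univ _, hx i hi⟩
      rw [indicator_of_mem hx, indicator_of_mem hx']
      by_cases hdet : (Matrix.of fun i => ph (x i)).det = 0
      · rw [hdet]
        simp
      · have hint : interp ph (fun i => (x i, A ⬝ᵥ ph (x i)) : Fin (d + 1) → (Fin d → ℝ) × ℝ) = A :=
          interp_eq ph (fun i => (x i, A ⬝ᵥ ph (x i)) : Fin (d + 1) → (Fin d → ℝ) × ℝ) hdet A
            fun i => rfl
        rw [hint, wt, ← ENNReal.ofReal_pow hV, ← ENNReal.ofReal_mul (by positivity),
          ← ENNReal.ofReal_mul (abs_nonneg _), ← ENNReal.ofReal_mul (by positivity)]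
        congr 1
        rw [← sq_abs ((Matrix.of fun i => ph (x i)).det)]
        ring
    · have hx' : (fun i => (x i, A ⬝ᵥ ph (x i)) : Fin (d + 1) → (Fin d → ℝ) × ℝ) ∉ HT d := by
        intro h
        apply hx
        intro i hi
        exact (h i hi).2
      rw [indicator_of_notMem hx, indicator_of_notMem hx', mul_zero]
  simp only [h1]
  rw [lintegral_indicator (MeasurableSet.univ_pi fun _ => hs), Measure.restrict_pi_pi,
    lintegral_const_mul' _ _ ENNReal.ofReal_ne_top]
  simp only [Measure.restrict_restrict hs]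
  have hint : ∀ i j, Integrable (fun x : Fin d → ℝ => ph x i * ph x j)
      (volume.restrict ({x : Fin d → ℝ | 0 ≤ aff A x ∧ aff A x ≤ 1} ∩ K)) := by
    intro i j
    have hc : Continuous fun x : Fin d → ℝ => ph x i * ph x j :=
      ((continuous_apply i).comp continuous_ph).mul ((continuous_apply j).comp continuous_ph)
    exact (hc.continuousOn.integrableOn_compact hKc).mono_set inter_subset_right
  rw [andreief _ ph measurable_ph hint, ← ENNReal.ofReal_mul (by positivity)]
  have hset : {x : Fin d → ℝ | 0 ≤ aff A x ∧ aff A x ≤ 1} ∩ K =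
      {x | x ∈ K ∧ 0 ≤ aff A x ∧ aff A x ≤ 1} := by
    ext x
    simp only [mem_inter_iff, mem_ofPred_eq]
    tauto
  rw [hset]
  have hG : (Matrix.of fun i j => ∫ x in {x | x ∈ K ∧ 0 ≤ aff A x ∧ aff A x ≤ 1},
      ph x i * ph x j) = Gam K A := rfl
  rw [hG, ← ENNReal.ofReal_natCast, ← ENNReal.ofReal_mul (Nat.cast_nonneg _)]
  congr 1
  have hf : ((d + 1).factorial : ℝ) = (d + 1 : ℕ) * (d.factorial : ℝ) := by
    rw [Nat.factorial_succ]
    push_cast
    ring
  have hf0 : (d.factorial : ℝ) ≠ 0 := by positivity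
  rw [hf]
  field_simp

theorem bp_step (hKc : IsCompact K) (N : ℕ) :
    ∫⁻ Y : Fin (d + 1) → (Fin d → ℝ) × ℝ, (NZ d).indicator (wt d) Y *
      ENNReal.ofReal (vol K - MM K (interp ph Y)) ^ N
      ∂(Measure.pi fun _ : Fin (d + 1) => (volume.restrict K).prod unif) =
    (d + 1 : ℕ) * ∫⁻ A : Fin (d + 1) → ℝ, ENNReal.ofReal ((vol K - MM K A) ^ N * (Gam K A).det) := by
  have : IsFiniteMeasure (volume.restrict K) :=
    ⟨by rw [Measure.restrict_apply_univ]; exact hKc.measure_lt_top⟩
  have hmf : Measurable fun Y : Fin (d + 1) → (Fin d → ℝ) × ℝ =>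
      wt d Y * ENNReal.ofReal (vol K - MM K (interp ph Y)) ^ N := by
    refine (measurable_wt d).mul (Measurable.pow_const ?_ N)
    exact ENNReal.measurable_ofReal.comp
      (measurable_const.sub ((measurable_MM hKc).comp (measurable_interp measurable_ph)))
  rw [pi_unif, ← lintegral_indicator (measurableSet_HT d)]
  have h1 : ∀ Y : Fin (d + 1) → (Fin d → ℝ) × ℝ,
      (HT d).indicator (fun Y => (NZ d).indicator (wt d) Y *
        ENNReal.ofReal (vol K - MM K (interp ph Y)) ^ N) Y =
      {Y : Fin (d + 1) → (Fin d → ℝ) × ℝ | (Matrix.of fun i => ph (Y i).1).det ≠ 0}.indicator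
        ((HT d).indicator fun Y => wt d Y *
          ENNReal.ofReal (vol K - MM K (interp ph Y)) ^ N) Y := by
    intro Y
    by_cases h1 : Y ∈ HT d
    · by_cases h2 : Y ∈ NZ d
      · rw [indicator_of_mem h1, indicator_of_mem h2]
        have h2' : Y ∈ {Y : Fin (d + 1) → (Fin d → ℝ) × ℝ |
          (Matrix.of fun i => ph (Y i).1).det ≠ 0} := h2
        rw [indicator_of_mem h2', indicator_of_mem h1]
      · rw [indicator_of_mem h1, indicator_of_notMem h2]
        have h2' : Y ∉ {Y : Fin (d + 1) → (Fin d → ℝ) × ℝ |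
          (Matrix.of fun i => ph (Y i).1).det ≠ 0} := h2
        rw [indicator_of_notMem h2', zero_mul]
    · rw [indicator_of_notMem h1]
      by_cases h2 : Y ∈ {Y : Fin (d + 1) → (Fin d → ℝ) × ℝ |
          (Matrix.of fun i => ph (Y i).1).det ≠ 0}
      · rw [indicator_of_mem h2, indicator_of_notMem h1]
      · rw [indicator_of_notMem h2]
  simp only [h1]
  rw [blaschke_petkantschin (volume.restrict K) ph measurable_ph _
    (hmf.indicator (measurableSet_HT d))]
  rw [← lintegral_const_mul' _ _ (by simp)]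
  exact lintegral_congr fun A => inner_step hKc N A

theorem hullMass_eq (hKc : IsCompact K) (n : ℕ) :
    hullMass (volume.restrict K) n =
      ∫⁻ Y : Fin n → (Fin d → ℝ) × ℝ,
        (volume.restrict K) {x | x ∈ convexHull ℝ (range fun i => (Y i).1)}
        ∂(Measure.pi fun _ : Fin n => (volume.restrict K).prod unif) := by
  have : IsFiniteMeasure (volume.restrict K) :=
    ⟨by rw [Measure.restrict_apply_univ]; exact hKc.measure_lt_top⟩
  have hm : Measurable fun X : Fin n → Fin d → ℝ =>
      (volume.restrict K) {x | x ∈ convexHull ℝ (range X)} :=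
    measurable_measure_prodMk_left (measurableSet_hull n)
  rw [hullMass, ← (fst_preserving (volume.restrict K) n).lintegral_comp hm]

end

theorem C_prob (d : ℕ) (K : Set (Fin d → ℝ)) (hK : Convex ℝ K) (hKc : IsCompact K) (n : ℕ)
    (hn : d + 1 ≤ n) :
    hullMass (volume.restrict K) n ≤ ((d + 1) * n.choose (d + 1) : ℕ) *
      ∫⁻ B : Fin (d + 1) → ℝ, ENNReal.ofReal ((vol K - MM K B) ^ (n - (d + 1)) * (Gam K B).det) := by
  rw [hullMass_eq hKc]
  refine (lintegral_mono_ae (ae_bound hKc n)).trans ?_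
  rw [lintegral_finsetSum _ fun I _ => measurable_term I.1 I.2]
  simp only [term_integral hKc, bp_step hKc]
  rw [Finset.sum_const, Finset.card_univ, Fintype.card_finset_len, Fintype.card_fin, nsmul_eq_mul,
    ← mul_assoc]
  refine le_of_eq ?_
  congr 1
  push_cast
  ring

end Pool.H40.EV
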