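import Pool.Agent.Helper40.EV.Base

/-! EV-16: the integral over the cone, and the lift zonoid is contained in the cone. -/

set_option autoImplicit false

namespace Pool.H40.EV

open MeasureTheory Set Matrix
open scoped ENNReal Pointwise

variable {m : ℕ}

theorem beta_nat (V : ℝ) (M : ℕ) : ∀ N : ℕ,
    ∫ s in (0:ℝ)..V, (V - s) ^ N * s ^ M =
      V ^ (N + M + 1) * (N.factorial * M.factorial / (N + M + 1).factorial) := by
  induction M with
  | zero =>
    intro N
    have h1 : ∀ x ∈ uIcc (0:ℝ) V, HasDerivAt (fun s : ℝ => -((V - s) ^ (N + 1) / (N + 1)))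
        ((V - x) ^ N * x ^ 0) x := by
      intro x _
      have h2 : HasDerivAt (fun s : ℝ => (V - s) ^ (N + 1))
          (((N + 1 : ℕ) : ℝ) * (V - x) ^ N * (-1)) x := by
        exact (((hasDerivAt_id x).const_sub V).pow (N + 1)).congr_deriv (by simp)
      have : (N : ℝ) + 1 ≠ 0 := by positivity
      refine (h2.div_const ((N : ℝ) + 1)).neg.congr_deriv ?_
      push_cast
      field_simp
    rw [intervalIntegral.integral_eq_sub_of_hasDerivAt h1
      (Continuous.intervalIntegrable (by fun_prop) _ _)]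
    simp only [sub_self, sub_zero, add_zero, Nat.factorial_zero, Nat.cast_one, mul_one]
    have h4 : ((N + 1).factorial : ℝ) = ((N : ℝ) + 1) * N.factorial := by
      rw [Nat.factorial_succ]; push_cast; ring
    have h5 : (N : ℝ) + 1 ≠ 0 := by positivity
    have h6 : (N.factorial : ℝ) ≠ 0 := by positivity
    rw [h4]
    simp only [ne_eq, Nat.add_eq_zero_iff, one_ne_zero, and_false, not_false_eq_true, zero_pow]
    field_simp
    ring
  | succ M ih =>
    intro N
    have h0 : ∀ x ∈ uIcc (0:ℝ) V, HasDerivAt (fun s : ℝ => (V - s) ^ (N + 1) * s ^ (M + 1))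
        ((-((N : ℝ) + 1)) * ((V - x) ^ N * x ^ (M + 1)) +
          ((M : ℝ) + 1) * ((V - x) ^ (N + 1) * x ^ M)) x := by
      intro x _
      have h2 : HasDerivAt (fun s : ℝ => (V - s) ^ (N + 1))
          (((N + 1 : ℕ) : ℝ) * (V - x) ^ N * (-1)) x := by
        exact (((hasDerivAt_id x).const_sub V).pow (N + 1)).congr_deriv (by simp)
      have h3 : HasDerivAt (fun s : ℝ => s ^ (M + 1)) (((M + 1 : ℕ) : ℝ) * x ^ M) x := by
        simpa using hasDerivAt_pow (M + 1) x
      refine (h2.mul h3).congr_deriv ?_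
      push_cast
      ring
    have hi1 : IntervalIntegrable (fun x : ℝ => (-((N : ℝ) + 1)) * ((V - x) ^ N * x ^ (M + 1)))
        volume 0 V := Continuous.intervalIntegrable (by fun_prop) _ _
    have hi2 : IntervalIntegrable (fun x : ℝ => ((M : ℝ) + 1) * ((V - x) ^ (N + 1) * x ^ M))
        volume 0 V := Continuous.intervalIntegrable (by fun_prop) _ _
    have h := intervalIntegral.integral_eq_sub_of_hasDerivAt h0 (hi1.add hi2)
    rw [intervalIntegral.integral_add hi1 hi2, intervalIntegral.integral_const_mul,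
      intervalIntegral.integral_const_mul, ih (N + 1)] at h
    simp only [sub_self, sub_zero, ne_eq, Nat.add_eq_zero_iff, one_ne_zero, and_false,
      not_false_eq_true, zero_pow, zero_mul, mul_zero] at h
    have h5 : (N : ℝ) + 1 ≠ 0 := by positivity
    have h7 : ((N + 1).factorial : ℝ) = ((N : ℝ) + 1) * N.factorial := by
      rw [Nat.factorial_succ]; push_cast; ring
    have h8 : ((M + 1).factorial : ℝ) = ((M : ℝ) + 1) * M.factorial := by
      rw [Nat.factorial_succ]; push_cast; ring
    have h9 : (∫ s in (0:ℝ)..V, (V - s) ^ N * s ^ (M + 1)) =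
        (((M : ℝ) + 1) * (V ^ (N + 1 + M + 1) * ((N + 1).factorial * M.factorial /
          (N + 1 + M + 1).factorial))) / ((N : ℝ) + 1) := by
      rw [eq_div_iff h5]
      linarith
    rw [h9, show N + (M + 1) + 1 = N + 1 + M + 1 by ring, h7, h8]
    field_simp

/-- coordinates `(z.1 0, (z.1 ∘ succ, z.2))` on `FF m`. -/
noncomputable def eFF (m : ℕ) : FF m ≃ᵐ ℝ × Pt m :=
  ((MeasurableEquiv.piFinSuccAbove (fun _ : Fin (m + 1) => ℝ) 0).prodCongr
    (MeasurableEquiv.refl ℝ)).trans MeasurableEquiv.prodAssoc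

theorem eFF_apply (z : FF m) : eFF m z = (z.1 0, ((fun j : Fin m => z.1 j.succ), z.2)) := by
  rfl

theorem mp_eFF (m : ℕ) : MeasurePreserving (eFF m) volume volume := by
  have h1 := (volume_preserving_piFinSuccAbove (fun _ : Fin (m + 1) => ℝ) 0)
  have h2 : MeasurePreserving ((MeasurableEquiv.piFinSuccAbove (fun _ : Fin (m + 1) => ℝ) 0).prodCongr
    (MeasurableEquiv.refl ℝ)) (volume : Measure (FF m)) volume :=
    h1.prod (MeasurePreserving.id volume)
  have h3 : MeasurePreserving (MeasurableEquiv.prodAssoc : (ℝ × (Fin m → ℝ)) × ℝ ≃ᵐ ℝ × Pt m)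
    volume volume := volume_preserving_prodAssoc
  exact h3.comp h2

theorem coneK_eq (K : Set (Pt m)) :
    coneK K = (eFF m) ⁻¹' {q : ℝ × Pt m | q.1 ∈ Ioc 0 (vol K) ∧ q.1⁻¹ • q.2 ∈ K} := by
  ext z
  simp only [coneK, mem_setOf_eq, mem_preimage, eFF_apply, mem_Ioc, and_assoc, Prod.smul_def,
    smul_eq_mul]

theorem cone_integral (m : ℕ) (K : Set (Pt m)) (hK : Convex ℝ K) (hKc : IsCompact K)
    (hKi : (interior K).Nonempty) (n : ℕ) (hn : m + 2 ≤ n) :
    MeasurableSet (coneK K) ∧
    (((m + 2) * n.choose (m + 2) : ℕ) : ℝ≥0∞) *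
      ∫⁻ z in coneK K, ENNReal.ofReal ((vol K - z.1 0) ^ (n - (m + 2))) = (volume K) ^ (n + 1) := by
  have hKm : MeasurableSet K := hKc.isClosed.measurableSet
  have hS : MeasurableSet {q : ℝ × Pt m | q.1 ∈ Ioc 0 (vol K) ∧ q.1⁻¹ • q.2 ∈ K} := by
    refine (measurable_fst measurableSet_Ioc).inter ?_
    exact (measurable_fst.inv.smul measurable_snd) hKm
  have hC : MeasurableSet (coneK K) := by
    rw [coneK_eq]
    exact (eFF m).measurable hS
  refine ⟨hC, ?_⟩
  have hVt : volume K ≠ ∞ := hKc.measure_lt_top.ne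
  have hV0 : 0 ≤ vol K := ENNReal.toReal_nonneg
  have hVK : volume K = ENNReal.ofReal (vol K) := (ENNReal.ofReal_toReal hVt).symm
  obtain ⟨N, rfl⟩ : ∃ N, n = N + (m + 2) := ⟨n - (m + 2), by omega⟩
  have hNsub : N + (m + 2) - (m + 2) = N := by omega
  rw [hNsub]
  -- change of coordinates
  have h1 : ∫⁻ z in coneK K, ENNReal.ofReal ((vol K - z.1 0) ^ N) =
      ∫⁻ q in {q : ℝ × Pt m | q.1 ∈ Ioc 0 (vol K) ∧ q.1⁻¹ • q.2 ∈ K},
        ENNReal.ofReal ((vol K - q.1) ^ N) := by
    rw [coneK_eq]
    exact (mp_eFF m).setLIntegral_comp_preimage hS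
      (f := fun q : ℝ × Pt m => ENNReal.ofReal ((vol K - q.1) ^ N)) (by fun_prop)
  rw [h1]
  -- Tonelli
  have h2 : ∫⁻ q in {q : ℝ × Pt m | q.1 ∈ Ioc 0 (vol K) ∧ q.1⁻¹ • q.2 ∈ K},
        ENNReal.ofReal ((vol K - q.1) ^ N) =
      ∫⁻ s in Ioc 0 (vol K), ENNReal.ofReal ((vol K - s) ^ N) *
        (ENNReal.ofReal (s ^ (m + 1)) * volume K) := by
    rw [← lintegral_indicator hS, Measure.volume_eq_prod, lintegral_prod _ (by
      refine (Measurable.indicator ?_ hS).aemeasurable
      fun_prop), ← lintegral_indicator measurableSet_Ioc]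
    refine lintegral_congr fun s => ?_
    by_cases hs : s ∈ Ioc 0 (vol K)
    · rw [indicator_of_mem hs]
      have h3 : ∀ w : Pt m, ({q : ℝ × Pt m | q.1 ∈ Ioc 0 (vol K) ∧ q.1⁻¹ • q.2 ∈ K}).indicator
          (fun q : ℝ × Pt m => ENNReal.ofReal ((vol K - q.1) ^ N)) (s, w) =
          ({w : Pt m | s⁻¹ • w ∈ K}).indicator
            (fun _ => ENNReal.ofReal ((vol K - s) ^ N)) w := by
        intro w
        by_cases hw : s⁻¹ • w ∈ K
        · rw [indicator_of_mem (show (s, w) ∈ {q : ℝ × Pt m | q.1 ∈ Ioc 0 (vol K) ∧ q.1⁻¹ • q.2 ∈ K}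
            from ⟨hs, hw⟩), indicator_of_mem (show w ∈ {w : Pt m | s⁻¹ • w ∈ K} from hw)]
        · rw [indicator_of_notMem (fun h => hw h.2), indicator_of_notMem
            (show w ∉ {w : Pt m | s⁻¹ • w ∈ K} from hw)]
      simp only [h3]
      have hmS : MeasurableSet {w : Pt m | s⁻¹ • w ∈ K} :=
        (measurable_const_smul s⁻¹) hKm
      rw [lintegral_indicator hmS, lintegral_const, Measure.restrict_apply MeasurableSet.univ,
        univ_inter]
      congr 1
      have h4 : {w : Pt m | s⁻¹ • w ∈ K} = s • K := by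
        ext w
        rw [mem_setOf_eq, mem_smul_set_iff_inv_smul_mem₀ hs.1.ne']
      rw [h4, Measure.addHaar_smul]
      congr 2
      rw [abs_of_nonneg (by have := hs.1.le; positivity)]
      congr 1
      simp
    · rw [indicator_of_notMem hs]
      refine (lintegral_congr fun w => ?_).trans lintegral_zero
      exact indicator_of_notMem (fun h => hs h.1) _
  rw [h2]
  have h5 : ∫⁻ s in Ioc 0 (vol K), ENNReal.ofReal ((vol K - s) ^ N) *
        (ENNReal.ofReal (s ^ (m + 1)) * volume K) =
      volume K * ENNReal.ofReal (∫ s in (0:ℝ)..(vol K), (vol K - s) ^ N * s ^ (m + 1)) := by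
    rw [intervalIntegral.integral_of_le hV0, ofReal_integral_eq_lintegral_ofReal]
    · rw [← lintegral_const_mul' _ _ hVt]
      refine setLIntegral_congr_fun measurableSet_Ioc fun s hs => ?_
      have : 0 ≤ (vol K - s) ^ N := pow_nonneg (by linarith [hs.2]) _
      rw [ENNReal.ofReal_mul this]
      ring
    · exact (Continuous.intervalIntegrable (by fun_prop) 0 (vol K)).1
    · refine (ae_restrict_mem measurableSet_Ioc).mono fun s hs => ?_
      have h6 : 0 ≤ (vol K - s) ^ N := pow_nonneg (by linarith [hs.2]) _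
      have h7 : 0 ≤ s ^ (m + 1) := pow_nonneg hs.1.le _
      exact mul_nonneg h6 h7
  rw [h5, beta_nat, hVK, ← ENNReal.ofReal_natCast, ← ENNReal.ofReal_mul hV0,
    ← ENNReal.ofReal_mul (by positivity), ← ENNReal.ofReal_pow hV0]
  congr 1
  have h8 : (((m + 2) * (N + (m + 2)).choose (m + 2) : ℕ) : ℝ) *
      ((N.factorial : ℝ) * (m + 1).factorial) = (N + (m + 1) + 1).factorial := by
    have := Nat.add_choose_mul_factorial_mul_factorial N (m + 2)
    have h9 : (m + 2).factorial = (m + 2) * (m + 1).factorial := Nat.factorial_succ (m + 1)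
    rw [h9] at this
    rw [show N + (m + 1) + 1 = N + (m + 2) by ring, ← this]
    push_cast
    ring
  have h11 : ((N + (m + 1) + 1).factorial : ℝ) ≠ 0 := by positivity
  rw [show N + (m + 2) + 1 = (N + (m + 1) + 1) + 1 by ring, pow_succ (vol K) (N + (m + 1) + 1)]
  rw [mul_div_assoc', mul_div_assoc', mul_div_assoc', div_eq_iff h11, ← h8]
  ring

theorem Yset_subset (m : ℕ) (K : Set (Pt m)) (hK : Convex ℝ K) (hKc : IsCompact K) :
    Yset K ⊆ coneK K ∪ {z | z.1 0 = 0} := by
  rintro z ⟨g, hg, hg01, rfl⟩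
  have hKm : MeasurableSet K := hKc.isClosed.measurableSet
  have hfin : IsFiniteMeasure (volume.restrict K) := ⟨by
    rw [Measure.restrict_apply_univ]; exact hKc.measure_lt_top⟩
  have hgb : ∀ᵐ x ∂(volume.restrict K), ‖g x‖ ≤ 1 := Filter.Eventually.of_forall fun x => by
    rw [Real.norm_eq_abs, abs_of_nonneg (hg01 x).1]; exact (hg01 x).2
  have hgi : Integrable g (volume.restrict K) :=
    Integrable.of_bound hg.aestronglyMeasurable 1 hgb
  have hs0 : 0 ≤ ∫ x in K, g x := integral_nonneg fun x => (hg01 x).1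
  by_cases hs : ∫ x in K, g x = 0
  · right
    simpa using hs
  left
  have hspos : 0 < ∫ x in K, g x := lt_of_le_of_ne hs0 (Ne.symm hs)
  have hidint : Integrable (fun x : Pt m => x) (volume.restrict K) :=
    (continuous_id.continuousOn.integrableOn_compact hKc)
  have hgx : Integrable (fun x : Pt m => g x • x) (volume.restrict K) :=
    hidint.bdd_smul 1 hg.aestronglyMeasurable hgb
  refine ⟨by simpa using hspos, ?_, ?_⟩
  · simp only [ph_zero, mul_one]
    calc ∫ x in K, g x ≤ ∫ x in K, (1 : ℝ) := by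
          refine integral_mono hgi (integrable_const _) fun x => (hg01 x).2
      _ = vol K := by simp [vol, Measure.real]
  -- the density measure
  set μ' : Measure (Pt m) := (volume.restrict K).withDensity (fun x => ENNReal.ofReal (g x)) with hμ'
  have hμu : μ' univ = ENNReal.ofReal (∫ x in K, g x) := by
    rw [hμ', withDensity_apply _ MeasurableSet.univ, Measure.restrict_univ,
      ofReal_integral_eq_lintegral_ofReal hgi (Filter.Eventually.of_forall fun x => (hg01 x).1)]
  have : IsFiniteMeasure μ' := ⟨by rw [hμu]; exact ENNReal.ofReal_lt_top⟩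
  have : NeZero μ' := ⟨by
    intro h
    rw [h] at hμu
    simp only [Measure.coe_zero, Pi.zero_apply] at hμu
    have := (ENNReal.ofReal_eq_zero.1 hμu.symm)
    linarith⟩
  have hac : μ' ≪ volume.restrict K := withDensity_absolutelyContinuous _ _
  have hmem : ∀ᵐ x ∂μ', x ∈ K := hac.ae_le (ae_restrict_mem hKm)
  have hidμ : Integrable (fun x : Pt m => x) μ' := by
    refine (integrable_withDensity_iff_integrable_smul' (by fun_prop)
      (Filter.Eventually.of_forall fun x => ENNReal.ofReal_lt_top)).2 ?_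
    refine hgx.congr (Filter.Eventually.of_forall fun x => ?_)
    simp only
    rw [ENNReal.toReal_ofReal (hg01 x).1]
  have hav := hK.average_mem hKc.isClosed hmem hidμ
  rw [average_eq, integral_withDensity_eq_integral_toReal_smul (by fun_prop)
    (Filter.Eventually.of_forall fun x => ENNReal.ofReal_lt_top)] at hav
  have e1 : (fun x : Pt m => (ENNReal.ofReal (g x)).toReal • x) = fun x => g x • x := by
    funext x
    rw [ENNReal.toReal_ofReal (hg01 x).1]
  have e2 : μ'.real univ = ∫ x in K, g x := by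
    rw [Measure.real, hμu, ENNReal.toReal_ofReal hs0]
  rw [e1, e2] at hav
  have e3 : (∫ x in K, g x • x) = ((fun j : Fin m => ∫ x in K, g x * x.1 j),
      ∫ x in K, g x * x.2) := by
    refine Prod.ext ?_ ?_
    · rw [fst_integral hgx]
      funext j
      simp only [Prod.smul_fst]
      have h12 : Integrable (fun x : Pt m => g x • x.1) (volume.restrict K) := hgx.fst
      have := MeasureTheory.eval_integral (μ := volume.restrict K)
        (f := fun x : Pt m => g x • x.1) (fun i => h12.eval i) j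
      simpa using this
    · rw [snd_integral hgx]
      simp
  rw [e3] at hav
  simpa [Prod.smul_def] using hav

end Pool.H40.EV
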