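import Pool.Agent.Helper40.EV.Base

/-! EV-5: derivatives of cap integrals (by helper93). -/

set_option autoImplicit false

namespace Pool.H40.EV

open MeasureTheory Set Matrix
open scoped ENNReal Topology

variable {m : ℕ}

/-- `δ ↦ δ · (1,x)` as a continuous linear map. -/
noncomputable def phL (x : Fin m → ℝ) : (Fin (m + 1) → ℝ) →L[ℝ] ℝ :=
  ∑ i, (ph x i) • (ContinuousLinearMap.proj (R := ℝ) (φ := fun _ : Fin (m + 1) => ℝ) i)

theorem phL_apply (x : Fin m → ℝ) (A : Fin (m + 1) → ℝ) : phL x A = aff A x := by
  simp [phL, aff, dotProduct, mul_comm]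

theorem continuous_phL : Continuous (phL : (Fin m → ℝ) → ((Fin (m + 1) → ℝ) →L[ℝ] ℝ)) := by
  unfold phL
  refine continuous_finsetSum _ fun i _ => ?_
  exact ((continuous_apply i).comp continuous_ph).smul continuous_const

theorem phL_surj (x : Fin m → ℝ) : Function.Surjective (phL x) := by
  intro r
  refine ⟨Pi.single 0 r, ?_⟩
  rw [phL_apply, aff_eq]
  simp

/-- the set of pairs with `(x, aff A x)` on the frontier -/
theorem isClosed_frontierPairs (K : Set (Pt m)) :
    IsClosed {q : (Fin (m + 1) → ℝ) × (Fin m → ℝ) | (q.2, aff q.1 q.2) ∈ frontier K} := by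
  have h : Continuous fun q : (Fin (m + 1) → ℝ) × (Fin m → ℝ) => ((q.2, aff q.1 q.2) : Pt m) :=
    continuous_snd.prodMk continuous_aff
  exact isClosed_frontier.preimage h

theorem good_ae (m : ℕ) (K : Set (Pt m)) (hK : Convex ℝ K) (hKc : IsCompact K) :
    MeasurableSet (Good K) ∧ volume (Good K)ᶜ = 0 := by
  set S : Set ((Fin (m + 1) → ℝ) × (Fin m → ℝ)) :=
    {q | (q.2, aff q.1 q.2) ∈ frontier K} with hS
  have hSm : MeasurableSet S := (isClosed_frontierPairs K).measurableSet
  have hmeas : Measurable fun A : Fin (m + 1) → ℝ => volume (Prod.mk A ⁻¹' S) :=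
    measurable_measure_prodMk_left hSm
  have hGood : Good K = {A | volume (Prod.mk A ⁻¹' S) = 0} := rfl
  refine ⟨?_, ?_⟩
  · rw [hGood]
    exact measurableSet_eq_fun hmeas measurable_const
  · -- frontier null
    have hfr : (volume : Measure (Pt m)) (frontier K) = 0 := hK.addHaar_frontier volume
    have hfm : MeasurableSet (frontier K) := isClosed_frontier.measurableSet
    have h1 : ∀ᵐ x : Fin m → ℝ, volume (Prod.mk x ⁻¹' (frontier K)) = 0 := by
      have := (Measure.measure_prod_null (μ := (volume : Measure (Fin m → ℝ)))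
        (ν := (volume : Measure ℝ)) hfm).1 (by rw [← Measure.volume_eq_prod]; exact hfr)
      exact this
    have h2 : ((volume : Measure (Fin (m + 1) → ℝ)).prod (volume : Measure (Fin m → ℝ))) S = 0 := by
      rw [Measure.prod_apply_symm hSm, lintegral_eq_zero_iff' (measurable_measure_prodMk_right hSm).aemeasurable]
      filter_upwards [h1] with x hx
      have hpre : ((fun A : Fin (m + 1) → ℝ => (A, x)) ⁻¹' S) =
          (phL x).toLinearMap ⁻¹' (Prod.mk x ⁻¹' (frontier K)) := by
        ext A
        simp [hS, phL_apply]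
      simp only [Pi.zero_apply]
      rw [hpre]
      obtain ⟨c, -, -, hc⟩ := LinearMap.exists_map_addHaar_eq_smul_addHaar'
        ((phL x).toLinearMap) (volume : Measure (Fin (m + 1) → ℝ)) (volume : Measure ℝ) (phL_surj x)
      have hms : MeasurableSet (Prod.mk x ⁻¹' (frontier K)) := measurable_prodMk_left hfm
      have hmap := Measure.map_apply (μ := (volume : Measure (Fin (m + 1) → ℝ)))
        (f := (phL x).toLinearMap) (phL x).continuous.measurable hms
      rw [← hmap, hc, Measure.smul_apply, hx, smul_zero]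
    have h3 := Measure.measure_ae_null_of_prod_null h2
    rw [hGood]
    have : ({A : Fin (m + 1) → ℝ | volume (Prod.mk A ⁻¹' S) = 0})ᶜ =
      {A | ¬ (volume (Prod.mk A ⁻¹' S) = 0)} := rfl
    rw [this]
    exact h3

/-- Integral of `k` over the half line on the `σ` side of `s`. -/
noncomputable def half (σ : ℝ) (k : ℝ → ℝ) (s : ℝ) : ℝ := ∫ t in {t | 0 < σ * (t - s)}, k t

theorem half_eq (σ : ℝ) (hσ : σ = 1 ∨ σ = -1) (k : ℝ → ℝ) (hk : Integrable k) (s₀ s : ℝ) :
    half σ k s = half σ k s₀ - σ * ∫ t in s₀..s, k t := by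
  rcases hσ with rfl | rfl
  · have h1 : ∀ s : ℝ, {t : ℝ | 0 < 1 * (t - s)} = Ioi s := fun s => by ext t; simp
    simp only [half, h1]
    rw [← intervalIntegral.integral_interval_add_Ioi (a := s₀) (b := s) hk.integrableOn
      hk.integrableOn]
    ring
  · have h1 : ∀ s : ℝ, {t : ℝ | 0 < -1 * (t - s)} = Iio s := fun s => by ext t; simp
    simp only [half, h1]
    rw [← integral_Iic_eq_integral_Iio, ← integral_Iic_eq_integral_Iio,
      ← intervalIntegral.integral_Iic_sub_Iic hk.integrableOn hk.integrableOn]
    ring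

theorem half_hasDerivAt (σ : ℝ) (hσ : σ = 1 ∨ σ = -1) (k : ℝ → ℝ) (hk : Integrable k) (s : ℝ)
    (hc : ContinuousAt k s) : HasDerivAt (half σ k) (-σ * k s) s := by
  have h1 : half σ k = fun u => half σ k s - σ * ∫ t in s..u, k t := by
    funext u; exact half_eq σ hσ k hk s u
  rw [h1]
  have h2 := intervalIntegral.integral_hasDerivAt_right (a := s) (b := s) (f := k)
    hk.intervalIntegrable (hk.aestronglyMeasurable.stronglyMeasurableAtFilter) hc
  have h3 := (h2.const_mul σ).const_sub (half σ k s)
  simpa using h3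

theorem half_lip (σ : ℝ) (hσ : σ = 1 ∨ σ = -1) (k : ℝ → ℝ) (hk : Integrable k) (M : ℝ)
    (hM : ∀ t, |k t| ≤ M) (s s' : ℝ) : |half σ k s - half σ k s'| ≤ M * |s - s'| := by
  rw [half_eq σ hσ k hk s' s, sub_sub_cancel_left, abs_neg, abs_mul]
  have h1 : |σ| = 1 := by rcases hσ with rfl | rfl <;> simp
  rw [h1, one_mul]
  have h2 := intervalIntegral.norm_integral_le_of_norm_le_const (f := k) (C := M) (a := s')
    (b := s) (fun t _ => by rw [Real.norm_eq_abs]; exact hM t)
  rwa [Real.norm_eq_abs] at h2

theorem cap_integral (K : Set (Pt m)) (hKc : IsCompact K) (σ : ℝ) (A : Fin (m + 1) → ℝ)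
    (ψ : Pt m → ℝ) (hψ : Continuous ψ) :
    Integrable (fun x => half σ (fun t => K.indicator ψ (x, t)) (aff A x)) ∧
    ∫ p in cap K σ A, ψ p = ∫ x, half σ (fun t => K.indicator ψ (x, t)) (aff A x) := by
  have hcm : MeasurableSet (cap K σ A) := measurableSet_cap hKc.measurableSet σ A
  have hint : IntegrableOn ψ (cap K σ A) :=
    (hψ.continuousOn.integrableOn_compact hKc).mono_set (cap_subset K σ A)
  have hint' : Integrable ((cap K σ A).indicator ψ)
      ((volume : Measure (Fin m → ℝ)).prod (volume : Measure ℝ)) := by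
    rw [← Measure.volume_eq_prod]
    exact hint.integrable_indicator hcm
  have hin : ∀ x : Fin m → ℝ, ∫ t, (cap K σ A).indicator ψ (x, t) =
      half σ (fun t => K.indicator ψ (x, t)) (aff A x) := by
    intro x
    have hms : MeasurableSet {t : ℝ | 0 < σ * (t - aff A x)} :=
      (isOpen_lt continuous_const (by fun_prop)).measurableSet
    rw [half, ← integral_indicator hms]
    refine integral_congr_ae (Filter.Eventually.of_forall fun t => ?_)
    simp only [indicator, cap, mem_ofPred_eq]
    by_cases h1 : (x, t) ∈ K <;> by_cases h2 : 0 < σ * (t - aff A x) <;> simp [h1, h2]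
  refine ⟨?_, ?_⟩
  · have := hint'.integral_prod_left
    simpa only [hin] using this
  · rw [← integral_indicator hcm, Measure.volume_eq_prod, integral_prod _ hint']
    exact integral_congr_ae (Filter.Eventually.of_forall hin)

theorem cap_integral_hasFDerivAt (K : Set (Pt m)) (hKc : IsCompact K)
    (σ : ℝ) (hσ : σ = 1 ∨ σ = -1) (A : Fin (m + 1) → ℝ) (hA : A ∈ Good K)
    (ψ : Pt m → ℝ) (hψ : Continuous ψ) :
    ∃ L : (Fin (m + 1) → ℝ) →L[ℝ] ℝ,
      (∀ δ, L δ = -σ * ∫ x in sect K A, ψ (x, aff A x) * aff δ x) ∧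
      HasFDerivAt (fun A => ∫ p in cap K σ A, ψ p) L A := by
  classical
  -- bounds
  obtain ⟨M, hM⟩ : ∃ M : ℝ, ∀ p ∈ K, |ψ p| ≤ M := by
    obtain ⟨M, hM⟩ := hKc.exists_bound_of_continuousOn hψ.continuousOn
    exact ⟨M, fun p hp => by simpa using hM p hp⟩
  have hM0 : ∀ p ∈ K, 0 ≤ M := fun p hp => (abs_nonneg _).trans (hM p hp)
  set P : Set (Fin m → ℝ) := Prod.fst '' K with hP
  have hPc : IsCompact P := hKc.image continuous_fst
  set k : (Fin m → ℝ) → ℝ → ℝ := fun x t => K.indicator ψ (x, t) with hk
  set F : (Fin (m + 1) → ℝ) → (Fin m → ℝ) → ℝ := fun A x => half σ (k x) (aff A x) with hF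
  set F' : (Fin m → ℝ) → ((Fin (m + 1) → ℝ) →L[ℝ] ℝ) :=
    fun x => (-σ * K.indicator ψ (x, aff A x)) • phL x with hF'
  set bound : (Fin m → ℝ) → ℝ := P.indicator fun x => M * ‖phL x‖ with hbound
  have hmeasInd : Measurable (K.indicator ψ) := hψ.measurable.indicator hKc.measurableSet
  have hkint : ∀ x, Integrable (k x) := by
    intro x
    have hcpt : IsCompact {t : ℝ | (x, t) ∈ K} := by
      have hcl : IsClosed {t : ℝ | (x, t) ∈ K} := hKc.isClosed.preimage (by fun_prop)
      refine (hKc.image continuous_snd).of_isClosed_subset hcl ?_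
      intro t ht
      exact ⟨(x, t), ht, rfl⟩
    have h1 : IntegrableOn (fun t => ψ (x, t)) {t : ℝ | (x, t) ∈ K} :=
      (hψ.comp (by fun_prop)).continuousOn.integrableOn_compact hcpt
    have h2 := h1.integrable_indicator hcpt.measurableSet
    refine h2.congr (Filter.Eventually.of_forall fun t => ?_)
    simp only [indicator, hk, mem_ofPred_eq]
  have hkb : ∀ x t, |k x t| ≤ P.indicator (fun _ => M) x := by
    intro x t
    by_cases h : (x, t) ∈ K
    · have hx : x ∈ P := ⟨(x, t), h, rfl⟩
      simp only [hk, indicator, h, hx, if_true]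
      exact hM _ h
    · simp only [hk, indicator, h, if_false, abs_zero]
      by_cases hx : x ∈ P
      · simp only [hx, if_true]
        obtain ⟨p, hp, -⟩ := hx
        exact hM0 p hp
      · simp [hx]
  have hF'm : AEStronglyMeasurable F' := by
    have h1 : Measurable fun x : Fin m → ℝ => -σ * K.indicator ψ (x, aff A x) :=
      (hmeasInd.comp (continuous_id.prodMk (continuous_aff_right A)).measurable).const_mul _
    exact (h1.stronglyMeasurable.smul continuous_phL.stronglyMeasurable).aestronglyMeasurable
  have main := hasFDerivAt_integral_of_dominated_loc_of_lip (μ := (volume : Measure (Fin m → ℝ)))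
    (F := F) (F' := F') (x₀ := A) (bound := bound) (s := univ) (𝕜 := ℝ) Filter.univ_mem
    (Filter.Eventually.of_forall fun B => (cap_integral K hKc σ B ψ hψ).1.aestronglyMeasurable)
    (cap_integral K hKc σ A ψ hψ).1 hF'm ?_ ?_ ?_
  · refine ⟨∫ x, F' x, fun δ => ?_, ?_⟩
    · rw [ContinuousLinearMap.integral_apply main.1]
      have h1 : ∀ x, F' x δ = -σ * (sect K A).indicator (fun x => ψ (x, aff A x) * aff δ x) x := by
        intro x
        simp only [hF', _root_.smul_apply, phL_apply, smul_eq_mul]
        by_cases h : (x, aff A x) ∈ K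
        · have h' : x ∈ sect K A := h
          simp only [indicator, h, h', if_true]
          ring
        · have h' : x ∉ sect K A := h
          simp only [indicator, h, h', if_false]
          ring
      simp_rw [h1]
      rw [integral_const_mul, integral_indicator (measurableSet_sect hKc.measurableSet A)]
    · have h2 : (fun A => ∫ p in cap K σ A, ψ p) = fun B => ∫ x, F B x := by
        funext B
        exact (cap_integral K hKc σ B ψ hψ).2
      rw [h2]
      exact main.2
  · refine Filter.Eventually.of_forall fun x => ?_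
    rw [lipschitzOnWith_univ]
    refine LipschitzWith.of_dist_le_mul fun B B' => ?_
    rw [Real.dist_eq, dist_eq_norm]
    have h1 := half_lip σ hσ (k x) (hkint x) _ (hkb x) (aff B x) (aff B' x)
    have h2 : |aff B x - aff B' x| ≤ ‖phL x‖ * ‖B - B'‖ := by
      rw [← aff_sub, ← phL_apply]
      exact (phL x).le_opNorm _
    have hnn : 0 ≤ P.indicator (fun _ => M) x := (abs_nonneg _).trans (hkb x 0)
    refine (h1.trans (mul_le_mul_of_nonneg_left h2 hnn)).trans ?_
    rw [← mul_assoc]
    refine mul_le_mul_of_nonneg_right ?_ (norm_nonneg _)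
    have h3 : P.indicator (fun _ => M) x * ‖phL x‖ = bound x := by
      by_cases hx : x ∈ P <;> simp [hbound, indicator, hx]
    rw [h3]
    simpa using le_abs_self (bound x)
  · have h1 : Continuous fun x : Fin m → ℝ => M * ‖phL x‖ :=
      continuous_const.mul continuous_phL.norm
    exact (h1.continuousOn.integrableOn_compact hPc).integrable_indicator hPc.measurableSet
  · have hA' : ∀ᵐ x : Fin m → ℝ, (x, aff A x) ∉ frontier K := by
      have h0 : volume {x : Fin m → ℝ | (x, aff A x) ∈ frontier K} = 0 := hA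
      rw [ae_iff]
      simpa using h0
    filter_upwards [hA'] with x hx
    have hcont : ContinuousAt (k x) (aff A x) := by
      have h1 : ContinuousAt (K.indicator ψ) (x, aff A x) :=
        hψ.continuousOn.continuousAt_indicator hx
      exact h1.comp (f := fun t : ℝ => ((x, t) : Pt m)) (by fun_prop)
    have h2 := half_hasDerivAt σ hσ (k x) (hkint x) (aff A x) hcont
    have h3 : HasFDerivAt (fun B : Fin (m + 1) → ℝ => aff B x) (phL x) A := by
      have : (fun B : Fin (m + 1) → ℝ => aff B x) = phL x := by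
        funext B; rw [phL_apply]
      rw [this]
      exact (phL x).hasFDerivAt
    exact h2.comp_hasFDerivAt A h3

theorem wv_hasFDerivAt (m : ℕ) (K : Set (Pt m)) (hK : Convex ℝ K) (hKc : IsCompact K)
    (σ : ℝ) (hσ : σ = 1 ∨ σ = -1) (A : Fin (m + 1) → ℝ) (hA : A ∈ Good K) :
    ∃ L : (Fin (m + 1) → ℝ) →L[ℝ] FF m,
      (∀ δ, L δ = (-σ • (Gm K A).mulVec δ, -σ * (A ⬝ᵥ (Gm K A).mulVec δ))) ∧
      HasFDerivAt (wv K σ) L A := by
  have hsc : IsCompact (sect K A) := isCompact_sect hKc A
  have hph : ∀ i : Fin (m + 1), Continuous fun x : Fin m → ℝ => ph x i :=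
    fun i => (continuous_apply i).comp continuous_ph
  have hint : ∀ i j : Fin (m + 1), IntegrableOn (fun x : Fin m → ℝ => ph x i * ph x j)
      (sect K A) := fun i j =>
    ((hph i).mul (hph j)).continuousOn.integrableOn_compact hsc
  choose Lj hLj hLjd using fun j : Fin (m + 1) =>
    cap_integral_hasFDerivAt K hKc σ hσ A hA (fun p => ph p.1 j) ((hph j).comp continuous_fst)
  obtain ⟨Ld, hLd, hLdd⟩ :=
    cap_integral_hasFDerivAt K hKc σ hσ A hA (fun p => p.2) continuous_snd
  have hGm : ∀ (δ : Fin (m + 1) → ℝ) (j : Fin (m + 1)),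
      (Gm K A).mulVec δ j = ∫ x in sect K A, ph x j * aff δ x := by
    intro δ j
    simp only [mulVec, dotProduct, Gm, of_apply, aff]
    simp_rw [Finset.mul_sum, ← integral_mul_const]
    rw [integral_finsetSum]
    · refine Finset.sum_congr rfl fun i _ => ?_
      refine integral_congr_ae (Filter.Eventually.of_forall fun x => ?_)
      simp only
      ring
    · intro i _
      have := (hint j i).mul_const (δ i)
      refine this.congr (Filter.Eventually.of_forall fun x => ?_)
      simp only
      ring
  refine ⟨(ContinuousLinearMap.pi Lj).prod Ld, fun δ => ?_, ?_⟩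
  · ext j
    · simp only [ContinuousLinearMap.prod_apply, ContinuousLinearMap.coe_pi', hLj, Pi.smul_apply,
        smul_eq_mul, hGm]
    · simp only [ContinuousLinearMap.prod_apply, hLd]
      congr 1
      simp only [dotProduct, hGm]
      simp_rw [← integral_const_mul]
      rw [← integral_finsetSum]
      · refine integral_congr_ae (Filter.Eventually.of_forall fun x => ?_)
        simp only [aff, dotProduct]
        rw [Finset.sum_mul]
        refine Finset.sum_congr rfl fun i _ => ?_
        ring
      · intro i _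
        refine Integrable.const_mul ?_ _
        have hc : Continuous fun x : Fin m → ℝ => ph x i * aff δ x :=
          (hph i).mul (continuous_aff_right δ)
        exact hc.continuousOn.integrableOn_compact hsc
  · have h1 : HasFDerivAt (fun A : Fin (m + 1) → ℝ => fun j => ∫ p in cap K σ A, ph p.1 j)
        (ContinuousLinearMap.pi Lj) A := hasFDerivAt_pi.2 hLjd
    exact h1.prodMk hLdd

end Pool.H40.EV
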