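import Pool.Agent.Helper40.EV.Base

/-! Efron's identity for the expected number of vertices (piece EV-15 of MP_2bdbd0_pr). -/

set_option autoImplicit false

namespace Pool.H40.EV

open MeasureTheory Set Matrix
open scoped ENNReal

/-- A point of `s` which is not in the convex hull of the other points of `s` is an extreme point
of the convex hull of `s`. -/
theorem mem_extremePoints_of_not_mem {E : Type*} [AddCommGroup E] [Module ℝ E] {s : Set E} {x : E}
    (hx : x ∈ s) (hnx : x ∉ convexHull ℝ (s \ {x})) : x ∈ extremePoints ℝ (convexHull ℝ s) := by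
  rcases (s \ {x}).eq_empty_or_nonempty with h0 | h0
  · have hs : s = {x} := by
      apply Subset.antisymm
      · intro y hy
        by_contra hne
        have : y ∈ s \ {x} := ⟨hy, hne⟩
        rw [h0] at this
        exact this
      · exact singleton_subset_iff.2 hx
    rw [hs, convexHull_singleton, extremePoints_singleton]
    exact mem_singleton x
  · have hs : s = insert x (s \ {x}) := by
      rw [insert_diff_singleton, insert_eq_of_mem hx]
    have hhull : ∀ y ∈ convexHull ℝ s, ∃ u ∈ convexHull ℝ (s \ {x}), ∃ α : ℝ, 0 ≤ α ∧ α ≤ 1 ∧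
        y = (1 - α) • x + α • u := by
      intro y hy
      rw [hs, convexHull_insert h0, mem_convexJoin] at hy
      obtain ⟨a, ha, u, hu, hseg⟩ := hy
      rw [mem_singleton_iff] at ha
      subst ha
      rw [hs, insert_diff_of_mem _ (mem_singleton a)] at hu
      obtain ⟨p, q, hp, hq, hpq, hy⟩ := hseg
      refine ⟨u, ?_, q, hq, by linarith, ?_⟩
      · rw [show (s \ {a}) \ {a} = s \ {a} by
          rw [diff_diff, union_self]] at hu
        exact hu
      · rw [← hy, show (1 : ℝ) - q = p by linarith]
    rw [mem_extremePoints_iff_left]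
    refine ⟨subset_convexHull ℝ s hx, ?_⟩
    intro a ha b hb hab
    obtain ⟨t, r, ht, hr, htr, hxe⟩ := hab
    obtain ⟨u, hu, α, hα0, hα1, rfl⟩ := hhull a ha
    obtain ⟨v, hv, β, hβ0, hβ1, rfl⟩ := hhull b hb
    have hsum : (t * α + r * β) • x = (t * α) • u + (r * β) • v := by
      have h1 : t • ((1 - α) • x + α • u) + r • ((1 - β) • x + β • v) =
          (t * α) • u + (r * β) • v + ((t + r) - (t * α + r * β)) • x := by module
      rw [h1, htr] at hxe
      have h2 : (t * α) • u + (r * β) • v = x - (1 - (t * α + r * β)) • x := by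
        rw [eq_sub_iff_add_eq]; exact hxe
      rw [h2]; module
    have hnn : 0 ≤ t * α + r * β := by positivity
    rcases hnn.lt_or_eq with hpos | hzero
    · exfalso
      apply hnx
      have hx' : x = ((t * α) / (t * α + r * β)) • u + ((r * β) / (t * α + r * β)) • v := by
        have := congrArg (fun z => (t * α + r * β)⁻¹ • z) hsum
        simp only [smul_smul, smul_add] at this
        rw [inv_mul_cancel₀ hpos.ne', one_smul] at this
        rw [this, div_eq_inv_mul, div_eq_inv_mul]
      have hmem : ((t * α) / (t * α + r * β)) • u + ((r * β) / (t * α + r * β)) • v ∈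
          convexHull ℝ (s \ {x}) := by
        refine (convex_convexHull ℝ _) hu hv (by positivity) (by positivity) ?_
        rw [← add_div, div_self hpos.ne']
      rw [← hx'] at hmem
      exact hmem
    · have hα : α = 0 := by
        have h1 : t * α ≥ 0 := by positivity
        have h2 : r * β ≥ 0 := by positivity
        have h3 : t * α = 0 := by linarith
        rcases mul_eq_zero.1 h3 with h | h
        · linarith
        · exact h
      rw [hα]
      simp

/-- For an injective family the extreme points of the hull are the points not in the hull of the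
others. -/
theorem extremePoints_hull_range {E : Type*} [AddCommGroup E] [Module ℝ E] {n : ℕ}
    (p : Fin (n + 1) → E) (hp : Function.Injective p) :
    extremePoints ℝ (convexHull ℝ (range p)) =
      p '' {i | p i ∉ convexHull ℝ (range fun j => p (i.succAbove j))} := by
  have hr : ∀ i : Fin (n + 1), range (fun j => p (i.succAbove j)) = range p \ {p i} := by
    intro i
    ext y
    constructor
    · rintro ⟨j, rfl⟩
      refine ⟨mem_range_self _, ?_⟩
      intro h
      exact Fin.succAbove_ne i j (hp h)
    · rintro ⟨⟨k, rfl⟩, hk⟩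
      have hne : k ≠ i := fun h => hk (by rw [h]; exact mem_singleton _)
      obtain ⟨j, hj⟩ := Fin.exists_succAbove_eq hne
      exact ⟨j, by simp only [hj]⟩
  ext x
  constructor
  · intro hx
    have hx1 : x ∈ range p := extremePoints_convexHull_subset hx
    obtain ⟨i, rfl⟩ := hx1
    refine ⟨i, ?_, rfl⟩
    simp only [mem_setOf_eq, hr i]
    intro hmem
    have h2 := ((convex_convexHull ℝ (range p)).mem_extremePoints_iff_mem_sdiff_convexHull_sdiff).1 hx
    refine h2.2 (convexHull_mono ?_ hmem)
    exact diff_subset_diff_left (subset_convexHull ℝ _)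
  · rintro ⟨i, hi, rfl⟩
    simp only [mem_setOf_eq, hr i] at hi
    exact mem_extremePoints_of_not_mem (mem_range_self i) hi

open Classical in
theorem ncard_extremePoints {E : Type*} [AddCommGroup E] [Module ℝ E] {n : ℕ}
    (p : Fin (n + 1) → E) (hp : Function.Injective p) :
    ((extremePoints ℝ (convexHull ℝ (range p))).ncard : ℝ) =
      ∑ i : Fin (n + 1),
        (1 - {q : Fin (n + 1) → E | q i ∈ convexHull ℝ (range fun j => q (i.succAbove j))}.indicator
          (fun _ => (1 : ℝ)) p) := by
  rw [extremePoints_hull_range p hp, ncard_image_of_injective _ hp]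
  have h1 : {i | p i ∉ convexHull ℝ (range fun j => p (i.succAbove j))} =
      ((Finset.univ.filter fun i => p i ∉ convexHull ℝ (range fun j => p (i.succAbove j)) :
        Finset (Fin (n + 1))) : Set (Fin (n + 1))) := by
    ext i; simp
  rw [h1, ncard_coe_finset, Finset.card_filter, Nat.cast_sum]
  refine Finset.sum_congr rfl fun i _ => ?_
  by_cases h : p i ∈ convexHull ℝ (range fun j => p (i.succAbove j))
  · simp [h, indicator]
  · simp [h, indicator]

/-- scaling of the mass -/
theorem pi_smul_const {α : Type*} [MeasurableSpace α] (ν : Measure α) [SigmaFinite ν]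
    (c : ℝ≥0∞) (hc : c ≠ ∞) (n : ℕ) :
    Measure.pi (fun _ : Fin n => c • ν) = c ^ n • Measure.pi (fun _ : Fin n => ν) := by
  haveI : SigmaFinite (c • ν) := by
    lift c to NNReal using hc
    have : ((c : ℝ≥0∞) • ν) = (c • ν) := rfl
    rw [this]
    infer_instance
  refine Measure.pi_eq fun s hs => ?_
  rw [Measure.smul_apply, Measure.pi_pi, smul_eq_mul]
  simp only [Measure.smul_apply, smul_eq_mul, Finset.prod_mul_distrib, Finset.prod_const,
    Finset.card_univ, Fintype.card_fin]

theorem hullMass_smul {E : Type*} [MeasurableSpace E] [AddCommGroup E] [Module ℝ E]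
    (ν : Measure E) [SigmaFinite ν] (c : ℝ≥0∞) (hc : c ≠ ∞) (n : ℕ) :
    hullMass (c • ν) n = c ^ (n + 1) * hullMass ν n := by
  unfold hullMass
  rw [pi_smul_const ν c hc n, lintegral_smul_measure]
  simp only [Measure.smul_apply, smul_eq_mul]
  rw [lintegral_const_mul' _ _ hc, ← mul_assoc, ← pow_succ]

/-- almost surely the points are distinct -/
theorem ae_injective {α : Type} [MeasurableSpace α] [MeasurableEq α]
    (ν : Measure α) [SigmaFinite ν] [NullSingletonClass ν] (n : ℕ) :
    ∀ᵐ p : Fin (n + 1) → α ∂(Measure.pi fun _ : Fin (n + 1) => ν), Function.Injective p := by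
  have key : ∀ i : Fin (n + 1), ∀ k : Fin n,
      ∀ᵐ p : Fin (n + 1) → α ∂(Measure.pi fun _ : Fin (n + 1) => ν), p i ≠ p (i.succAbove k) := by
    intro i k
    have hmp := measurePreserving_piFinSuccAbove (fun _ : Fin (n + 1) => ν) i
    have hS : MeasurableSet {z : α × (Fin n → α) | z.1 = z.2 k} :=
      measurableSet_eq_fun measurable_fst ((measurable_pi_apply k).comp measurable_snd)
    rw [ae_iff]
    have hpre : {p : Fin (n + 1) → α | ¬ (p i ≠ p (i.succAbove k))} =
        (MeasurableEquiv.piFinSuccAbove (fun _ : Fin (n + 1) => α) i) ⁻¹'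
          {z : α × (Fin n → α) | z.1 = z.2 k} := by
      ext p
      simp only [ne_eq, not_not, mem_setOf_eq, mem_preimage]
      rfl
    rw [hpre, hmp.measure_preimage hS.nullMeasurableSet]
    rw [Measure.prod_apply_symm hS]
    simp only [lintegral_eq_zero_iff' (measurable_measure_prodMk_right hS).aemeasurable]
    filter_upwards with q
    have : (fun x => (x, q)) ⁻¹' {z : α × (Fin n → α) | z.1 = z.2 k} = {q k} := by
      ext x; simp
    rw [this]
    simp
  have hall : ∀ᵐ p : Fin (n + 1) → α ∂(Measure.pi fun _ : Fin (n + 1) => ν),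
      ∀ i : Fin (n + 1), ∀ k : Fin n, p i ≠ p (i.succAbove k) := by
    rw [ae_all_iff]
    intro i
    rw [ae_all_iff]
    exact key i
  filter_upwards [hall] with p hp
  intro a b hab
  by_contra hne
  obtain ⟨k, hk⟩ := Fin.exists_succAbove_eq (Ne.symm hne)
  exact hp a k (by rw [hk]; exact hab)

/-- the probability that the `i`-th point is in the hull of the others -/
theorem measure_hull_succAbove {E : Type} [NormedAddCommGroup E] [NormedSpace ℝ E]
    [SecondCountableTopology E] [MeasurableSpace E] [BorelSpace E] (ν : Measure E) [SigmaFinite ν]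
    (n : ℕ) (i : Fin (n + 1)) :
    MeasurableSet {q : Fin (n + 1) → E | q i ∈ convexHull ℝ (range fun j => q (i.succAbove j))} ∧
    Measure.pi (fun _ : Fin (n + 1) => ν)
      {q : Fin (n + 1) → E | q i ∈ convexHull ℝ (range fun j => q (i.succAbove j))} =
        hullMass ν n := by
  have hmp := measurePreserving_piFinSuccAbove (fun _ : Fin (n + 1) => ν) i
  have hS : MeasurableSet {z : E × (Fin n → E) | z.1 ∈ convexHull ℝ (range z.2)} :=
    measurable_swap (measurableSet_hull (E := E) n)
  have hpre : {q : Fin (n + 1) → E | q i ∈ convexHull ℝ (range fun j => q (i.succAbove j))} =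
        (MeasurableEquiv.piFinSuccAbove (fun _ : Fin (n + 1) => E) i) ⁻¹'
          {z : E × (Fin n → E) | z.1 ∈ convexHull ℝ (range z.2)} := by
    ext p
    simp only [mem_setOf_eq, mem_preimage]
    rfl
  constructor
  · rw [hpre]
    exact (MeasurableEquiv.piFinSuccAbove (fun _ : Fin (n + 1) => E) i).measurable hS
  · rw [hpre, hmp.measure_preimage hS.nullMeasurableSet, Measure.prod_apply_symm hS]
    rfl

theorem efron (d : ℕ) (K : Set (EuclideanSpace ℝ (Fin d))) (hd : 1 ≤ d) (hK : Convex ℝ K)
    (hKc : IsCompact K) (hKi : (interior K).Nonempty) (n : ℕ) :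
    (∫ p : Fin (n + 1) → EuclideanSpace ℝ (Fin d),
        ((Set.extremePoints ℝ (convexHull ℝ (Set.range p))).ncard : ℝ)
        ∂(Measure.pi (fun _ : Fin (n + 1) => ProbabilityTheory.cond volume K))) =
      (n + 1) * (1 - (hullMass (volume.restrict K) n).toReal / (vol K) ^ (n + 1)) := by
  have hKpos : volume K ≠ 0 := by
    intro h
    have h1 : 0 < volume (interior K) := isOpen_interior.measure_pos volume hKi
    have h2 : volume (interior K) ≤ volume K := measure_mono interior_subset
    rw [h] at h2
    exact absurd h1 (not_lt.2 h2)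
  have hKfin : volume K ≠ ∞ := hKc.measure_lt_top.ne
  haveI : Nontrivial (EuclideanSpace ℝ (Fin d)) := by
    haveI : Nonempty (Fin d) := ⟨⟨0, hd⟩⟩
    infer_instance
  haveI : NullSingletonClass (volume : Measure (EuclideanSpace ℝ (Fin d))) := inferInstance
  set μ := ProbabilityTheory.cond (volume : Measure (EuclideanSpace ℝ (Fin d))) K with hμ
  haveI : IsProbabilityMeasure μ := ProbabilityTheory.cond_isProbabilityMeasure_of_finite hKpos hKfin
  have hμd : μ = (volume K)⁻¹ • volume.restrict K := rfl
  haveI : NullSingletonClass μ := by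
    rw [hμd]
    constructor
    intro x
    rw [Measure.smul_apply, Measure.restrict_apply (measurableSet_singleton x)]
    rw [measure_mono_null inter_subset_left (measure_singleton x)]
    simp
  have hae := ae_injective μ n
  have h1 : ∀ᵐ p : Fin (n + 1) → EuclideanSpace ℝ (Fin d) ∂(Measure.pi fun _ => μ),
      ((extremePoints ℝ (convexHull ℝ (range p))).ncard : ℝ) =
      ∑ i : Fin (n + 1), (1 - {q : Fin (n + 1) → EuclideanSpace ℝ (Fin d) |
          q i ∈ convexHull ℝ (range fun j => q (i.succAbove j))}.indicator (fun _ => (1 : ℝ)) p) := by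
    filter_upwards [hae] with p hp
    exact ncard_extremePoints p hp
  rw [integral_congr_ae h1]
  haveI : SigmaFinite μ := inferInstance
  have hmass : hullMass μ n = ((volume K)⁻¹) ^ (n + 1) * hullMass (volume.restrict K) n := by
    rw [hμd]
    exact hullMass_smul _ _ (ENNReal.inv_ne_top.2 hKpos) n
  have hterm : ∀ i : Fin (n + 1),
      Integrable (fun p => {q : Fin (n + 1) → EuclideanSpace ℝ (Fin d) |
          q i ∈ convexHull ℝ (range fun j => q (i.succAbove j))}.indicator (fun _ => (1 : ℝ)) p)
        (Measure.pi fun _ : Fin (n + 1) => μ) := by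
    intro i
    exact (integrable_const (1 : ℝ)).indicator (measure_hull_succAbove μ n i).1
  rw [integral_finset_sum]
  · have hval : ∀ i : Fin (n + 1), ∫ p, (1 - {q : Fin (n + 1) → EuclideanSpace ℝ (Fin d) |
          q i ∈ convexHull ℝ (range fun j => q (i.succAbove j))}.indicator (fun _ => (1 : ℝ)) p)
          ∂(Measure.pi fun _ : Fin (n + 1) => μ) = 1 - (hullMass μ n).toReal := by
      intro i
      rw [integral_sub (integrable_const _) (hterm i), integral_const,
        integral_indicator (measure_hull_succAbove μ n i).1, setIntegral_const,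
        measureReal_def, measureReal_def, (measure_hull_succAbove μ n i).2]
      simp
    rw [Finset.sum_congr rfl fun i _ => hval i]
    simp only [Finset.sum_const, Finset.card_univ, Fintype.card_fin, nsmul_eq_mul, Nat.cast_add,
      Nat.cast_one]
    congr 2
    rw [hmass, ENNReal.toReal_mul, ENNReal.toReal_pow, ENNReal.toReal_inv, vol, div_eq_inv_mul,
      inv_pow]
  · intro i _
    exact (integrable_const _).sub (hterm i)

end Pool.H40.EV
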