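import Mathlib

/-!
Dimensions `0` and `1` of the monotonicity of the expected number of vertices (MP_2bdbd0_pr),
piece EV-18, by helper5.
-/

set_option autoImplicit false

namespace Pool.H40.EV

open MeasureTheory Set
open scoped ENNReal

namespace LowDim

/-- three distinct points of a line: one is strictly between the two others -/
theorem exists_between {E : Type*} [AddCommGroup E] [Module ℝ E] (π : E →ₗ[ℝ] ℝ)
    (hπ : Function.Injective π) {S : Set E} {a b c : E}
    (ha : a ∈ S.extremePoints ℝ) (hb : b ∈ S.extremePoints ℝ) (hc : c ∈ S.extremePoints ℝ)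
    (hab : π a < π b) (hbc : π b < π c) : False := by
  have hac : π a < π c := hab.trans hbc
  have hd : 0 < π c - π a := by linarith
  have hseg : b ∈ openSegment ℝ a c := by
    refine ⟨(π c - π b) / (π c - π a), (π b - π a) / (π c - π a),
      div_pos (by linarith) hd, div_pos (by linarith) hd, ?_, ?_⟩
    · rw [← add_div]; rw [div_eq_one_iff_eq hd.ne']; ring
    · apply hπ
      rw [map_add, map_smul, map_smul, smul_eq_mul, smul_eq_mul]
      field_simp
      ring
  have := hb.2 ha.1 hc.1 hseg
  exact absurd (congrArg π this) hab.ne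

theorem ncard_extreme_le_two {E : Type*} [AddCommGroup E] [Module ℝ E] (π : E →ₗ[ℝ] ℝ)
    (hπ : Function.Injective π) (S : Set E) : (S.extremePoints ℝ).ncard ≤ 2 := by
  by_contra hcon
  push Not at hcon
  have hfin : (S.extremePoints ℝ).Finite := Set.finite_of_ncard_pos (by omega)
  obtain ⟨a, b, c, ha, hb, hc, hab, hac, hbc⟩ := (Set.two_lt_ncard_iff hfin).1 hcon
  have h1 : π a ≠ π b := fun h => hab (hπ h)
  have h2 : π a ≠ π c := fun h => hac (hπ h)
  have h3 : π b ≠ π c := fun h => hbc (hπ h)
  rcases lt_or_gt_of_ne h1 with h1 | h1 <;> rcases lt_or_gt_of_ne h2 with h2 | h2 <;>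
    rcases lt_or_gt_of_ne h3 with h3 | h3
  · exact exists_between π hπ ha hb hc h1 h3
  · exact exists_between π hπ ha hc hb h2 h3
  · exact absurd (h1.trans h3) (not_lt.2 h2.le)
  · exact exists_between π hπ hc ha hb h2 h1
  · exact exists_between π hπ hb ha hc h1 h2
  · exact absurd (h2.trans h3) (not_lt.2 h1.le)
  · exact exists_between π hπ hb hc ha h3 h2
  · exact exists_between π hπ hc hb ha h3 h1

theorem finite_extreme {E : Type*} [AddCommGroup E] [Module ℝ E] {n : ℕ} (p : Fin n → E) :
    ((convexHull ℝ (range p)).extremePoints ℝ).Finite :=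
  (Set.finite_range p).subset extremePoints_convexHull_subset

theorem convexHull_eq_of_extreme {E : Type*} [NormedAddCommGroup E] [NormedSpace ℝ E] {n : ℕ}
    (p : Fin n → E)
    (hsub : ((convexHull ℝ (range p)).extremePoints ℝ).Subsingleton) :
    (convexHull ℝ (range p)).Subsingleton := by
  have hKM := closure_convexHull_extremePoints ((Set.finite_range p).isCompact_convexHull (𝕜 := ℝ))
    (convex_convexHull ℝ (range p))
  rw [← hKM]
  rcases hsub.eq_empty_or_singleton with h | ⟨x, h⟩
  · rw [h]; simp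
  · rw [h]; simp

theorem two_le_ncard_extreme {E : Type*} [NormedAddCommGroup E] [NormedSpace ℝ E] {n : ℕ}
    (p : Fin n → E) (i j : Fin n) (hij : p i ≠ p j) :
    2 ≤ ((convexHull ℝ (range p)).extremePoints ℝ).ncard := by
  by_contra hcon
  push Not at hcon
  have := (finite_extreme p).to_subtype
  have hsub : ((convexHull ℝ (range p)).extremePoints ℝ).Subsingleton := by
    rw [← Set.ncard_le_one_iff_subsingleton]
    omega
  have h2 := convexHull_eq_of_extreme p hsub
  exact hij (h2 (subset_convexHull ℝ _ ⟨i, rfl⟩) (subset_convexHull ℝ _ ⟨j, rfl⟩))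

theorem one_le_ncard_extreme {E : Type*} [NormedAddCommGroup E] [NormedSpace ℝ E] {n : ℕ}
    (p : Fin (n + 1) → E) :
    1 ≤ ((convexHull ℝ (range p)).extremePoints ℝ).ncard := by
  by_contra hcon
  push Not at hcon
  have hcon : (convexHull ℝ (range p)).extremePoints ℝ = ∅ := by
    rw [← Set.ncard_eq_zero (finite_extreme p)]; omega
  have hKM := closure_convexHull_extremePoints ((Set.finite_range p).isCompact_convexHull (𝕜 := ℝ))
    (convex_convexHull ℝ (range p))
  rw [hcon] at hKM
  simp at hKM
  have : p 0 ∈ convexHull ℝ (range p) := subset_convexHull ℝ _ ⟨0, rfl⟩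
  rw [← hKM] at this
  exact this

/-- two sample points are different almost surely -/
theorem ae_ne {E : Type*} [MeasurableSpace E] [MeasurableEq E] (μ : Measure E)
    [SigmaFinite μ] [NullSingletonClass μ] (n : ℕ) :
    ∀ᵐ p : Fin (n + 2) → E ∂(Measure.pi fun _ => μ), p 0 ≠ p 1 := by
  have hmp := measurePreserving_piFinSuccAbove (fun _ : Fin (n + 2) => μ) 0
  have hS : MeasurableSet {q : E × (Fin (n + 1) → E) | q.1 = q.2 0} :=
    measurableSet_eq_fun measurable_fst ((measurable_pi_apply 0).comp measurable_snd)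
  have h0 : (μ.prod (Measure.pi fun _ : Fin (n + 1) => μ))
      {q : E × (Fin (n + 1) → E) | q.1 = q.2 0} = 0 := by
    rw [Measure.prod_apply_symm hS]
    simp
  have h1 := hmp.measure_preimage hS.nullMeasurableSet
  rw [ae_iff]
  rw [show {a : Fin (n + 2) → E | ¬ a 0 ≠ a 1} =
    (MeasurableEquiv.piFinSuccAbove (fun _ : Fin (n + 2) => E) 0) ⁻¹'
      {q : E × (Fin (n + 1) → E) | q.1 = q.2 0} from ?_]
  · rw [h1]; exact h0
  · ext a
    simp only [ne_eq, not_not, MeasurableEquiv.piFinSuccAbove, Set.mem_ofPred_eq, Set.mem_preimage]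
    rfl

theorem integral_le_of_forall_le {X : Type*} [MeasurableSpace X] (P : Measure X)
    [IsProbabilityMeasure P] (f : X → ℕ) (c : ℕ) (h : ∀ x, f x ≤ c) :
    ∫ x, (f x : ℝ) ∂P ≤ c := by
  have h1 : ∫ x, (f x : ℝ) ∂P ≤ ∫ _ : X, (c : ℝ) ∂P := by
    refine integral_mono_of_nonneg ?_ (integrable_const _) ?_
    · exact Filter.Eventually.of_forall fun x => Nat.cast_nonneg _
    · exact Filter.Eventually.of_forall fun x => Nat.cast_le.2 (h x)
  simpa using h1

theorem integral_eq_of_ae {X : Type*} [MeasurableSpace X] (P : Measure X)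
    [IsProbabilityMeasure P] (f : X → ℕ) (c : ℕ) (h : ∀ᵐ x ∂P, f x = c) :
    ∫ x, (f x : ℝ) ∂P = c := by
  have h1 : ∫ x, (f x : ℝ) ∂P = ∫ _ : X, (c : ℝ) ∂P :=
    integral_congr_ae (h.mono fun x hx => by simp [hx])
  simpa using h1

end LowDim

open LowDim in
theorem low_dim (d : ℕ) (hd : d ≤ 1) (K : Set (EuclideanSpace ℝ (Fin d))) (hK : Convex ℝ K)
    (hKc : IsCompact K) (hKi : (interior K).Nonempty) (n : ℕ) :
    (∫ p : Fin n → EuclideanSpace ℝ (Fin d),
        ((Set.extremePoints ℝ (convexHull ℝ (Set.range p))).ncard : ℝ)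
        ∂(Measure.pi (fun _ : Fin n => ProbabilityTheory.cond volume K))) ≤
    (∫ p : Fin (n + 1) → EuclideanSpace ℝ (Fin d),
        ((Set.extremePoints ℝ (convexHull ℝ (Set.range p))).ncard : ℝ)
        ∂(Measure.pi (fun _ : Fin (n + 1) => ProbabilityTheory.cond volume K))) := by
  have hK0 : volume K ≠ 0 := (Measure.measure_pos_of_nonempty_interior _ hKi).ne'
  have hKt : volume K ≠ ⊤ := hKc.measure_lt_top.ne
  have hprob : IsProbabilityMeasure (ProbabilityTheory.cond volume K) :=
    ProbabilityTheory.cond_isProbabilityMeasure_of_finite hK0 hKt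
  rcases Nat.eq_zero_or_pos n with rfl | hn
  · have h1 : (∫ p : Fin 0 → EuclideanSpace ℝ (Fin d),
        ((Set.extremePoints ℝ (convexHull ℝ (Set.range p))).ncard : ℝ)
        ∂(Measure.pi (fun _ : Fin 0 => ProbabilityTheory.cond volume K))) = 0 := by
      rw [integral_eq_zero_of_ae]
      refine Filter.Eventually.of_forall fun p => ?_
      simp
    rw [h1]
    exact integral_nonneg fun p => Nat.cast_nonneg _
  obtain ⟨n, rfl⟩ : ∃ k, n = k + 1 := ⟨n - 1, by omega⟩
  interval_cases d
  · have h1 : ∀ (k : ℕ) (p : Fin (k + 1) → EuclideanSpace ℝ (Fin 0)),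
        (Set.extremePoints ℝ (convexHull ℝ (Set.range p))).ncard = 1 := by
      intro k p
      refine le_antisymm ?_ (one_le_ncard_extreme p)
      have := (finite_extreme p).to_subtype
      rw [Set.ncard_le_one_iff_subsingleton]
      exact Set.subsingleton_of_subsingleton
    simp only [h1]
    simp
  · have hna : NullSingletonClass (ProbabilityTheory.cond volume K) := by
      constructor
      intro x
      unfold ProbabilityTheory.cond
      rw [Measure.smul_apply, measure_singleton, smul_zero]
    have hπ : Function.Injective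
        (LinearMap.proj 0 ∘ₗ (WithLp.linearEquiv 2 ℝ (Fin 1 → ℝ)).toLinearMap :
          EuclideanSpace ℝ (Fin 1) →ₗ[ℝ] ℝ) := by
      intro x y h
      ext i
      have hi : i = 0 := Subsingleton.elim _ _
      rw [hi]
      simpa using h
    have h2 : ∀ (k : ℕ) (p : Fin k → EuclideanSpace ℝ (Fin 1)),
        (Set.extremePoints ℝ (convexHull ℝ (Set.range p))).ncard ≤ 2 := fun k p =>
      ncard_extreme_le_two _ hπ _
    have h3 : ∀ᵐ p : Fin (n + 1 + 1) → EuclideanSpace ℝ (Fin 1)
        ∂(Measure.pi (fun _ => ProbabilityTheory.cond volume K)),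
        (Set.extremePoints ℝ (convexHull ℝ (Set.range p))).ncard = 2 := by
      filter_upwards [ae_ne (ProbabilityTheory.cond volume K) n] with p hp
      exact le_antisymm (h2 _ p) (two_le_ncard_extreme p 0 1 hp)
    have h4 := integral_eq_of_ae _ (fun p : Fin (n + 1 + 1) → EuclideanSpace ℝ (Fin 1) =>
      (Set.extremePoints ℝ (convexHull ℝ (Set.range p))).ncard) 2 h3
    have h5 := integral_le_of_forall_le
      (Measure.pi (fun _ : Fin (n + 1) => ProbabilityTheory.cond volume K))
      (fun p : Fin (n + 1) → EuclideanSpace ℝ (Fin 1) =>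
      (Set.extremePoints ℝ (convexHull ℝ (Set.range p))).ncard) 2 (h2 _)
    rw [h4]
    exact h5

end Pool.H40.EV
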