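import Pool.Agent.Helper40.EV.Defs

/-! EV-2: a one-dimensional transport inequality (piece of MP_2bdbd0_pr), by helper33. -/

set_option autoImplicit false

namespace Pool.H40.EV

open MeasureTheory Set Filter Topology
open scoped ENNReal

namespace Tr

/-- The moment function `x ↦ ∫_0^x u F(u) du`. -/
noncomputable def mo (F : ℝ → ℝ) (x : ℝ) : ℝ := ∫ u in (0:ℝ)..x, u * F u

section

variable {F : ℝ → ℝ} {H : ℝ}

theorem mo_zero : mo F 0 = 0 := by simp [mo]

theorem mo_H (hH : 0 < H) : mo F H = ∫ x in Ioo 0 H, x * F x := by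
  rw [mo, intervalIntegral.integral_of_le hH.le, integral_Ioc_eq_integral_Ioo]

theorem intervalIntegrable (hFi : IntegrableOn (fun x => x * F x) (Ioo 0 H)) {x : ℝ}
    (hx : x ∈ Icc 0 H) : IntervalIntegrable (fun u => u * F u) volume 0 x := by
  rw [intervalIntegrable_iff_integrableOn_Ioo_of_le hx.1]
  exact hFi.mono_set (Ioo_subset_Ioo_right hx.2)

theorem mo_hasDerivAt (hF : ContinuousOn F (Ioo 0 H))
    (hFi : IntegrableOn (fun x => x * F x) (Ioo 0 H)) {x : ℝ} (hx : x ∈ Ioo 0 H) :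
    HasDerivAt (mo F) (x * F x) x := by
  have hc : ContinuousOn (fun u => u * F u) (Ioo 0 H) := continuousOn_id.mul hF
  refine intervalIntegral.integral_hasDerivAt_right (intervalIntegrable hFi ⟨hx.1.le, hx.2.le⟩)
    ?_ (hc.continuousAt (isOpen_Ioo.mem_nhds hx))
  exact hc.stronglyMeasurableAtFilter isOpen_Ioo x hx

theorem mo_continuousOn (hH : 0 < H)
    (hFi : IntegrableOn (fun x => x * F x) (Ioo 0 H)) : ContinuousOn (mo F) (Icc 0 H) := by
  have h1 : IntegrableOn (fun x => x * F x) (uIcc 0 H) := by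
    rw [uIcc_of_le hH.le, integrableOn_Icc_iff_integrableOn_Ioo]
    exact hFi
  have := intervalIntegral.continuousOn_primitive_interval h1
  rwa [uIcc_of_le hH.le] at this

theorem mo_strictMonoOn (hH : 0 < H) (hF : ContinuousOn F (Ioo 0 H))
    (hFpos : ∀ x ∈ Ioo 0 H, 0 < F x)
    (hFi : IntegrableOn (fun x => x * F x) (Ioo 0 H)) : StrictMonoOn (mo F) (Icc 0 H) := by
  refine strictMonoOn_of_deriv_pos (convex_Icc 0 H) (mo_continuousOn hH hFi) ?_
  intro x hx
  rw [interior_Icc] at hx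
  rw [(mo_hasDerivAt hF hFi hx).deriv]
  exact mul_pos hx.1 (hFpos x hx)

theorem mo_mem (hH : 0 < H) (hF : ContinuousOn F (Ioo 0 H))
    (hFpos : ∀ x ∈ Ioo 0 H, 0 < F x)
    (hFi : IntegrableOn (fun x => x * F x) (Ioo 0 H)) {x : ℝ} (hx : x ∈ Ioo 0 H) :
    mo F x ∈ Ioo 0 (mo F H) := by
  have h := mo_strictMonoOn hH hF hFpos hFi
  refine ⟨?_, ?_⟩
  · have := h (left_mem_Icc.2 hH.le) (Ioo_subset_Icc_self hx) hx.1
    rwa [mo_zero] at this
  · exact h (Ioo_subset_Icc_self hx) (right_mem_Icc.2 hH.le) hx.2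

theorem mo_H_pos (hH : 0 < H) (hF : ContinuousOn F (Ioo 0 H))
    (hFpos : ∀ x ∈ Ioo 0 H, 0 < F x)
    (hFi : IntegrableOn (fun x => x * F x) (Ioo 0 H)) : 0 < mo F H := by
  have h := mo_strictMonoOn hH hF hFpos hFi (left_mem_Icc.2 hH.le) (right_mem_Icc.2 hH.le) hH
  rwa [mo_zero] at h

/-- The inverse of the moment function. -/
theorem exists_inverse (hH : 0 < H) (hF : ContinuousOn F (Ioo 0 H))
    (hFpos : ∀ x ∈ Ioo 0 H, 0 < F x)
    (hFi : IntegrableOn (fun x => x * F x) (Ioo 0 H)) :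
    ∃ g : ℝ → ℝ, ∀ b ∈ Ioo 0 (mo F H), g b ∈ Ioo 0 H ∧ mo F (g b) = b ∧
      HasDerivAt g (g b * F (g b))⁻¹ b := by
  have hIV : Ioo 0 (mo F H) ⊆ mo F '' Ioo 0 H := by
    have := intermediate_value_Ioo hH.le (mo_continuousOn hH hFi)
    rwa [mo_zero] at this
  have hex : ∀ b : ℝ, ∃ y : ℝ, b ∈ Ioo 0 (mo F H) → y ∈ Ioo 0 H ∧ mo F y = b := by
    intro b
    by_cases hb : b ∈ Ioo 0 (mo F H)
    · obtain ⟨y, hy, hyb⟩ := hIV hb
      exact ⟨y, fun _ => ⟨hy, hyb⟩⟩
    · exact ⟨0, fun h => absurd h hb⟩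
  choose g hg using hex
  refine ⟨g, ?_⟩
  have hsm := mo_strictMonoOn hH hF hFpos hFi
  have hmono : MonotoneOn g (Ioo 0 (mo F H)) := by
    intro a ha b hb hab
    by_contra h
    push Not at h
    have h1 := hsm (Ioo_subset_Icc_self (hg b hb).1) (Ioo_subset_Icc_self (hg a ha).1) h
    rw [(hg b hb).2, (hg a ha).2] at h1
    linarith
  have himg : g '' Ioo 0 (mo F H) = Ioo 0 H := by
    apply Subset.antisymm
    · rintro _ ⟨b, hb, rfl⟩
      exact (hg b hb).1
    · intro y hy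
      have hm := mo_mem hH hF hFpos hFi hy
      refine ⟨mo F y, hm, ?_⟩
      exact hsm.injOn (Ioo_subset_Icc_self (hg _ hm).1) (Ioo_subset_Icc_self hy) (hg _ hm).2
  intro b hb
  refine ⟨(hg b hb).1, (hg b hb).2, ?_⟩
  have hcont : ContinuousAt g b := by
    apply continuousAt_of_monotoneOn_of_image_mem_nhds hmono (isOpen_Ioo.mem_nhds hb)
    rw [himg]
    exact isOpen_Ioo.mem_nhds (hg b hb).1
  refine HasDerivAt.of_local_left_inverse hcont (mo_hasDerivAt hF hFi (hg b hb).1) ?_ ?_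
  · exact (mul_pos (hg b hb).1.1 (hFpos _ (hg b hb).1)).ne'
  · filter_upwards [isOpen_Ioo.mem_nhds hb] with y hy
    exact (hg y hy).2

end

/-- arithmetic-geometric mean in `ℝ≥0∞` -/
theorem two_mul_le_add {a b c : ℝ≥0∞} (h : c ^ 2 ≤ a * b) : 2 * c ≤ a + b := by
  by_cases ha : a = ⊤
  · simp [ha]
  by_cases hb : b = ⊤
  · simp [hb]
  have hc : c ≠ ⊤ := by
    intro hc
    rw [hc] at h
    have : a * b = ⊤ := by
      rw [← top_le_iff]
      exact le_trans (by simp) h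
    exact ENNReal.mul_ne_top ha hb this
  lift a to NNReal using ha
  lift b to NNReal using hb
  lift c to NNReal using hc
  norm_cast at h ⊢
  have h' : (c:ℝ) ^ 2 ≤ a * b := by exact_mod_cast h
  have h3 : (2:ℝ) * c ≤ a + b := by
    nlinarith [sq_nonneg ((a:ℝ) - b), a.coe_nonneg, b.coe_nonneg, c.coe_nonneg,
      sq_nonneg ((a:ℝ) + b - 2 * c)]
  exact_mod_cast h3

/-- The pointwise inequality behind the transport argument. -/
theorem jac_ineq {l x T d : ℝ} (hl : l ∈ Ioo (0:ℝ) 1) :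
    x * T * d ≤ ((1 - l) * T + l * (x * d)) * (l * T + (1 - l) * (x * d)) := by
  have h1 : 0 < l * (1 - l) := mul_pos hl.1 (by linarith [hl.2])
  nlinarith [mul_nonneg h1.le (sq_nonneg (T - x * d))]

/-- the linear map `(a, b) ↦ (p a + q b, r a + s b)` -/
noncomputable def lm (p q r s : ℝ) : ℝ × ℝ →L[ℝ] ℝ × ℝ :=
  (p • ContinuousLinearMap.fst ℝ ℝ ℝ + q • ContinuousLinearMap.snd ℝ ℝ ℝ).prod
    (r • ContinuousLinearMap.fst ℝ ℝ ℝ + s • ContinuousLinearMap.snd ℝ ℝ ℝ)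

theorem lm_det (p q r s : ℝ) : (lm p q r s).det = p * s - q * r := by
  have h : ((lm p q r s : ℝ × ℝ →L[ℝ] ℝ × ℝ) : ℝ × ℝ →ₗ[ℝ] ℝ × ℝ)
      = Matrix.toLin (Module.Basis.finTwoProd ℝ) (Module.Basis.finTwoProd ℝ) !![p, q; r, s] := by
    apply (Module.Basis.finTwoProd ℝ).ext
    intro i
    rw [Matrix.toLin_self]
    fin_cases i <;> simp [lm, Fin.sum_univ_two]
  rw [ContinuousLinearMap.det, h, LinearMap.det_toLin, Matrix.det_fin_two_of]

end Tr

open Tr in
theorem transport_J (F G : ℝ → ℝ) (D : ℝ × ℝ → ℝ≥0∞) (hD : Measurable D)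
    (H C : ℝ) (hH : 0 < H) (hC : 0 < C)
    (hF : ContinuousOn F (Ioo 0 H)) (hFpos : ∀ x ∈ Ioo 0 H, 0 < F x)
    (hG : ContinuousOn G (Ioo 0 C)) (hGpos : ∀ x ∈ Ioo 0 C, 0 < G x)
    (hFi : IntegrableOn (fun x => x * F x) (Ioo 0 H))
    (hGi : IntegrableOn (fun x => x * G x) (Ioo 0 C))
    (hDFG : ∀ x ∈ Ioo 0 H, ∀ y ∈ Ioo 0 C, ∀ l ∈ Ioo (0:ℝ) 1,
      ENNReal.ofReal (F x * G y) ≤ D ((1 - l) * x, l * y) * D (l * x, (1 - l) * y)) :
    ENNReal.ofReal ((∫ x in Ioo 0 H, x * F x) * (∫ x in Ioo 0 C, x * G x)) ≤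
      (∫⁻ z in (Ioi 0 ×ˢ Ioi 0 : Set (ℝ × ℝ)), D z) ^ 2 := by
  set M : ℝ := mo F H with hM
  set V : ℝ := mo G C with hV
  have hMpos : 0 < M := mo_H_pos hH hF hFpos hFi
  have hVpos : 0 < V := mo_H_pos hC hG hGpos hGi
  rw [← mo_H hH, ← mo_H hC]
  obtain ⟨g, hg⟩ := exists_inverse hC hG hGpos hGi
  -- the transport map
  set T : ℝ → ℝ := fun x => g (V / M * mo F x) with hT
  set T' : ℝ → ℝ := fun x => (T x * G (T x))⁻¹ * (V / M * (x * F x)) with hT'
  have hmem : ∀ x ∈ Ioo 0 H, V / M * mo F x ∈ Ioo 0 V := by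
    intro x hx
    have h1 := mo_mem hH hF hFpos hFi hx
    refine ⟨mul_pos (div_pos hVpos hMpos) h1.1, ?_⟩
    calc V / M * mo F x < V / M * M := by
          apply mul_lt_mul_of_pos_left h1.2 (div_pos hVpos hMpos)
      _ = V := by field_simp
  have hTmem : ∀ x ∈ Ioo 0 H, T x ∈ Ioo 0 C := fun x hx => (hg _ (hmem x hx)).1
  have hTd : ∀ x ∈ Ioo 0 H, HasDerivAt T (T' x) x := by
    intro x hx
    exact (hg _ (hmem x hx)).2.2.comp x ((mo_hasDerivAt hF hFi hx).const_mul (V / M))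
  have hT'pos : ∀ x ∈ Ioo 0 H, 0 < T' x := by
    intro x hx
    have h1 := hTmem x hx
    exact mul_pos (inv_pos.2 (mul_pos h1.1 (hGpos _ h1)))
      (mul_pos (div_pos hVpos hMpos) (mul_pos hx.1 (hFpos x hx)))
  have hTmono : StrictMonoOn T (Ioo 0 H) := by
    refine strictMonoOn_of_deriv_pos (convex_Ioo 0 H)
      (fun x hx => (hTd x hx).continuousAt.continuousWithinAt) ?_
    intro x hx
    rw [interior_Ioo] at hx
    rw [(hTd x hx).deriv]
    exact hT'pos x hx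
  have hkey : ∀ x ∈ Ioo 0 H, T x * G (T x) * T' x = V / M * (x * F x) := by
    intro x hx
    have h1 := hTmem x hx
    have h2 : T x * G (T x) ≠ 0 := (mul_pos h1.1 (hGpos _ h1)).ne'
    simp only [hT']
    rw [← mul_assoc, mul_inv_cancel₀ h2, one_mul]
  set S : Set (ℝ × ℝ) := Ioo 0 H ×ˢ Ioo 0 1 with hS
  have hSm : MeasurableSet S := measurableSet_Ioo.prod measurableSet_Ioo
  -- the two maps
  set Ψ₁ : ℝ × ℝ → ℝ × ℝ := fun z => ((1 - z.2) * z.1, z.2 * T z.1) with hΨ₁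
  set Ψ₂ : ℝ × ℝ → ℝ × ℝ := fun z => (z.2 * z.1, (1 - z.2) * T z.1) with hΨ₂
  set L₁ : ℝ × ℝ → (ℝ × ℝ →L[ℝ] ℝ × ℝ) := fun z => lm (1 - z.2) (-z.1) (z.2 * T' z.1) (T z.1)
    with hL₁
  set L₂ : ℝ × ℝ → (ℝ × ℝ →L[ℝ] ℝ × ℝ) := fun z => lm z.2 z.1 ((1 - z.2) * T' z.1) (-T z.1)
    with hL₂
  have hfst : ∀ z : ℝ × ℝ, HasFDerivAt (fun z : ℝ × ℝ => z.1) (ContinuousLinearMap.fst ℝ ℝ ℝ) z :=
    fun z => hasFDerivAt_fst
  have hsnd : ∀ z : ℝ × ℝ, HasFDerivAt (fun z : ℝ × ℝ => z.2) (ContinuousLinearMap.snd ℝ ℝ ℝ) z :=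
    fun z => hasFDerivAt_snd
  have hTfst : ∀ z ∈ S, HasFDerivAt (fun z : ℝ × ℝ => T z.1)
      (T' z.1 • ContinuousLinearMap.fst ℝ ℝ ℝ) z := by
    intro z hz
    exact (hTd z.1 hz.1).comp_hasFDerivAt z (hfst z)
  have hd₁ : ∀ z ∈ S, HasFDerivWithinAt Ψ₁ (L₁ z) S z := by
    intro z hz
    apply HasFDerivAt.hasFDerivWithinAt
    have h1 := ((hsnd z).const_sub 1).mul (hfst z)
    have h2 := (hsnd z).mul (hTfst z hz)
    refine (h1.prodMk h2).congr_fderiv ?_
    ext <;> simp [hL₁, lm]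
  have hd₂ : ∀ z ∈ S, HasFDerivWithinAt Ψ₂ (L₂ z) S z := by
    intro z hz
    apply HasFDerivAt.hasFDerivWithinAt
    have h1 := (hsnd z).mul (hfst z)
    have h2 := ((hsnd z).const_sub 1).mul (hTfst z hz)
    refine (h1.prodMk h2).congr_fderiv ?_
    ext <;> simp [hL₂, lm]
  have hinj₁ : InjOn Ψ₁ S := by
    rintro ⟨x, l⟩ ⟨hx, hl⟩ ⟨x', l'⟩ ⟨hx', hl'⟩ h
    simp only [hΨ₁, Prod.mk.injEq] at h hx hx' hl hl' ⊢
    obtain ⟨h1, h2⟩ := h
    have hTx := hTmem x hx
    have hTx' := hTmem x' hx'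
    rcases lt_trichotomy x x' with hlt | heq | hgt
    · exfalso
      have hll : l < l' := by
        by_contra hcon
        push Not at hcon
        have h3 : (1 - l) * x < (1 - l') * x' := by
          calc (1 - l) * x ≤ (1 - l') * x := by
                apply mul_le_mul_of_nonneg_right (by linarith) hx.1.le
            _ < (1 - l') * x' := by
                apply mul_lt_mul_of_pos_left hlt (by linarith [hl'.2])
        linarith
      have h4 := hTmono hx hx' hlt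
      have h5 : l * T x < l' * T x' := by
        calc l * T x < l' * T x := mul_lt_mul_of_pos_right hll hTx.1
          _ ≤ l' * T x' := mul_le_mul_of_nonneg_left h4.le hl'.1.le
      linarith
    · subst heq
      refine ⟨rfl, ?_⟩
      have : l * T x = l' * T x := h2
      exact mul_right_cancel₀ hTx.1.ne' this
    · exfalso
      have hll : l' < l := by
        by_contra hcon
        push Not at hcon
        have h3 : (1 - l') * x' < (1 - l) * x := by
          calc (1 - l') * x' ≤ (1 - l) * x' := by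
                apply mul_le_mul_of_nonneg_right (by linarith) hx'.1.le
            _ < (1 - l) * x := by
                apply mul_lt_mul_of_pos_left hgt (by linarith [hl.2])
        linarith
      have h4 := hTmono hx' hx hgt
      have h5 : l' * T x' < l * T x := by
        calc l' * T x' < l * T x' := mul_lt_mul_of_pos_right hll hTx'.1
          _ ≤ l * T x := mul_le_mul_of_nonneg_left h4.le hl.1.le
      linarith
  have hinj₂ : InjOn Ψ₂ S := by
    rintro ⟨x, l⟩ ⟨hx, hl⟩ ⟨x', l'⟩ ⟨hx', hl'⟩ h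
    have h1 : Ψ₁ (x, 1 - l) = Ψ₁ (x', 1 - l') := by
      simp only [hΨ₁, hΨ₂, Prod.mk.injEq, sub_sub_cancel] at h ⊢
      exact h
    have h2 := hinj₁ (show ((x, 1 - l) : ℝ × ℝ) ∈ S from ⟨hx, by simpa using ⟨hl.2, hl.1⟩⟩)
      (show ((x', 1 - l') : ℝ × ℝ) ∈ S from ⟨hx', by simpa using ⟨hl'.2, hl'.1⟩⟩) h1
    simp only [Prod.mk.injEq] at h2 ⊢
    exact ⟨h2.1, by linarith [h2.2]⟩
  have himg₁ : Ψ₁ '' S ⊆ Ioi 0 ×ˢ Ioi 0 := by
    rintro _ ⟨⟨x, l⟩, ⟨hx, hl⟩, rfl⟩
    exact ⟨mul_pos (by linarith [hl.2]) hx.1, mul_pos hl.1 (hTmem x hx).1⟩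
  have himg₂ : Ψ₂ '' S ⊆ Ioi 0 ×ˢ Ioi 0 := by
    rintro _ ⟨⟨x, l⟩, ⟨hx, hl⟩, rfl⟩
    exact ⟨mul_pos hl.1 hx.1, mul_pos (by linarith [hl.2]) (hTmem x hx).1⟩
  set X : ℝ≥0∞ := ∫⁻ z in (Ioi 0 ×ˢ Ioi 0 : Set (ℝ × ℝ)), D z with hX
  set a : ℝ × ℝ → ℝ≥0∞ := fun z => ENNReal.ofReal |(L₁ z).det| * D (Ψ₁ z) with ha
  set b : ℝ × ℝ → ℝ≥0∞ := fun z => ENNReal.ofReal |(L₂ z).det| * D (Ψ₂ z) with hb
  have hXa : ∫⁻ z in S, a z ≤ X := by
    rw [ha, ← lintegral_image_eq_lintegral_abs_det_fderiv_mul volume hSm hd₁ hinj₁ D]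
    exact lintegral_mono_set himg₁
  have hXb : ∫⁻ z in S, b z ≤ X := by
    rw [hb, ← lintegral_image_eq_lintegral_abs_det_fderiv_mul volume hSm hd₂ hinj₂ D]
    exact lintegral_mono_set himg₂
  have hdet₁ : ∀ z ∈ S, |(L₁ z).det| = (1 - z.2) * T z.1 + z.2 * (z.1 * T' z.1) := by
    rintro ⟨x, l⟩ ⟨hx, hl⟩
    simp only [hL₁, lm_det]
    have h1 := (hTmem x hx).1
    have h2 := hT'pos x hx
    have h3 : 0 < (1 - l) * T x + l * (x * T' x) := by
      have : 0 < 1 - l := by linarith [hl.2]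
      have := hl.1
      have := hx.1
      positivity
    rw [show (1 - l) * T x - -x * (l * T' x) = (1 - l) * T x + l * (x * T' x) by ring,
      abs_of_pos h3]
  have hdet₂ : ∀ z ∈ S, |(L₂ z).det| = z.2 * T z.1 + (1 - z.2) * (z.1 * T' z.1) := by
    rintro ⟨x, l⟩ ⟨hx, hl⟩
    simp only [hL₂, lm_det]
    have h1 := (hTmem x hx).1
    have h2 := hT'pos x hx
    have h3 : 0 < l * T x + (1 - l) * (x * T' x) := by
      have : 0 < 1 - l := by linarith [hl.2]
      have := hl.1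
      have := hx.1
      positivity
    rw [show l * -T x - x * ((1 - l) * T' x) = -(l * T x + (1 - l) * (x * T' x)) by ring,
      abs_neg, abs_of_pos h3]
  -- the lower bound
  set k : ℝ := Real.sqrt (V / M) with hk
  have hk0 : 0 < k := Real.sqrt_pos.2 (div_pos hVpos hMpos)
  have hk2 : k ^ 2 = V / M := Real.sq_sqrt (div_pos hVpos hMpos).le
  set c : ℝ × ℝ → ℝ≥0∞ := fun z => ENNReal.ofReal (k * (z.1 * F z.1)) with hc
  have hpt : ∀ z ∈ S, 2 * c z ≤ a z + b z := by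
    rintro ⟨x, l⟩ hz
    apply two_mul_le_add
    have hz1 : x ∈ Ioo 0 H := hz.1
    have hz2 : l ∈ Ioo (0:ℝ) 1 := hz.2
    have h1 := hTmem x hz1
    have h2 := hT'pos x hz1
    have hFx := hFpos x hz1
    have hGT := hGpos _ h1
    have e1 := jac_ineq (x := x) (T := T x) (d := T' x) hz2
    have e2 := hDFG x hz1 (T x) h1 l hz2
    simp only [ha, hb, hc, hdet₁ (x, l) hz, hdet₂ (x, l) hz]
    have e3 : (k * (x * F x)) ^ 2 = (x * T x * T' x) * (F x * G (T x)) := by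
      rw [mul_pow, hk2]
      have := hkey x hz1
      calc V / M * (x * F x) ^ 2 = (V / M * (x * F x)) * (x * F x) := by ring
        _ = (T x * G (T x) * T' x) * (x * F x) := by rw [this]
        _ = _ := by ring
    have hx0 := hz1.1
    have hT0 := h1.1
    have hJ₁ : 0 ≤ (1 - l) * T x + l * (x * T' x) := by
      have : 0 < 1 - l := by linarith [hz2.2]
      have := hz2.1
      positivity
    calc ENNReal.ofReal (k * (x * F x)) ^ 2
        = ENNReal.ofReal ((k * (x * F x)) ^ 2) := by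
          rw [ENNReal.ofReal_pow (by positivity)]
      _ = ENNReal.ofReal (x * T x * T' x) * ENNReal.ofReal (F x * G (T x)) := by
          rw [e3, ENNReal.ofReal_mul (by positivity)]
      _ ≤ ENNReal.ofReal (((1 - l) * T x + l * (x * T' x)) * (l * T x + (1 - l) * (x * T' x)))
          * (D ((1 - l) * x, l * T x) * D (l * x, (1 - l) * T x)) := by
          gcongr
      _ = _ := by
          rw [ENNReal.ofReal_mul hJ₁]
          ring
  -- measurability
  have hTc : ContinuousOn (fun z : ℝ × ℝ => T z.1) S :=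
    fun z hz => (hTfst z hz).continuousAt.continuousWithinAt
  have hT'c : ContinuousOn T' (Ioo 0 H) := by
    have h1 : ContinuousOn T (Ioo 0 H) := fun x hx => (hTd x hx).continuousAt.continuousWithinAt
    have h2 : ContinuousOn (fun x => G (T x)) (Ioo 0 H) := hG.comp h1 hTmem
    refine (ContinuousOn.inv₀ (h1.mul h2) ?_).mul (continuousOn_const.mul (continuousOn_id.mul hF))
    intro x hx
    have h3 := hTmem x hx
    exact (mul_pos h3.1 (hGpos _ h3)).ne'
  have hT'c2 : ContinuousOn (fun z : ℝ × ℝ => T' z.1) S :=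
    hT'c.comp continuousOn_fst fun z hz => hz.1
  have hΨc : ContinuousOn Ψ₁ S := fun z hz => (hd₁ z hz).continuousWithinAt
  have ham : AEMeasurable a (volume.restrict S) := by
    have h1 : AEMeasurable (fun z => D (Ψ₁ z)) (volume.restrict S) :=
      hD.comp_aemeasurable (hΨc.aemeasurable hSm)
    have h2 : AEMeasurable (fun z : ℝ × ℝ => ENNReal.ofReal |(L₁ z).det|) (volume.restrict S) := by
      have h3 : ContinuousOn (fun z : ℝ × ℝ => |(L₁ z).det|) S := by
        have h4 : ContinuousOn (fun z : ℝ × ℝ => (1 - z.2) * T z.1 + z.2 * (z.1 * T' z.1)) S :=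
          ((continuousOn_const.sub continuousOn_snd).mul hTc).add
            (continuousOn_snd.mul (continuousOn_fst.mul hT'c2))
        exact h4.congr hdet₁
      exact (h3.aemeasurable hSm).ennreal_ofReal
    exact h2.mul h1
  have h2X : 2 * ∫⁻ z in S, c z ≤ 2 * X := by
    calc 2 * ∫⁻ z in S, c z = ∫⁻ z in S, 2 * c z := (lintegral_const_mul' 2 c (by simp)).symm
      _ ≤ ∫⁻ z in S, (a z + b z) := setLIntegral_mono' hSm hpt
      _ = (∫⁻ z in S, a z) + ∫⁻ z in S, b z := lintegral_add_left' ham b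
      _ ≤ X + X := add_le_add hXa hXb
      _ = 2 * X := (two_mul X).symm
  have hcX : ∫⁻ z in S, c z ≤ X := by
    rwa [ENNReal.mul_le_mul_iff_right (by simp) (by simp)] at h2X
  -- the value of the lower bound
  have hcF : ContinuousOn (fun x => k * (x * F x)) (Ioo 0 H) :=
    continuousOn_const.mul (continuousOn_id.mul hF)
  have hcval : ∫⁻ z in S, c z = ENNReal.ofReal (k * M) := by
    have hcont : ContinuousOn (fun z : ℝ × ℝ => k * (z.1 * F z.1)) S :=
      hcF.comp continuousOn_fst fun z hz => hz.1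
    have hcm : AEMeasurable c (volume.restrict S) := (hcont.aemeasurable hSm).ennreal_ofReal
    have h1 : (volume : Measure (ℝ × ℝ)).restrict S
        = ((volume : Measure ℝ).restrict (Ioo 0 H)).prod ((volume : Measure ℝ).restrict (Ioo 0 1)) := by
      rw [Measure.prod_restrict, Measure.volume_eq_prod]
    rw [h1] at hcm ⊢
    rw [lintegral_prod c hcm]
    have h2 : ∀ x : ℝ, ∫⁻ y in Ioo (0:ℝ) 1, c (x, y) = ENNReal.ofReal (k * (x * F x)) := by
      intro x
      simp only [hc]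
      rw [setLIntegral_const, Real.volume_Ioo]
      simp
    simp only [h2]
    rw [← ofReal_integral_eq_lintegral_ofReal (hFi.const_mul k) ?_]
    · rw [integral_const_mul, hM, mo_H hH]
    · refine (ae_restrict_iff' measurableSet_Ioo).2 (Eventually.of_forall fun x hx => ?_)
      exact mul_nonneg hk0.le (mul_nonneg hx.1.le (hFpos x hx).le)
  have hfin : M * V = (k * M) ^ 2 := by
    rw [mul_pow, hk2]
    field_simp
  rw [hfin, ENNReal.ofReal_pow (mul_pos hk0 hMpos).le]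
  rw [hcval] at hcX
  gcongr

end Pool.H40.EV
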