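import Pool.Agent.Helper40.EV.PL
import Pool.Agent.Helper40.EV.Transport

/-! Piece EV-3: the inequality `(∫_C h) (∫_{C_0} p²) ≤ 2 (∫_C p)²`. -/

set_option autoImplicit false

namespace Pool.H40.EV

open MeasureTheory Set Matrix
open scoped ENNReal

/-- a set containing a contracted copy of a set of positive volume has positive volume -/
private theorem pos_of_contract {m : ℕ} {S T : Set (Fin m → ℝ)} (hS : volume S ≠ 0) (x : Fin m → ℝ) {r : ℝ}
    (hr : 0 < r) (hsub : ∀ y ∈ S, r • y + (1 - r) • x ∈ T) : volume T ≠ 0 := by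
  intro h
  have h1 : AffineMap.homothety x r '' S ⊆ T := by
    rintro _ ⟨y, hy, rfl⟩
    have := hsub y hy
    have e : AffineMap.homothety x r y = r • y + (1 - r) • x := by
      simp [AffineMap.homothety_apply, smul_sub, sub_smul]
      abel
    rw [e]; exact this
  have h2 := measure_mono_null h1 h
  rw [Measure.addHaar_image_homothety] at h2
  rcases mul_eq_zero.1 h2 with h3 | h3
  · rw [ENNReal.ofReal_eq_zero] at h3
    have : 0 < |r ^ Module.finrank ℝ (Fin m → ℝ)| := by positivity
    linarith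
  · exact hS h3

/-- log-concavity gives continuity -/
private theorem continuousOn_of_logconc {H : ℝ} {f : ℝ → ℝ≥0∞} (h0 : ∀ x ∈ Ioo 0 H, f x ≠ 0)
    (htop : ∀ x, f x ≠ ∞)
    (hf : ∀ x ∈ Ioo 0 H, ∀ y ∈ Ioo 0 H, ∀ t : ℝ, 0 < t → t < 1 →
      f x ^ (1 - t) * f y ^ t ≤ f ((1 - t) * x + t * y)) :
    ContinuousOn (fun x => (f x).toReal) (Ioo 0 H) := by
  have hpos : ∀ x ∈ Ioo 0 H, 0 < (f x).toReal := fun x hx => ENNReal.toReal_pos (h0 x hx) (htop x)
  have hconc : ConcaveOn ℝ (Ioo 0 H) fun x => Real.log (f x).toReal := by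
    rw [concaveOn_iff_forall_pos]
    refine ⟨convex_Ioo 0 H, ?_⟩
    intro x hx y hy a b ha hb hab
    have ha' : a = 1 - b := by linarith
    subst ha'
    have hz : (1 - b) • x + b • y ∈ Ioo 0 H := convex_Ioo 0 H hx hy ha.le hb.le hab
    have h1 := hf x hx y hy b hb (by linarith)
    simp only [smul_eq_mul] at hz ⊢
    have h2 := ENNReal.toReal_mono (htop _) h1
    rw [ENNReal.toReal_mul, ← ENNReal.toReal_rpow, ← ENNReal.toReal_rpow] at h2
    have h3 := Real.log_le_log (mul_pos (Real.rpow_pos_of_pos (hpos x hx) _)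
      (Real.rpow_pos_of_pos (hpos y hy) _)) h2
    rw [Real.log_mul (Real.rpow_pos_of_pos (hpos x hx) _).ne' (Real.rpow_pos_of_pos (hpos y hy) _).ne',
      Real.log_rpow (hpos x hx), Real.log_rpow (hpos y hy)] at h3
    exact h3
  have hc := hconc.continuousOn isOpen_Ioo
  refine (Real.continuous_exp.comp_continuousOn hc).congr fun x hx => ?_
  simp only [Function.comp]
  rw [Real.exp_log (hpos x hx)]

section

variable {m : ℕ} (C : Set (Pt m)) (p : Pt m →ᵃ[ℝ] ℝ)

/-- the sections -/
private def Sec (h : ℝ) : Set (Fin m → ℝ) := {x | (x, h) ∈ C}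

private def SecP (h v : ℝ) : Set (Fin m → ℝ) := {x | (x, h) ∈ C ∧ v ≤ p (x, h)}

variable {C p}

private theorem cont_p : Continuous p := p.continuous_of_finiteDimensional

private theorem comb_p (x y : Pt m) {a b : ℝ} (h : a + b = 1) : p (a • x + b • y) = a * p x + b * p y := by
  have := Convex.combo_affine_apply (f := p) (x := x) (y := y) h
  simpa using this

private theorem meas_Sec (hC : IsClosed C) (h : ℝ) : MeasurableSet (Sec C h) := by
  have : IsClosed (Sec C h) := hC.preimage (by fun_prop : Continuous fun x : Fin m → ℝ => (x, h))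
  exact this.measurableSet

private theorem meas_SecP (hC : IsClosed C) (h v : ℝ) : MeasurableSet (SecP C p h v) := by
  have h1 : Continuous fun x : Fin m → ℝ => (x, h) := by fun_prop
  have : IsClosed (SecP C p h v) :=
    (hC.preimage h1).inter (isClosed_le continuous_const (cont_p.comp h1))
  exact this.measurableSet

private theorem SecP_subset (h v : ℝ) : SecP C p h v ⊆ Sec C h := fun _ hx => hx.1

private theorem Sec_subset (h : ℝ) : Sec C h ⊆ Prod.fst '' C := fun x hx => ⟨(x, h), hx, rfl⟩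

private theorem vol_proj (hCc : IsCompact C) : volume (Prod.fst '' C : Set (Fin m → ℝ)) < ∞ :=
  (hCc.image continuous_fst).measure_lt_top

private theorem vol_Sec (hCc : IsCompact C) (h : ℝ) : volume (Sec C h) ≠ ∞ :=
  ((measure_mono (Sec_subset h)).trans_lt (vol_proj hCc)).ne

private theorem vol_SecP (hCc : IsCompact C) (h v : ℝ) : volume (SecP C p h v) ≠ ∞ :=
  ((measure_mono ((SecP_subset h v).trans (Sec_subset h))).trans_lt (vol_proj hCc)).ne

private theorem measurable_Sec (hC : IsClosed C) : Measurable fun h => volume (Sec C h) :=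
  measurable_measure_prodMk_right hC.measurableSet

private theorem measurable_SecP (hC : IsClosed C) :
    Measurable fun z : ℝ × ℝ => volume (SecP C p z.1 z.2) := by
  have h1 : IsClosed {q : (Fin m → ℝ) × (ℝ × ℝ) | (q.1, q.2.1) ∈ C ∧ q.2.2 ≤ p (q.1, q.2.1)} := by
    have e : Continuous fun q : (Fin m → ℝ) × (ℝ × ℝ) => (q.1, q.2.1) := by fun_prop
    exact (hC.preimage e).inter (isClosed_le (by fun_prop) (cont_p.comp e))
  exact measurable_measure_prodMk_right h1.measurableSet

/-- Tonelli for the first moment -/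
private theorem lint_h (hC : IsClosed C) :
    ∫⁻ x in C, ENNReal.ofReal x.2 = ∫⁻ h, ENNReal.ofReal h * volume (Sec C h) := by
  rw [← lintegral_indicator hC.measurableSet, Measure.volume_eq_prod, lintegral_prod_symm']
  · apply lintegral_congr
    intro h
    have e : ∀ x : Fin m → ℝ, C.indicator (fun x : Pt m => ENNReal.ofReal x.2) (x, h)
        = ENNReal.ofReal h * (Sec C h).indicator 1 x := by
      intro x
      by_cases hx : (x, h) ∈ C
      · rw [Set.indicator_of_mem hx, Set.indicator_of_mem (show x ∈ Sec C h from hx)]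
        simp
      · rw [Set.indicator_of_notMem hx, Set.indicator_of_notMem (show x ∉ Sec C h from hx)]
        simp
    simp only [e]
    rw [lintegral_const_mul _ (measurable_one.indicator (meas_Sec hC h)),
      lintegral_indicator_one (meas_Sec hC h)]
  · exact (ENNReal.measurable_ofReal.comp measurable_snd).indicator hC.measurableSet

/-- layer cake for `p` on `C` -/
private theorem lint_p (hC : IsClosed C) (hp : ∀ x ∈ C, 0 ≤ p x) :
    ∫⁻ x in C, ENNReal.ofReal (p x) = ∫⁻ h, ∫⁻ v in Ioi 0, volume (SecP C p h v) := by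
  rw [← lintegral_indicator hC.measurableSet, Measure.volume_eq_prod, lintegral_prod_symm']
  · apply lintegral_congr
    intro h
    have e : ∀ x : Fin m → ℝ, C.indicator (fun x : Pt m => ENNReal.ofReal (p x)) (x, h)
        = (Sec C h).indicator (fun x => ENNReal.ofReal (p (x, h))) x := by
      intro x
      by_cases hx : (x, h) ∈ C
      · rw [Set.indicator_of_mem hx, Set.indicator_of_mem (show x ∈ Sec C h from hx)]
      · rw [Set.indicator_of_notMem hx, Set.indicator_of_notMem (show x ∉ Sec C h from hx)]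
    simp only [e]
    have hcont : Continuous fun x : Fin m → ℝ => p (x, h) := cont_p.comp (by fun_prop)
    rw [lintegral_indicator (meas_Sec hC h), lintegral_eq_lintegral_meas_le]
    · apply lintegral_congr
      intro v
      rw [Measure.restrict_apply (isClosed_le continuous_const hcont).measurableSet]
      congr 1
      ext x
      simp only [SecP, Sec, mem_inter_iff, mem_ofPred_eq]
      tauto
    · filter_upwards [ae_restrict_mem (meas_Sec hC h)] with x hx
      exact hp _ hx
    · exact hcont.aemeasurable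
  · exact (ENNReal.measurable_ofReal.comp cont_p.measurable).indicator hC.measurableSet

/-- layer cake for `p²` on the base -/
private theorem lint_p2 (hC : IsClosed C) (hp : ∀ x ∈ C, 0 ≤ p x) :
    ∫⁻ x in Sec C 0, ENNReal.ofReal (p (x, 0) ^ 2)
      = 2 * ∫⁻ c in Ioi 0, ENNReal.ofReal c * volume (SecP C p 0 c) := by
  have hcont : Continuous fun x : Fin m → ℝ => p (x, 0) := cont_p.comp (by fun_prop)
  have h1 := lintegral_rpow_eq_lintegral_meas_le_mul (μ := volume.restrict (Sec C 0))
    (f := fun x => p (x, 0)) (p := 2)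
    (by
      filter_upwards [ae_restrict_mem (meas_Sec hC 0)] with x hx
      exact hp _ hx) hcont.aemeasurable two_pos
  have h2 : ∀ x : Fin m → ℝ, p (x, 0) ^ (2:ℝ) = p (x, 0) ^ 2 := fun x => by
    rw [← Real.rpow_natCast]; norm_num
  simp only [h2] at h1
  rw [h1]
  congr 1
  · simp
  · apply setLIntegral_congr_fun measurableSet_Ioi
    intro c _
    simp only
    rw [Measure.restrict_apply (isClosed_le continuous_const hcont).measurableSet, mul_comm]
    congr 1
    · norm_num
    · congr 1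
      ext x
      simp only [SecP, Sec, mem_inter_iff, mem_ofPred_eq]
      tauto

end

theorem ineq_I (m : ℕ) (C : Set (Pt m)) (hC : Convex ℝ C) (hCc : IsCompact C)
    (hpos : ∀ x ∈ C, 0 ≤ x.2) (p : Pt m →ᵃ[ℝ] ℝ) (hp : ∀ x ∈ C, 0 ≤ p x) :
    (∫ x in C, x.2) * (∫ x in {x : Fin m → ℝ | (x, (0:ℝ)) ∈ C}, (p (x, 0)) ^ 2) ≤
      2 * (∫ x in C, p x) ^ 2 := by
  have hCl : IsClosed C := hCc.isClosed
  have hS0 : {x : Fin m → ℝ | (x, (0:ℝ)) ∈ C} = Sec C 0 := rfl
  rw [hS0]
  by_cases hv0 : volume (Sec C 0) = 0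
  · have : ∫ x in Sec C 0, (p (x, 0)) ^ 2 = 0 := by
      rw [Measure.restrict_eq_zero.2 hv0, integral_zero_measure]
    rw [this, mul_zero]
    positivity
  have hne0 : (Sec C 0).Nonempty := by
    by_contra h
    rw [Set.not_nonempty_iff_eq_empty] at h
    exact hv0 (by rw [h]; simp)
  have hneC : C.Nonempty := by
    obtain ⟨x, hx⟩ := hne0
    exact ⟨(x, 0), hx⟩
  -- the top point
  obtain ⟨z1, hz1, hz1max⟩ := hCc.exists_isMaxOn hneC (continuous_snd (X := Fin m → ℝ) (Y := ℝ)).continuousOn
  set H : ℝ := z1.2 with hH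
  have hHtop : ∀ z ∈ C, z.2 ≤ H := fun z hz => hz1max hz
  have hH0 : 0 ≤ H := hpos z1 hz1
  rcases hH0.eq_or_lt with hH0 | hHpos
  · have : ∫ x in C, x.2 = 0 := by
      have e : ∀ x ∈ C, x.2 = (0:ℝ) := fun x hx => le_antisymm (by rw [hH0]; exact hHtop x hx) (hpos x hx)
      rw [setIntegral_congr_fun hCl.measurableSet (g := fun _ => (0:ℝ)) (fun x hx => e x hx)]
      simp
    rw [this, zero_mul]
    positivity
  have hS0c : IsCompact (Sec C 0) := by
    refine (hCc.image continuous_fst).of_isClosed_subset ?_ (Sec_subset 0)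
    exact hCl.preimage (by fun_prop : Continuous fun x : Fin m → ℝ => (x, (0:ℝ)))
  have hcont0 : Continuous fun x : Fin m → ℝ => p (x, 0) := cont_p.comp (by fun_prop)
  obtain ⟨b1, hb1, hb1max⟩ := hS0c.exists_isMaxOn hne0 hcont0.continuousOn
  set Cm : ℝ := p (b1, 0) with hCm
  have hCtop : ∀ x ∈ Sec C 0, p (x, 0) ≤ Cm := fun x hx => hb1max hx
  have hC0 : 0 ≤ Cm := hp _ hb1
  rcases hC0.eq_or_lt with hC0 | hCpos
  · have : ∫ x in Sec C 0, (p (x, 0)) ^ 2 = 0 := by
      have e : ∀ x ∈ Sec C 0, (p (x, 0)) ^ 2 = (0:ℝ) := fun x hx => by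
        have h9 := hCtop x hx
        rw [← hC0] at h9
        have : p (x, 0) = 0 := le_antisymm h9 (hp _ hx)
        rw [this]; simp
      rw [setIntegral_congr_fun (meas_Sec hCl 0) (g := fun _ => (0:ℝ)) (fun x hx => e x hx)]
      simp
    rw [this, mul_zero]
    positivity
  -- the functions
  set f : ℝ → ℝ≥0∞ := fun h => volume (Sec C h) with hf
  set g : ℝ → ℝ≥0∞ := fun c => volume (SecP C p 0 c) with hg
  have hf0 : ∀ h ∈ Ioo 0 H, f h ≠ 0 := by
    intro h hh
    have hr : 0 < 1 - h / H := by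
      have : h / H < 1 := (div_lt_one hHpos).2 hh.2
      linarith
    apply pos_of_contract hv0 z1.1 hr
    intro y hy
    have h1 : (1 - h / H) • (y, (0:ℝ)) + (h / H) • z1 ∈ C :=
      hC hy hz1 hr.le (div_nonneg hh.1.le hHpos.le) (by ring)
    have h2 : (1 - h / H) • (y, (0:ℝ)) + (h / H) • z1
        = ((1 - h / H) • y + (1 - (1 - h / H)) • z1.1, h) := by
      ext
      · simp
      · simp only [Prod.snd_add, Prod.smul_snd, smul_eq_mul, mul_zero, zero_add]
        rw [← hH]
        field_simp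
    rw [h2] at h1
    exact h1
  have hg0 : ∀ c ∈ Ioo 0 Cm, g c ≠ 0 := by
    intro c hc
    have hr : 0 < 1 - c / Cm := by
      have : c / Cm < 1 := (div_lt_one hCpos).2 hc.2
      linarith
    apply pos_of_contract hv0 b1 hr
    intro y hy
    have h1 : (1 - c / Cm) • (y, (0:ℝ)) + (c / Cm) • (b1, (0:ℝ)) ∈ C :=
      hC hy hb1 hr.le (div_nonneg hc.1.le hCpos.le) (by ring)
    have h2 : (1 - c / Cm) • (y, (0:ℝ)) + (c / Cm) • (b1, (0:ℝ))
        = ((1 - c / Cm) • y + (1 - (1 - c / Cm)) • b1, 0) := by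
      ext
      · simp
      · simp
    have h3 : p ((1 - c / Cm) • (y, (0:ℝ)) + (c / Cm) • (b1, (0:ℝ)))
        = (1 - c / Cm) * p (y, 0) + (c / Cm) * p (b1, 0) := comb_p _ _ (by ring)
    rw [h2] at h1 h3
    refine ⟨h1, ?_⟩
    rw [h3, ← hCm]
    have h4 : c / Cm * Cm = c := by field_simp
    rw [h4]
    have h5 : 0 ≤ (1 - c / Cm) * p (y, 0) := mul_nonneg hr.le (hp _ hy)
    linarith
  have hfz : ∀ h, H < h → f h = 0 := by
    intro h hh
    have : Sec C h = ∅ := by
      rw [Set.eq_empty_iff_forall_notMem]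
      intro x hx
      exact absurd (hHtop _ hx) (not_le.2 hh)
    simp only [hf, this, measure_empty]
  have hfneg : ∀ h, h < 0 → Sec C h = ∅ := by
    intro h hh
    rw [Set.eq_empty_iff_forall_notMem]
    intro x hx
    exact absurd (hpos _ hx) (not_le.2 hh)
  have hgz : ∀ c, Cm < c → g c = 0 := by
    intro c hc
    have : SecP C p 0 c = ∅ := by
      rw [Set.eq_empty_iff_forall_notMem]
      intro x hx
      exact absurd (hx.2.trans (hCtop _ hx.1)) (not_le.2 hc)
    simp only [hg, this, measure_empty]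
  have hftop : ∀ h, f h ≠ ∞ := fun h => vol_Sec hCc h
  have hgtop : ∀ c, g c ≠ ∞ := fun c => vol_SecP hCc 0 c
  have hfm : Measurable f := measurable_Sec hCl
  have hgm : Measurable g := (measurable_SecP hCl).comp (measurable_const.prodMk measurable_id)
  -- continuity
  have hfc : ContinuousOn (fun h => (f h).toReal) (Ioo 0 H) := by
    apply continuousOn_of_logconc hf0 hftop
    intro x _ y _ t ht0 ht1
    apply brunn_minkowski_rpow m t ht0 ht1 _ _ _ (meas_Sec hCl _) (meas_Sec hCl _) (meas_Sec hCl _)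
    intro a ha b hb
    have h1 : (1 - t) • (a, x) + t • (b, y) ∈ C := hC ha hb (by linarith) ht0.le (by ring)
    show ((1 - t) • a + t • b, (1 - t) * x + t * y) ∈ C
    simpa using h1
  have hgc : ContinuousOn (fun c => (g c).toReal) (Ioo 0 Cm) := by
    apply continuousOn_of_logconc hg0 hgtop
    intro x _ y _ t ht0 ht1
    apply brunn_minkowski_rpow m t ht0 ht1 _ _ _ (meas_SecP hCl _ _) (meas_SecP hCl _ _) (meas_SecP hCl _ _)
    intro a ha b hb
    have h1 : (1 - t) • (a, (0:ℝ)) + t • (b, (0:ℝ)) ∈ C := hC ha.1 hb.1 (by linarith) ht0.le (by ring)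
    have h2 : p ((1 - t) • (a, (0:ℝ)) + t • (b, (0:ℝ))) = (1 - t) * p (a, 0) + t * p (b, 0) :=
      comb_p _ _ (by ring)
    have h3 : (1 - t) • (a, (0:ℝ)) + t • (b, (0:ℝ)) = ((1 - t) • a + t • b, 0) := by
      ext <;> simp
    rw [h3] at h1 h2
    refine ⟨h1, ?_⟩
    rw [h2]
    exact add_le_add (mul_le_mul_of_nonneg_left ha.2 (by linarith)) (mul_le_mul_of_nonneg_left hb.2 ht0.le)
  -- the integrals
  set P : ℝ≥0∞ := volume (Prod.fst '' C : Set (Fin m → ℝ)) with hP
  have hPtop : P ≠ ∞ := (vol_proj hCc).ne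
  have hfP : ∀ h, f h ≤ P := fun h => measure_mono (Sec_subset h)
  have hgP : ∀ c, g c ≤ P := fun c => measure_mono ((SecP_subset 0 c).trans (Sec_subset 0))
  have hint : ∀ (k : ℝ → ℝ≥0∞) (L : ℝ), Measurable k → (∀ x, k x ≤ P) → 0 < L →
      IntegrableOn (fun x => x * (k x).toReal) (Ioo 0 L) := by
    intro k L hk hkP hL
    apply Measure.integrableOn_of_bounded (M := L * P.toReal)
    · simp
    · exact (measurable_id.mul hk.ennreal_toReal).aestronglyMeasurable
    · filter_upwards [ae_restrict_mem measurableSet_Ioo] with x hx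
      rw [Real.norm_eq_abs, abs_mul, abs_of_pos hx.1, abs_of_nonneg ENNReal.toReal_nonneg]
      exact mul_le_mul hx.2.le (ENNReal.toReal_mono hPtop (hkP x)) ENNReal.toReal_nonneg hL.le
  have hFi := hint f H hfm hfP hHpos
  have hGi := hint g Cm hgm hgP hCpos
  have hmom : ∀ (k : ℝ → ℝ≥0∞) (L : ℝ), Measurable k → (∀ x, k x ≠ ∞) → (∀ x, L < x → k x = 0) →
      IntegrableOn (fun x => x * (k x).toReal) (Ioo 0 L) →
      ∫⁻ x in Ioi 0, ENNReal.ofReal x * k x = ENNReal.ofReal (∫ x in Ioo 0 L, x * (k x).toReal) := by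
    intro k L hk hktop hkz hki
    rw [ofReal_integral_eq_lintegral_ofReal hki]
    · have h1 : ∀ x, ENNReal.ofReal (x * (k x).toReal) = ENNReal.ofReal x * k x := by
        intro x
        rw [mul_comm, ENNReal.ofReal_mul ENNReal.toReal_nonneg, ENNReal.ofReal_toReal (hktop x), mul_comm]
      simp only [h1]
      rw [← lintegral_indicator measurableSet_Ioi, ← lintegral_indicator measurableSet_Ioo]
      apply lintegral_congr_ae
      have : ∀ᵐ x : ℝ, x ≠ L := by
        simp [ae_iff]
      filter_upwards [this] with x hx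
      by_cases h0 : 0 < x
      · rcases lt_trichotomy x L with h | h | h
        · rw [indicator_of_mem (show x ∈ Ioi (0:ℝ) from h0), indicator_of_mem (show x ∈ Ioo 0 L from ⟨h0, h⟩)]
        · exact absurd h hx
        · rw [indicator_of_mem (show x ∈ Ioi (0:ℝ) from h0), hkz x h, mul_zero]
          rw [indicator_of_notMem]
          exact fun hx => absurd hx.2 (not_lt.2 h.le)
      · rw [indicator_of_notMem (show x ∉ Ioi (0:ℝ) from h0),
          indicator_of_notMem (show x ∉ Ioo 0 L from fun hx => h0 hx.1)]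
    · filter_upwards [ae_restrict_mem measurableSet_Ioo] with x hx
      exact mul_nonneg hx.1.le ENNReal.toReal_nonneg
  -- first moment
  have hM : ∫ x in C, x.2 = ∫ x in Ioo 0 H, x * (f x).toReal := by
    have h1 : ENNReal.ofReal (∫ x in C, x.2) = ∫⁻ x in C, ENNReal.ofReal x.2 := by
      apply ofReal_integral_eq_lintegral_ofReal
      · exact (continuous_snd.continuousOn).integrableOn_compact hCc
      · filter_upwards [ae_restrict_mem hCl.measurableSet] with x hx using hpos x hx
    have h2 : ∫⁻ h, ENNReal.ofReal h * f h = ∫⁻ h in Ioi 0, ENNReal.ofReal h * f h := by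
      rw [← lintegral_indicator measurableSet_Ioi]
      apply lintegral_congr
      intro h
      by_cases h0 : 0 < h
      · rw [indicator_of_mem (show h ∈ Ioi (0:ℝ) from h0)]
      · rw [indicator_of_notMem (show h ∉ Ioi (0:ℝ) from h0), ENNReal.ofReal_eq_zero.2 (not_lt.1 h0), zero_mul]
    rw [lint_h hCl] at h1
    have h3 := h1.trans (h2.trans (hmom f H hfm hftop hfz hFi))
    have h4 : 0 ≤ ∫ x in C, x.2 := setIntegral_nonneg hCl.measurableSet hpos
    have h5 : 0 ≤ ∫ x in Ioo 0 H, x * (f x).toReal :=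
      setIntegral_nonneg measurableSet_Ioo fun x hx => mul_nonneg hx.1.le ENNReal.toReal_nonneg
    exact (ENNReal.ofReal_eq_ofReal_iff h4 h5).1 h3
  have hV : ∫ x in Sec C 0, (p (x, 0)) ^ 2 = 2 * ∫ x in Ioo 0 Cm, x * (g x).toReal := by
    have h1 : ENNReal.ofReal (∫ x in Sec C 0, (p (x, 0)) ^ 2)
        = ∫⁻ x in Sec C 0, ENNReal.ofReal ((p (x, 0)) ^ 2) := by
      apply ofReal_integral_eq_lintegral_ofReal
      · exact ((hcont0.pow 2).continuousOn).integrableOn_compact hS0c
      · exact Filter.Eventually.of_forall fun x => sq_nonneg _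
    rw [lint_p2 hCl hp] at h1
    have h3 := h1.trans (congrArg (fun y => 2 * y) (hmom g Cm hgm hgtop hgz hGi))
    have h4 : 0 ≤ ∫ x in Sec C 0, (p (x, 0)) ^ 2 := integral_nonneg fun x => sq_nonneg _
    have h5 : 0 ≤ ∫ x in Ioo 0 Cm, x * (g x).toReal :=
      setIntegral_nonneg measurableSet_Ioo fun x hx => mul_nonneg hx.1.le ENNReal.toReal_nonneg
    have h6 : (2 : ℝ≥0∞) = ENNReal.ofReal 2 := by simp
    rw [h6, ← ENNReal.ofReal_mul (by norm_num)] at h3
    exact (ENNReal.ofReal_eq_ofReal_iff h4 (by positivity)).1 h3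
  -- the double integral
  have hX : ∫⁻ z in (Ioi 0 ×ˢ Ioi 0 : Set (ℝ × ℝ)), volume (SecP C p z.1 z.2)
      = ENNReal.ofReal (∫ x in C, p x) := by
    have h1 : ENNReal.ofReal (∫ x in C, p x) = ∫⁻ x in C, ENNReal.ofReal (p x) := by
      apply ofReal_integral_eq_lintegral_ofReal
      · exact (cont_p.continuousOn).integrableOn_compact hCc
      · filter_upwards [ae_restrict_mem hCl.measurableSet] with x hx using hp x hx
    rw [h1, lint_p hCl hp, Measure.volume_eq_prod, ← Measure.prod_restrict, lintegral_prod _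
      (measurable_SecP hCl).aemeasurable, ← lintegral_indicator measurableSet_Ioi]
    apply lintegral_congr_ae
    have : ∀ᵐ h : ℝ, h ≠ 0 := by simp [ae_iff]
    filter_upwards [this] with h hh
    rcases lt_trichotomy h 0 with h0 | h0 | h0
    · rw [indicator_of_notMem (show h ∉ Ioi (0:ℝ) from not_lt.2 h0.le)]
      have : ∀ v, volume (SecP C p h v) = 0 := by
        intro v
        apply measure_mono_null (SecP_subset h v)
        rw [hfneg h h0, measure_empty]
      simp [this]
    · exact absurd h0 hh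
    · rw [indicator_of_mem (show h ∈ Ioi (0:ℝ) from h0)]
  -- conclusion
  have hJ := transport_J (fun h => (f h).toReal) (fun c => (g c).toReal)
    (fun z => volume (SecP C p z.1 z.2)) (measurable_SecP hCl) H Cm hHpos hCpos hfc
    (fun x hx => ENNReal.toReal_pos (hf0 x hx) (hftop x)) hgc
    (fun x hx => ENNReal.toReal_pos (hg0 x hx) (hgtop x)) hFi hGi ?_
  · rw [hX, ← ENNReal.ofReal_pow (setIntegral_nonneg hCl.measurableSet hp),
      ENNReal.ofReal_le_ofReal_iff (sq_nonneg _), ← hM] at hJ
    rw [hV]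
    linarith
  · intro x hx y hy l hl
    rw [ENNReal.ofReal_mul ENNReal.toReal_nonneg, ENNReal.ofReal_toReal (hftop x),
      ENNReal.ofReal_toReal (hgtop y)]
    apply brunn_minkowski_prod m l hl.1.le hl.2.le _ _ _ _ (meas_Sec hCl _) (meas_SecP hCl _ _)
      (meas_SecP hCl _ _) (meas_SecP hCl _ _)
    · intro a ha b hb
      have h1 : (1 - l) • (a, x) + l • (b, (0:ℝ)) ∈ C := hC ha hb.1 (by linarith [hl.2]) hl.1.le (by ring)
      have h2 : p ((1 - l) • (a, x) + l • (b, (0:ℝ))) = (1 - l) * p (a, x) + l * p (b, 0) :=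
        comb_p _ _ (by ring)
      have h3 : (1 - l) • (a, x) + l • (b, (0:ℝ)) = ((1 - l) • a + l • b, (1 - l) * x) := by
        ext <;> simp
      rw [h3] at h1 h2
      refine ⟨h1, ?_⟩
      rw [h2]
      have h4 : 0 ≤ (1 - l) * p (a, x) := mul_nonneg (by linarith [hl.2]) (hp _ ha)
      have h5 : l * y ≤ l * p (b, 0) := mul_le_mul_of_nonneg_left hb.2 hl.1.le
      simp only
      linarith
    · intro a ha b hb
      have h1 : l • (a, x) + (1 - l) • (b, (0:ℝ)) ∈ C := hC ha hb.1 hl.1.le (by linarith [hl.2]) (by ring)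
      have h2 : p (l • (a, x) + (1 - l) • (b, (0:ℝ))) = l * p (a, x) + (1 - l) * p (b, 0) :=
        comb_p _ _ (by ring)
      have h3 : l • (a, x) + (1 - l) • (b, (0:ℝ)) = (l • a + (1 - l) • b, l * x) := by
        ext <;> simp
      rw [h3] at h1 h2
      refine ⟨h1, ?_⟩
      rw [h2]
      have h4 : 0 ≤ l * p (a, x) := mul_nonneg hl.1.le (hp _ ha)
      have h5 : (1 - l) * y ≤ (1 - l) * p (b, 0) := mul_le_mul_of_nonneg_left hb.2 (by linarith [hl.2])
      simp only
      linarith

end Pool.H40.EV
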