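import Pool.Agent.Helper40.EV.LemB1
import Pool.Agent.Helper40.EV.IneqI

/-! Lemma B. -/

set_option autoImplicit false

namespace Pool.H40.EV

open MeasureTheory Set Matrix
open scoped ENNReal

variable {m : ℕ}

/-- inequality (I) for caps -/
theorem capI (K : Set (Pt m)) (hK : Convex ℝ K) (hKc : IsCompact K)
    (σ : ℝ) (hσ : σ = 1 ∨ σ = -1) (A : Fin (m + 1) → ℝ) (p : Pt m →ᵃ[ℝ] ℝ)
    (hp : ∀ x ∈ K, 0 ≤ p x) :
    mv K σ A * (∫ x in sect K A, (p (x, aff A x)) ^ 2) ≤ 2 * (∫ x in cap K σ A, p x) ^ 2 := by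
  have h := ineq_I m (capC K σ A) (convex_capC K hK σ A) (isCompact_capC K hKc σ hσ A)
    (fun x hx => hx.1) (p.comp (shearAff σ A)) (fun x hx => hp _ hx.2)
  have e1 : {x : Fin m → ℝ | (x, (0:ℝ)) ∈ capC K σ A} = sect K A := by
    ext x; simp [capC, sect, shear]
  have e2 : ∀ x : Fin m → ℝ, (p.comp (shearAff σ A)) (x, 0) = p (x, aff A x) := by
    intro x
    have : (shearAff σ A) ((x, 0) : Pt m) = (x, aff A x) := by
      change shear σ A (x, 0) = _
      simp [shear]
    rw [AffineMap.comp_apply, this]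
  have e3 : ∫ x in capC K σ A, (p.comp (shearAff σ A)) x = ∫ x in cap K σ A, p x :=
    setIntegral_capC K σ hσ A p
  rw [e1, setIntegral_capC_snd K σ hσ A, e3] at h
  simp only [e2] at h
  exact h

/-- inequality (II) for sections -/
theorem sectII (S : Set (Fin m → ℝ)) (hS : Convex ℝ S) (hSc : IsCompact S)
    (P Q : Fin (m + 1) → ℝ) (hP : ∀ x ∈ S, 0 ≤ aff P x) (hQ : ∀ x ∈ S, 0 ≤ aff Q x) :
    (∫ x in S, aff P x * aff P x) * (∫ x in S, aff Q x * aff Q x) ≤
      4 * (∫ x in S, aff P x * aff Q x) ^ 2 := by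
  set C : Set (Pt m) := {y | y.1 ∈ S ∧ 0 ≤ y.2 ∧ y.2 ≤ aff Q y.1} with hC
  have hconv : Convex ℝ C := by
    intro x hx y hy a b ha hb hab
    refine ⟨hS hx.1 hy.1 ha hb hab, ?_, ?_⟩
    · have := hx.2.1; have := hy.2.1
      simp only [Prod.snd_add, Prod.smul_snd, smul_eq_mul]
      positivity
    · simp only [Prod.snd_add, Prod.smul_snd, smul_eq_mul, Prod.fst_add, Prod.smul_fst]
      rw [aff_comb Q x.1 y.1 hab]
      have := mul_le_mul_of_nonneg_left hx.2.2 ha
      have := mul_le_mul_of_nonneg_left hy.2.2 hb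
      linarith
  have hcQ : Continuous fun y : Pt m => aff Q y.1 := (continuous_aff_right Q).comp continuous_fst
  have hcl : IsClosed C := by
    have : C = (Prod.fst ⁻¹' S) ∩ ({y | 0 ≤ y.2} ∩ {y | y.2 ≤ aff Q y.1}) := by
      ext y; simp [hC]
    rw [this]
    exact (hSc.isClosed.preimage continuous_fst).inter
      ((isClosed_le continuous_const continuous_snd).inter (isClosed_le continuous_snd hcQ))
  have hcomp : IsCompact C := by
    rcases S.eq_empty_or_nonempty with hemp | hne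
    · have : C = ∅ := by
        ext y; simp [hC, hemp]
      rw [this]; exact isCompact_empty
    · obtain ⟨M, hM⟩ := (hSc.bddAbove_image (continuous_aff_right Q).continuousOn)
      refine (hSc.prod (isCompact_Icc (a := (0:ℝ)) (b := M))).of_isClosed_subset hcl ?_
      intro y hy
      exact ⟨hy.1, hy.2.1, hy.2.2.trans (hM ⟨y.1, hy.1, rfl⟩)⟩
  -- the affine map
  let p : Pt m →ᵃ[ℝ] ℝ :=
    { toFun := fun y => aff P y.1
      linear := ∑ j, P j.succ • ((LinearMap.proj (R := ℝ) (φ := fun _ : Fin m => ℝ) j).comp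
        (LinearMap.fst ℝ (Fin m → ℝ) ℝ))
      map_vadd' := fun y v => by
        simp only [vadd_eq_add, Prod.fst_add, aff_eq, Pi.add_apply, mul_add,
          Finset.sum_add_distrib, LinearMap.sum_apply, LinearMap.smul_apply,
          LinearMap.comp_apply, LinearMap.fst_apply, LinearMap.proj_apply, smul_eq_mul]
        ring }
  have hp : ∀ y, p y = aff P y.1 := fun y => rfl
  have h := ineq_I m C hconv hcomp (fun y hy => hy.2.1) p (fun y hy => hP _ hy.1)
  have e1 : {x : Fin m → ℝ | (x, (0:ℝ)) ∈ C} = S := by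
    ext x
    simp only [hC, mem_ofPred_eq]
    exact ⟨fun h => h.1, fun h => ⟨h, le_rfl, hQ x h⟩⟩
  -- Fubini on C
  have hfub : ∀ f : Pt m → ℝ, Continuous f →
      ∫ y in C, f y = ∫ x in S, ∫ t in (0:ℝ)..(aff Q x), f (x, t) := by
    intro f hf
    have hint : IntegrableOn f C volume := hf.continuousOn.integrableOn_compact hcomp
    rw [← integral_indicator hcl.measurableSet, Measure.volume_eq_prod,
      integral_prod _ (by
        rw [← Measure.volume_eq_prod]
        exact (integrable_indicator_iff hcl.measurableSet).2 hint),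
      ← integral_indicator hSc.measurableSet]
    congr 1
    funext x
    by_cases hx : x ∈ S
    · rw [indicator_of_mem hx, intervalIntegral.integral_of_le (hQ x hx),
        ← integral_Icc_eq_integral_Ioc, ← integral_indicator measurableSet_Icc]
      congr 1
      funext t
      by_cases ht : t ∈ Icc 0 (aff Q x)
      · rw [indicator_of_mem ht, indicator_of_mem (show ((x, t) : Pt m) ∈ C from ⟨hx, ht.1, ht.2⟩)]
      · rw [indicator_of_notMem ht, indicator_of_notMem]
        rintro ⟨_, h1, h2⟩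
        exact ht ⟨h1, h2⟩
    · rw [indicator_of_notMem hx]
      have : ∀ t : ℝ, C.indicator f (x, t) = 0 := by
        intro t
        apply indicator_of_notMem
        rintro ⟨h1, _⟩
        exact hx h1
      simp [this]
  rw [e1, hfub _ continuous_snd] at h
  have hfp : Continuous fun y : Pt m => aff P y.1 := (continuous_aff_right P).comp continuous_fst
  have e2 : ∫ y in C, p y = ∫ x in S, aff P x * aff Q x := by
    simp only [hp]
    rw [hfub _ hfp]
    congr 1
    funext x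
    simp [mul_comm]
  have e3 : ∀ x : Fin m → ℝ, ∫ t in (0:ℝ)..(aff Q x), t = (aff Q x * aff Q x) / 2 := by
    intro x
    rw [integral_id]; ring
  rw [e2] at h
  simp only [e3, hp] at h
  rw [integral_div] at h
  have e4 : ∀ x : Fin m → ℝ, (aff P x) ^ 2 = aff P x * aff P x := fun x => by ring
  simp only [e4] at h
  linarith

/-- The centroid of the cap. -/
noncomputable def cen (K : Set (Pt m)) (σ : ℝ) (A : Fin (m + 1) → ℝ) : Pt m :=
  ((sv K σ A)⁻¹ • (fun j : Fin m => (wv K σ A).1 j.succ), (sv K σ A)⁻¹ * (wv K σ A).2)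

theorem integrableOn_cap (K : Set (Pt m)) (hKc : IsCompact K) (σ : ℝ) (A : Fin (m + 1) → ℝ)
    (f : Pt m → ℝ) (hf : Continuous f) : IntegrableOn f (cap K σ A) volume :=
  (hf.continuousOn.integrableOn_compact hKc).mono_set (cap_subset K σ A)

/-- integral of an affine function over the cap -/
theorem integral_cap_affine (K : Set (Pt m)) (hKc : IsCompact K) (σ : ℝ) (A : Fin (m + 1) → ℝ)
    (hs : sv K σ A ≠ 0) (f : Pt m →L[ℝ] ℝ) (c : ℝ) :
    ∫ x in cap K σ A, (c + f x) = sv K σ A * (c + f (cen K σ A)) := by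
  have h1 : ∀ x : Pt m, f x = ∑ j, x.1 j * f (Pi.single j 1, 0) + x.2 * f (0, 1) := by
    intro x
    have hx : x = ∑ j, x.1 j • ((Pi.single j 1, 0) : Pt m) + x.2 • ((0, 1) : Pt m) := by
      refine Prod.ext ?_ ?_
      · funext i
        simp [Finset.sum_apply, Pi.single_apply, Prod.fst_sum]
      · simp [Prod.snd_sum]
    conv_lhs => rw [hx]
    rw [map_add, map_sum, map_smul]
    simp only [map_smul, smul_eq_mul]
  have hi1 : ∀ j, IntegrableOn (fun x : Pt m => x.1 j * f (Pi.single j 1, 0)) (cap K σ A) volume :=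
    fun j => integrableOn_cap K hKc σ A _ (by fun_prop)
  have hi2 : IntegrableOn (fun x : Pt m => x.2 * f (0, 1)) (cap K σ A) volume :=
    integrableOn_cap K hKc σ A _ (by fun_prop)
  have hi3 : IntegrableOn (fun x : Pt m => ∑ j, x.1 j * f (Pi.single j 1, 0)) (cap K σ A) volume :=
    integrable_finsetSum _ fun j _ => hi1 j
  have hi4 : IntegrableOn (fun _ : Pt m => c) (cap K σ A) volume :=
    integrableOn_cap K hKc σ A _ continuous_const
  have h2 : (fun x : Pt m => c + f x) =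
      fun x => c + (∑ j, x.1 j * f (Pi.single j 1, 0) + x.2 * f (0, 1)) := by
    funext x; rw [h1 x]
  have hi5 : IntegrableOn (fun x : Pt m => ∑ j, x.1 j * f (Pi.single j 1, 0) + x.2 * f (0, 1))
      (cap K σ A) volume := hi3.add hi2
  rw [h2, h1 (cen K σ A), integral_add hi4 hi5, integral_add hi3 hi2,
    integral_finsetSum _ (fun j _ => hi1 j), setIntegral_const, smul_eq_mul]
  simp only [integral_mul_const]
  have e1 : ∀ j : Fin m, ∫ x in cap K σ A, x.1 j = sv K σ A * (cen K σ A).1 j := by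
    intro j
    simp only [cen, Pi.smul_apply, smul_eq_mul, wv, ph_succ]
    rw [mul_inv_cancel_left₀ hs]
  have e2 : ∫ x in cap K σ A, x.2 = sv K σ A * (cen K σ A).2 := by
    simp only [cen, wv]
    rw [mul_inv_cancel_left₀ hs]
  simp only [e1, e2]
  have e3 : volume.real (cap K σ A) = sv K σ A := rfl
  rw [e3, mul_add, mul_add, Finset.mul_sum]
  congr 2
  · exact Finset.sum_congr rfl fun j _ => by ring
  · ring

theorem sv_pos (K : Set (Pt m)) (hKc : IsCompact K) (σ : ℝ) (hσ : σ = 1 ∨ σ = -1)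
    (A : Fin (m + 1) → ℝ) (hA : A ∈ Good K) (hdet : (Gm K A).det ≠ 0) : 0 < sv K σ A := by
  have h := cap_open K hKc σ hσ A hA hdet
  refine ENNReal.toReal_pos ?_ ?_
  · exact (h.trans_le (measure_mono inter_subset_left)).ne'
  · exact ((measure_mono (cap_subset K σ A)).trans_lt hKc.measure_lt_top).ne

/-- the centroid is an interior point -/
theorem cen_mem_interior (K : Set (Pt m)) (hK : Convex ℝ K) (hKc : IsCompact K) (σ : ℝ)
    (hσ : σ = 1 ∨ σ = -1) (A : Fin (m + 1) → ℝ) (hA : A ∈ Good K) (hdet : (Gm K A).det ≠ 0) :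
    cen K σ A ∈ interior K := by
  have hs := sv_pos K hKc σ hσ A hA hdet
  by_contra hcon
  obtain ⟨f, hf⟩ := geometric_hahn_banach_open_point hK.interior isOpen_interior hcon
  have hpos := cap_open K hKc σ hσ A hA hdet
  have hne : (interior K).Nonempty := by
    by_contra hemp
    rw [not_nonempty_iff_eq_empty] at hemp
    rw [hemp] at hpos; simp at hpos
  have hle : ∀ x ∈ K, f x ≤ f (cen K σ A) := by
    intro x hx
    have hcl : x ∈ closure (interior K) := by
      rw [hK.closure_interior_eq_closure_of_nonempty_interior hne]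
      exact subset_closure hx
    have : IsClosed {x : Pt m | f x ≤ f (cen K σ A)} := isClosed_le f.continuous continuous_const
    exact (closure_minimal (fun y hy => (hf y hy).le) this) hcl
  have hint := integral_cap_affine K hKc σ A hs.ne' (-f) (f (cen K σ A))
  have hz : ∫ x in cap K σ A, (f (cen K σ A) + (-f) x) = 0 := by
    rw [hint]; simp
  have hii : IntegrableOn (fun x => f (cen K σ A) + (-f) x) (cap K σ A) volume :=
    integrableOn_cap K hKc σ A _ (by fun_prop)
  have hnn : 0 ≤ᵐ[volume.restrict (cap K σ A)] fun x => f (cen K σ A) + (-f) x := by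
    refine (ae_restrict_mem (measurableSet_cap hKc.isClosed.measurableSet σ A)).mono fun x hx => ?_
    have := hle x hx.1
    simp only [Pi.zero_apply, _root_.neg_apply]
    linarith
  rw [integral_eq_zero_iff_of_nonneg_ae hnn hii] at hz
  have : volume (cap K σ A ∩ interior K) = 0 := by
    have h2 : ∀ᵐ x ∂(volume.restrict (cap K σ A)), x ∉ interior K := by
      filter_upwards [hz] with x hx hxi
      have := hf x hxi
      simp only [Pi.zero_apply, _root_.neg_apply] at hx
      linarith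
    rw [ae_iff] at h2
    simp only [not_not] at h2
    rw [Measure.restrict_apply (by simpa using isOpen_interior.measurableSet)] at h2
    rw [inter_comm]
    exact h2
  exact hpos.ne' this

/-- supporting functional at the end of a chord -/
theorem chord_support {E : Type*} [NormedAddCommGroup E] [NormedSpace ℝ E] (K : Set E)
    (hK : Convex ℝ K) (hKc : IsCompact K) (z : E) (hz : z ∈ interior K) (ω : E) (hω : ω ≠ 0) :
    ∃ α : ℝ, 0 < α ∧ (∀ τ, 0 ≤ τ → τ ≤ α → z + τ • ω ∈ K) ∧ (∀ τ, z + τ • ω ∈ K → τ ≤ α) ∧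
      ∃ (f : E →L[ℝ] ℝ) (c : ℝ), (∀ x ∈ K, 0 ≤ c + f x) ∧ c + f z = α ∧ f ω = -1 := by
  set T : Set ℝ := {τ | z + τ • ω ∈ K} with hT
  have hcont : Continuous fun τ : ℝ => z + τ • ω := by fun_prop
  have hTcl : IsClosed T := hKc.isClosed.preimage hcont
  have hT0 : (0:ℝ) ∈ T := by simpa [hT] using interior_subset hz
  have hTb : Bornology.IsBounded T := by
    obtain ⟨R, hR⟩ := hKc.isBounded.subset_closedBall (0:E)
    rw [Metric.isBounded_iff_subset_closedBall (0:ℝ)]
    refine ⟨(R + ‖z‖) / ‖ω‖, fun τ hτ => ?_⟩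
    have h1 : ‖z + τ • ω‖ ≤ R := by simpa using hR hτ
    have h2 : ‖τ • ω‖ ≤ R + ‖z‖ := by
      calc ‖τ • ω‖ = ‖(z + τ • ω) - z‖ := by rw [add_sub_cancel_left]
        _ ≤ ‖z + τ • ω‖ + ‖z‖ := norm_sub_le _ _
        _ ≤ R + ‖z‖ := by linarith
    rw [norm_smul] at h2
    simp only [Metric.mem_closedBall, dist_zero_right]
    rwa [le_div_iff₀ (norm_pos_iff.2 hω)]
  have hTc : IsCompact T := Metric.isCompact_of_isClosed_isBounded hTcl hTb
  obtain ⟨α, hαT, hαmax⟩ := hTc.exists_isMaxOn ⟨0, hT0⟩ continuous_id.continuousOn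
  have hmax : ∀ τ ∈ T, τ ≤ α := fun τ hτ => hαmax hτ
  have hnotint : z + α • ω ∉ interior K := by
    intro hcon
    have hev : ∀ᶠ τ in nhds α, z + τ • ω ∈ interior K :=
      hcont.continuousAt.eventually_mem (isOpen_interior.mem_nhds hcon)
    obtain ⟨ε, hε, hb⟩ := Metric.eventually_nhds_iff.1 hev
    have hd : dist (α + ε / 2) α < ε := by
      rw [Real.dist_eq, add_sub_cancel_left, abs_of_pos (by positivity)]; linarith
    have := hmax (α + ε / 2) (show z + (α + ε / 2) • ω ∈ K from interior_subset (hb hd))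
    linarith
  have hαpos : 0 < α := by
    rcases (hmax 0 hT0).lt_or_eq with h | h
    · exact h
    · exfalso
      apply hnotint
      rw [← h]; simpa using hz
  obtain ⟨f, hf⟩ := geometric_hahn_banach_open_point hK.interior isOpen_interior hnotint
  have hfz := hf z hz
  rw [map_add, map_smul, smul_eq_mul] at hfz
  have hfω : 0 < f ω := by
    by_contra hcon
    push Not at hcon
    nlinarith
  have hle : ∀ x ∈ K, f x ≤ f (z + α • ω) := by
    intro x hx
    have hcl : x ∈ closure (interior K) := by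
      rw [hK.closure_interior_eq_closure_of_nonempty_interior ⟨z, hz⟩]
      exact subset_closure hx
    have : IsClosed {x : E | f x ≤ f (z + α • ω)} := isClosed_le f.continuous continuous_const
    exact (closure_minimal (fun y hy => (hf y hy).le) this) hcl
  refine ⟨α, hαpos, ?_, hmax, -((f ω)⁻¹ • f), (f ω)⁻¹ * f (z + α • ω), ?_, ?_, ?_⟩
  · intro τ h0 h1
    have : z + τ • ω = (1 - τ / α) • z + (τ / α) • (z + α • ω) := by
      rw [sub_smul, one_smul, smul_add, smul_smul, div_mul_cancel₀ _ hαpos.ne']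
      abel
    rw [this]
    exact hK (interior_subset hz) hαT (by rw [sub_nonneg, div_le_one hαpos]; exact h1)
      (by positivity) (by ring)
  · intro x hx
    have := hle x hx
    simp only [_root_.neg_apply, _root_.smul_apply, smul_eq_mul]
    have : 0 ≤ (f ω)⁻¹ * (f (z + α • ω) - f x) := mul_nonneg (inv_nonneg.2 hfω.le) (by linarith)
    linarith
  · simp only [_root_.neg_apply, _root_.smul_apply, smul_eq_mul, map_add,
      map_smul]
    field_simp
    ring
  · simp only [_root_.neg_apply, _root_.smul_apply, smul_eq_mul]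
    rw [inv_mul_cancel₀ hfω.ne']

theorem lintegral_abs_Icc (a b : ℝ) (ha : 0 ≤ a) (hb : 0 ≤ b) :
    ∫⁻ τ in Icc (-a) b, ENNReal.ofReal |τ| = ENNReal.ofReal ((a ^ 2 + b ^ 2) / 2) := by
  rw [← ofReal_integral_eq_lintegral_ofReal]
  · congr 1
    rw [integral_Icc_eq_integral_Ioc, ← intervalIntegral.integral_of_le (by linarith),
      ← intervalIntegral.integral_add_adjacent_intervals (b := 0)
        (continuous_abs.intervalIntegrable _ _) (continuous_abs.intervalIntegrable _ _)]
    have h1 : ∫ τ in (-a)..0, |τ| = ∫ τ in (-a)..0, -τ :=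
      intervalIntegral.integral_congr fun τ hτ => by
        rw [uIcc_of_le (by linarith)] at hτ; exact abs_of_nonpos hτ.2
    have h2 : ∫ τ in (0:ℝ)..b, |τ| = ∫ τ in (0:ℝ)..b, τ :=
      intervalIntegral.integral_congr fun τ hτ => by
        rw [uIcc_of_le (by linarith)] at hτ; exact abs_of_nonneg hτ.1
    rw [h1, h2, intervalIntegral.integral_neg, integral_id, integral_id]; ring
  · exact continuous_abs.continuousOn.integrableOn_compact isCompact_Icc
  · exact Filter.Eventually.of_forall fun τ => abs_nonneg τ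

/-- coefficients of the affine function `x ↦ c + f (x, aff A x)` -/
noncomputable def rep (A : Fin (m + 1) → ℝ) (f : Pt m →L[ℝ] ℝ) (c : ℝ) : Fin (m + 1) → ℝ :=
  vecCons (c + A 0 * f (0, 1)) (fun j => f (Pi.single j 1, A j.succ))

theorem aff_rep (A : Fin (m + 1) → ℝ) (f : Pt m →L[ℝ] ℝ) (c : ℝ) (x : Fin m → ℝ) :
    aff (rep A f c) x = c + f (x, aff A x) := by
  have hx : ((x, aff A x) : Pt m) = ∑ j, x j • ((Pi.single j 1, A j.succ) : Pt m) +
      A 0 • ((0, 1) : Pt m) := by
    refine Prod.ext ?_ ?_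
    · funext i
      simp [Finset.sum_apply, Pi.single_apply, Prod.fst_sum]
    · simp only [aff_eq, Prod.snd_add, Prod.snd_sum, Prod.smul_snd, smul_eq_mul, mul_one]
      rw [add_comm]
      congr 1
      exact Finset.sum_congr rfl fun j _ => mul_comm _ _
  rw [hx, map_add, map_sum, aff_eq]
  simp only [map_smul, smul_eq_mul, rep, cons_val_zero, cons_val_succ]
  have : ∑ x_1, f (Pi.single x_1 1, A x_1.succ) * x x_1 =
      ∑ x_1, x x_1 * f (Pi.single x_1 1, A x_1.succ) :=
    Finset.sum_congr rfl fun j _ => mul_comm _ _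
  rw [this]; ring

theorem cap_bound (K : Set (Pt m)) (hK : Convex ℝ K) (hKc : IsCompact K) (σ : ℝ)
    (hσ : σ = 1 ∨ σ = -1) (A : Fin (m + 1) → ℝ) (hs : sv K σ A ≠ 0) (f : Pt m →L[ℝ] ℝ) (c : ℝ)
    (hnn : ∀ x ∈ K, 0 ≤ c + f x) :
    mv K σ A * (rep A f c ⬝ᵥ (Gm K A).mulVec (rep A f c)) ≤
      2 * (sv K σ A * (c + f (cen K σ A))) ^ 2 := by
  have h := capI K hK hKc σ hσ A (AffineMap.const ℝ (Pt m) c + f.toLinearMap.toAffineMap)
    (fun x hx => by simpa using hnn x hx)
  have e : ∀ x, (AffineMap.const ℝ (Pt m) c + f.toLinearMap.toAffineMap) x = c + f x :=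
    fun x => by simp
  simp only [e] at h
  rw [integral_cap_affine K hKc σ A hs f c] at h
  rw [← gram_integral K hKc A]
  have e2 : ∀ x, aff (rep A f c) x * aff (rep A f c) x = (c + f (x, aff A x)) ^ 2 := by
    intro x; rw [aff_rep]; ring
  simp only [e2]
  exact h

theorem mem_Tset_iff {k : ℕ} (K : Set (Pt (k + 1))) (σ : ℝ) (A : Fin (k + 1 + 1) → ℝ) (τ : ℝ) :
    τ ∈ Tset K σ A ↔
      cen K σ A + ((sv K σ A)⁻¹ * τ) • ((Pi.single 0 1, A 1) : Pt (k + 1)) ∈ K := by
  have : ((sv K σ A)⁻¹ • ((fun j : Fin (k + 1) => (wv K σ A).1 j.succ) +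
      τ • (Pi.single 0 1 : Fin (k+1) → ℝ)),
    (sv K σ A)⁻¹ * ((wv K σ A).2 + τ * A 1)) =
      cen K σ A + ((sv K σ A)⁻¹ * τ) • ((Pi.single 0 1, A 1) : Pt (k + 1)) := by
    refine Prod.ext ?_ ?_
    · simp only [cen, Prod.fst_add, Prod.smul_fst, smul_add, smul_smul]
    · simp only [cen, Prod.snd_add, Prod.smul_snd, smul_eq_mul]; ring
  unfold Tset
  rw [mem_ofPred_eq, this]

theorem alg_aux (a b c : ℝ) (ha : 0 ≤ a) (hb : 0 ≤ b) (hc : 0 ≤ c) (h : a * b ≤ 4 * c ^ 2) :
    ∃ κ : ℝ, 8 * ((a + b - 2 * c) - 2 * κ * (a - b) + κ ^ 2 * (a + b + 2 * c)) / 4 ≤ a + b := by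
  rcases (by positivity : 0 ≤ a + b + 2 * c).eq_or_lt with h0 | h0
  · refine ⟨0, ?_⟩
    nlinarith
  · refine ⟨(a - b) / (a + b + 2 * c), ?_⟩
    have h1 : a * b ≤ c * (a + b) := by
      have hx : 0 ≤ c * (a + b) := by positivity
      by_contra hcon
      push Not at hcon
      have h3 : (c * (a + b)) ^ 2 < (a * b) ^ 2 := by
        have := mul_self_lt_mul_self hx hcon
        nlinarith
      have h4 : (a * b) ^ 2 ≤ (c * (a + b)) ^ 2 := by
        have h5 : 4 * (a * b) ≤ (a + b) ^ 2 := by nlinarith [sq_nonneg (a - b)]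
        have h6 : (a * b) * (4 * (a * b)) ≤ (4 * c ^ 2) * (a + b) ^ 2 :=
          mul_le_mul h h5 (by positivity) (by positivity)
        nlinarith
      linarith
    have h2 : (a + b - 2 * c) - 2 * ((a - b) / (a + b + 2 * c)) * (a - b) +
        ((a - b) / (a + b + 2 * c)) ^ 2 * (a + b + 2 * c) =
        4 * (a * b - c ^ 2) / (a + b + 2 * c) := by
      field_simp
      ring
    rw [h2]
    rw [div_le_iff₀ (by norm_num), mul_div_assoc', div_le_iff₀ h0]
    nlinarith [sq_nonneg (a - b)]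

theorem lemB (k : ℕ) (K : Set (Pt (k + 1))) (hK : Convex ℝ K) (hKc : IsCompact K)
    (σ : ℝ) (hσ : σ = 1 ∨ σ = -1) (A : Fin (k + 1 + 1) → ℝ) (hA : A ∈ Good K)
    (hdet : (Gm K A).det ≠ 0) :
    ENNReal.ofReal (2 * mv K σ A) ≤
      ENNReal.ofReal ((Gm K A)⁻¹ 1 1) * ∫⁻ τ in Tset K σ A, ENNReal.ofReal |τ| := by
  set s := sv K σ A with hs_def
  have hs : 0 < s := sv_pos K hKc σ hσ A hA hdet
  have hz := cen_mem_interior K hK hKc σ hσ A hA hdet
  set ω : Pt (k + 1) := (Pi.single 0 1, A 1) with hω_def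
  have hω : ω ≠ 0 := by
    intro h
    have := congrFun (congrArg Prod.fst h) 0
    simp [hω_def] at this
  obtain ⟨α, hα, hαmem, -, q, cq, hq0, hqz, hqω⟩ := chord_support K hK hKc _ hz ω hω
  obtain ⟨β, hβ, hβmem, -, p, cp, hp0, hpz, hpω⟩ := chord_support K hK hKc _ hz (-ω)
    (neg_ne_zero.2 hω)
  rw [map_neg, neg_inj] at hpω
  have hMa := cap_bound K hK hKc σ hσ A hs.ne' p cp hp0
  have hMb := cap_bound K hK hKc σ hσ A hs.ne' q cq hq0
  rw [hpz] at hMa
  rw [hqz] at hMb
  set P := rep A p cp with hP_def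
  set Q := rep A q cq with hQ_def
  have hPnn : ∀ x ∈ sect K A, 0 ≤ aff P x := fun x hx => by
    rw [hP_def, aff_rep]; exact hp0 _ hx
  have hQnn : ∀ x ∈ sect K A, 0 ≤ aff Q x := fun x hx => by
    rw [hQ_def, aff_rep]; exact hq0 _ hx
  have hII := sectII (sect K A) (convex_sect hK A) (isCompact_sect hKc A) P Q hPnn hQnn
  rw [gram_integral K hKc A, gram_integral K hKc A, gram_integral K hKc A] at hII
  have hP1 : P 1 = 1 := by
    have : P 1 = p (Pi.single 0 1, A 1) := rfl
    rw [this]; exact hpω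
  have hQ1 : Q 1 = -1 := by
    have : Q 1 = q (Pi.single 0 1, A 1) := rfl
    rw [this]; exact hqω
  set G := Gm K A with hG
  have hpsd : ∀ u : Fin (k + 1 + 1) → ℝ, 0 ≤ u ⬝ᵥ G.mulVec u := by
    intro u
    rw [hG, ← gram_integral K hKc A]
    exact integral_nonneg fun x => mul_self_nonneg _
  have hsymm : ∀ u v : Fin (k + 1 + 1) → ℝ, u ⬝ᵥ G.mulVec v = v ⬝ᵥ G.mulVec u := by
    intro u v
    rw [hG, ← gram_integral K hKc A, ← gram_integral K hKc A]
    congr 1
    funext x
    exact mul_comm _ _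
  have hPQ : 0 ≤ P ⬝ᵥ G.mulVec Q := by
    rw [hG, ← gram_integral K hKc A]
    exact setIntegral_nonneg (isCompact_sect hKc A).measurableSet fun x hx =>
      mul_nonneg (hPnn x hx) (hQnn x hx)
  obtain ⟨κ, hκ⟩ := alg_aux _ _ _ (hpsd P) (hpsd Q) hPQ hII
  set v : Fin (k + 1 + 1) → ℝ := (1/2 : ℝ) • (P - Q - κ • (P + Q)) with hv
  have hv1 : v 1 = 1 := by
    simp only [hv, Pi.smul_apply, Pi.sub_apply, Pi.add_apply, smul_eq_mul, hP1, hQ1]; ring
  have hB : v ⬝ᵥ G.mulVec v = ((P ⬝ᵥ G.mulVec P + Q ⬝ᵥ G.mulVec Q - 2 * (P ⬝ᵥ G.mulVec Q))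
      - 2 * κ * (P ⬝ᵥ G.mulVec P - Q ⬝ᵥ G.mulVec Q) + κ ^ 2 *
      (P ⬝ᵥ G.mulVec P + Q ⬝ᵥ G.mulVec Q + 2 * (P ⬝ᵥ G.mulVec Q))) / 4 := by
    simp only [hv, mulVec_smul, mulVec_sub, mulVec_add, smul_dotProduct, dotProduct_smul,
      sub_dotProduct, dotProduct_sub, add_dotProduct, dotProduct_add, smul_eq_mul, hsymm Q P]
    ring
  set u : Fin (k + 1 + 1) → ℝ := G⁻¹.mulVec (Pi.single 1 1) with hu
  have hGu : G.mulVec u = Pi.single 1 1 := by
    rw [hu, mulVec_mulVec, mul_nonsing_inv _ (isUnit_iff_ne_zero.2 hdet), one_mulVec]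
  have hu1 : u 1 = G⁻¹ 1 1 := by
    simp [hu]
  have huu : u ⬝ᵥ G.mulVec u = G⁻¹ 1 1 := by
    rw [hGu, dotProduct_single, mul_one, hu1]
  have hvu : v ⬝ᵥ G.mulVec u = 1 := by
    rw [hGu, dotProduct_single, mul_one, hv1]
  have hquad : ∀ t : ℝ, 0 ≤ v ⬝ᵥ G.mulVec v - 2 * t + t ^ 2 * G⁻¹ 1 1 := by
    intro t
    have := hpsd (v - t • u)
    simp only [mulVec_smul, mulVec_sub, smul_dotProduct, dotProduct_smul,
      sub_dotProduct, dotProduct_sub, smul_eq_mul, hsymm u v, huu, hvu] at this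
    linarith
  set g := G⁻¹ 1 1 with hg
  set B := v ⬝ᵥ G.mulVec v with hBdef
  have hg0 : 0 ≤ g := by rw [← huu]; exact hpsd u
  have hgpos : 0 < g := by
    rcases hg0.eq_or_lt with h | h
    · exfalso
      have := hquad ((B + 1) / 2)
      rw [← h] at this
      linarith
    · exact h
  have hgB : 1 ≤ g * B := by
    have := hquad g⁻¹
    have h1 : (g⁻¹) ^ 2 * g = g⁻¹ := by field_simp
    rw [h1] at this
    have h2 : g⁻¹ ≤ B := by linarith
    calc 1 = g * g⁻¹ := (mul_inv_cancel₀ hgpos.ne').symm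
      _ ≤ g * B := mul_le_mul_of_nonneg_left h2 hgpos.le
  -- the integral
  have hsub : Icc (-(s * β)) (s * α) ⊆ Tset K σ A := by
    intro τ hτ
    rw [mem_Tset_iff, ← hs_def, ← hω_def]
    rcases le_total 0 τ with h | h
    · apply hαmem
      · positivity
      · rw [inv_mul_le_iff₀ hs]; exact hτ.2
    · have := hβmem (s⁻¹ * (-τ)) (mul_nonneg (inv_nonneg.2 hs.le) (by linarith))
        (by rw [inv_mul_le_iff₀ hs]; linarith [hτ.1])
      simpa using this
  have hint : ENNReal.ofReal (((s * β) ^ 2 + (s * α) ^ 2) / 2) ≤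
      ∫⁻ τ in Tset K σ A, ENNReal.ofReal |τ| := by
    rw [← lintegral_abs_Icc _ _ (by positivity) (by positivity)]
    exact lintegral_mono_set hsub
  refine le_trans ?_ (mul_le_mul_right hint _)
  rw [← ENNReal.ofReal_mul hg0]
  apply ENNReal.ofReal_le_ofReal
  have hM : 0 ≤ mv K σ A := by
    apply setIntegral_nonneg (measurableSet_cap hKc.isClosed.measurableSet σ A)
    intro x hx
    exact hx.2.le
  have hMB : mv K σ A * B ≤ ((s * β) ^ 2 + (s * α) ^ 2) / 4 := by
    have h8 : 8 * B ≤ P ⬝ᵥ G.mulVec P + Q ⬝ᵥ G.mulVec Q := by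
      rw [hB]; linarith
    have := mul_le_mul_of_nonneg_left h8 hM
    nlinarith
  calc 2 * mv K σ A = 2 * mv K σ A * 1 := by ring
    _ ≤ 2 * mv K σ A * (g * B) := mul_le_mul_of_nonneg_left hgB (by positivity)
    _ = 2 * g * (mv K σ A * B) := by ring
    _ ≤ 2 * g * (((s * β) ^ 2 + (s * α) ^ 2) / 4) := mul_le_mul_of_nonneg_left hMB (by positivity)
    _ = g * (((s * β) ^ 2 + (s * α) ^ 2) / 2) := by ring

end Pool.H40.EV
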