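import Pool.Agent.Helper40.EV.Base
import Pool.Agent.Helper40.EV.LemB

/-! EV-6: the tangent points are outside the lift zonoid; injectivity of the sweep (helper30, for
MP_2bdbd0_pr). -/

set_option autoImplicit false

namespace Pool.H40.EV

open MeasureTheory Set Matrix
open scoped ENNReal

variable {m : ℕ}

/-- `∫_K g φ` -/
noncomputable def Zf (K : Set (Pt m)) (g : Pt m → ℝ) : FF m :=
  (fun j => ∫ x in K, g x * ph x.1 j, ∫ x in K, g x * x.2)

/-- the indicator function of the half space -/
noncomputable def hind (σ : ℝ) (A : Fin (m + 1) → ℝ) : Pt m → ℝ :=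
  {x : Pt m | 0 < σ * (x.2 - aff A x.1)}.indicator fun _ => 1

theorem measurableSet_half (σ : ℝ) (A : Fin (m + 1) → ℝ) :
    MeasurableSet {x : Pt m | 0 < σ * (x.2 - aff A x.1)} := by
  have h : Continuous fun x : Pt m => σ * (x.2 - aff A x.1) :=
    continuous_const.mul (continuous_snd.sub ((continuous_aff_right A).comp continuous_fst))
  exact (isOpen_lt continuous_const h).measurableSet

theorem measurable_hind (σ : ℝ) (A : Fin (m + 1) → ℝ) : Measurable (hind σ A) :=
  measurable_const.indicator (measurableSet_half σ A)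

theorem hind_nonneg (σ : ℝ) (A : Fin (m + 1) → ℝ) (x : Pt m) : 0 ≤ hind σ A x :=
  indicator_nonneg (fun _ _ => zero_le_one) x

theorem hind_le_one (σ : ℝ) (A : Fin (m + 1) → ℝ) (x : Pt m) : hind σ A x ≤ 1 := by
  rw [hind]
  by_cases h : x ∈ {x : Pt m | 0 < σ * (x.2 - aff A x.1)}
  · rw [indicator_of_mem h]
  · rw [indicator_of_notMem h]; exact zero_le_one

theorem wv_eq (K : Set (Pt m)) (σ : ℝ) (A : Fin (m + 1) → ℝ) : wv K σ A = Zf K (hind σ A) := by
  have h1 : ∀ f : Pt m → ℝ, ∫ x in cap K σ A, f x = ∫ x in K, hind σ A x * f x := by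
    intro f
    have h2 : cap K σ A = K ∩ {x : Pt m | 0 < σ * (x.2 - aff A x.1)} := rfl
    rw [h2, ← setIntegral_indicator (measurableSet_half σ A)]
    congr 1
    funext x
    rw [hind]
    by_cases h : x ∈ {x : Pt m | 0 < σ * (x.2 - aff A x.1)}
    · rw [indicator_of_mem h, indicator_of_mem h, one_mul]
    · rw [indicator_of_notMem h, indicator_of_notMem h, zero_mul]
  rw [wv, Zf]
  simp only [h1]

theorem integrable_cont {K : Set (Pt m)} (hKc : IsCompact K) {f : Pt m → ℝ} (hf : Continuous f) :
    Integrable f (volume.restrict K) := hf.continuousOn.integrableOn_compact hKc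

theorem integrable_mul {K : Set (Pt m)} (hKc : IsCompact K) {g f : Pt m → ℝ} (hg : Measurable g)
    (hg0 : ∀ x, 0 ≤ g x) (hg1 : ∀ x, g x ≤ 1) (hf : Continuous f) :
    Integrable (fun x => g x * f x) (volume.restrict K) := by
  refine (integrable_cont hKc hf).bdd_mul (c := 1) hg.aestronglyMeasurable ?_
  filter_upwards with x
  rw [Real.norm_eq_abs, abs_of_nonneg (hg0 x)]
  exact hg1 x

theorem continuous_height (A : Fin (m + 1) → ℝ) : Continuous fun x : Pt m => x.2 - aff A x.1 :=
  continuous_snd.sub ((continuous_aff_right A).comp continuous_fst)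

theorem Zf_height {K : Set (Pt m)} (hKc : IsCompact K) {g : Pt m → ℝ} (hg : Measurable g)
    (hg0 : ∀ x, 0 ≤ g x) (hg1 : ∀ x, g x ≤ 1) (A : Fin (m + 1) → ℝ) :
    (Zf K g).2 - A ⬝ᵥ (Zf K g).1 = ∫ x in K, g x * (x.2 - aff A x.1) := by
  have hph : ∀ j, Continuous fun x : Pt m => ph x.1 j := fun j =>
    (continuous_apply j).comp (continuous_ph.comp continuous_fst)
  have h1 : A ⬝ᵥ (Zf K g).1 = ∫ x in K, g x * aff A x.1 := by
    simp only [Zf, dotProduct]
    have h2 : ∀ j, A j * ∫ x in K, g x * ph x.1 j = ∫ x in K, A j * (g x * ph x.1 j) := by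
      intro j
      rw [integral_const_mul]
    simp only [h2]
    rw [← integral_finsetSum]
    · congr 1
      funext x
      rw [aff, dotProduct, Finset.mul_sum]
      exact Finset.sum_congr rfl fun j _ => by ring
    · intro j _
      exact (integrable_mul hKc hg hg0 hg1 (hph j)).const_mul _
  rw [h1]
  show (∫ x in K, g x * x.2) - _ = _
  have hi : Integrable (fun x : Pt m => g x * aff A x.1) (volume.restrict K) :=
    integrable_mul hKc hg hg0 hg1 ((continuous_aff_right A).comp continuous_fst)
  rw [← integral_sub (integrable_mul hKc hg hg0 hg1 continuous_snd) hi]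
  congr 1
  funext x
  ring

/-- pointwise bathtub -/
theorem bathtub_pt (σ : ℝ) (A : Fin (m + 1) → ℝ) {g : Pt m → ℝ}
    (hg0 : ∀ x, 0 ≤ g x) (hg1 : ∀ x, g x ≤ 1) (x : Pt m) :
    0 ≤ (hind σ A x - g x) * (σ * (x.2 - aff A x.1)) := by
  rw [hind]
  by_cases h : 0 < σ * (x.2 - aff A x.1)
  · rw [indicator_of_mem (by exact h)]
    exact mul_nonneg (by linarith [hg1 x]) h.le
  · rw [indicator_of_notMem (by exact h)]
    have := hg0 x
    nlinarith [not_lt.1 h]

theorem bathtub {K : Set (Pt m)} (hKc : IsCompact K) {σ : ℝ} (hσ : σ = 1 ∨ σ = -1)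
    (A : Fin (m + 1) → ℝ) {g : Pt m → ℝ} (hg : Measurable g)
    (hg0 : ∀ x, 0 ≤ g x) (hg1 : ∀ x, g x ≤ 1) :
    σ * ∫ x in K, g x * (x.2 - aff A x.1) ≤ σ * ∫ x in K, hind σ A x * (x.2 - aff A x.1) ∧
      (σ * ∫ x in K, g x * (x.2 - aff A x.1) = σ * ∫ x in K, hind σ A x * (x.2 - aff A x.1) →
        g =ᵐ[volume.restrict K] hind σ A) := by
  have hi1 := integrable_mul hKc hg hg0 hg1 (continuous_height A)
  have hi2 := integrable_mul hKc (measurable_hind σ A) (hind_nonneg σ A) (hind_le_one σ A)
    (continuous_height A)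
  have key : (σ * ∫ x in K, hind σ A x * (x.2 - aff A x.1)) -
      (σ * ∫ x in K, g x * (x.2 - aff A x.1))
      = ∫ x in K, (hind σ A x - g x) * (σ * (x.2 - aff A x.1)) := by
    rw [← mul_sub, ← integral_sub hi2 hi1, ← integral_const_mul]
    congr 1
    funext x
    ring
  have hint : Integrable (fun x => (hind σ A x - g x) * (σ * (x.2 - aff A x.1)))
      (volume.restrict K) := by
    refine ((hi2.sub hi1).const_mul σ).congr ?_
    filter_upwards with x
    simp only [Pi.sub_apply]
    ring
  refine ⟨?_, fun heq => ?_⟩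
  · have : 0 ≤ ∫ x in K, (hind σ A x - g x) * (σ * (x.2 - aff A x.1)) :=
      integral_nonneg fun x => bathtub_pt σ A hg0 hg1 x
    linarith
  · have h0 : ∫ x in K, (hind σ A x - g x) * (σ * (x.2 - aff A x.1)) = 0 := by
      rw [← key, heq, sub_self]
    rw [integral_eq_zero_iff_of_nonneg (fun x => bathtub_pt σ A hg0 hg1 x) hint] at h0
    have hgr : ∀ᵐ x ∂(volume.restrict K), x ∉ {x : Pt m | x.2 = aff A x.1} := by
      apply ae_restrict_of_ae
      rw [ae_iff]
      simpa using volume_graph A
    filter_upwards [h0, hgr] with x hx hx'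
    have hne : σ * (x.2 - aff A x.1) ≠ 0 := by
      apply mul_ne_zero
      · rcases hσ with h | h <;> rw [h] <;> norm_num
      · intro h
        exact hx' (show x.2 = aff A x.1 by linarith)
    have := (mul_eq_zero.1 hx).resolve_right hne
    linarith

theorem Zf_congr {K : Set (Pt m)} {g g' : Pt m → ℝ} (h : g =ᵐ[volume.restrict K] g') :
    Zf K g = Zf K g' := by
  rw [Zf, Zf]
  congr 1
  · funext j
    apply integral_congr_ae
    filter_upwards [h] with x hx
    rw [hx]
  · apply integral_congr_ae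
    filter_upwards [h] with x hx
    rw [hx]

noncomputable def Xi {k : ℕ} (K : Set (Pt (k + 1))) (σ : ℝ) (A : Fin (k + 1 + 1) → ℝ) (τ : ℝ) :
    FF (k + 1) :=
  ((wv K σ A).1 + τ • (Pi.single 1 1 : Fin (k + 1 + 1) → ℝ), (wv K σ A).2 + τ * A 1)

theorem Xi_height {k : ℕ} {K : Set (Pt (k + 1))} (σ : ℝ) (A A' : Fin (k + 1 + 1) → ℝ) (τ : ℝ) :
    (Xi K σ A τ).2 - A' ⬝ᵥ (Xi K σ A τ).1
      = ((wv K σ A).2 - A' ⬝ᵥ (wv K σ A).1) + τ * (A 1 - A' 1) := by
  simp only [Xi, dotProduct_add, dotProduct_smul, smul_eq_mul, dotProduct_single, mul_one]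
  ring

theorem Xi_not_mem (k : ℕ) (K : Set (Pt (k + 1))) (hKc : IsCompact K)
    (σ : ℝ) (hσ : σ = 1 ∨ σ = -1) (A : Fin (k + 1 + 1) → ℝ) (τ : ℝ) (hτ : τ ≠ 0) :
    Xi K σ A τ ∉ Yset K := by
  rintro ⟨g, hg, hg01, hz⟩
  have hg0 : ∀ x, 0 ≤ g x := fun x => (hg01 x).1
  have hg1 : ∀ x, g x ≤ 1 := fun x => (hg01 x).2
  have hz' : Xi K σ A τ = Zf K g := hz
  have h1 := Xi_height (K := K) σ A A τ
  rw [sub_self, mul_zero, add_zero, hz', wv_eq, Zf_height hKc hg hg0 hg1,
    Zf_height hKc (measurable_hind σ A) (hind_nonneg σ A) (hind_le_one σ A)] at h1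
  have h2 := (bathtub hKc hσ A hg hg0 hg1).2 (by rw [h1])
  have h3 := Zf_congr h2
  rw [← hz', ← wv_eq] at h3
  have h4 : (Xi K σ A τ).1 1 = (wv K σ A).1 1 := by rw [h3]
  simp only [Xi, Pi.add_apply, Pi.smul_apply, Pi.single_eq_same, smul_eq_mul, mul_one] at h4
  exact hτ (by linarith)

/-- if the caps agree a.e. then the hyperplanes agree -/
theorem eq_of_hind_eq {K : Set (Pt m)} (hKc : IsCompact K) {σ : ℝ} (hσ : σ = 1 ∨ σ = -1)
    {A A' : Fin (m + 1) → ℝ} (hA : A ∈ Good K) (hd : (Gm K A).det ≠ 0)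
    (h : hind σ A =ᵐ[volume.restrict K] hind σ A') : A = A' := by
  -- on interior points of the section the affine functions agree
  have h1 : ∀ x : Fin m → ℝ, (x, aff A x) ∈ interior K → aff A x = aff A' x := by
    intro x hx
    by_contra hne
    -- the open set where the indicators differ
    set W : Set (Pt m) := interior K ∩ {y | (y.2 - aff A y.1) * (y.2 - aff A' y.1) < 0} with hW
    have hWo : IsOpen W := isOpen_interior.inter
      (isOpen_lt ((continuous_height A).mul (continuous_height A')) continuous_const)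
    have hWne : W.Nonempty := by
      -- a point slightly above or below
      have hcont : Continuous fun s : ℝ => ((x, aff A x + s * (aff A' x - aff A x)) : Pt m) := by
        fun_prop
      have h2 : ∀ᶠ s in nhds (0 : ℝ), ((x, aff A x + s * (aff A' x - aff A x)) : Pt m) ∈ interior K := by
        apply hcont.continuousAt.eventually_mem
        simp only [zero_mul, add_zero]
        exact isOpen_interior.mem_nhds hx
      obtain ⟨δ, hδ, hball⟩ := Metric.eventually_nhds_iff.1 h2
      set s : ℝ := min (δ / 2) (1 / 2) with hs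
      have hs0 : 0 < s := lt_min (by linarith) (by norm_num)
      have hs1 : s ≤ 1 / 2 := min_le_right _ _
      have hsδ : s ≤ δ / 2 := min_le_left _ _
      refine ⟨(x, aff A x + s * (aff A' x - aff A x)), hball ?_, ?_⟩
      · rw [Real.dist_eq, sub_zero, abs_of_pos hs0]
        linarith
      · simp only [mem_ofPred_eq]
        have h3 : (aff A' x - aff A x) ^ 2 > 0 := by
          have : aff A' x - aff A x ≠ 0 := fun h => hne (by linarith)
          positivity
        have h4 : (aff A x + s * (aff A' x - aff A x) - aff A x) *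
            (aff A x + s * (aff A' x - aff A x) - aff A' x)
            = -(s * (1 - s) * (aff A' x - aff A x) ^ 2) := by ring
        rw [h4]
        have : 0 < s * (1 - s) := mul_pos hs0 (by linarith)
        have := mul_pos this h3
        linarith
    have hWpos : 0 < volume W := hWo.measure_pos volume hWne
    have hWK : W ⊆ K := fun y hy => interior_subset hy.1
    have h5 : volume W = 0 := by
      have h6 : ∀ᵐ y ∂(volume.restrict K), y ∉ W := by
        filter_upwards [h] with y hy hyW
        have h7 : (y.2 - aff A y.1) * (y.2 - aff A' y.1) < 0 := hyW.2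
        rcases mul_neg_iff.1 h7 with ⟨ha, hb⟩ | ⟨ha, hb⟩
        · rcases hσ with rfl | rfl
          · rw [hind, hind, indicator_of_mem (by simpa using ha),
              indicator_of_notMem (by simpa using hb.le)] at hy
            exact one_ne_zero hy
          · rw [hind, hind, indicator_of_notMem (by simp only [mem_ofPred_eq]; linarith),
              indicator_of_mem (by simp only [mem_ofPred_eq]; linarith)] at hy
            exact zero_ne_one hy
        · rcases hσ with rfl | rfl
          · rw [hind, hind, indicator_of_notMem (by simp only [mem_ofPred_eq]; linarith),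
              indicator_of_mem (by simp only [mem_ofPred_eq]; linarith)] at hy
            exact zero_ne_one hy
          · rw [hind, hind, indicator_of_mem (by simp only [mem_ofPred_eq]; linarith),
              indicator_of_notMem (by simp only [mem_ofPred_eq]; linarith)] at hy
            exact one_ne_zero hy
      rw [ae_iff] at h6
      simp only [not_not] at h6
      have h8 : (volume.restrict K) W = 0 := by simpa using h6
      rwa [Measure.restrict_apply hWo.measurableSet, inter_eq_left.2 hWK] at h8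
    exact hWpos.ne' h5
  have h2 : ∀ᵐ x ∂(volume.restrict (sect K A)), aff (A - A') x = 0 := by
    rw [ae_restrict_iff' (measurableSet_sect hKc.measurableSet A)]
    have h3 : ∀ᵐ x : Fin m → ℝ, (x, aff A x) ∉ frontier K := by
      rw [ae_iff]
      simp only [not_not]
      exact hA
    filter_upwards [h3] with x hx hxs
    have h4 : (x, aff A x) ∈ interior K := by
      by_contra hni
      exact hx ⟨subset_closure hxs, hni⟩
    rw [aff_sub, h1 x h4, sub_self]
  have hcomp := isCompact_sect hKc A
  have h3 : (Gm K A).mulVec (A - A') = 0 := by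
    funext i
    simp only [Gm, mulVec, dotProduct, Matrix.of_apply, Pi.zero_apply]
    have hphc : ∀ j, Continuous fun x : Fin m → ℝ => ph x j := fun j =>
      (continuous_apply j).comp continuous_ph
    have h4 : ∀ j, (∫ x in sect K A, ph x i * ph x j) * (A - A') j
        = ∫ x in sect K A, ph x i * ph x j * (A - A') j := by
      intro j
      rw [integral_mul_const]
    simp only [h4]
    rw [← integral_finsetSum]
    · have h5 : (∫ x in sect K A, ∑ j, ph x i * ph x j * (A - A') j) = ∫ x in sect K A, (0 : ℝ) := by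
        apply integral_congr_ae
        filter_upwards [h2] with x hx
        have h6 : ∑ j, ph x i * ph x j * (A - A') j = ph x i * aff (A - A') x := by
          rw [aff, dotProduct, Finset.mul_sum]
          exact Finset.sum_congr rfl fun j _ => by ring
        rw [h6, hx, mul_zero]
      rw [h5]
      simp
    · intro j _
      have hc : Continuous fun x : Fin m → ℝ => ph x i * ph x j * (A - A') j :=
        ((hphc i).mul (hphc j)).mul continuous_const
      exact hc.continuousOn.integrableOn_compact hcomp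
  have h4 := Matrix.eq_zero_of_mulVec_eq_zero hd h3
  exact sub_eq_zero.1 h4

theorem Xi_inj (k : ℕ) (K : Set (Pt (k + 1))) (hK : Convex ℝ K) (hKc : IsCompact K)
    (σ σ' : ℝ) (hσ : σ = 1 ∨ σ = -1) (hσ' : σ' = 1 ∨ σ' = -1) (A A' : Fin (k + 1 + 1) → ℝ)
    (hA : A ∈ Good K) (hA' : A' ∈ Good K) (hd : (Gm K A).det ≠ 0) (hd' : (Gm K A').det ≠ 0)
    (τ τ' : ℝ) (hs : 0 < (σ * τ) * (σ' * τ')) (h : Xi K σ A τ = Xi K σ' A' τ') :
    σ = σ' ∧ A = A' ∧ τ = τ' := by
  have e1 := Xi_height (K := K) σ A A τ
  have e2 := Xi_height (K := K) σ' A' A τ'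
  have e3 := Xi_height (K := K) σ A A' τ
  have e4 := Xi_height (K := K) σ' A' A' τ'
  rw [← h] at e2 e4
  rw [sub_self, mul_zero, add_zero] at e1 e4
  have m1 := measurable_hind (m := k + 1) σ A
  have m2 := measurable_hind (m := k + 1) σ' A'
  rw [wv_eq, Zf_height hKc m1 (hind_nonneg σ A) (hind_le_one σ A)] at e1 e3
  rw [wv_eq, Zf_height hKc m2 (hind_nonneg σ' A') (hind_le_one σ' A')] at e2 e4
  have b1 := bathtub hKc hσ A m2 (hind_nonneg σ' A') (hind_le_one σ' A')
  have b2 := bathtub hKc hσ' A' m1 (hind_nonneg σ A) (hind_le_one σ A)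
  have i1 : 0 ≤ σ * (τ' * (A' 1 - A 1)) := by
    have := b1.1
    have h5 : σ * (τ' * (A' 1 - A 1)) = σ * (∫ x in K, hind σ A x * (x.2 - aff A x.1))
      - σ * ∫ x in K, hind σ' A' x * (x.2 - aff A x.1) := by
      rw [← e1, e2]; ring
    linarith
  have i2 : 0 ≤ σ' * (τ * (A 1 - A' 1)) := by
    have := b2.1
    have h5 : σ' * (τ * (A 1 - A' 1)) = σ' * (∫ x in K, hind σ' A' x * (x.2 - aff A' x.1))
      - σ' * ∫ x in K, hind σ A x * (x.2 - aff A' x.1) := by
      rw [← e4, e3]; ring
    linarith
  have hA1 : A 1 = A' 1 := by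
    have h5 := mul_nonneg i1 i2
    have h6 : σ * (τ' * (A' 1 - A 1)) * (σ' * (τ * (A 1 - A' 1)))
      = -(σ * τ * (σ' * τ') * (A 1 - A' 1) ^ 2) := by ring
    rw [h6] at h5
    have h7 : (A 1 - A' 1) ^ 2 = 0 := by
      by_contra hne
      have h8 : 0 < (A 1 - A' 1) ^ 2 := lt_of_le_of_ne (sq_nonneg _) (Ne.symm hne)
      have := mul_pos hs h8
      linarith
    have := pow_eq_zero_iff (two_ne_zero) |>.1 h7
    linarith
  have h9 : hind σ' A' =ᵐ[volume.restrict K] hind σ A := by
    apply b1.2
    rw [← e1, e2, hA1]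
    ring
  have h10 := Zf_congr h9
  have h11 : wv K σ' A' = wv K σ A := by rw [wv_eq, wv_eq, h10]
  have hτ : τ = τ' := by
    have h12 : (Xi K σ A τ).1 1 = (Xi K σ' A' τ').1 1 := by rw [h]
    simp only [Xi, Pi.add_apply, Pi.smul_apply, Pi.single_eq_same, smul_eq_mul, mul_one, h11] at h12
    linarith
  have hσσ : σ = σ' := by
    rw [hτ] at hs
    have h13 : σ * τ' * (σ' * τ') = σ * σ' * τ' ^ 2 := by ring
    rw [h13] at hs
    rcases hσ with rfl | rfl <;> rcases hσ' with rfl | rfl
    · rfl
    · exfalso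
      nlinarith [sq_nonneg τ']
    · exfalso
      nlinarith [sq_nonneg τ']
    · rfl
  refine ⟨hσσ, ?_, hτ⟩
  subst hσσ
  exact eq_of_hind_eq hKc hσ hA hd h9.symm

end Pool.H40.EV
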