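import Pool.Agent.Helper40.EV.Base
import Pool.Agent.Helper40.EV.Deriv
import Pool.Agent.Helper40.EV.Tangent

/-! EV-7: sweeping tangent segments (area formula for `Xi`). -/

set_option autoImplicit false

namespace Pool.H40.EV.Sw
open MeasureTheory Set Matrix
open scoped ENNReal

/-- the determinant of the derivative of `Ξ` -/
theorem abs_det_sweep {n : ℕ} (G : Matrix (Fin (n + 2)) (Fin (n + 2)) ℝ) (hG : G.det ≠ 0)
    (A : Fin (n + 2) → ℝ) (σ τ : ℝ) (hσ : σ = 1 ∨ σ = -1)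
    (L : ((Fin (n + 2) → ℝ) × ℝ) →L[ℝ] ((Fin (n + 2) → ℝ) × ℝ))
    (hL : ∀ δ ρ, L (δ, ρ) = (-σ • G.mulVec δ + ρ • (Pi.single 1 1 : Fin (n + 2) → ℝ),
      -σ * (A ⬝ᵥ G.mulVec δ) + (ρ * A 1 + τ * δ 1))) :
    |L.det| = |τ| * |G.det * G⁻¹ 1 1| := by
  classical
  have hσ0 : σ ≠ 0 := by rcases hσ with h | h <;> rw [h] <;> norm_num
  set B := (Pi.basisFun ℝ (Fin (n + 2))).prod (Module.Basis.singleton Unit ℝ) with hB
  set P : Matrix (Fin (n + 2)) (Fin (n + 2)) ℝ := (-σ) • G with hP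
  set Q : Matrix (Fin (n + 2)) Unit ℝ :=
    Matrix.of fun i _ => (Pi.single 1 1 : Fin (n + 2) → ℝ) i with hQ
  set R : Matrix Unit (Fin (n + 2)) ℝ := Matrix.of fun _ j => -σ * (A ⬝ᵥ G.mulVec (Pi.single j 1)) +
    τ * (Pi.single j 1 : Fin (n + 2) → ℝ) 1 with hR
  set S : Matrix Unit Unit ℝ := Matrix.of fun _ _ => A 1 with hS
  have hmat : LinearMap.toMatrix B B (L : ((Fin (n + 2) → ℝ) × ℝ) →ₗ[ℝ] ((Fin (n + 2) → ℝ) × ℝ)) =
      Matrix.fromBlocks P Q R S := by
    ext i j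
    rw [LinearMap.toMatrix_apply]
    rcases i with i | i <;> rcases j with j | j
    · rw [Matrix.fromBlocks_apply₁₁]
      simp [hB, hL, hP, Matrix.mulVec_single]
    · rw [Matrix.fromBlocks_apply₁₂]
      simp [hB, hL, hQ]
    · rw [Matrix.fromBlocks_apply₂₁]
      simp [hB, hL, hR]
    · rw [Matrix.fromBlocks_apply₂₂]
      simp [hB, hL, hS]
  have hdet : L.det = (Matrix.fromBlocks P Q R S).det := by
    rw [← hmat, LinearMap.det_toMatrix]
  have hPdet : IsUnit P.det := by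
    rw [hP, Matrix.det_smul]
    exact (mul_ne_zero (pow_ne_zero _ (neg_ne_zero.2 hσ0)) hG).isUnit
  let inv : Invertible P := Matrix.invertibleOfIsUnitDet P hPdet
  rw [hdet, Matrix.det_fromBlocks₁₁, Matrix.det_unique (S - _)]
  have hR2 : R = (Matrix.of fun (_ : Unit) j => A j) * P + Matrix.of (fun _ j => τ * (Pi.single j 1 : Fin (n + 2) → ℝ) 1) := by
    ext i j
    simp [hR, hP, Matrix.mul_apply, dotProduct, Finset.mul_sum, Matrix.mulVec_single]
  have hval : (S - R * ⅟P * Q) default default = - (τ * P⁻¹ 1 1) := by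
    rw [Matrix.invOf_eq_nonsing_inv, hR2, Matrix.add_mul, Matrix.mul_assoc, Matrix.mul_nonsing_inv _ hPdet,
      Matrix.mul_one, Matrix.add_mul]
    simp only [Matrix.sub_apply, Matrix.add_apply, hS, hQ, Matrix.of_apply, Matrix.mul_apply]
    simp [Pi.single_apply]
  rw [hval]
  have hPinv : P⁻¹ = (-σ)⁻¹ • G⁻¹ := by
    apply Matrix.inv_eq_right_inv
    rw [hP, Matrix.smul_mul, Matrix.mul_smul, Matrix.mul_nonsing_inv _ hG.isUnit, smul_smul,
      mul_inv_cancel₀ (neg_ne_zero.2 hσ0), one_smul]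
  have hPd : P.det = (-σ) ^ (n + 2) * G.det := by
    rw [hP, Matrix.det_smul, Fintype.card_fin]
  have hsabs : |(-σ)| = 1 := by rcases hσ with h | h <;> rw [h] <;> norm_num
  rw [hPinv, hPd, Matrix.smul_apply, smul_eq_mul, abs_mul, abs_mul, abs_pow, hsabs, one_pow, one_mul,
    abs_neg, abs_mul, abs_mul, abs_inv, hsabs, inv_one, one_mul, abs_mul]
  ring

theorem Xi_hasFDerivAt {k : ℕ} (K : Set (Pt (k + 1))) (hK : Convex ℝ K) (hKc : IsCompact K)
    (σ : ℝ) (hσ : σ = 1 ∨ σ = -1) (A : Fin (k + 1 + 1) → ℝ) (hA : A ∈ Good K) (τ : ℝ) :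
    ∃ L : FF (k + 1) →L[ℝ] FF (k + 1),
      (∀ δ ρ, L (δ, ρ) = (-σ • (Gm K A).mulVec δ + ρ • (Pi.single 1 1 : Fin (k + 2) → ℝ),
        -σ * (A ⬝ᵥ (Gm K A).mulVec δ) + (ρ * A 1 + τ * δ 1))) ∧
      HasFDerivAt (fun z : FF (k + 1) => Xi K σ z.1 z.2) L (A, τ) := by
  obtain ⟨L0, hL0, hd⟩ := wv_hasFDerivAt (k + 1) K hK hKc σ hσ A hA
  have h1 : HasFDerivAt (fun z : FF (k + 1) => wv K σ z.1)
      (L0.comp (ContinuousLinearMap.fst ℝ (Fin (k + 1 + 1) → ℝ) ℝ)) (A, τ) :=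
    HasFDerivAt.comp (A, τ) (f := Prod.fst) (g := wv K σ) hd hasFDerivAt_fst
  have h2 : HasFDerivAt (fun z : FF (k + 1) => z.2 • (Pi.single 1 1 : Fin (k + 1 + 1) → ℝ))
      ((ContinuousLinearMap.snd ℝ (Fin (k + 1 + 1) → ℝ) ℝ).smulRight
        (Pi.single 1 1 : Fin (k + 1 + 1) → ℝ)) (A, τ) :=
    hasFDerivAt_snd.smul_const _
  have h3 : HasFDerivAt (fun z : FF (k + 1) => z.1 1)
      ((ContinuousLinearMap.proj (R := ℝ) (φ := fun _ : Fin (k + 1 + 1) => ℝ) 1).comp
        (ContinuousLinearMap.fst ℝ (Fin (k + 1 + 1) → ℝ) ℝ)) (A, τ) :=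
    ((ContinuousLinearMap.proj (R := ℝ) (φ := fun _ : Fin (k + 1 + 1) => ℝ) 1).comp
        (ContinuousLinearMap.fst ℝ (Fin (k + 1 + 1) → ℝ) ℝ)).hasFDerivAt
  have h4 := (hasFDerivAt_snd (𝕜 := ℝ) (E := Fin (k + 1 + 1) → ℝ) (F := ℝ) (p := (A, τ))).mul h3
  have h5 := h1.add (h2.prodMk h4)
  refine ⟨_, ?_, h5⟩
  intro δ ρ
  simp [hL0]
  ring

theorem measurable_param_setIntegral {α β : Type*} [MeasurableSpace α] [MeasurableSpace β]
    (μ : Measure β) [SFinite μ] {S : Set (α × β)} (hS : MeasurableSet S) {f : β → ℝ}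
    (hf : Measurable f) : Measurable (fun a => ∫ x in {x | (a, x) ∈ S}, f x ∂μ) := by
  have h1 : (fun a => ∫ x in {x | (a, x) ∈ S}, f x ∂μ) =
      fun a => ∫ x, S.indicator (fun q : α × β => f q.2) (a, x) ∂μ := by
    funext a
    have hm : MeasurableSet {x | (a, x) ∈ S} := measurable_prodMk_left hS
    rw [← integral_indicator hm]
    rfl
  rw [h1]
  exact (((hf.comp measurable_snd).indicator hS).stronglyMeasurable.integral_prod_right').measurable

theorem measurableSet_capSet {m : ℕ} {K : Set (Pt m)} (hK : MeasurableSet K) (σ : ℝ) :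
    MeasurableSet {q : (Fin (m + 1) → ℝ) × Pt m | q.2 ∈ cap K σ q.1} := by
  have h1 : {q : (Fin (m + 1) → ℝ) × Pt m | q.2 ∈ cap K σ q.1} =
      Prod.snd ⁻¹' K ∩ {q | 0 < σ * (q.2.2 - aff q.1 q.2.1)} := by
    ext q; simp [cap]
  rw [h1]
  refine (measurable_snd hK).inter (isOpen_lt continuous_const ?_).measurableSet
  have := (continuous_aff (m := m)).comp
    (continuous_fst.prodMk (continuous_fst.comp continuous_snd) :
      Continuous fun q : (Fin (m + 1) → ℝ) × Pt m => (q.1, q.2.1))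
  exact continuous_const.mul ((continuous_snd.comp continuous_snd).sub this)

theorem measurable_wv {m : ℕ} {K : Set (Pt m)} (hK : MeasurableSet K) (σ : ℝ) :
    Measurable (wv K σ) := by
  refine Measurable.prodMk ?_ ?_
  · refine measurable_pi_lambda _ (fun j => ?_)
    exact measurable_param_setIntegral volume (measurableSet_capSet hK σ)
      (f := fun x : Pt m => ph x.1 j) ((measurable_pi_apply j).comp (measurable_ph.comp measurable_fst))
  · exact measurable_param_setIntegral volume (measurableSet_capSet hK σ)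
      (f := fun x : Pt m => x.2) measurable_snd

theorem wv_zero {m : ℕ} (K : Set (Pt m)) (σ : ℝ) (A : Fin (m + 1) → ℝ) :
    (wv K σ A).1 0 = sv K σ A := by
  simp [wv, sv, vol, Measure.real]

theorem measurable_sv {m : ℕ} {K : Set (Pt m)} (hK : MeasurableSet K) (σ : ℝ) :
    Measurable (sv K σ) := by
  have : sv K σ = fun A => (wv K σ A).1 0 := by funext A; rw [wv_zero]
  rw [this]
  exact (measurable_pi_apply 0).comp (measurable_fst.comp (measurable_wv hK σ))

theorem measurable_Gm {m : ℕ} {K : Set (Pt m)} (hK : MeasurableSet K) (i j : Fin (m + 1)) :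
    Measurable (fun A => Gm K A i j) := by
  have h1 : MeasurableSet {q : (Fin (m + 1) → ℝ) × (Fin m → ℝ) | q.2 ∈ sect K q.1} := by
    have : {q : (Fin (m + 1) → ℝ) × (Fin m → ℝ) | q.2 ∈ sect K q.1} =
        (fun q : (Fin (m + 1) → ℝ) × (Fin m → ℝ) => ((q.2, aff q.1 q.2) : Pt m)) ⁻¹' K := by
      ext q; rfl
    rw [this]
    exact (continuous_snd.prodMk continuous_aff).measurable hK
  exact measurable_param_setIntegral volume h1 (f := fun x => ph x i * ph x j)
    (((measurable_pi_apply i).comp measurable_ph).mul ((measurable_pi_apply j).comp measurable_ph))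

theorem measurable_det_of {α : Type*} [MeasurableSpace α] {n : ℕ}
    {M : α → Matrix (Fin n) (Fin n) ℝ} (h : ∀ i j, Measurable fun a => M a i j) :
    Measurable fun a => (M a).det := by
  simp only [Matrix.det_apply]
  refine Finset.measurable_sum _ (fun s _ => ?_)
  refine Measurable.const_smul ?_ _
  exact Finset.measurable_prod _ (fun i _ => h _ _)

theorem measurable_inv_of {α : Type*} [MeasurableSpace α] {n : ℕ}
    {M : α → Matrix (Fin n) (Fin n) ℝ} (h : ∀ i j, Measurable fun a => M a i j) (i j : Fin n) :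
    Measurable fun a => (M a)⁻¹ i j := by
  have h1 : (fun a => (M a)⁻¹ i j) = fun a => (M a).det⁻¹ * (M a).adjugate i j := by
    funext a
    rw [Matrix.inv_def, Matrix.smul_apply, Ring.inverse_eq_inv', smul_eq_mul]
  rw [h1]
  refine (measurable_det_of h).inv.mul ?_
  simp only [Matrix.adjugate_apply]
  refine measurable_det_of (fun a b => ?_)
  by_cases hab : a = j
  · subst hab
    simp
  · simp [Matrix.updateRow_ne hab, h]

theorem exists_mem_interior {m : ℕ} {K : Set (Pt m)} (hKc : IsCompact K) {A : Fin (m + 1) → ℝ}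
    (hA : A ∈ Good K) (hd : (Gm K A).det ≠ 0) : ∃ x, (x, aff A x) ∈ interior K := by
  by_contra hcon
  push Not at hcon
  have h1 : sect K A ⊆ {x : Fin m → ℝ | (x, aff A x) ∈ frontier K} := by
    intro x hx
    rw [mem_ofPred_eq, hKc.isClosed.frontier_eq]
    exact ⟨hx, hcon x⟩
  have h2 : volume (sect K A) = 0 := measure_mono_null h1 hA
  apply hd
  have h3 : Gm K A = 0 := by
    ext i j
    simp only [Gm, Matrix.of_apply, Matrix.zero_apply]
    rw [Measure.restrict_eq_zero.2 h2, integral_zero_measure]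
  rw [h3, Matrix.det_zero]

theorem sv_le {m : ℕ} {K : Set (Pt m)} (hKc : IsCompact K) (σ : ℝ) (A : Fin (m + 1) → ℝ) :
    sv K σ A ≤ vol K :=
  ENNReal.toReal_mono hKc.measure_lt_top.ne (measure_mono (cap_subset K σ A))

theorem sv_pos {m : ℕ} {K : Set (Pt m)} (hKc : IsCompact K) {σ : ℝ} (hσ : σ = 1 ∨ σ = -1)
    {A : Fin (m + 1) → ℝ} (hA : A ∈ Good K) (hd : (Gm K A).det ≠ 0) : 0 < sv K σ A := by
  obtain ⟨x, hx⟩ := exists_mem_interior hKc hA hd
  have hfin : volume (cap K σ A) ≠ ∞ :=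
    (lt_of_le_of_lt (measure_mono (cap_subset K σ A)) hKc.measure_lt_top).ne
  apply ENNReal.toReal_pos _ hfin
  have hcont : Continuous fun y : Pt m => σ * (y.2 - aff A y.1) :=
    continuous_const.mul (continuous_snd.sub ((continuous_aff_right A).comp continuous_fst))
  have hopen : IsOpen (interior K ∩ {y : Pt m | 0 < σ * (y.2 - aff A y.1)}) :=
    isOpen_interior.inter (isOpen_lt continuous_const hcont)
  have hne : (interior K ∩ {y : Pt m | 0 < σ * (y.2 - aff A y.1)}).Nonempty := by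
    -- move in the direction σ
    have hc : Continuous fun t : ℝ => ((x, aff A x + σ * t) : Pt m) := by fun_prop
    have h1 : ∀ᶠ t in nhds (0 : ℝ), ((x, aff A x + σ * t) : Pt m) ∈ interior K := by
      apply hc.continuousAt.eventually_mem
      apply isOpen_interior.mem_nhds
      simpa using hx
    have h2 : ∀ᶠ t in nhdsWithin (0 : ℝ) (Ioi 0), ((x, aff A x + σ * t) : Pt m) ∈ interior K :=
      h1.filter_mono nhdsWithin_le_nhds
    obtain ⟨t, ht1, ht2⟩ := (h2.and self_mem_nhdsWithin).exists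
    refine ⟨_, ht1, ?_⟩
    have ht3 : (0 : ℝ) < t := ht2
    simp only [mem_ofPred_eq, add_sub_cancel_left]
    rcases hσ with h | h <;> rw [h] <;> linarith
  have h3 := hopen.measure_pos volume hne
  refine (lt_of_lt_of_le h3 (measure_mono ?_)).ne'
  intro y hy
  exact ⟨interior_subset hy.1, hy.2⟩

/-- the parameter domains -/
def Dom {k : ℕ} (K : Set (Pt (k + 1))) (σ ε : ℝ) : Set (FF (k + 1)) :=
  {z | z.1 ∈ Good K ∧ (Gm K z.1).det ≠ 0 ∧ 0 < ε * z.2 ∧ z.2 ∈ Tset K σ z.1}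

theorem measurableSet_TT {k : ℕ} {K : Set (Pt (k + 1))} (hK : MeasurableSet K) (σ : ℝ) :
    MeasurableSet {z : FF (k + 1) | z.2 ∈ Tset K σ z.1} := by
  have h1 : {z : FF (k + 1) | z.2 ∈ Tset K σ z.1} =
      (fun z : FF (k + 1) =>
        (((sv K σ z.1)⁻¹ • ((fun j : Fin (k + 1) => (wv K σ z.1).1 j.succ) +
            z.2 • (Pi.single 0 1 : Fin (k+1) → ℝ)),
          (sv K σ z.1)⁻¹ * ((wv K σ z.1).2 + z.2 * z.1 1)) : Pt (k + 1))) ⁻¹' K := by
    ext z; rfl
  rw [h1]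
  have hsv : Measurable fun z : FF (k + 1) => sv K σ z.1 := (measurable_sv hK σ).comp measurable_fst
  have hwv : Measurable fun z : FF (k + 1) => wv K σ z.1 := (measurable_wv hK σ).comp measurable_fst
  refine Measurable.prodMk ?_ ?_ hK
  · refine measurable_pi_lambda _ fun j => ?_
    simp only [Pi.smul_apply, Pi.add_apply, smul_eq_mul]
    refine hsv.inv.mul (Measurable.add ?_ ?_)
    · exact (measurable_pi_apply _).comp (measurable_fst.comp hwv)
    · exact measurable_snd.mul_const _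
  · refine hsv.inv.mul ((measurable_snd.comp hwv).add (measurable_snd.mul ?_))
    exact (measurable_pi_apply _).comp measurable_fst

theorem measurableSet_Dom {k : ℕ} {K : Set (Pt (k + 1))} (hK : Convex ℝ K) (hKc : IsCompact K)
    (σ ε : ℝ) : MeasurableSet (Dom K σ ε) := by
  have h1 : MeasurableSet {z : FF (k + 1) | z.1 ∈ Good K} :=
    measurable_fst (good_ae (k + 1) K hK hKc).1
  have h2 : MeasurableSet {z : FF (k + 1) | (Gm K z.1).det ≠ 0} := by
    have : Measurable fun z : FF (k + 1) => (Gm K z.1).det :=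
      measurable_det_of (fun i j => (measurable_Gm hKc.measurableSet i j).comp measurable_fst)
    exact this (measurableSet_singleton (0 : ℝ)).compl
  have h3 : MeasurableSet {z : FF (k + 1) | 0 < ε * z.2} :=
    measurableSet_lt measurable_const (measurable_snd.const_mul _)
  exact h1.inter (h2.inter (h3.inter (measurableSet_TT hKc.measurableSet σ)))

theorem Xi_fst_zero {k : ℕ} (K : Set (Pt (k + 1))) (σ : ℝ) (A : Fin (k + 1 + 1) → ℝ) (τ : ℝ) :
    (Xi K σ A τ).1 0 = sv K σ A := by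
  simp [Xi, wv_zero]

theorem Xi_mem {k : ℕ} {K : Set (Pt (k + 1))} (hKc : IsCompact K)
    {σ ε : ℝ} (hσ : σ = 1 ∨ σ = -1) {z : FF (k + 1)} (hz : z ∈ Dom K σ ε) :
    Xi K σ z.1 z.2 ∈ coneK K \ Yset K := by
  obtain ⟨h1, h2, h3, h4⟩ := hz
  have hτ : z.2 ≠ 0 := by
    rintro h; rw [h, mul_zero] at h3; exact lt_irrefl _ h3
  refine ⟨⟨?_, ?_, ?_⟩, Xi_not_mem k K hKc σ hσ z.1 z.2 hτ⟩
  · rw [Xi_fst_zero]; exact sv_pos hKc hσ h1 h2
  · rw [Xi_fst_zero]; exact sv_le hKc σ z.1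
  · rw [Xi_fst_zero]
    have h5 : (fun j : Fin (k + 1) => (Xi K σ z.1 z.2).1 j.succ) =
        (fun j : Fin (k + 1) => (wv K σ z.1).1 j.succ) + z.2 • (Pi.single 0 1 : Fin (k+1) → ℝ) := by
      funext j
      have h6 : (Pi.single 1 1 : Fin (k + 1 + 1) → ℝ) j.succ = (Pi.single 0 1 : Fin (k + 1) → ℝ) j := by
        rw [show (1 : Fin (k + 1 + 1)) = Fin.succ 0 from rfl]
        by_cases hj : j = 0
        · subst hj; simp
        · rw [Pi.single_eq_of_ne hj, Pi.single_eq_of_ne]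
          intro h; exact hj (Fin.succ_injective _ h)
      simp only [Xi, Pi.add_apply, Pi.smul_apply, smul_eq_mul, h6]
    rw [h5]
    exact h4

theorem injOn_Xi {k : ℕ} {K : Set (Pt (k + 1))} (hK : Convex ℝ K) (hKc : IsCompact K)
    {σ ε : ℝ} (hσ : σ = 1 ∨ σ = -1) :
    InjOn (fun z : FF (k + 1) => Xi K σ z.1 z.2) (Dom K σ ε) := by
  rintro ⟨A, τ⟩ ⟨h1, h2, h3, h4⟩ ⟨A', τ'⟩ ⟨h1', h2', h3', h4'⟩ h
  simp only at h1 h2 h3 h4 h1' h2' h3' h4' h
  have hs : 0 < (σ * τ) * (σ * τ') := by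
    have h5 : 0 < (ε * τ) * (ε * τ') := mul_pos h3 h3'
    have h6 : (ε * τ) * (ε * τ') = ε ^ 2 * (τ * τ') := by ring
    rw [h6] at h5
    have h7 : 0 < τ * τ' := (pos_iff_pos_of_mul_pos h5).1 (by
      rcases eq_or_ne ε 0 with h | h
      · rw [h] at h5; simp at h5
      · positivity)
    rcases hσ with h | h <;> rw [h] <;> nlinarith
  obtain ⟨-, hA, hτ⟩ := Xi_inj k K hK hKc σ σ hσ hσ A A' h1 h1' h2 h2' τ τ' hs h
  rw [hA, hτ]

/-- the integrand after the change of variables -/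
noncomputable def HH {k : ℕ} (K : Set (Pt (k + 1))) (σ : ℝ) (N : ℕ) (z : FF (k + 1)) : ℝ≥0∞ :=
  ENNReal.ofReal (|z.2| * |(Gm K z.1).det * (Gm K z.1)⁻¹ 1 1|) *
    ENNReal.ofReal ((vol K - sv K σ z.1) ^ N)

theorem measurable_HH {k : ℕ} {K : Set (Pt (k + 1))} (hK : MeasurableSet K) (σ : ℝ) (N : ℕ) :
    Measurable (HH K σ N) := by
  have hG : ∀ i j, Measurable fun z : FF (k + 1) => Gm K z.1 i j :=
    fun i j => (measurable_Gm hK i j).comp measurable_fst
  have h1 : Measurable fun z : FF (k + 1) => (Gm K z.1).det := measurable_det_of hG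
  have h2 : Measurable fun z : FF (k + 1) => (Gm K z.1)⁻¹ 1 1 := measurable_inv_of hG 1 1
  have h3 : Measurable fun z : FF (k + 1) => sv K σ z.1 := (measurable_sv hK σ).comp measurable_fst
  refine Measurable.mul (ENNReal.measurable_ofReal.comp ?_) (ENNReal.measurable_ofReal.comp ?_)
  · exact (continuous_abs.measurable.comp measurable_snd).mul
      (continuous_abs.measurable.comp (h1.mul h2))
  · exact (measurable_const.sub h3).pow_const N

theorem image_Dom {k : ℕ} {K : Set (Pt (k + 1))} (hK : Convex ℝ K) (hKc : IsCompact K)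
    {σ ε : ℝ} (hσ : σ = 1 ∨ σ = -1) (N : ℕ) :
    MeasurableSet ((fun z : FF (k + 1) => Xi K σ z.1 z.2) '' Dom K σ ε) ∧
    ∫⁻ z in (fun z : FF (k + 1) => Xi K σ z.1 z.2) '' Dom K σ ε,
        ENNReal.ofReal ((vol K - z.1 0) ^ N) = ∫⁻ z in Dom K σ ε, HH K σ N z := by
  classical
  have hD := measurableSet_Dom hK hKc σ ε
  have hex : ∀ z : FF (k + 1), z ∈ Dom K σ ε → ∃ L : FF (k + 1) →L[ℝ] FF (k + 1),
      |L.det| = |z.2| * |(Gm K z.1).det * (Gm K z.1)⁻¹ 1 1| ∧
      HasFDerivAt (fun z : FF (k + 1) => Xi K σ z.1 z.2) L z := by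
    intro z hz
    obtain ⟨L, hL, hd⟩ := Xi_hasFDerivAt K hK hKc σ hσ z.1 hz.1 z.2
    exact ⟨L, abs_det_sweep (Gm K z.1) hz.2.1 z.1 σ z.2 hσ L hL, hd⟩
  choose! L hL1 hL2 using hex
  have hd : ∀ z ∈ Dom K σ ε, HasFDerivWithinAt (fun z : FF (k + 1) => Xi K σ z.1 z.2) (L z)
      (Dom K σ ε) z := fun z hz => (hL2 z hz).hasFDerivWithinAt
  have hinj := injOn_Xi hK hKc (σ := σ) (ε := ε) hσ
  refine ⟨measurable_image_of_fderivWithin hD hd hinj, ?_⟩
  rw [lintegral_image_eq_lintegral_abs_det_fderiv_mul volume hD hd hinj]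
  refine setLIntegral_congr_fun hD fun z hz => ?_
  simp only [HH, hL1 z hz, Xi_fst_zero]

theorem TT_le {k : ℕ} {K : Set (Pt (k + 1))} (hK : Convex ℝ K) (hKc : IsCompact K)
    (σ : ℝ) (N : ℕ) :
    TT K σ N ≤ (∫⁻ z in Dom K σ 1, HH K σ N z) + ∫⁻ z in Dom K σ (-1), HH K σ N z := by
  have hD := measurableSet_Dom hK hKc σ 1
  have hD' := measurableSet_Dom hK hKc σ (-1)
  have hdisj : Disjoint (Dom K σ 1) (Dom K σ (-1)) := by
    rw [Set.disjoint_left]
    intro z h1 h2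
    have := h1.2.2.1
    have := h2.2.2.1
    linarith
  rw [← lintegral_union hD' hdisj, ← lintegral_indicator (hD.union hD'), Measure.volume_eq_prod,
    lintegral_prod _ ((measurable_HH hKc.measurableSet σ N).indicator (hD.union hD')).aemeasurable]
  refine lintegral_mono_ae ?_
  have hgood : ∀ᵐ A : Fin (k + 1 + 1) → ℝ, A ∈ Good K := by
    rw [ae_iff]; exact (good_ae (k + 1) K hK hKc).2
  filter_upwards [hgood] with A hA
  by_cases hdet : (Gm K A).det = 0
  · rw [hdet, mul_zero, zero_mul, ENNReal.ofReal_zero, zero_mul]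
    exact zero_le
  · have hTm : MeasurableSet (Tset K σ A) :=
      measurable_prodMk_left (measurableSet_TT hKc.measurableSet σ)
    have h1 : ∀ τ : ℝ, (Dom K σ 1 ∪ Dom K σ (-1)).indicator (HH K σ N) (A, τ) =
        (Tset K σ A).indicator (fun τ => HH K σ N (A, τ)) τ := by
      intro τ
      by_cases hτ : τ = 0
      · subst hτ
        have h2 : HH K σ N (A, 0) = 0 := by simp [HH]
        simp only [Set.indicator, h2, ite_self]
      · by_cases hT : τ ∈ Tset K σ A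
        · rw [Set.indicator_of_mem hT, Set.indicator_of_mem]
          rcases lt_or_gt_of_ne hτ with h | h
          · right; exact ⟨hA, hdet, by simpa using h, hT⟩
          · left; exact ⟨hA, hdet, by simpa using h, hT⟩
        · rw [Set.indicator_of_notMem hT, Set.indicator_of_notMem]
          rintro (h | h)
          · exact hT h.2.2.2
          · exact hT h.2.2.2
    simp only [h1]
    rw [lintegral_indicator hTm]
    have h3 : ∀ τ : ℝ, HH K σ N (A, τ) = ENNReal.ofReal |τ| *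
        (ENNReal.ofReal |(Gm K A).det * (Gm K A)⁻¹ 1 1| * ENNReal.ofReal ((vol K - sv K σ A) ^ N)) := by
      intro τ
      simp only [HH]
      rw [ENNReal.ofReal_mul (abs_nonneg _), mul_assoc]
    simp only [h3]
    rw [lintegral_mul_const _ (by fun_prop), mul_comm]
    gcongr
    rw [mul_assoc, ENNReal.ofReal_mul (pow_nonneg (sub_nonneg.2 (sv_le hKc σ A)) N), mul_comm]
    gcongr
    exact le_abs_self _

end Pool.H40.EV.Sw

namespace Pool.H40.EV
open MeasureTheory Set Matrix Sw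
open scoped ENNReal

theorem sweep (k : ℕ) (K : Set (Pt (k + 1))) (hK : Convex ℝ K) (hKc : IsCompact K)
    (hKi : (interior K).Nonempty) (N : ℕ) :
    ∃ I₁ I₂ : Set (FF (k + 1)), MeasurableSet I₁ ∧ MeasurableSet I₂ ∧
      I₁ ⊆ coneK K \ Yset K ∧ I₂ ⊆ coneK K \ Yset K ∧
      TT K 1 N + TT K (-1) N ≤
        (∫⁻ z in I₁, ENNReal.ofReal ((vol K - z.1 0) ^ N)) +
          ∫⁻ z in I₂, ENNReal.ofReal ((vol K - z.1 0) ^ N) := by
  have h1 : (1 : ℝ) = 1 ∨ (1 : ℝ) = -1 := Or.inl rfl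
  have h2 : (-1 : ℝ) = 1 ∨ (-1 : ℝ) = -1 := Or.inr rfl
  obtain ⟨ma, ea⟩ := image_Dom hK hKc (σ := 1) (ε := 1) h1 N
  obtain ⟨mb, eb⟩ := image_Dom hK hKc (σ := 1) (ε := -1) h1 N
  obtain ⟨mc, ec⟩ := image_Dom hK hKc (σ := -1) (ε := 1) h2 N
  obtain ⟨md, ed⟩ := image_Dom hK hKc (σ := -1) (ε := -1) h2 N
  set Ia := (fun z : FF (k + 1) => Xi K 1 z.1 z.2) '' Dom K 1 1 with hIa
  set Ib := (fun z : FF (k + 1) => Xi K 1 z.1 z.2) '' Dom K 1 (-1) with hIb
  set Ic := (fun z : FF (k + 1) => Xi K (-1) z.1 z.2) '' Dom K (-1) 1 with hIc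
  set Id := (fun z : FF (k + 1) => Xi K (-1) z.1 z.2) '' Dom K (-1) (-1) with hId
  have hne : (1 : ℝ) ≠ -1 := by norm_num
  have hdis : ∀ ε : ℝ, Disjoint ((fun z : FF (k + 1) => Xi K 1 z.1 z.2) '' Dom K 1 ε)
      ((fun z : FF (k + 1) => Xi K (-1) z.1 z.2) '' Dom K (-1) (-ε)) := by
    intro ε
    rw [Set.disjoint_left]
    rintro _ ⟨z, hz, rfl⟩ ⟨z', hz', h⟩
    simp only at h
    have hs : 0 < ((1 : ℝ) * z.2) * ((-1) * z'.2) := by
      have h5 := mul_pos hz.2.2.1 hz'.2.2.1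
      have h6 : (ε * z.2) * (-ε * z'.2) = ε ^ 2 * (((1 : ℝ) * z.2) * ((-1) * z'.2)) := by ring
      rw [h6] at h5
      refine (pos_iff_pos_of_mul_pos h5).1 ?_
      rcases eq_or_ne ε 0 with h | h
      · rw [h] at h5; simp at h5
      · positivity
    exact hne (Xi_inj k K hK hKc 1 (-1) h1 h2 z.1 z'.1 hz.1 hz'.1 hz.2.1 hz'.2.1 z.2 z'.2 hs
      h.symm).1
  have hd1 : Disjoint Ia Id := hdis 1
  have hd2 : Disjoint Ib Ic := by simpa using hdis (-1)
  refine ⟨Ia ∪ Id, Ib ∪ Ic, ma.union md, mb.union mc, ?_, ?_, ?_⟩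
  · rintro _ (⟨z, hz, rfl⟩ | ⟨z, hz, rfl⟩)
    · exact Xi_mem hKc h1 hz
    · exact Xi_mem hKc h2 hz
  · rintro _ (⟨z, hz, rfl⟩ | ⟨z, hz, rfl⟩)
    · exact Xi_mem hKc h1 hz
    · exact Xi_mem hKc h2 hz
  · rw [lintegral_union md hd1, lintegral_union mc hd2, ea, eb, ec, ed]
    calc TT K 1 N + TT K (-1) N ≤ _ := add_le_add (TT_le hK hKc 1 N) (TT_le hK hKc (-1) N)
      _ = _ := by ring

end Pool.H40.EV
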