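import Pool.Agent.Helper40.EV.Defs

/-! EV-17: transfer of `hullMass` and of the pieces `C_geo`, `C_prob` to `ℝ^m × ℝ`. -/

set_option autoImplicit false

namespace Pool.H40.EV

open MeasureTheory Set Matrix
open scoped ENNReal

theorem hullMass_transfer {E F : Type*} [AddCommGroup E] [Module ℝ E] [MeasurableSpace E]
    [AddCommGroup F] [Module ℝ F] [MeasurableSpace F] (μ : Measure E) (ν : Measure F)
    [SigmaFinite μ] [SigmaFinite ν] (L : E ≃ₗ[ℝ] F) (hL : Measurable L) (hL' : Measurable L.symm)
    (hmp : MeasurePreserving L μ ν) (n : ℕ) : hullMass μ n = hullMass ν n := by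
  classical
  set Le : E ≃ᵐ F := ⟨L.toEquiv, hL, hL'⟩ with hLe
  have hemb : MeasurableEmbedding L := Le.measurableEmbedding
  set P : (Fin n → E) ≃ᵐ (Fin n → F) := MeasurableEquiv.piCongrRight fun _ => Le with hP
  have hPmp : MeasurePreserving (fun X : Fin n → E => fun i => L (X i))
      (Measure.pi fun _ : Fin n => μ) (Measure.pi fun _ : Fin n => ν) :=
    measurePreserving_pi (fun _ => μ) (fun _ => ν) fun _ => hmp
  have hPemb : MeasurableEmbedding (fun X : Fin n → E => fun i => L (X i)) :=
    P.measurableEmbedding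
  unfold hullMass
  rw [← hPmp.lintegral_comp_emb hPemb]
  refine lintegral_congr fun X => ?_
  rw [← hmp.measure_preimage_emb hemb]
  congr 1
  ext x
  simp only [mem_ofPred_eq, mem_preimage]
  have h1 : range (fun i => L (X i)) = (L : E →ₗ[ℝ] F) '' range X := by
    rw [← range_comp]; rfl
  rw [h1, ← LinearMap.image_convexHull]
  constructor
  · intro h
    exact ⟨x, h, rfl⟩
  · rintro ⟨y, hy, hxy⟩
    have : y = x := L.injective hxy
    rwa [← this]

/-- `(x, t) ↦ Fin.snoc x t` -/
def snocL (m : ℕ) : ((Fin m → ℝ) × ℝ) ≃ₗ[ℝ] (Fin (m + 1) → ℝ) where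
  toFun x := Fin.snoc (α := fun _ => ℝ) x.1 x.2
  invFun y := (fun i => y i.castSucc, y (Fin.last m))
  map_add' x y := by
    funext i
    refine Fin.lastCases ?_ (fun i => ?_) i <;> simp
  map_smul' c x := by
    funext i
    refine Fin.lastCases ?_ (fun i => ?_) i <;> simp
  left_inv x := by
    ext1 <;> simp
  right_inv y := by
    funext i
    refine Fin.lastCases ?_ (fun i => ?_) i <;> simp

theorem snocL_castSucc {m : ℕ} (x : (Fin m → ℝ) × ℝ) (i : Fin m) : snocL m x i.castSucc = x.1 i := by
  change Fin.snoc (α := fun _ => ℝ) x.1 x.2 i.castSucc = x.1 i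
  simp

theorem snocL_last {m : ℕ} (x : (Fin m → ℝ) × ℝ) : snocL m x (Fin.last m) = x.2 := by
  change Fin.snoc (α := fun _ => ℝ) x.1 x.2 (Fin.last m) = x.2
  simp

theorem snocL_zero {m : ℕ} (x : (Fin (m + 1) → ℝ) × ℝ) : snocL (m + 1) x 0 = x.1 0 :=
  snocL_castSucc x 0

theorem continuous_snocL (m : ℕ) : Continuous (snocL m) :=
  (snocL m).toLinearMap.continuous_of_finiteDimensional

theorem continuous_snocL_symm (m : ℕ) : Continuous (snocL m).symm :=
  (snocL m).symm.toLinearMap.continuous_of_finiteDimensional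

theorem snocL_emb (m : ℕ) : MeasurableEmbedding (snocL m) :=
  (⟨(snocL m).toEquiv, (continuous_snocL m).measurable, (continuous_snocL_symm m).measurable⟩ :
    ((Fin m → ℝ) × ℝ) ≃ᵐ (Fin (m + 1) → ℝ)).measurableEmbedding

theorem snocL_mp (m : ℕ) : MeasurePreserving (snocL m) := by
  have h1 := (volume_preserving_piFinSuccAbove (fun _ : Fin (m + 1) => ℝ) (Fin.last m)).symm
  have h2 : MeasurePreserving (Prod.swap : (Fin m → ℝ) × ℝ → ℝ × (Fin m → ℝ))
      (volume.prod volume) (volume.prod volume) := Measure.measurePreserving_swap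
  have h3 : MeasurePreserving
      ((MeasurableEquiv.piFinSuccAbove (fun _ : Fin (m + 1) => ℝ) (Fin.last m)).symm ∘ Prod.swap)
      (volume : Measure ((Fin m → ℝ) × ℝ)) volume := h1.comp h2
  have h4 : (snocL m : ((Fin m → ℝ) × ℝ) → (Fin (m + 1) → ℝ)) =
      ((MeasurableEquiv.piFinSuccAbove (fun _ : Fin (m + 1) => ℝ) (Fin.last m)).symm ∘
        Prod.swap) := by
    funext x
    funext i
    refine Fin.lastCases ?_ (fun i => ?_) i
    · rw [snocL_last]
      simp [MeasurableEquiv.piFinSuccAbove_symm_apply, Fin.insertNthEquiv]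
    · rw [snocL_castSucc]
      simp [MeasurableEquiv.piFinSuccAbove_symm_apply, Fin.insertNthEquiv]
  rw [h4]
  exact h3

/-- The pieces `C_geo` and `C_prob` (as hypotheses) give `C_piece`. -/
theorem C_piece_of (m : ℕ) (K : Set (Pt m)) (hK : Convex ℝ K) (hKc : IsCompact K)
    (hKi : (interior K).Nonempty) (n : ℕ)
    (hgeo : ∀ K' : Set (Fin (m + 1) → ℝ), Convex ℝ K' → IsCompact K' → (interior K').Nonempty →
      ∃ I : Set (Fin (m + 1 + 1) → ℝ), MeasurableSet I ∧ I ⊆ Yset' K' ∧
      ∫⁻ B : Fin (m + 1 + 1) → ℝ,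
          ENNReal.ofReal ((vol K' - MM K' B) ^ (n - (m + 2)) * (Gam K' B).det) ≤
        ∫⁻ z in I, ENNReal.ofReal ((vol K' - z 0) ^ (n - (m + 2))))
    (hprob : ∀ K' : Set (Fin (m + 1) → ℝ), Convex ℝ K' → IsCompact K' →
      hullMass (volume.restrict K') n ≤ (((m + 2) * n.choose (m + 2) : ℕ) : ℝ≥0∞) *
        ∫⁻ B : Fin (m + 1 + 1) → ℝ,
          ENNReal.ofReal ((vol K' - MM K' B) ^ (n - (m + 2)) * (Gam K' B).det)) :
    ∃ I : Set (FF m), MeasurableSet I ∧ I ⊆ Yset K ∧
      hullMass (volume.restrict K) n ≤ (((m + 2) * n.choose (m + 2) : ℕ) : ℝ≥0∞) *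
        ∫⁻ z in I, ENNReal.ofReal ((vol K - z.1 0) ^ (n - (m + 2))) := by
  set K' : Set (Fin (m + 1) → ℝ) := snocL m '' K with hK'
  have hK'conv : Convex ℝ K' := hK.linear_image (snocL m).toLinearMap
  have hK'c : IsCompact K' := hKc.image (continuous_snocL m)
  have hhomeo : IsOpenMap (snocL m) :=
    ((snocL m).toContinuousLinearEquiv).toHomeomorph.isOpenMap
  have hK'i : (interior K').Nonempty := by
    obtain ⟨x, hx⟩ := hKi
    refine ⟨snocL m x, ?_⟩
    rw [mem_interior]
    exact ⟨snocL m '' interior K, image_mono interior_subset, hhomeo _ isOpen_interior,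
      ⟨x, hx, rfl⟩⟩
  have hmpr : MeasurePreserving (snocL m) (volume.restrict K) (volume.restrict K') :=
    (snocL_mp m).restrict_image_emb (snocL_emb m) K
  have hvol : vol K' = vol K := by
    unfold vol
    rw [hK', ← (snocL_mp m).measure_preimage_emb (snocL_emb m),
      preimage_image_eq _ (snocL m).injective]
  have hhull : hullMass (volume.restrict K) n = hullMass (volume.restrict K') n :=
    hullMass_transfer _ _ (snocL m) (continuous_snocL m).measurable
      (continuous_snocL_symm m).measurable hmpr n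
  obtain ⟨I', hI'm, hI'Y, hI'le⟩ := hgeo K' hK'conv hK'c hK'i
  refine ⟨snocL (m + 1) ⁻¹' I', (continuous_snocL (m + 1)).measurable hI'm, ?_, ?_⟩
  · intro z hz
    obtain ⟨g, hg, hg01, hgz⟩ := hI'Y hz
    refine ⟨fun x => g (snocL m x), hg.comp (continuous_snocL m).measurable,
      fun x => hg01 _, ?_⟩
    have key : ∀ j, snocL (m + 1) z j = ∫ x in K, g (snocL m x) * ph (snocL m x) j := by
      intro j
      rw [hgz]
      exact (hmpr.integral_comp (snocL_emb m) (fun y => g y * ph y j)).symm
    refine Prod.ext ?_ ?_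
    · funext j
      have h1 := key j.castSucc
      rw [snocL_castSucc] at h1
      rw [h1]
      dsimp only
      congr 1
      funext x
      congr 1
      refine Fin.cases ?_ (fun i => ?_) j
      · rfl
      · change snocL m x i.castSucc = x.1 i
        exact snocL_castSucc x i
    · have h1 := key (Fin.last (m + 1))
      rw [snocL_last] at h1
      rw [h1]
      dsimp only
      congr 1
      funext x
      congr 1
      change snocL m x (Fin.last m) = x.2
      exact snocL_last x
  · rw [hhull]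
    refine (hprob K' hK'conv hK'c).trans ?_
    refine mul_le_mul_right ?_ _
    refine hI'le.trans (le_of_eq ?_)
    rw [← (snocL_mp (m + 1)).setLIntegral_comp_preimage_emb (snocL_emb (m + 1))]
    refine lintegral_congr fun z => ?_
    rw [snocL_zero, hvol]

end Pool.H40.EV
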