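import Pool.Agent.Helper40.EV.LemB
import Pool.Agent.Helper40.EV.Deriv
import Pool.Agent.Helper40.EV.Efron
import Pool.Agent.Helper40.EV.Cone
import Pool.Agent.Helper40.EV.GP
import Pool.Agent.Helper40.EV.Transfer
import Pool.Agent.Helper40.EV.LowDim
import Pool.Agent.Helper40.EV.Sweep
import Pool.Agent.Helper40.EV.CGeo
import Pool.Agent.Helper40.EV.CProb
import Pool.Agent.Helper40.EV.BProb

/-! Assembly of the proof of the monotonicity of the expected number of vertices. -/

set_option autoImplicit false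

namespace Pool.H40.EV

open MeasureTheory Set Matrix
open scoped ENNReal

theorem C_piece (m : ℕ) (K : Set (Pt m)) (hK : Convex ℝ K) (hKc : IsCompact K)
    (hKi : (interior K).Nonempty) (n : ℕ) (hn : m + 2 ≤ n) :
    ∃ I : Set (FF m), MeasurableSet I ∧ I ⊆ Yset K ∧
      hullMass (volume.restrict K) n ≤ (((m + 2) * n.choose (m + 2) : ℕ) : ℝ≥0∞) *
        ∫⁻ z in I, ENNReal.ofReal ((vol K - z.1 0) ^ (n - (m + 2))) :=
  C_piece_of m K hK hKc hKi n (fun K2 h1 h2 h3 => C_geo (m+1) K2 h1 h2 h3 (n-(m+2)))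
    (fun K2 h1 h2 => C_prob (m+1) K2 h1 h2 n hn)

/-! ### assembly -/

theorem sv_le (m : ℕ) (K : Set (Pt m)) (hKc : IsCompact K) (σ : ℝ) (A : Fin (m + 1) → ℝ) :
    sv K σ A ≤ vol K := by
  unfold sv vol
  exact ENNReal.toReal_mono hKc.measure_lt_top.ne (measure_mono fun x hx => hx.1)

theorem mv_nonneg (m : ℕ) (K : Set (Pt m)) (hKc : IsCompact K) (σ : ℝ) (A : Fin (m + 1) → ℝ) :
    0 ≤ mv K σ A := by
  unfold mv
  apply setIntegral_nonneg (measurableSet_cap hKc.isClosed.measurableSet σ A)
  intro x hx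
  exact hx.2.le

theorem RR_le_TT (k : ℕ) (K : Set (Pt (k + 1))) (hK : Convex ℝ K) (hKc : IsCompact K)
    (σ : ℝ) (hσ : σ = 1 ∨ σ = -1) (N : ℕ) : 2 * RR K σ N ≤ TT K σ N := by
  have hgood := good_ae (k+1) K hK hKc
  unfold RR TT
  rw [← lintegral_const_mul' _ _ (by simp)]
  apply lintegral_mono_ae
  have hae : ∀ᵐ A : Fin (k+1+1) → ℝ, A ∈ Good K := by
    rw [ae_iff]; exact hgood.2
  filter_upwards [hae] with A hA
  have hV : 0 ≤ vol K - sv K σ A := sub_nonneg.2 (sv_le _ K hKc σ A)
  have hm : 0 ≤ mv K σ A := mv_nonneg _ K hKc σ A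
  by_cases hdet : (Gm K A).det ≤ 0
  · have : (vol K - sv K σ A) ^ N * mv K σ A * (Gm K A).det ≤ 0 :=
      mul_nonpos_of_nonneg_of_nonpos (by positivity) hdet
    rw [ENNReal.ofReal_of_nonpos this, mul_zero]
    exact bot_le
  · rw [not_le] at hdet
    have hB := lemB k K hK hKc σ hσ A hA hdet.ne'
    calc 2 * ENNReal.ofReal ((vol K - sv K σ A) ^ N * mv K σ A * (Gm K A).det)
        = ENNReal.ofReal ((vol K - sv K σ A) ^ N * (Gm K A).det) * ENNReal.ofReal (2 * mv K σ A) := by
          rw [← ENNReal.ofReal_mul (by positivity), show (2 : ℝ≥0∞) = ENNReal.ofReal 2 by simp,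
            ← ENNReal.ofReal_mul (by norm_num)]
          congr 1; ring
      _ ≤ ENNReal.ofReal ((vol K - sv K σ A) ^ N * (Gm K A).det) *
          (ENNReal.ofReal ((Gm K A)⁻¹ 1 1) * ∫⁻ τ in Tset K σ A, ENNReal.ofReal |τ|) := by gcongr
      _ = _ := by
          rw [← mul_assoc, ← ENNReal.ofReal_mul (by positivity)]

theorem main_big (k : ℕ) (K : Set (Pt (k + 1))) (hK : Convex ℝ K) (hKc : IsCompact K)
    (hKi : (interior K).Nonempty) (n : ℕ) (hn : k + 2 ≤ n) :
    (n + 2 : ℝ≥0∞) * hullMass (volume.restrict K) (n + 1) ≤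
      (volume K) ^ (n + 2) + (n + 1) * volume K * hullMass (volume.restrict K) n := by
  set N := n - (k + 2) with hN
  obtain ⟨I₁, I₂, hI₁, hI₂, hs₁, hs₂, hT⟩ := sweep k K hK hKc hKi N
  obtain ⟨I, hI, hIY, hC⟩ := C_piece (k+1) K hK hKc hKi (n+1) (by omega)
  obtain ⟨hcm, hcone⟩ := cone_integral (k+1) K hK hKc hKi (n+1) (by omega)
  have hNN : n + 1 - (k + 1 + 2) = N := by omega
  rw [hNN] at hC hcone
  have hB := B_prob (k+1) K hK hKc n (by omega)
  rw [show n - (k+1+1) = N by omega] at hB
  set c : ℝ≥0∞ := (((k + 1 + 2) * (n+1).choose (k + 1 + 2) : ℕ) : ℝ≥0∞) with hc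
  set f : FF (k+1) → ℝ≥0∞ := fun z => ENNReal.ofReal ((vol K - z.1 0) ^ N) with hf
  have hcc : c = (n + 1 : ℝ≥0∞) * (n.choose (k + 1 + 1) : ℕ) := by
    rw [hc]
    have := Nat.add_one_mul_choose_eq n (k+1+1)
    have h2 : (k + 1 + 2) * (n+1).choose (k + 1 + 2) = (n+1) * n.choose (k+1+1) := by
      rw [this]; ring
    rw [h2]; push_cast; ring
  -- I and I₁ are disjoint subsets of the cone (a.e.)
  have key : ∀ J : Set (FF (k+1)), MeasurableSet J → J ⊆ coneK K \ Yset K →
      c * (∫⁻ z in I, f z) + c * ∫⁻ z in J, f z ≤ (volume K) ^ (n + 2) := by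
    intro J hJ hJs
    have hdisj : Disjoint I J := by
      rw [Set.disjoint_left]
      intro z hz hz2
      exact (hJs hz2).2 (hIY hz)
    rw [← mul_add, ← lintegral_union hJ hdisj, ← hcone]
    gcongr c * ?_
    have hae : (I ∪ J : Set (FF (k+1))) ≤ᵐ[volume] coneK K := by
      have h0 := null_s_zero (k+1)
      have : ∀ᵐ z : FF (k+1), z.1 0 ≠ 0 := by
        rw [ae_iff]; simpa using h0
      filter_upwards [this] with z hz hz2
      rcases hz2 with h | h
      · rcases Yset_subset _ K hK hKc (hIY h) with h' | h'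
        · exact h'
        · exact absurd h' hz
      · exact (hJs h).1
    exact lintegral_mono' (Measure.restrict_mono_ae hae) le_rfl
  have k1 := key I₁ hI₁ hs₁
  have k2 := key I₂ hI₂ hs₂
  have hRT1 := RR_le_TT k K hK hKc 1 (Or.inl rfl) N
  have hRT2 := RR_le_TT k K hK hKc (-1) (Or.inr rfl) N
  set R := RR K 1 N + RR K (-1) N with hR
  have h2R : 2 * R ≤ (∫⁻ z in I₁, f z) + ∫⁻ z in I₂, f z := by
    rw [hR, mul_add]
    exact (add_le_add hRT1 hRT2).trans hT
  -- 2 c ∫ I + 2 c R ≤ 2 V^(n+2)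
  have h3 : 2 * (c * (∫⁻ z in I, f z) + c * R) ≤ 2 * (volume K) ^ (n + 2) := by
    calc 2 * (c * (∫⁻ z in I, f z) + c * R)
        = 2 * (c * (∫⁻ z in I, f z)) + c * (2 * R) := by ring
      _ ≤ 2 * (c * (∫⁻ z in I, f z)) + c * ((∫⁻ z in I₁, f z) + ∫⁻ z in I₂, f z) := by gcongr
      _ = (c * (∫⁻ z in I, f z) + c * ∫⁻ z in I₁, f z) +
          (c * (∫⁻ z in I, f z) + c * ∫⁻ z in I₂, f z) := by ring
      _ ≤ (volume K) ^ (n + 2) + (volume K) ^ (n + 2) := add_le_add k1 k2
      _ = _ := by ring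
  have h4 : c * (∫⁻ z in I, f z) + c * R ≤ (volume K) ^ (n + 2) := by
    have := (ENNReal.mul_le_mul_iff_right (a := 2) (by simp) (by simp)).1 h3
    exact this
  have h5 : hullMass (volume.restrict K) (n+1) + c * R ≤ (volume K) ^ (n + 2) :=
    (add_le_add hC le_rfl).trans h4
  calc (n + 2 : ℝ≥0∞) * hullMass (volume.restrict K) (n + 1)
      = (n + 1 : ℝ≥0∞) * hullMass (volume.restrict K) (n + 1) +
        hullMass (volume.restrict K) (n + 1) := by ring
    _ ≤ (n + 1 : ℝ≥0∞) * (volume K * hullMass (volume.restrict K) n +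
      (n.choose (k + 1 + 1) : ℕ) * R) + hullMass (volume.restrict K) (n + 1) := by gcongr
    _ = (hullMass (volume.restrict K) (n + 1) + c * R) +
        (n + 1) * volume K * hullMass (volume.restrict K) n := by rw [hcc]; ring
    _ ≤ _ := by gcongr

theorem haar_null {E : Type*} [NormedAddCommGroup E] [NormedSpace ℝ E] [FiniteDimensional ℝ E]
    [MeasurableSpace E] [BorelSpace E] (μ : Measure E) [μ.IsAddHaarMeasure] (K : Set E)
    (s : AffineSubspace ℝ E) (hs : s ≠ ⊤) : (μ.restrict K) s = 0 :=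
  le_antisymm ((Measure.restrict_apply_le _ _).trans (Measure.addHaar_affineSubspace μ s hs).le) bot_le

theorem main_ineq (k : ℕ) (K : Set (Pt (k + 1))) (hK : Convex ℝ K) (hKc : IsCompact K)
    (hKi : (interior K).Nonempty) (n : ℕ) :
    (n + 2 : ℝ≥0∞) * hullMass (volume.restrict K) (n + 1) ≤
      (volume K) ^ (n + 2) + (n + 1) * volume K * hullMass (volume.restrict K) n := by
  by_cases hn : k + 2 ≤ n
  · exact main_big k K hK hKc hKi n hn
  · have : IsFiniteMeasure ((volume : Measure (Pt (k+1))).restrict K) :=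
      ⟨by rw [Measure.restrict_apply_univ]; exact hKc.measure_lt_top⟩
    rw [hullMass_small ((volume : Measure (Pt (k+1))).restrict K) (fun s hs => haar_null volume K s hs)
      (n+1) (by simp; omega), mul_zero]
    exact bot_le

/-- the linear equivalence `ℝ^(m+1) ≃ ℝ^m × ℝ` -/
noncomputable def LE (m : ℕ) : EuclideanSpace ℝ (Fin (m + 1)) ≃ₗ[ℝ] Pt m :=
  (WithLp.linearEquiv 2 ℝ (Fin (m+1) → ℝ)).trans
    { toFun := fun x => (fun j => x j.castSucc, x (Fin.last m))
      invFun := fun y => Fin.snoc y.1 y.2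
      map_add' := fun x y => rfl
      map_smul' := fun c x => rfl
      left_inv := fun x => by
        ext j
        refine Fin.lastCases ?_ (fun j => ?_) j <;> simp
      right_inv := fun y => by ext <;> simp }

theorem LE_mp (m : ℕ) : MeasurePreserving (LE m) volume volume := by
  have h1 := (EuclideanSpace.volume_preserving_symm_measurableEquiv_toLp (Fin (m+1)))
  have h2 := volume_preserving_piFinSuccAbove (fun _ : Fin (m+1) => ℝ) (Fin.last m)
  have h3 : MeasurePreserving (Prod.swap : ℝ × (Fin m → ℝ) → (Fin m → ℝ) × ℝ) volume volume :=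
    Measure.measurePreserving_swap
  have h4 := h3.comp (h2.comp h1)
  have heq : (LE m : EuclideanSpace ℝ (Fin (m+1)) → Pt m) =
      (Prod.swap ∘ (MeasurableEquiv.piFinSuccAbove (fun _ : Fin (m+1) => ℝ) (Fin.last m)) ∘
        (MeasurableEquiv.toLp 2 (Fin (m+1) → ℝ)).symm) := by
    funext x
    refine Prod.ext ?_ ?_
    · funext j
      simp [LE, MeasurableEquiv.piFinSuccAbove]
      rfl
    · simp [LE, MeasurableEquiv.piFinSuccAbove]
  rw [heq]
  exact h4

theorem final (d : ℕ) (K : Set (EuclideanSpace ℝ (Fin d))) (hK : Convex ℝ K)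
    (hKc : IsCompact K) (hKi : (interior K).Nonempty) (n : ℕ) :
    (∫ p : Fin n → EuclideanSpace ℝ (Fin d),
        ((Set.extremePoints ℝ (convexHull ℝ (Set.range p))).ncard : ℝ)
        ∂(Measure.pi (fun _ : Fin n => ProbabilityTheory.cond volume K))) ≤
    (∫ p : Fin (n + 1) → EuclideanSpace ℝ (Fin d),
        ((Set.extremePoints ℝ (convexHull ℝ (Set.range p))).ncard : ℝ)
        ∂(Measure.pi (fun _ : Fin (n + 1) => ProbabilityTheory.cond volume K))) := by
  rcases Nat.lt_or_ge 1 d with hd | hd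
  swap
  · exact low_dim d hd K hK hKc hKi n
  obtain ⟨k, rfl⟩ : ∃ k, d = k + 2 := ⟨d - 2, by omega⟩
  rcases n with _ | n
  · -- n = 0
    have h0 : (∫ p : Fin 0 → EuclideanSpace ℝ (Fin (k+2)),
        ((Set.extremePoints ℝ (convexHull ℝ (Set.range p))).ncard : ℝ)
        ∂(Measure.pi (fun _ : Fin 0 => ProbabilityTheory.cond volume K))) = 0 := by
      apply integral_eq_zero_of_ae
      filter_upwards with p
      have : Set.range p = ∅ := Set.range_eq_empty p
      simp [this]
    rw [h0]
    exact integral_nonneg fun p => by positivity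
  · rw [efron (k+2) K (by omega) hK hKc hKi n, efron (k+2) K (by omega) hK hKc hKi (n+1)]
    set e := LE (k+1) with he
    have hmp : MeasurePreserving e volume volume := LE_mp (k+1)
    set K' : Set (Pt (k+1)) := e '' K with hK'
    have hcont : Continuous e := e.toLinearMap.continuous_of_finiteDimensional
    have hcont' : Continuous e.symm := e.symm.toLinearMap.continuous_of_finiteDimensional
    have hK'c : IsCompact K' := hKc.image hcont
    have hK'conv : Convex ℝ K' := hK.linear_image e.toLinearMap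
    have hhom : IsOpenMap e := fun U hU => by
      rw [LinearEquiv.image_eq_preimage_symm]
      exact hU.preimage hcont'
    have hK'i : (interior K').Nonempty := by
      obtain ⟨x, hx⟩ := hKi
      exact ⟨e x, (hhom.image_interior_subset K) ⟨x, hx, rfl⟩⟩
    have hpre : e ⁻¹' K' = K := by
      rw [hK']; exact Set.preimage_image_eq K e.injective
    have hmpr : MeasurePreserving e (volume.restrict K) (volume.restrict K') := by
      rw [← hpre]
      exact hmp.restrict_preimage hK'c.isClosed.measurableSet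
    have hvol : volume K' = volume K := by
      rw [← hmp.measure_preimage hK'c.isClosed.measurableSet.nullMeasurableSet, hpre]
    have hfin1 : IsFiniteMeasure ((volume : Measure (EuclideanSpace ℝ (Fin (k+2)))).restrict K) :=
      ⟨by rw [Measure.restrict_apply_univ]; exact hKc.measure_lt_top⟩
    have hfin2 : IsFiniteMeasure ((volume : Measure (Pt (k+1))).restrict K') :=
      ⟨by rw [Measure.restrict_apply_univ]; exact hK'c.measure_lt_top⟩
    have htr : ∀ j, hullMass (volume.restrict K) j = hullMass (volume.restrict K') j := fun j =>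
      hullMass_transfer _ _ e hcont.measurable hcont'.measurable hmpr j
    have hmain := main_ineq k K' hK'conv hK'c hK'i n
    rw [← htr, ← htr, hvol] at hmain
    have hVpos : 0 < vol K := by
      unfold vol
      exact ENNReal.toReal_pos (Measure.measure_pos_of_nonempty_interior _ hKi).ne'
        hKc.measure_lt_top.ne
    have hfinM : ∀ j, hullMass (volume.restrict K) j ≠ ∞ := by
      intro j
      have : hullMass (volume.restrict K) j ≤ volume K * (volume K) ^ j := by
        unfold hullMass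
        calc _ ≤ ∫⁻ X : Fin j → EuclideanSpace ℝ (Fin (k+2)), volume K
              ∂(Measure.pi fun _ : Fin j => volume.restrict K) := by
              apply lintegral_mono
              intro X
              exact (measure_mono (subset_univ _)).trans (by rw [Measure.restrict_apply_univ])
          _ = _ := by simp [Measure.pi_univ]
      exact (this.trans_lt (ENNReal.mul_lt_top hKc.measure_lt_top
        (ENNReal.pow_lt_top hKc.measure_lt_top))).ne
    have hr := ENNReal.toReal_mono (by
      refine (ENNReal.add_lt_top.2 ⟨ENNReal.pow_lt_top hKc.measure_lt_top, ?_⟩).ne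
      exact ENNReal.mul_lt_top (ENNReal.mul_lt_top (by simp) hKc.measure_lt_top)
        (hfinM n).lt_top) hmain
    rw [ENNReal.toReal_add (ENNReal.pow_lt_top hKc.measure_lt_top).ne
      (ENNReal.mul_lt_top (ENNReal.mul_lt_top (by simp) hKc.measure_lt_top)
        (hfinM n).lt_top).ne, ENNReal.toReal_mul, ENNReal.toReal_mul, ENNReal.toReal_mul,
        ENNReal.toReal_pow] at hr
    have e1 : ((n : ℝ≥0∞) + 2).toReal = (n : ℝ) + 2 := by
      rw [ENNReal.toReal_add (by simp) (by simp)]; simp
    have e2 : ((n : ℝ≥0∞) + 1).toReal = (n : ℝ) + 1 := by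
      rw [ENNReal.toReal_add (by simp) (by simp)]; simp
    rw [e1, e2] at hr
    change (n + 2 : ℝ) * (hullMass (volume.restrict K) (n+1)).toReal ≤
      (vol K) ^ (n+2) + (n+1) * vol K * (hullMass (volume.restrict K) n).toReal at hr
    set a := (hullMass (volume.restrict K) n).toReal
    set b := (hullMass (volume.restrict K) (n+1)).toReal
    set V := vol K
    have hV1 : (0:ℝ) < V ^ (n+1) := by positivity
    have hV2 : (0:ℝ) < V ^ (n+2) := by positivity
    push_cast
    rw [show n + 1 + 1 = n + 2 by ring]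
    have h7 : a / V ^ (n+1) = V * a / V ^ (n+2) := by
      rw [div_eq_div_iff hV1.ne' hV2.ne']
      ring
    rw [h7]
    have h8 : ((n + 2 : ℝ) * b) / V ^ (n+2) ≤ (V ^ (n+2) + (n+1) * V * a) / V ^ (n+2) := by
      gcongr
    rw [add_div, div_self hV2.ne'] at h8
    have h9 : (n + 2 : ℝ) * (b / V ^ (n+2)) = ((n + 2 : ℝ) * b) / V ^ (n+2) := by ring
    have h10 : (n + 1 : ℝ) * (V * a / V ^ (n+2)) = ((n + 1 : ℝ) * V * a) / V ^ (n+2) := by ring
    linarith

end Pool.H40.EV
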