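import Pool.Agent.Helper40.EV.Defs

/-! EV-14, part A: algebra and measurability for the hyperplane through `m+1` points. -/

set_option autoImplicit false

namespace Pool.H40.EV

open MeasureTheory Set Matrix
open scoped ENNReal

namespace BP

variable {m : ℕ}

/-- matrix of lifted projections -/
noncomputable def MY (Y : Fin (m + 1) → Pt m) : Matrix (Fin (m + 1)) (Fin (m + 1)) ℝ :=
  Matrix.of fun i => ph (Y i).1

/-- hyperplane through the points -/
noncomputable def AY (Y : Fin (m + 1) → Pt m) : Fin (m + 1) → ℝ :=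
  (MY Y)⁻¹ *ᵥ fun i => (Y i).2

theorem MY_mulVec (Y : Fin (m + 1) → Pt m) (A : Fin (m + 1) → ℝ) (i : Fin (m + 1)) :
    (MY Y *ᵥ A) i = aff A (Y i).1 := by
  simp only [MY, Matrix.mulVec, Matrix.of_apply, aff]
  exact dotProduct_comm _ _

theorem aff_AY (Y : Fin (m + 1) → Pt m) (h : (MY Y).det ≠ 0) (i : Fin (m + 1)) :
    aff (AY Y) (Y i).1 = (Y i).2 := by
  rw [← MY_mulVec, AY, Matrix.mulVec_mulVec, Matrix.mul_nonsing_inv _ (isUnit_iff_ne_zero.mpr h),
    Matrix.one_mulVec]

theorem AY_unique (Y : Fin (m + 1) → Pt m) (h : (MY Y).det ≠ 0) (A : Fin (m + 1) → ℝ)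
    (hA : ∀ i, aff A (Y i).1 = (Y i).2) : AY Y = A := by
  have : (fun i => (Y i).2) = MY Y *ᵥ A := by
    funext i
    rw [MY_mulVec, hA]
  rw [AY, this, Matrix.mulVec_mulVec, Matrix.nonsing_inv_mul _ (isUnit_iff_ne_zero.mpr h),
    Matrix.one_mulVec]

theorem ph_zero (x : Fin m → ℝ) : ph x 0 = 1 := rfl
theorem ph_succ (x : Fin m → ℝ) (j : Fin m) : ph x j.succ = x j := rfl

theorem continuous_ph : Continuous (ph : (Fin m → ℝ) → Fin (m + 1) → ℝ) := by
  refine continuous_pi fun i => ?_
  refine Fin.cases ?_ (fun j => ?_) i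
  · simpa [ph_zero] using continuous_const
  · simpa [ph_succ] using continuous_apply j

theorem continuous_aff : Continuous fun p : (Fin (m + 1) → ℝ) × (Fin m → ℝ) => aff p.1 p.2 := by
  unfold aff
  exact Continuous.dotProduct continuous_fst (continuous_ph.comp continuous_snd)

theorem continuous_det_MY : Continuous fun Y : Fin (m + 1) → Pt m => (MY Y).det := by
  apply Continuous.matrix_det
  refine continuous_matrix fun i j => ?_
  simp only [MY, Matrix.of_apply]
  exact (continuous_apply j).comp (continuous_ph.comp (continuous_fst.comp (continuous_apply i)))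

theorem measurable_AY : Measurable (AY : (Fin (m + 1) → Pt m) → Fin (m + 1) → ℝ) := by
  have h1 : Continuous fun Y : Fin (m + 1) → Pt m => MY Y := by
    refine continuous_matrix fun i j => ?_
    simp only [MY, Matrix.of_apply]
    exact (continuous_apply j).comp (continuous_ph.comp (continuous_fst.comp (continuous_apply i)))
  have h2 : Continuous fun Y : Fin (m + 1) → Pt m =>
      ((MY Y).adjugate *ᵥ fun i => (Y i).2) := by
    refine Continuous.matrix_mulVec h1.matrix_adjugate ?_
    exact continuous_pi fun i => continuous_snd.comp (continuous_apply i)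
  have h3 : (AY : (Fin (m + 1) → Pt m) → Fin (m + 1) → ℝ) = fun Y =>
      ((MY Y).det)⁻¹ • ((MY Y).adjugate *ᵥ fun i => (Y i).2) := by
    funext Y
    rw [AY, Matrix.inv_def, Ring.inverse_eq_inv', Matrix.smul_mulVec]
  rw [h3]
  exact (continuous_det_MY.measurable.inv).smul h2.measurable

/-- every affine function on `ℝ^m × ℝ` in coordinates -/
theorem affine_repr (l : Pt m →ᵃ[ℝ] ℝ) :
    ∃ (β : ℝ) (B : Fin (m + 1) → ℝ), ∀ z : Pt m, l z = β * z.2 + aff B z.1 := by
  refine ⟨l.linear (0, 1), vecCons (l 0) fun j => l.linear (Pi.single j 1, 0), fun z => ?_⟩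
  have h1 : l z = l.linear z + l 0 := by
    have := l.map_vadd (0 : Pt m) z
    simpa using this
  have h2 : z = ∑ j, z.1 j • ((Pi.single j 1, 0) : Pt m) + z.2 • ((0, 1) : Pt m) := by
    ext i
    · simp [Prod.fst_sum, Finset.sum_apply, Pi.single_apply]
    · simp [Prod.snd_sum]
  have h3 : l.linear z = ∑ j, z.1 j * l.linear (Pi.single j 1, 0) + z.2 * l.linear (0, 1) := by
    conv_lhs => rw [h2]
    simp only [map_add, map_sum, map_smul, smul_eq_mul]
  rw [h1, h3]
  simp only [aff, ph, dotProduct, Fin.sum_univ_succ, Matrix.cons_val_zero, Matrix.cons_val_succ]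
  have : ∑ j, z.1 j * l.linear (Pi.single j 1, 0) = ∑ j, l.linear (Pi.single j 1, 0) * z.1 j :=
    Finset.sum_congr rfl fun j _ => mul_comm _ _
  rw [this]
  ring

theorem aff_add_smul (A B : Fin (m + 1) → ℝ) (β : ℝ) (x : Fin m → ℝ) :
    aff (B + β • A) x = aff B x + β * aff A x := by
  simp [aff, add_dotProduct, smul_dotProduct]

/-- an affine function vanishing at the points `Y i` is a multiple of the vertical distance -/
theorem affine_of_zero (Y : Fin (m + 1) → Pt m) (h : (MY Y).det ≠ 0) (l : Pt m →ᵃ[ℝ] ℝ)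
    (hl : ∀ i, l (Y i) = 0) : ∃ β : ℝ, ∀ z : Pt m, l z = β * (z.2 - aff (AY Y) z.1) := by
  obtain ⟨β, B, hB⟩ := affine_repr l
  refine ⟨β, fun z => ?_⟩
  have h1 : MY Y *ᵥ (B + β • AY Y) = 0 := by
    funext i
    rw [MY_mulVec, aff_add_smul, aff_AY Y h i]
    have := hl i
    rw [hB] at this
    simp only [Pi.zero_apply]
    linarith
  have h2 : B + β • AY Y = 0 := by
    have := congrArg (fun v => (MY Y)⁻¹ *ᵥ v) h1
    simpa [Matrix.mulVec_mulVec, Matrix.nonsing_inv_mul _ (isUnit_iff_ne_zero.mpr h)] using this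
  have h3 : aff B z.1 + β * aff (AY Y) z.1 = 0 := by
    rw [← aff_add_smul, h2]
    simp [aff]
  rw [hB]
  linarith

end BP
end Pool.H40.EV
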