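import Pool.Agent.Helper40.EV.BProbA
import Pool.Agent.Helper40.EV.Efron
import Pool.Agent.Helper40.EV.Sweep

/-! EV-14, part B: measurability and basic properties of `sv`, `mv`. -/

set_option autoImplicit false

namespace Pool.H40.EV

open MeasureTheory Set Matrix
open scoped ENNReal

namespace BP

variable {m : ℕ}

theorem measurableSet_capset (K : Set (Pt m)) (hK : MeasurableSet K) (σ : ℝ) :
    MeasurableSet {p : (Fin (m + 1) → ℝ) × Pt m | p.2 ∈ cap K σ p.1} := by
  have h1 : Continuous fun p : (Fin (m + 1) → ℝ) × Pt m => σ * (p.2.2 - aff p.1 p.2.1) :=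
    continuous_const.mul ((continuous_snd.comp continuous_snd).sub
      (continuous_aff.comp (continuous_fst.prodMk (continuous_fst.comp continuous_snd))))
  have h2 : {p : (Fin (m + 1) → ℝ) × Pt m | p.2 ∈ cap K σ p.1} =
      (Prod.snd ⁻¹' K) ∩ {p | 0 < σ * (p.2.2 - aff p.1 p.2.1)} := by
    ext p; rfl
  rw [h2]
  exact (measurable_snd hK).inter (measurableSet_lt measurable_const h1.measurable)

theorem measurableSet_cap (K : Set (Pt m)) (hK : MeasurableSet K) (σ : ℝ) (A : Fin (m + 1) → ℝ) :
    MeasurableSet (cap K σ A) :=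
  measurable_prodMk_left (measurableSet_capset K hK σ)

theorem cap_subset (K : Set (Pt m)) (σ : ℝ) (A : Fin (m + 1) → ℝ) : cap K σ A ⊆ K :=
  fun _ h => h.1

theorem measurable_sv (K : Set (Pt m)) (hK : MeasurableSet K) (σ : ℝ) : Measurable (sv K σ) := by
  have h := measurable_measure_prodMk_left (ν := (volume : Measure (Pt m)))
    (measurableSet_capset K hK σ)
  exact h.ennreal_toReal

theorem measurable_mv (K : Set (Pt m)) (hK : MeasurableSet K) (σ : ℝ) : Measurable (mv K σ) := by
  have h1 : Continuous fun p : (Fin (m + 1) → ℝ) × Pt m => σ * (p.2.2 - aff p.1 p.2.1) :=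
    continuous_const.mul ((continuous_snd.comp continuous_snd).sub
      (continuous_aff.comp (continuous_fst.prodMk (continuous_fst.comp continuous_snd))))
  have h2 : StronglyMeasurable (Function.uncurry fun (A : Fin (m + 1) → ℝ) (x : Pt m) =>
      {p : (Fin (m + 1) → ℝ) × Pt m | p.2 ∈ cap K σ p.1}.indicator
        (fun p => σ * (p.2.2 - aff p.1 p.2.1)) (A, x)) :=
    (h1.stronglyMeasurable).indicator (measurableSet_capset K hK σ)
  have h3 := (h2.integral_prod_right (ν := (volume : Measure (Pt m)))).measurable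
  have h4 : mv K σ = fun A => ∫ x : Pt m, {p : (Fin (m + 1) → ℝ) × Pt m |
      p.2 ∈ cap K σ p.1}.indicator (fun p => σ * (p.2.2 - aff p.1 p.2.1)) (A, x) := by
    funext A
    rw [mv, ← integral_indicator (measurableSet_cap K hK σ A)]
    rfl
  rw [h4]
  exact h3

theorem mv_nonneg (K : Set (Pt m)) (hK : MeasurableSet K) (σ : ℝ) (A : Fin (m + 1) → ℝ) :
    0 ≤ mv K σ A :=
  setIntegral_nonneg (measurableSet_cap K hK σ A) fun _ h => h.2.le

theorem integrableOn_cap (K : Set (Pt m)) (hK : IsCompact K) (σ : ℝ) (A : Fin (m + 1) → ℝ) :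
    IntegrableOn (fun x : Pt m => σ * (x.2 - aff A x.1)) (cap K σ A) := by
  have h1 : Continuous fun x : Pt m => σ * (x.2 - aff A x.1) :=
    continuous_const.mul (continuous_snd.sub
      (continuous_aff.comp (continuous_const.prodMk continuous_fst)))
  exact (h1.continuousOn.integrableOn_compact hK).mono_set (cap_subset K σ A)

theorem lintegral_cap (K : Set (Pt m)) (hK : IsCompact K) (σ : ℝ) (A : Fin (m + 1) → ℝ) :
    ∫⁻ y, (cap K σ A).indicator (fun y => ENNReal.ofReal (σ * (y.2 - aff A y.1))) y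
      ∂(volume.restrict K) = ENNReal.ofReal (mv K σ A) := by
  rw [lintegral_indicator (measurableSet_cap K hK.measurableSet σ A),
    Measure.restrict_restrict (measurableSet_cap K hK.measurableSet σ A),
    inter_eq_left.mpr (cap_subset K σ A), mv,
    ofReal_integral_eq_lintegral_ofReal (integrableOn_cap K hK σ A)]
  exact (ae_restrict_iff' (measurableSet_cap K hK.measurableSet σ A)).mpr
    (ae_of_all _ fun _ h => h.2.le)

theorem measure_compl_cap (K : Set (Pt m)) (hK : IsCompact K) (σ : ℝ) (A : Fin (m + 1) → ℝ) :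
    (volume.restrict K) {z | z ∉ cap K σ A} = ENNReal.ofReal (vol K - sv K σ A) := by
  have h1 : {z | z ∉ cap K σ A} = (cap K σ A)ᶜ := rfl
  have hm := measurableSet_cap K hK.measurableSet σ A
  have hfin : volume (cap K σ A) ≠ ∞ :=
    ((measure_mono (cap_subset K σ A)).trans_lt hK.measure_lt_top).ne
  rw [h1, Measure.restrict_apply hm.compl, ← sdiff_eq_compl_inter,
    measure_sdiff (cap_subset K σ A) hm.nullMeasurableSet hfin, vol, sv, vol,
    ENNReal.ofReal_sub _ ENNReal.toReal_nonneg, ENNReal.ofReal_toReal hK.measure_lt_top.ne,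
    ENNReal.ofReal_toReal hfin]

theorem sv_le (K : Set (Pt m)) (hK : IsCompact K) (σ : ℝ) (A : Fin (m + 1) → ℝ) :
    sv K σ A ≤ vol K :=
  ENNReal.toReal_mono hK.measure_lt_top.ne (measure_mono (cap_subset K σ A))

end BP
end Pool.H40.EV
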