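import Pool.Agent.Helper40.EV.BProbB
import Pool.Agent.Helper40.EV.Tools1

/-! EV-14, part C: the volume of the simplex spanned by `Y` and `y`. -/

set_option autoImplicit false

namespace Pool.H40.EV

open MeasureTheory Set Matrix
open scoped ENNReal

namespace BP

variable {m : ℕ}

/-- `(x', t) ↦ (t, x')` into `ℝ^(m+1)`. -/
def econs (z : Pt m) : Fin (m + 1) → ℝ := Fin.cons z.2 z.1

theorem econs_isLinear : IsLinearMap ℝ (econs : Pt m → Fin (m + 1) → ℝ) := by
  constructor
  · intro x y
    funext i
    refine Fin.cases ?_ (fun j => ?_) i <;> simp [econs]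
  · intro c x
    funext i
    refine Fin.cases ?_ (fun j => ?_) i <;> simp [econs]

theorem econs_mp : MeasurePreserving (econs : Pt m → Fin (m + 1) → ℝ) := by
  have h1 : MeasurePreserving (Prod.swap : Pt m → ℝ × (Fin m → ℝ)) volume volume :=
    Measure.measurePreserving_swap
  have h2 := (volume_preserving_piFinSuccAbove (fun _ : Fin (m + 1) => ℝ) 0).symm
  have h3 := h2.comp h1
  have h4 : (econs : Pt m → Fin (m + 1) → ℝ) =
      (MeasurableEquiv.piFinSuccAbove (fun _ : Fin (m + 1) => ℝ) 0).symm ∘ Prod.swap := by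
    funext z i
    refine Fin.cases ?_ (fun j => ?_) i <;>
      simp [econs, MeasurableEquiv.piFinSuccAbove]
  rw [h4]
  exact h3

theorem econs_emb : MeasurableEmbedding (econs : Pt m → Fin (m + 1) → ℝ) := by
  have h4 : (econs : Pt m → Fin (m + 1) → ℝ) =
      (MeasurableEquiv.piFinSuccAbove (fun _ : Fin (m + 1) => ℝ) 0).symm ∘
        MeasurableEquiv.prodComm := by
    funext z i
    refine Fin.cases ?_ (fun j => ?_) i
    · simp [econs, MeasurableEquiv.piFinSuccAbove]
      rfl
    · simp [econs, MeasurableEquiv.piFinSuccAbove]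
      rfl
  rw [h4]
  exact (MeasurableEquiv.measurableEmbedding _).comp (MeasurableEquiv.measurableEmbedding _)

theorem econs_inj : Function.Injective (econs : Pt m → Fin (m + 1) → ℝ) := econs_emb.injective

theorem volume_image_econs (S : Set (Pt m)) : volume (econs '' S) = volume S := by
  rw [← econs_mp.measure_preimage_emb econs_emb, preimage_image_eq _ econs_inj]

theorem det_lift (Y : Fin (m + 1) → Pt m) (y : Pt m) (h : (MY Y).det ≠ 0) :
    |(Matrix.of fun i => ph (econs ((Fin.cons y Y : Fin (m + 1 + 1) → Pt m) i))).det| =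
      |(MY Y).det| * |y.2 - aff (AY Y) y.1| := by
  set z : Fin (m + 1 + 1) → Pt m := Fin.cons y Y with hz
  set D : Matrix (Fin (m + 1 + 1)) (Fin (m + 1 + 1)) ℝ := Matrix.of fun i => ph (econs (z i)) with hD
  set A := AY Y
  set c : Fin (m + 1 + 1) → ℝ := vecCons (-A 0) (Fin.cons 1 (fun j => -A j.succ)) with hc
  have h1 := Matrix.det_updateCol_sum D 1 c
  have hc1 : c 1 = 1 := rfl
  rw [hc1, one_smul] at h1
  rw [← h1, Matrix.det_succ_column _ 1, Fin.sum_univ_succ]
  have h2 : ∀ k, ∑ i, c i • D k i = (z k).2 - aff A (z k).1 := by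
    intro k
    rw [Fin.sum_univ_succ, Fin.sum_univ_succ]
    simp only [hc, hD, Matrix.of_apply, ph, econs, Matrix.cons_val_zero, Matrix.cons_val_succ,
      Fin.cons_zero, Fin.cons_succ, smul_eq_mul, aff, dotProduct]
    rw [Fin.sum_univ_succ]
    simp only [Matrix.cons_val_zero, Matrix.cons_val_succ]
    have : ∑ i : Fin m, -A i.succ * (z k).1 i = -∑ i : Fin m, A i.succ * (z k).1 i := by
      rw [← Finset.sum_neg_distrib]
      exact Finset.sum_congr rfl fun i _ => by ring
    rw [this]
    ring
  have h3 : ∀ k : Fin (m + 1), (z k.succ).2 - aff A (z k.succ).1 = 0 := by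
    intro k
    have : z k.succ = Y k := rfl
    rw [this, aff_AY Y h, sub_self]
  have h4 : ∀ k, (D.updateCol 1 fun k => ∑ i, c i • D k i) k 1 = (z k).2 - aff A (z k).1 := by
    intro k
    rw [Matrix.updateCol_self, h2]
  have h5 : (D.updateCol 1 fun k => ∑ i, c i • D k i).submatrix
      (Fin.succAbove 0) (Fin.succAbove 1) = MY Y := by
    ext i j
    simp only [Matrix.submatrix_apply]
    rw [Matrix.updateCol_ne (Fin.succAbove_ne 1 j)]
    refine Fin.cases ?_ (fun k => ?_) j
    · simp [hD, hz, MY, ph, econs]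
    · simp [hD, hz, MY, ph, econs]
  rw [Finset.sum_eq_zero (fun k _ => ?_), add_zero, h4, h5]
  · simp only [abs_mul]
    have : z 0 = y := rfl
    rw [this]
    simp only [abs_pow, abs_neg, abs_one, one_pow, one_mul]
    ring
  · rw [h4, h3]
    ring

theorem volume_simplex_le (Y : Fin (m + 1) → Pt m) (y : Pt m) (h : (MY Y).det ≠ 0) :
    volume (convexHull ℝ (insert y (range Y))) ≤
      ENNReal.ofReal (|(MY Y).det| / ((m + 1).factorial : ℝ)) *
        ENNReal.ofReal |y.2 - aff (AY Y) y.1| := by
  have h1 := simplex_volume_le (m + 1) (fun i => econs ((Fin.cons y Y : Fin (m + 1 + 1) → Pt m) i))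
  have h2 : range (fun i => econs ((Fin.cons y Y : Fin (m + 1 + 1) → Pt m) i)) =
      econs '' (insert y (range Y)) := by
    rw [show (fun i => econs ((Fin.cons y Y : Fin (m + 1 + 1) → Pt m) i)) =
      econs ∘ (Fin.cons y Y : Fin (m + 1 + 1) → Pt m) from rfl, range_comp, Fin.range_cons]
  rw [h2, ← econs_isLinear.image_convexHull, volume_image_econs, det_lift Y y h] at h1
  refine h1.trans (le_of_eq ?_)
  rw [← ENNReal.ofReal_mul (by positivity)]
  congr 1
  ring

end BP
end Pool.H40.EV
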