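import Pool.Agent.Helper40.EV.BProbC
import Pool.Agent.Helper40.EV.LPae

/-! EV-14, part D: general position of the projections and the pointwise (deterministic) bound. -/

set_option autoImplicit false

namespace Pool.H40.EV

open MeasureTheory Set Matrix
open scoped ENNReal

namespace BP

variable {m : ℕ}

theorem det_ne_of_affineIndependent (x : Fin (m + 1) → (Fin m → ℝ)) (h : AffineIndependent ℝ x) :
    (Matrix.of fun i => ph (x i)).det ≠ 0 := by
  intro h0
  obtain ⟨v, hv, hv0⟩ := Matrix.exists_vecMul_eq_zero_iff.mpr h0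
  have h1 : ∀ j, ∑ i, v i * ph (x i) j = 0 := fun j => congrFun hv0 j
  have h2 : ∑ i, v i = 0 := by
    have := h1 0
    simpa [ph_zero] using this
  have h3 : ∑ i, v i • x i = 0 := by
    funext j
    have := h1 j.succ
    simpa [ph_succ, Finset.sum_apply] using this
  exact hv (funext fun i => affineIndependent_iff.mp h Finset.univ v h2 h3 i (Finset.mem_univ i))

/-- the points with indices in `J` -/
noncomputable def XJ {n : ℕ} (J : {J : Finset (Fin n) // J.card = m + 1}) (X : Fin n → Pt m) :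
    Fin (m + 1) → Pt m :=
  fun i => X (J.1.orderEmbOfFin J.2 i)

theorem range_XJ {n : ℕ} (J : {J : Finset (Fin n) // J.card = m + 1}) (X : Fin n → Pt m) :
    range (XJ J X) = X '' (J.1 : Set (Fin n)) := by
  rw [show XJ J X = X ∘ (J.1.orderEmbOfFin J.2) from rfl, range_comp,
    Finset.range_orderEmbOfFin]

theorem ae_proj (n : ℕ) : ∀ᵐ x : Fin n → (Fin m → ℝ),
    ∀ I : Finset (Fin n), I.card ≤ m + 1 → AffineIndependent ℝ (fun i : I => x i) := by
  have h1 := gp_ae (E := Fin m → ℝ) volume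
    (fun s hs => Measure.addHaar_affineSubspace _ s hs) n
  have h2 := Measure.ae_ae_of_ae_prod h1
  filter_upwards [h2] with x hx I hI
  obtain ⟨y, hy⟩ := hx.exists
  exact hy.1 I (by simpa using hI)

theorem ae_det_volume (n : ℕ) : ∀ᵐ X : Fin n → Pt m,
    ∀ J : {J : Finset (Fin n) // J.card = m + 1}, (MY (XJ J X)).det ≠ 0 := by
  have h1 := (volume_measurePreserving_arrowProdEquivProdArrow (Fin m → ℝ) ℝ
    (Fin n)).quasiMeasurePreserving
  have h2 : Measure.QuasiMeasurePreserving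
      (Prod.fst : (Fin n → (Fin m → ℝ)) × (Fin n → ℝ) → _) volume volume :=
    Measure.quasiMeasurePreserving_fst
  have h3 := (h2.comp h1).ae (ae_proj (m := m) n)
  filter_upwards [h3] with X hX J
  apply det_ne_of_affineIndependent
  have h4 := hX J.1 J.2.le
  have h5 := h4.comp_embedding (J.1.orderIsoOfFin J.2).toEquiv.toEmbedding
  exact h5

theorem ae_det (K : Set (Pt m)) (n : ℕ) :
    ∀ᵐ X : Fin n → Pt m ∂(Measure.pi fun _ : Fin n => volume.restrict K),
    ∀ J : {J : Finset (Fin n) // J.card = m + 1}, (MY (XJ J X)).det ≠ 0 := by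
  rw [← Measure.restrict_pi_pi, ← volume_pi]
  exact ae_restrict_of_ae (ae_det_volume n)

theorem pointwise (K : Set (Pt m)) (n : ℕ) (X : Fin n → Pt m) (y x : Pt m) (hy : y ∈ K)
    (hdet : ∀ J : {J : Finset (Fin n) // J.card = m + 1}, (MY (XJ J X)).det ≠ 0)
    (hx' : x ∉ convexHull ℝ (range X))
    (I : Finset (Fin (n + 1))) (hI : I.card = m + 2)
    (hxI : x ∈ convexHull ℝ ((Fin.cons y X : Fin (n + 1) → Pt m) '' (I : Set (Fin (n + 1)))))
    (l : Pt m →ᵃ[ℝ] ℝ)
    (hl : ∀ i ∈ I, l ((Fin.cons y X : Fin (n + 1) → Pt m) i) =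
      (Pi.single 0 1 : Fin (n + 1) → ℝ) i)
    (hl' : ∀ j, l ((Fin.cons y X : Fin (n + 1) → Pt m) j) ≤
      (Pi.single 0 1 : Fin (n + 1) → ℝ) j) :
    ∃ J : {J : Finset (Fin n) // J.card = m + 1},
      ∃ σ : ℝ, (σ = 1 ∨ σ = -1) ∧ x ∈ convexHull ℝ (insert y (range (XJ J X))) ∧
        y ∈ cap K σ (AY (XJ J X)) ∧ ∀ j, X j ∉ cap K σ (AY (XJ J X)) := by
  classical
  -- `0 ∈ I`
  have h0 : (0 : Fin (n + 1)) ∈ I := by
    by_contra h0
    apply hx'
    refine convexHull_mono ?_ hxI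
    rintro _ ⟨i, hi, rfl⟩
    have hi0 : i ≠ 0 := fun h => h0 (h ▸ hi)
    obtain ⟨j, rfl⟩ := Fin.exists_succ_eq.mpr hi0
    exact ⟨j, rfl⟩
  set J0 : Finset (Fin n) := Finset.univ.filter fun j => j.succ ∈ I with hJ0
  have hJI : I = insert 0 (J0.map (Fin.succEmb n)) := by
    ext i
    refine Fin.cases ?_ (fun j => ?_) i
    · simp [h0]
    · simp [hJ0, Fin.succ_ne_zero]
  have hJc : J0.card = m + 1 := by
    have h1 : I.card = J0.card + 1 := by
      rw [hJI, Finset.card_insert_of_notMem, Finset.card_map]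
      simp [Fin.succ_ne_zero]
    omega
  refine ⟨⟨J0, hJc⟩, ?_⟩
  set J : {J : Finset (Fin n) // J.card = m + 1} := ⟨J0, hJc⟩ with hJ
  have hz : ∀ i, l (XJ J X i) = 0 := by
    intro i
    have h1 : J0.orderEmbOfFin hJc i ∈ J0 := Finset.orderEmbOfFin_mem _ _ _
    have h2 : (J0.orderEmbOfFin hJc i).succ ∈ I := (Finset.mem_filter.mp h1).2
    have h3 := hl _ h2
    simpa [XJ, hJ, Fin.succ_ne_zero] using h3
  obtain ⟨β, hβ⟩ := affine_of_zero (XJ J X) (hdet J) l hz
  have hy1 : β * (y.2 - aff (AY (XJ J X)) y.1) = 1 := by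
    rw [← hβ]
    have := hl 0 h0
    simpa using this
  have hβ0 : β ≠ 0 := by
    rintro rfl
    simp at hy1
  have hj : ∀ j, β * ((X j).2 - aff (AY (XJ J X)) (X j).1) ≤ 0 := by
    intro j
    rw [← hβ]
    have := hl' j.succ
    simpa [Fin.succ_ne_zero] using this
  have hxc : x ∈ convexHull ℝ (insert y (range (XJ J X))) := by
    refine convexHull_mono ?_ hxI
    rintro _ ⟨i, hi, rfl⟩
    rw [range_XJ]
    rw [hJI] at hi
    rcases Finset.mem_insert.mp (Finset.mem_coe.mp hi) with rfl | hi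
    · left; rfl
    · right
      obtain ⟨j, hj, rfl⟩ := Finset.mem_map.mp hi
      exact ⟨j, hj, rfl⟩
  rcases lt_or_gt_of_ne hβ0 with hneg | hpos
  · refine ⟨-1, Or.inr rfl, hxc, ⟨hy, ?_⟩, fun j hjc => ?_⟩
    · by_contra hcon
      nlinarith
    · have h1 := hjc.2
      have h2 := hj j
      nlinarith
  · refine ⟨1, Or.inl rfl, hxc, ⟨hy, ?_⟩, fun j hjc => ?_⟩
    · by_contra hcon
      nlinarith
    · have h1 := hjc.2
      have h2 := hj j
      nlinarith

end BP
end Pool.H40.EV
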