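import Pool.Agent.Helper40.EV.Defs

/-! Basic lemmas for the EV files. -/

set_option autoImplicit false

namespace Pool.H40.EV

open MeasureTheory Set Matrix
open scoped ENNReal

variable {m : ℕ}

instance haarPt : (volume : Measure (Pt m)).IsAddHaarMeasure :=
  Measure.prod.instIsAddHaarMeasure _ _

@[simp] theorem ph_zero (x : Fin m → ℝ) : ph x 0 = 1 := rfl

@[simp] theorem ph_succ (x : Fin m → ℝ) (j : Fin m) : ph x j.succ = x j := rfl

theorem aff_eq (A : Fin (m + 1) → ℝ) (x : Fin m → ℝ) :
    aff A x = A 0 + ∑ j, A j.succ * x j := by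
  simp [aff, dotProduct, Fin.sum_univ_succ]

theorem continuous_ph : Continuous (ph : (Fin m → ℝ) → Fin (m + 1) → ℝ) := by
  refine continuous_pi fun j => ?_
  refine Fin.cases ?_ (fun i => ?_) j
  · simpa using continuous_const
  · simpa using continuous_apply i

theorem measurable_ph : Measurable (ph : (Fin m → ℝ) → Fin (m + 1) → ℝ) :=
  continuous_ph.measurable

theorem continuous_aff : Continuous fun q : (Fin (m + 1) → ℝ) × (Fin m → ℝ) => aff q.1 q.2 := by
  simp only [aff_eq]
  fun_prop

theorem continuous_aff_right (A : Fin (m + 1) → ℝ) : Continuous (aff A) :=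
  continuous_aff.comp (Continuous.prodMk_right A)

theorem aff_add (A B : Fin (m + 1) → ℝ) (x : Fin m → ℝ) : aff (A + B) x = aff A x + aff B x := by
  simp [aff, add_dotProduct]

theorem aff_smul (c : ℝ) (A : Fin (m + 1) → ℝ) (x : Fin m → ℝ) : aff (c • A) x = c * aff A x := by
  simp [aff, smul_dotProduct]

theorem aff_sub (A B : Fin (m + 1) → ℝ) (x : Fin m → ℝ) : aff (A - B) x = aff A x - aff B x := by
  simp [aff, sub_dotProduct]

theorem aff_neg (A : Fin (m + 1) → ℝ) (x : Fin m → ℝ) : aff (-A) x = -aff A x := by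
  simp [aff, neg_dotProduct]

theorem aff_comb (A : Fin (m + 1) → ℝ) (x y : Fin m → ℝ) {a b : ℝ} (h : a + b = 1) :
    aff A (a • x + b • y) = a * aff A x + b * aff A y := by
  simp only [aff_eq, Pi.add_apply, Pi.smul_apply, smul_eq_mul, mul_add, Finset.sum_add_distrib,
    Finset.mul_sum]
  have : A 0 = a * A 0 + b * A 0 := by rw [← add_mul, h, one_mul]
  rw [this]
  have e1 : ∀ j : Fin m, A j.succ * (a * x j) = a * (A j.succ * x j) := fun j => by ring
  have e2 : ∀ j : Fin m, A j.succ * (b * y j) = b * (A j.succ * y j) := fun j => by ring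
  simp only [e1, e2]
  rw [show a * (a * A 0 + b * A 0) = a * A 0 by rw [← this], show b * (a * A 0 + b * A 0) = b * A 0 by rw [← this]]
  ring

theorem measurableSet_cap {K : Set (Pt m)} (hK : MeasurableSet K) (σ : ℝ)
    (A : Fin (m + 1) → ℝ) : MeasurableSet (cap K σ A) := by
  have h : Continuous fun x : Pt m => σ * (x.2 - aff A x.1) :=
    continuous_const.mul (continuous_snd.sub ((continuous_aff_right A).comp continuous_fst))
  exact hK.inter (isOpen_lt continuous_const h).measurableSet

theorem measurableSet_sect {K : Set (Pt m)} (hK : MeasurableSet K) (A : Fin (m + 1) → ℝ) :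
    MeasurableSet (sect K A) := by
  have h : Continuous fun x : Fin m → ℝ => (x, aff A x) :=
    continuous_id.prodMk (continuous_aff_right A)
  exact h.measurable hK

theorem isCompact_sect {K : Set (Pt m)} (hK : IsCompact K) (A : Fin (m + 1) → ℝ) :
    IsCompact (sect K A) := by
  have h : Continuous fun x : Fin m → ℝ => (x, aff A x) :=
    continuous_id.prodMk (continuous_aff_right A)
  have hcl : IsClosed (sect K A) := hK.isClosed.preimage h
  refine (hK.image continuous_fst).of_isClosed_subset hcl ?_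
  intro x hx
  exact ⟨(x, aff A x), hx, rfl⟩

theorem convex_sect {K : Set (Pt m)} (hK : Convex ℝ K) (A : Fin (m + 1) → ℝ) :
    Convex ℝ (sect K A) := by
  intro x hx y hy a b ha hb hab
  have := hK hx hy ha hb hab
  simp only [sect, mem_setOf_eq, aff_comb A x y hab]
  simpa [Prod.smul_def] using this

theorem cap_subset (K : Set (Pt m)) (σ : ℝ) (A : Fin (m + 1) → ℝ) : cap K σ A ⊆ K :=
  fun _ hx => hx.1

/-- graphs are null sets -/
theorem volume_graph (A : Fin (m + 1) → ℝ) : volume {x : Pt m | x.2 = aff A x.1} = 0 := by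
  have hm : MeasurableSet {x : Pt m | x.2 = aff A x.1} :=
    (isClosed_eq continuous_snd ((continuous_aff_right A).comp continuous_fst)).measurableSet
  rw [Measure.volume_eq_prod, Measure.prod_apply hm]
  simp only [lintegral_eq_zero_iff' (measurable_measure_prodMk_left hm).aemeasurable]
  filter_upwards with x
  have : Prod.mk x ⁻¹' {x : Pt m | x.2 = aff A x.1} = {aff A x} := by
    ext t; simp
  rw [this]
  simp

theorem null_s_zero (m : ℕ) : volume {z : FF m | z.1 0 = 0} = 0 := by
  have h1 : {z : FF m | z.1 0 = 0} = {w : Fin (m+1) → ℝ | w 0 = 0} ×ˢ (univ : Set ℝ) := by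
    ext z; simp
  rw [h1, Measure.volume_eq_prod, Measure.prod_prod]
  have h2 : volume {w : Fin (m+1) → ℝ | w 0 = 0} = 0 := by
    have := Measure.addHaar_affineSubspace (volume : Measure (Fin (m+1) → ℝ))
      ((LinearMap.ker (LinearMap.proj (R := ℝ) (φ := fun _ : Fin (m+1) => ℝ) 0)).toAffineSubspace) ?_
    · refine measure_mono_null ?_ this
      intro w hw
      simpa using hw
    · intro h
      have h3 : (Pi.single 0 1 : Fin (m+1) → ℝ) ∈
        ((LinearMap.ker (LinearMap.proj (R := ℝ) (φ := fun _ : Fin (m+1) => ℝ) 0)).toAffineSubspace) := by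
        rw [h]; trivial
      simp at h3
  rw [h2, zero_mul]

/-- The set `{(X, x) : x ∈ conv (range X)}` is closed. -/
theorem isClosed_hull {E : Type*} [NormedAddCommGroup E] [NormedSpace ℝ E] (n : ℕ) :
    IsClosed {Z : (Fin n → E) × E | Z.2 ∈ convexHull ℝ (range Z.1)} := by
  have hset : {Z : (Fin n → E) × E | Z.2 ∈ convexHull ℝ (range Z.1)} =
      Prod.snd '' ((stdSimplex ℝ (Fin n)) ×ˢ (univ : Set ((Fin n → E) × E)) ∩
        {q : (Fin n → ℝ) × ((Fin n → E) × E) | q.2.2 = ∑ i, q.1 i • q.2.1 i}) := by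
    ext Z
    simp only [mem_setOf_eq, mem_image, mem_inter_iff, mem_prod, mem_univ, and_true, Prod.exists,
      exists_eq_right]
    constructor
    · intro h
      rw [convexHull_range_eq_exists_affineCombination] at h
      obtain ⟨s, w, hw0, hw1, hZ⟩ := h
      refine ⟨fun i => if i ∈ s then w i else 0, ?_, ?_⟩
      · refine ⟨fun i => ?_, ?_⟩
        · by_cases hi : i ∈ s
          · simpa [hi] using hw0 i hi
          · simp [hi]
        · rw [← hw1, Finset.sum_ite_mem, Finset.univ_inter]
      · rw [← hZ, Finset.affineCombination_eq_linear_combination _ _ _ hw1]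
        rw [← Finset.sum_subset (Finset.subset_univ s)]
        · refine Finset.sum_congr rfl fun i hi => ?_
          simp [hi]
        · intro i _ hi
          simp [hi]
    · rintro ⟨w, hw, hZ⟩
      rw [hZ]
      exact (convex_convexHull ℝ _).sum_mem (fun i _ => hw.1 i) hw.2
        (fun i _ => subset_convexHull ℝ _ (mem_range_self i))
  rw [hset]
  have hcl : IsClosed ((stdSimplex ℝ (Fin n)) ×ˢ (univ : Set ((Fin n → E) × E)) ∩
        {q : (Fin n → ℝ) × ((Fin n → E) × E) | q.2.2 = ∑ i, q.1 i • q.2.1 i}) := by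
    refine ((isClosed_stdSimplex ℝ (Fin n)).prod isClosed_univ).inter ?_
    refine isClosed_eq (by fun_prop) ?_
    refine continuous_finset_sum _ fun i _ => ?_
    fun_prop
  -- project along a compact factor
  rw [← isSeqClosed_iff_isClosed]
  intro u Z hu hlim
  choose q hq hqu using hu
  have hcomp : IsCompact (stdSimplex ℝ (Fin n)) := isCompact_stdSimplex ℝ (Fin n)
  obtain ⟨w, hw, φ, hφ, hφlim⟩ := hcomp.tendsto_subseq (fun k => (hq k).1.1)
  refine ⟨(w, Z), ?_, rfl⟩
  refine hcl.mem_of_tendsto (f := fun k => q (φ k)) (b := Filter.atTop) ?_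
    (Filter.Eventually.of_forall fun k => hq (φ k))
  rw [Prod.tendsto_iff]
  refine ⟨hφlim, ?_⟩
  have : (fun k => (q (φ k)).2) = u ∘ φ := by
    funext k; exact hqu (φ k)
  rw [this]
  exact hlim.comp hφ.tendsto_atTop

theorem measurableSet_hull {E : Type*} [NormedAddCommGroup E] [NormedSpace ℝ E]
    [SecondCountableTopology E] [MeasurableSpace E] [BorelSpace E] (n : ℕ) :
    MeasurableSet {Z : (Fin n → E) × E | Z.2 ∈ convexHull ℝ (range Z.1)} :=
  (isClosed_hull n).measurableSet

end Pool.H40.EV
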