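import Pool.Agent.Helper40.EV.Defs

/-! Linear programming duality by pivoting (piece EV-9 of MP_2bdbd0_pr). -/

set_option autoImplicit false

namespace Pool.H40.EV

open Set

namespace LPAux

variable {E : Type*} [AddCommGroup E] [Module ℝ E] {n : ℕ}

/-- weights supported in `I` which represent `x` -/
def Rep (X : Fin n → E) (x : E) (I : Finset (Fin n)) (w : Fin n → ℝ) : Prop :=
  (∀ i, i ∉ I → w i = 0) ∧ (∀ i, 0 ≤ w i) ∧ ∑ i, w i = 1 ∧ ∑ i, w i • X i = x

theorem Rep.mem {X : Fin n → E} {x : E} {I : Finset (Fin n)} {w : Fin n → ℝ} (h : Rep X x I w) :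
    x ∈ convexHull ℝ (X '' (I : Set (Fin n))) := by
  obtain ⟨h0, h1, h2, h3⟩ := h
  have e1 : ∑ i ∈ I, w i = 1 := by
    rw [← h2]
    exact Finset.sum_subset (Finset.subset_univ _) fun i _ hi => h0 i hi
  have e2 : ∑ i ∈ I, w i • X i = x := by
    rw [← h3]
    exact Finset.sum_subset (Finset.subset_univ _) fun i _ hi => by rw [h0 i hi, zero_smul]
  rw [← e2]
  exact (convex_convexHull ℝ _).sum_mem (fun i _ => h1 i) e1
    fun i hi => subset_convexHull ℝ _ (mem_image_of_mem X hi)

theorem Rep.unique {X : Fin n → E} {x : E} {I : Finset (Fin n)} {w w' : Fin n → ℝ}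
    (hI : AffineIndependent ℝ (fun i : I => X i)) (h : Rep X x I w) (h' : Rep X x I w') :
    w = w' := by
  obtain ⟨h0, h1, h2, h3⟩ := h
  obtain ⟨h0', h1', h2', h3'⟩ := h'
  have key : ∀ v : Fin n → ℝ, (∀ i, i ∉ I → v i = 0) →
      (∑ i : I, v i = ∑ i, v i) ∧ (∑ i : I, v i • X i = ∑ i, v i • X i) := by
    intro v hv
    constructor
    · rw [Finset.sum_coe_sort I (fun i => v i)]
      exact Finset.sum_subset (Finset.subset_univ _) fun i _ hi => hv i hi
    · rw [Finset.sum_coe_sort I (fun i => v i • X i)]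
      exact Finset.sum_subset (Finset.subset_univ _) fun i _ hi => by rw [hv i hi, zero_smul]
  obtain ⟨a1, a2⟩ := key w h0
  obtain ⟨b1, b2⟩ := key w' h0'
  have := hI.eq_of_sum_eq_sum (s := Finset.univ) (w₁ := fun i : I => w i) (w₂ := fun i : I => w' i)
    (by rw [a1, b1, h2, h2']) (by rw [a2, b2, h3, h3'])
  funext i
  by_cases hi : i ∈ I
  · exact this ⟨i, hi⟩ (Finset.mem_univ _)
  · rw [h0 i hi, h0' i hi]

theorem exists_rep {X : Fin n → E} {x : E} (hmem : x ∈ convexHull ℝ (range X))
    [FiniteDimensional ℝ E] :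
    ∃ (I : Finset (Fin n)) (w : Fin n → ℝ), I.card ≤ Module.finrank ℝ E + 1 ∧ Rep X x I w := by
  classical
  obtain ⟨ι, hι, z, w, hz, hind, hw, hs, hx⟩ := eq_pos_convex_span_of_mem_convexHull hmem
  have hz' : ∀ i, ∃ j, X j = z i := fun i => hz (mem_range_self i)
  choose f hf using hz'
  have hinj : Function.Injective f := fun i j hij => hind.injective (by rw [← hf, ← hf, hij])
  refine ⟨Finset.univ.image f, fun j => ∑ i, if f i = j then w i else 0, ?_, ?_, ?_, ?_, ?_⟩
  · rw [Finset.card_image_of_injective _ hinj, Finset.card_univ]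
    exact hind.card_le_finrank_succ.trans (by
      have := Submodule.finrank_le (vectorSpan ℝ (range z))
      omega)
  · intro j hj
    refine Finset.sum_eq_zero fun i _ => if_neg fun h => hj ?_
    exact Finset.mem_image.2 ⟨i, Finset.mem_univ _, h⟩
  · intro j
    exact Finset.sum_nonneg fun i _ => by split_ifs; exacts [(hw i).le, le_rfl]
  · rw [Finset.sum_comm, ← hs]
    exact Finset.sum_congr rfl fun i _ => by simp
  · rw [← hx]
    calc ∑ j, (∑ i, if f i = j then w i else 0) • X j
        = ∑ j, ∑ i, (if f i = j then w i else 0) • X j :=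
          Finset.sum_congr rfl fun j _ => Finset.sum_smul
      _ = ∑ i, ∑ j, (if f i = j then w i else 0) • X j := Finset.sum_comm
      _ = ∑ i, w i • z i := by
          refine Finset.sum_congr rfl fun i _ => ?_
          rw [Finset.sum_eq_single (f i)]
          · rw [if_pos rfl, hf]
          · intro j _ hj
            rw [if_neg (Ne.symm hj), zero_smul]
          · intro h
            exact absurd (Finset.mem_univ _) h

end LPAux

open LPAux in
theorem lp_pivot {E : Type*} [AddCommGroup E] [Module ℝ E] [FiniteDimensional ℝ E] (n : ℕ)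
    (X : Fin n → E) (x : E)
    (hgp : ∀ I : Finset (Fin n), I.card ≤ Module.finrank ℝ E + 1 →
      AffineIndependent ℝ (fun i : I => X i))
    (hx : ∀ I : Finset (Fin n), I.card ≤ Module.finrank ℝ E →
      x ∉ affineSpan ℝ (X '' (I : Set (Fin n))))
    (hmem : x ∈ convexHull ℝ (range X)) (c : Fin n → ℝ) :
    ∃ I : Finset (Fin n), I.card = Module.finrank ℝ E + 1 ∧
      x ∈ convexHull ℝ (X '' (I : Set (Fin n))) ∧
      ∃ l : E →ᵃ[ℝ] ℝ, (∀ i ∈ I, l (X i) = c i) ∧ ∀ j, l (X j) ≤ c j := by
  classical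
  -- a representation needs at least `d + 1` points
  have hcard : ∀ (I : Finset (Fin n)) (w : Fin n → ℝ), Rep X x I w →
      Module.finrank ℝ E < I.card := by
    intro I w h
    by_contra hc
    exact hx I (not_lt.1 hc) (convexHull_subset_affineSpan _ h.mem)
  -- the feasible sets
  let S : Finset (Finset (Fin n)) :=
    Finset.univ.filter fun I => I.card = Module.finrank ℝ E + 1 ∧ ∃ w, Rep X x I w
  have hSne : S.Nonempty := by
    obtain ⟨I, w, hI, hw⟩ := exists_rep hmem
    exact ⟨I, by
      simp only [S, Finset.mem_filter, Finset.mem_univ, true_and]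
      exact ⟨le_antisymm hI (hcard I w hw), w, hw⟩⟩
  have hSw : ∀ I ∈ S, ∃ w, Rep X x I w := fun I hI => (Finset.mem_filter.1 hI).2.2
  let val : Finset (Fin n) → ℝ := fun I =>
    if h : ∃ w, Rep X x I w then ∑ i, (Classical.choose h) i * c i else 0
  have hval : ∀ I w, I.card ≤ Module.finrank ℝ E + 1 → Rep X x I w → val I = ∑ i, w i * c i := by
    intro I w hI hw
    have h : ∃ w, Rep X x I w := ⟨w, hw⟩
    simp only [val, dif_pos h]
    rw [Rep.unique (hgp I hI) (Classical.choose_spec h) hw]
  obtain ⟨I, hIS, hmin⟩ := Finset.exists_min_image S val hSne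
  obtain ⟨hIc, w, hw⟩ : I.card = Module.finrank ℝ E + 1 ∧ ∃ w, Rep X x I w :=
    (Finset.mem_filter.1 hIS).2
  have hind := hgp I hIc.le
  -- all weights are positive
  have hpos : ∀ i ∈ I, 0 < w i := by
    intro i hi
    refine lt_of_le_of_ne (hw.2.1 i) fun h0 => ?_
    have hrep : Rep X x (I.erase i) w := by
      refine ⟨fun j hj => ?_, hw.2.1, hw.2.2.1, hw.2.2.2⟩
      by_cases hji : j = i
      · rw [hji, ← h0]
      · exact hw.1 j fun hjI => hj (Finset.mem_erase.2 ⟨hji, hjI⟩)
    have := hcard _ _ hrep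
    rw [Finset.card_erase_of_mem hi] at this
    omega
  -- the affine basis
  let b : AffineBasis I ℝ E := ⟨fun i : I => X i, hind,
    hind.affineSpan_eq_top_iff_card_eq_finrank_add_one.2 (by rw [Fintype.card_coe, hIc])⟩
  have hb : ∀ i : I, b i = X i := fun i => rfl
  let L : (I → ℝ) →ₗ[ℝ] ℝ := ∑ i : I, c i • LinearMap.proj i
  let l : E →ᵃ[ℝ] ℝ := L.toAffineMap.comp b.coords
  have hl : ∀ y, l y = ∑ i : I, c i * b.coord i y := by
    intro y
    change L (b.coords y) = _
    simp only [L, LinearMap.sum_apply, LinearMap.smul_apply, LinearMap.proj_apply, smul_eq_mul,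
      AffineBasis.coords_apply]
  have hlI : ∀ i ∈ I, l (X i) = c i := by
    intro i hi
    rw [hl, Finset.sum_eq_single (⟨i, hi⟩ : I)]
    · have : b.coord ⟨i, hi⟩ (X i) = 1 := by
        rw [show X i = b ⟨i, hi⟩ from rfl]; exact b.coord_apply_eq _
      rw [this, mul_one]
    · intro j _ hj
      have : b.coord j (X i) = 0 := by
        rw [show X i = b ⟨i, hi⟩ from rfl]; exact b.coord_apply_ne hj
      rw [this, mul_zero]
    · intro h
      exact absurd (Finset.mem_univ _) h
  refine ⟨I, hIc, hw.mem, l, hlI, ?_⟩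
  intro j
  by_cases hj : j ∈ I
  · exact (hlI j hj).le
  by_contra hc
  rw [not_le] at hc
  -- barycentric coordinates of `X j`
  let μ : Fin n → ℝ := fun i => if h : i ∈ I then b.coord ⟨i, h⟩ (X j) else 0
  have hμ0 : ∀ i, i ∉ I → μ i = 0 := fun i hi => dif_neg hi
  have hμI : ∀ i : I, μ i = b.coord i (X j) := fun i => dif_pos i.2
  have hμs : ∑ i, μ i = 1 := by
    rw [← b.sum_coord_apply_eq_one (X j)]
    rw [← Finset.sum_subset (Finset.subset_univ I) fun i _ hi => hμ0 i hi, ← Finset.sum_coe_sort I]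
    exact Finset.sum_congr rfl fun i _ => hμI i
  have hμx : ∑ i, μ i • X i = X j := by
    rw [← b.linear_combination_coord_eq_self (X j)]
    rw [← Finset.sum_subset (Finset.subset_univ I) fun i _ hi => by rw [hμ0 i hi, zero_smul],
      ← Finset.sum_coe_sort I]
    exact Finset.sum_congr rfl fun i _ => by rw [hμI i, hb]
  have hμc : ∑ i, μ i * c i = l (X j) := by
    rw [hl]
    rw [← Finset.sum_subset (Finset.subset_univ I) fun i _ hi => by rw [hμ0 i hi, zero_mul],
      ← Finset.sum_coe_sort I]
    exact Finset.sum_congr rfl fun i _ => by rw [hμI i, mul_comm]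
  -- the ratio test
  have hPne : (I.filter fun i => 0 < μ i).Nonempty := by
    by_contra hne
    rw [Finset.not_nonempty_iff_eq_empty] at hne
    have : ∑ i, μ i ≤ 0 := Finset.sum_nonpos fun i _ => by
      by_cases hi : i ∈ I
      · by_contra hp
        have : i ∈ I.filter fun i => 0 < μ i := Finset.mem_filter.2 ⟨hi, not_le.1 hp⟩
        rw [hne] at this
        exact absurd this (Finset.notMem_empty _)
      · exact (hμ0 i hi).le
    linarith
  obtain ⟨i0, hi0, hmin0⟩ := Finset.exists_min_image (I.filter fun i => 0 < μ i)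
    (fun i => w i / μ i) hPne
  obtain ⟨hi0I, hi0p⟩ := Finset.mem_filter.1 hi0
  set ε : ℝ := w i0 / μ i0 with hε
  have hεpos : 0 < ε := div_pos (hpos i0 hi0I) hi0p
  let w' : Fin n → ℝ := fun i => w i - ε * μ i + if i = j then ε else 0
  have hji0 : j ≠ i0 := fun h => hj (h ▸ hi0I)
  have hrep : Rep X x (insert j (I.erase i0)) w' := by
    refine ⟨?_, ?_, ?_, ?_⟩
    · intro i hi
      rw [Finset.mem_insert, Finset.mem_erase, not_or] at hi
      simp only [w', if_neg hi.1, add_zero]
      by_cases hii : i = i0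
      · rw [hii, hε, div_mul_cancel₀ _ hi0p.ne', sub_self]
      · have hiI : i ∉ I := fun h => hi.2 ⟨hii, h⟩
        rw [hw.1 i hiI, hμ0 i hiI, mul_zero, sub_zero]
    · intro i
      have h1 : 0 ≤ w i - ε * μ i := by
        by_cases hiI : i ∈ I
        · by_cases hp : 0 < μ i
          · have := hmin0 i (Finset.mem_filter.2 ⟨hiI, hp⟩)
            rw [le_div_iff₀ hp] at this
            linarith
          · have := hw.2.1 i
            have := mul_nonpos_of_nonneg_of_nonpos hεpos.le (not_lt.1 hp)
            linarith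
        · rw [hw.1 i hiI, hμ0 i hiI, mul_zero, sub_zero]
      have h2 : (0 : ℝ) ≤ if i = j then ε else 0 := by split_ifs; exacts [hεpos.le, le_rfl]
      exact add_nonneg h1 h2
    · simp only [w', Finset.sum_add_distrib, Finset.sum_sub_distrib, ← Finset.mul_sum, hμs, hw.2.2.1,
        Finset.sum_ite_eq', Finset.mem_univ, if_true]
      ring
    · simp only [w', add_smul, sub_smul, Finset.sum_add_distrib, Finset.sum_sub_distrib, mul_smul,
        ← Finset.smul_sum, hμx, hw.2.2.2, ite_smul, zero_smul, Finset.sum_ite_eq', Finset.mem_univ,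
        if_true]
      abel
  have hcard' : (insert j (I.erase i0)).card = Module.finrank ℝ E + 1 := by
    rw [Finset.card_insert_of_notMem fun h => hj (Finset.mem_of_mem_erase h),
      Finset.card_erase_of_mem hi0I, hIc]
    omega
  have h1 := hmin (insert j (I.erase i0))
    (Finset.mem_filter.2 ⟨Finset.mem_univ _, hcard', w', hrep⟩)
  rw [hval _ _ hIc.le hw, hval _ _ hcard'.le hrep] at h1
  have h2 : ∑ i, w' i * c i = ∑ i, w i * c i - ε * l (X j) + ε * c j := by
    simp only [w', add_mul, sub_mul, Finset.sum_add_distrib, Finset.sum_sub_distrib, mul_assoc,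
      ← Finset.mul_sum, hμc, ite_mul, zero_mul, Finset.sum_ite_eq', Finset.mem_univ, if_true]
  have h3 : ε * c j < ε * l (X j) := mul_lt_mul_of_pos_left hc hεpos
  linarith

end Pool.H40.EV
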