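import Pool.Agent.Helper40.EV.Base

/-! Preparations for Lemma B: shear, interior points, Gram form. -/

set_option autoImplicit false

namespace Pool.H40.EV

open MeasureTheory Set Matrix
open scoped ENNReal

variable {m : ℕ}

/-- The shear `(x, h) ↦ (x, σ h + aff A x)`. -/
noncomputable def shear (σ : ℝ) (A : Fin (m + 1) → ℝ) (x : Pt m) : Pt m :=
  (x.1, σ * x.2 + aff A x.1)

theorem continuous_shear (σ : ℝ) (A : Fin (m + 1) → ℝ) : Continuous (shear σ A : Pt m → Pt m) :=
  continuous_fst.prodMk ((continuous_const.mul continuous_snd).add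
    ((continuous_aff_right A).comp continuous_fst))

/-- the shear as a homeomorphism -/
noncomputable def shearH (σ : ℝ) (hσ : σ = 1 ∨ σ = -1) (A : Fin (m + 1) → ℝ) : Pt m ≃ₜ Pt m where
  toFun := shear σ A
  invFun x := (x.1, σ * (x.2 - aff A x.1))
  left_inv x := by
    refine Prod.ext rfl ?_
    simp only [shear]
    rcases hσ with rfl | rfl <;> ring
  right_inv x := by
    refine Prod.ext rfl ?_
    simp only [shear]
    rcases hσ with rfl | rfl <;> ring
  continuous_toFun := continuous_shear σ A
  continuous_invFun := continuous_fst.prodMk (continuous_const.mul (continuous_snd.sub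
    ((continuous_aff_right A).comp continuous_fst)))

theorem measurePreserving_shear (σ : ℝ) (hσ : σ = 1 ∨ σ = -1) (A : Fin (m + 1) → ℝ) :
    MeasurePreserving (shear σ A : Pt m → Pt m) volume volume := by
  have h := MeasurePreserving.skew_product (f := (id : (Fin m → ℝ) → (Fin m → ℝ)))
    (g := fun x (h : ℝ) => σ * h + aff A x) (MeasurePreserving.id (volume : Measure (Fin m → ℝ)))
    (μc := (volume : Measure ℝ)) (μd := (volume : Measure ℝ)) ?_ ?_
  · exact h
  · exact ((continuous_const.mul continuous_snd).add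
      ((continuous_aff_right A).comp continuous_fst)).measurable
  · filter_upwards with x
    rcases hσ with rfl | rfl
    · simp only [one_mul]
      exact (measurePreserving_add_right volume (aff A x)).map_eq
    · have h1 : MeasurePreserving (fun h : ℝ => -h) volume volume :=
        Measure.measurePreserving_neg volume
      have h2 := (measurePreserving_add_right (volume : Measure ℝ) (aff A x)).comp h1
      have h3 : (fun h : ℝ => (-1) * h + aff A x) = (fun y => y + aff A x) ∘ fun h : ℝ => -h := by
        funext h; simp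
      rw [h3]
      exact h2.map_eq

theorem setIntegral_shear (σ : ℝ) (hσ : σ = 1 ∨ σ = -1) (A : Fin (m + 1) → ℝ)
    (f : Pt m → ℝ) (s : Set (Pt m)) :
    ∫ x in shear σ A ⁻¹' s, f (shear σ A x) = ∫ x in s, f x :=
  (measurePreserving_shear σ hσ A).setIntegral_preimage_emb
    (shearH σ hσ A).measurableEmbedding f s

/-- the sheared cap -/
def capC (K : Set (Pt m)) (σ : ℝ) (A : Fin (m + 1) → ℝ) : Set (Pt m) :=
  {x | 0 ≤ x.2 ∧ shear σ A x ∈ K}

theorem shear_preimage_cap (K : Set (Pt m)) (σ : ℝ) (hσ : σ = 1 ∨ σ = -1)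
    (A : Fin (m + 1) → ℝ) : shear σ A ⁻¹' (cap K σ A) = {x | 0 < x.2 ∧ shear σ A x ∈ K} := by
  ext x
  simp only [cap, mem_preimage, mem_setOf_eq, shear]
  have : σ * (σ * x.2 + aff A x.1 - aff A x.1) = x.2 := by
    rcases hσ with rfl | rfl <;> ring
  rw [this]
  tauto

theorem volume_zero_level : volume {x : Pt m | x.2 = 0} = 0 := by
  have := volume_graph (0 : Fin (m + 1) → ℝ)
  simpa [aff] using this

theorem capC_ae (K : Set (Pt m)) (σ : ℝ) (hσ : σ = 1 ∨ σ = -1) (A : Fin (m + 1) → ℝ) :
    (shear σ A ⁻¹' (cap K σ A) : Set (Pt m)) =ᵐ[volume] capC K σ A := by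
  rw [shear_preimage_cap K σ hσ A]
  have h0 : ∀ᵐ x : Pt m, x.2 ≠ 0 := by
    rw [ae_iff]; simpa using volume_zero_level
  filter_upwards [h0] with x hx
  apply propext
  constructor
  · rintro ⟨h1, h2⟩; exact ⟨h1.le, h2⟩
  · rintro ⟨h1, h2⟩; exact ⟨lt_of_le_of_ne h1 (Ne.symm hx), h2⟩

theorem setIntegral_capC (K : Set (Pt m)) (σ : ℝ) (hσ : σ = 1 ∨ σ = -1)
    (A : Fin (m + 1) → ℝ) (f : Pt m → ℝ) :
    ∫ x in capC K σ A, f (shear σ A x) = ∫ x in cap K σ A, f x := by
  rw [← setIntegral_congr_set (capC_ae K σ hσ A), setIntegral_shear σ hσ A f]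

theorem setIntegral_capC_snd (K : Set (Pt m)) (σ : ℝ) (hσ : σ = 1 ∨ σ = -1)
    (A : Fin (m + 1) → ℝ) : ∫ x in capC K σ A, x.2 = mv K σ A := by
  have h := setIntegral_capC K σ hσ A (fun x => σ * (x.2 - aff A x.1))
  have h2 : ∀ x : Pt m, σ * ((shear σ A x).2 - aff A (shear σ A x).1) = x.2 := by
    intro x
    simp only [shear]
    rcases hσ with rfl | rfl <;> ring
  simp only [h2] at h
  exact h

theorem isCompact_capC (K : Set (Pt m)) (hKc : IsCompact K) (σ : ℝ) (hσ : σ = 1 ∨ σ = -1)
    (A : Fin (m + 1) → ℝ) : IsCompact (capC K σ A) := by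
  have h1 : IsCompact (shear σ A ⁻¹' K) := (shearH σ hσ A).isCompact_preimage.2 hKc
  have h2 : capC K σ A = (shear σ A ⁻¹' K) ∩ {x | 0 ≤ x.2} := by
    ext x; simp [capC, and_comm]
  rw [h2]
  exact h1.inter_right (isClosed_le continuous_const continuous_snd)

theorem shear_comb (σ : ℝ) (A : Fin (m + 1) → ℝ) (x y : Pt m) {a b : ℝ} (h : a + b = 1) :
    shear σ A (a • x + b • y) = a • shear σ A x + b • shear σ A y := by
  refine Prod.ext ?_ ?_
  · simp [shear]
  · simp only [shear, Prod.snd_add, Prod.smul_snd, Prod.fst_add, Prod.smul_fst, smul_eq_mul]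
    rw [aff_comb A x.1 y.1 h]
    ring

theorem convex_capC (K : Set (Pt m)) (hK : Convex ℝ K) (σ : ℝ) (A : Fin (m + 1) → ℝ) :
    Convex ℝ (capC K σ A) := by
  intro x hx y hy a b ha hb hab
  refine ⟨?_, ?_⟩
  · have := hx.1; have := hy.1
    simp only [Prod.snd_add, Prod.smul_snd, smul_eq_mul]
    positivity
  · rw [shear_comb σ A x y hab]
    exact hK hx.2 hy.2 ha hb hab

/-- the linear part of the shear -/
noncomputable def shearAff (σ : ℝ) (A : Fin (m + 1) → ℝ) : Pt m →ᵃ[ℝ] Pt m where
  toFun := shear σ A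
  linear :=
    { toFun := fun v => (v.1, σ * v.2 + ∑ j, A j.succ * v.1 j)
      map_add' := fun v w => by
        refine Prod.ext rfl ?_
        simp only [Prod.snd_add, Prod.fst_add, Pi.add_apply, mul_add, Finset.sum_add_distrib]
        ring
      map_smul' := fun c v => by
        refine Prod.ext rfl ?_
        simp only [Prod.smul_snd, Prod.smul_fst, Pi.smul_apply, smul_eq_mul, RingHom.id_apply,
          mul_add, Finset.mul_sum]
        congr 1
        · ring
        · exact Finset.sum_congr rfl fun j _ => by ring }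
  map_vadd' p v := by
    refine Prod.ext rfl ?_
    simp only [shear, vadd_eq_add, Prod.snd_add, Prod.fst_add, LinearMap.coe_mk, AddHom.coe_mk,
      aff_eq, Pi.add_apply, mul_add, Finset.sum_add_distrib]
    ring

/-- the Gram form as an integral -/
theorem gram_integral (K : Set (Pt m)) (hKc : IsCompact K) (A : Fin (m + 1) → ℝ)
    (P Q : Fin (m + 1) → ℝ) :
    ∫ x in sect K A, aff P x * aff Q x = P ⬝ᵥ (Gm K A).mulVec Q := by
  have hc := isCompact_sect hKc A
  have hint : ∀ i j, IntegrableOn (fun x => ph x i * ph x j) (sect K A) volume := by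
    intro i j
    have hcont : Continuous fun x : Fin m → ℝ => ph x i * ph x j :=
      ((continuous_apply i).comp continuous_ph).mul ((continuous_apply j).comp continuous_ph)
    exact hcont.continuousOn.integrableOn_compact hc
  have h1 : ∀ x : Fin m → ℝ, aff P x * aff Q x =
      ∑ i, ∑ j, P i * Q j * (ph x i * ph x j) := by
    intro x
    simp only [aff, dotProduct, Finset.sum_mul, Finset.mul_sum]
    rw [Finset.sum_comm]
    refine Finset.sum_congr rfl fun i _ => Finset.sum_congr rfl fun j _ => by ring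
  simp only [h1]
  rw [integral_finset_sum _ (fun i _ => integrable_finset_sum _ fun j _ => (hint i j).const_mul _)]
  simp only [dotProduct, Matrix.mulVec, Gm, Matrix.of_apply]
  refine Finset.sum_congr rfl fun i _ => ?_
  rw [integral_finset_sum _ (fun j _ => (hint i j).const_mul _), Finset.mul_sum]
  refine Finset.sum_congr rfl fun j _ => ?_
  rw [integral_const_mul]
  ring

/-- if the section is not null modulo the boundary there is an interior point -/
theorem exists_interior (K : Set (Pt m)) (hKc : IsCompact K) (A : Fin (m + 1) → ℝ)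
    (hA : A ∈ Good K) (hdet : (Gm K A).det ≠ 0) :
    ∃ x : Fin m → ℝ, (x, aff A x) ∈ interior K := by
  by_contra hcon
  push Not at hcon
  have hsub : sect K A ⊆ {x : Fin m → ℝ | (x, aff A x) ∈ frontier K} := by
    intro x hx
    simp only [mem_setOf_eq, frontier, mem_diff]
    exact ⟨subset_closure hx, hcon x⟩
  have hnull : volume (sect K A) = 0 := measure_mono_null hsub hA
  apply hdet
  have : Gm K A = 0 := by
    ext i j
    simp only [Gm, Matrix.of_apply, Matrix.zero_apply]
    rw [Measure.restrict_eq_zero.2 hnull, integral_zero_measure]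
  rw [this]; exact Matrix.det_zero

/-- the cap contains an open set -/
theorem cap_open (K : Set (Pt m)) (hKc : IsCompact K) (σ : ℝ) (hσ : σ = 1 ∨ σ = -1)
    (A : Fin (m + 1) → ℝ) (hA : A ∈ Good K) (hdet : (Gm K A).det ≠ 0) :
    0 < volume (cap K σ A ∩ interior K) := by
  obtain ⟨x, hx⟩ := exists_interior K hKc A hA hdet
  have hopen : IsOpen (cap K σ A ∩ interior K) := by
    have : cap K σ A ∩ interior K = {y : Pt m | 0 < σ * (y.2 - aff A y.1)} ∩ interior K := by
      ext y
      simp only [cap, mem_inter_iff, mem_setOf_eq]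
      constructor
      · rintro ⟨⟨_, h⟩, h2⟩; exact ⟨h, h2⟩
      · rintro ⟨h, h2⟩; exact ⟨⟨interior_subset h2, h⟩, h2⟩
    rw [this]
    refine (isOpen_lt continuous_const ?_).inter isOpen_interior
    exact continuous_const.mul (continuous_snd.sub ((continuous_aff_right A).comp continuous_fst))
  refine hopen.measure_pos volume ?_
  -- move slightly in direction σ
  have hcont : Continuous fun e : ℝ => ((x, aff A x + σ * e) : Pt m) := by fun_prop
  have h0 : (fun e : ℝ => ((x, aff A x + σ * e) : Pt m)) 0 ∈ interior K := by simpa using hx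
  have hnh : ∀ᶠ e in nhds (0:ℝ), ((x, aff A x + σ * e) : Pt m) ∈ interior K :=
    hcont.continuousAt.eventually_mem (isOpen_interior.mem_nhds h0)
  obtain ⟨ε, hε, hball⟩ := Metric.eventually_nhds_iff.1 hnh
  refine ⟨(x, aff A x + σ * (ε / 2)), ⟨?_, ?_⟩, ?_⟩
  · exact interior_subset (hball (by simp [abs_of_pos hε]; linarith))
  · simp only
    have : σ * (aff A x + σ * (ε / 2) - aff A x) = ε / 2 := by
      rcases hσ with rfl | rfl <;> ring
    rw [this]; linarith
  · exact hball (by simp [abs_of_pos hε]; linarith)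

end Pool.H40.EV
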