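import Mathlib

/-! Prékopa–Leindler inequality on `Fin m → ℝ` and the multiplicative Brunn–Minkowski inequality. -/

set_option autoImplicit false

namespace Pool.H40.EV
open MeasureTheory Set Matrix Filter Topology
open scoped ENNReal

namespace PL

/-- One-dimensional Brunn–Minkowski for nonempty compact sets. -/
theorem bm1_compact (A B C : Set ℝ) (hA : IsCompact A) (hB : IsCompact B)
    (hA0 : A.Nonempty) (hB0 : B.Nonempty) (hsub : ∀ a ∈ A, ∀ b ∈ B, a + b ∈ C) :
    volume A + volume B ≤ volume C := by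
  obtain ⟨a1, ha1, hmax⟩ := hA.exists_isMaxOn hA0 continuousOn_id
  obtain ⟨b0, hb0, hmin⟩ := hB.exists_isMinOn hB0 continuousOn_id
  have hmax' : ∀ a ∈ A, a ≤ a1 := fun a ha => hmax ha
  have hmin' : ∀ b ∈ B, b0 ≤ b := fun b hb => hmin hb
  set A' : Set ℝ := (fun x => x + b0) '' A with hA'
  set B' : Set ℝ := (fun x => a1 + x) '' B with hB'
  have hvA : volume A' = volume A := by
    rw [hA', Set.image_add_right]
    exact measure_preimage_add_right volume _ A
  have hvB : volume B' = volume B := by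
    rw [hB', Set.image_add_left]
    exact measure_preimage_add volume _ B
  have hmB : MeasurableSet B' := (hB.image (continuous_const.add continuous_id)).measurableSet
  have hinter : volume (A' ∩ B') = 0 := by
    have : A' ∩ B' ⊆ {a1 + b0} := by
      rintro z ⟨⟨a, ha, rfl⟩, ⟨b, hb, hz⟩⟩
      simp only at hz
      have h1 := hmax' a ha
      have h2 := hmin' b hb
      simp only [mem_singleton_iff]
      linarith
    exact measure_mono_null this (by simp)
  have hunion : volume (A' ∪ B') = volume A + volume B := by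
    have := measure_union_add_inter (μ := volume) A' hmB
    rw [hinter, add_zero] at this
    rw [this, hvA, hvB]
  rw [← hunion]
  apply measure_mono
  rintro z (⟨a, ha, rfl⟩ | ⟨b, hb, rfl⟩)
  · exact hsub a ha b0 hb0
  · exact hsub a1 ha1 b hb

/-- One-dimensional Brunn–Minkowski for nonempty measurable sets. -/
theorem bm1 (A B C : Set ℝ) (hA : MeasurableSet A) (hB : MeasurableSet B)
    (hA0 : A.Nonempty) (hB0 : B.Nonempty) (hsub : ∀ a ∈ A, ∀ b ∈ B, a + b ∈ C) :
    volume A + volume B ≤ volume C := by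
  have key : ∀ K ⊆ A, IsCompact K → ∀ L ⊆ B, IsCompact L → volume K + volume L ≤ volume C := by
    intro K hKA hK L hLB hL
    obtain ⟨a, ha⟩ := hA0
    obtain ⟨b, hb⟩ := hB0
    have h := bm1_compact (K ∪ {a}) (L ∪ {b}) C (hK.union isCompact_singleton)
      (hL.union isCompact_singleton) ⟨a, by simp⟩ ⟨b, by simp⟩ (by
        intro x hx y hy
        refine hsub x ?_ y ?_
        · rcases hx with hx | hx
          · exact hKA hx
          · rw [mem_singleton_iff] at hx; rw [hx]; exact ha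
        · rcases hy with hy | hy
          · exact hLB hy
          · rw [mem_singleton_iff] at hy; rw [hy]; exact hb)
    refine le_trans (add_le_add (measure_mono subset_union_left) (measure_mono subset_union_left)) h
  have eA : volume A = ⨆ (K : Set ℝ) (_ : K ⊆ A ∧ IsCompact K), volume K := by
    rw [hA.measure_eq_iSup_isCompact]; simp only [iSup_and]
  have eB : volume B = ⨆ (K : Set ℝ) (_ : K ⊆ B ∧ IsCompact K), volume K := by
    rw [hB.measure_eq_iSup_isCompact]; simp only [iSup_and]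
  rw [eA, eB]
  exact ENNReal.biSup_add_biSup_le' ⟨∅, empty_subset _, isCompact_empty⟩
    ⟨∅, empty_subset _, isCompact_empty⟩
    (fun K hK L hL => key K hK.1 hK.2 L hL.1 hL.2)

/-- Layer cake formula for `ℝ≥0∞`-valued functions. -/
theorem layer (f : ℝ → ℝ≥0∞) (hf : Measurable f) :
    ∫⁻ x, f x = ∫⁻ s in Ioi (0:ℝ), volume {x | ENNReal.ofReal s < f x} := by
  have hset : ∀ c : ℝ≥0∞, volume (Ioi (0:ℝ) ∩ {s | ENNReal.ofReal s < c}) = c := by
    intro c
    induction c with
    | top =>
      have : Ioi (0:ℝ) ∩ {s | ENNReal.ofReal s < ⊤} = Ioi 0 := by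
        ext s; simp
      rw [this]; simp
    | coe c =>
      have : Ioi (0:ℝ) ∩ {s | ENNReal.ofReal s < c} = Ioo 0 (c:ℝ) := by
        ext s
        simp only [mem_inter_iff, mem_Ioi, mem_ofPred_eq, mem_Ioo]
        constructor
        · rintro ⟨h1, h2⟩
          refine ⟨h1, ?_⟩
          have := ENNReal.toReal_lt_toReal (ENNReal.ofReal_ne_top) (ENNReal.coe_ne_top) |>.2 h2
          rwa [ENNReal.toReal_ofReal h1.le, ENNReal.coe_toReal] at this
        · rintro ⟨h1, h2⟩
          refine ⟨h1, ?_⟩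
          rw [ENNReal.ofReal_lt_coe_iff h1.le]
          exact h2
      rw [this, Real.volume_Ioo]; simp
  have hmeas : MeasurableSet {p : ℝ × ℝ | ENNReal.ofReal p.2 < f p.1} :=
    measurableSet_lt (ENNReal.measurable_ofReal.comp measurable_snd) (hf.comp measurable_fst)
  calc ∫⁻ x, f x = ∫⁻ x, ∫⁻ s in Ioi (0:ℝ),
        ({p : ℝ × ℝ | ENNReal.ofReal p.2 < f p.1}).indicator 1 (x, s) := by
        refine lintegral_congr fun x => ?_
        have h1 : (fun s : ℝ => ({p : ℝ × ℝ | ENNReal.ofReal p.2 < f p.1}).indicator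
            (1 : ℝ × ℝ → ℝ≥0∞) (x, s)) = ({s : ℝ | ENNReal.ofReal s < f x}).indicator 1 := by
          ext s; simp [indicator]
        rw [h1, lintegral_indicator_one (measurableSet_lt ENNReal.measurable_ofReal
          measurable_const), Measure.restrict_apply (measurableSet_lt ENNReal.measurable_ofReal
          measurable_const), inter_comm, hset]
    _ = ∫⁻ s in Ioi (0:ℝ), ∫⁻ x,
        ({p : ℝ × ℝ | ENNReal.ofReal p.2 < f p.1}).indicator 1 (x, s) := by
        refine lintegral_lintegral_swap ?_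
        exact (measurable_one.indicator hmeas).aemeasurable
    _ = _ := by
        refine lintegral_congr fun s => ?_
        have h1 : (fun x : ℝ => ({p : ℝ × ℝ | ENNReal.ofReal p.2 < f p.1}).indicator
            (1 : ℝ × ℝ → ℝ≥0∞) (x, s)) = ({x : ℝ | ENNReal.ofReal s < f x}).indicator 1 := by
          ext s; simp [indicator]
        rw [h1, lintegral_indicator_one (measurableSet_lt measurable_const hf)]

/-- Weighted AM–GM in `ℝ≥0∞`. -/
theorem amgm (t : ℝ) (ht0 : 0 < t) (ht1 : t < 1) (x y : ℝ≥0∞) :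
    x ^ (1 - t) * y ^ t ≤ ENNReal.ofReal (1 - t) * x + ENNReal.ofReal t * y := by
  have h1t : 0 < 1 - t := by linarith
  have hpq : (1 / (1 - t)).HolderConjugate (1 / t) := by
    rw [Real.holderConjugate_iff]
    refine ⟨?_, ?_⟩
    · rw [lt_div_iff₀ h1t]; linarith
    · field_simp; ring
  have h := ENNReal.young_inequality (x ^ (1 - t)) (y ^ t) hpq
  rw [← ENNReal.rpow_mul, ← ENNReal.rpow_mul, mul_one_div_cancel h1t.ne', mul_one_div_cancel ht0.ne',
    ENNReal.rpow_one, ENNReal.rpow_one, ENNReal.div_eq_inv_mul, ENNReal.div_eq_inv_mul,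
    ← ENNReal.ofReal_inv_of_pos (by positivity), ← ENNReal.ofReal_inv_of_pos (by positivity)] at h
  simpa using h

/-- Normalised one-dimensional Prékopa–Leindler. -/
theorem pl1_norm (t : ℝ) (ht0 : 0 < t) (ht1 : t < 1) (f g h : ℝ → ℝ≥0∞)
    (hf : Measurable f) (hg : Measurable g) (hh : Measurable h)
    (hf1 : ⨆ x, f x = 1) (hg1 : ⨆ x, g x = 1)
    (H : ∀ x y, f x ^ (1 - t) * g y ^ t ≤ h ((1 - t) * x + t * y)) :
    (∫⁻ x, f x) ^ (1 - t) * (∫⁻ x, g x) ^ t ≤ ∫⁻ x, h x := by
  have h1t : 0 < 1 - t := by linarith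
  have hlev : ∀ s ∈ Ioi (0:ℝ), ENNReal.ofReal (1 - t) * volume {x | ENNReal.ofReal s < f x} +
      ENNReal.ofReal t * volume {x | ENNReal.ofReal s < g x} ≤
        volume {x | ENNReal.ofReal s < h x} := by
    intro s hs
    rw [mem_Ioi] at hs
    rcases le_or_gt 1 s with hs1 | hs1
    · have e1 : {x | ENNReal.ofReal s < f x} = ∅ := by
        ext x
        simp only [mem_ofPred_eq, mem_empty_iff_false, iff_false, not_lt]
        have : f x ≤ 1 := hf1 ▸ le_iSup f x
        exact this.trans (by simpa using hs1)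
      have e2 : {x | ENNReal.ofReal s < g x} = ∅ := by
        ext x
        simp only [mem_ofPred_eq, mem_empty_iff_false, iff_false, not_lt]
        have : g x ≤ 1 := hg1 ▸ le_iSup g x
        exact this.trans (by simpa using hs1)
      rw [e1, e2]; simp
    · have hlt : ENNReal.ofReal s < 1 := by simpa using hs1
      obtain ⟨x0, hx0⟩ : ∃ x, ENNReal.ofReal s < f x := by
        rw [← hf1] at hlt; exact lt_iSup_iff.1 hlt
      have hlt : ENNReal.ofReal s < 1 := by simpa using hs1
      obtain ⟨y0, hy0⟩ : ∃ x, ENNReal.ofReal s < g x := by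
        rw [← hg1] at hlt; exact lt_iSup_iff.1 hlt
      have hmf : MeasurableSet {x | ENNReal.ofReal s < f x} := measurableSet_lt measurable_const hf
      have hmg : MeasurableSet {x | ENNReal.ofReal s < g x} := measurableSet_lt measurable_const hg
      have hb := bm1 ((fun x => (1 - t)⁻¹ * x) ⁻¹' {x | ENNReal.ofReal s < f x})
        ((fun x => t⁻¹ * x) ⁻¹' {x | ENNReal.ofReal s < g x}) {x | ENNReal.ofReal s < h x}
        (hmf.preimage (measurable_const_mul _)) (hmg.preimage (measurable_const_mul _))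
        ⟨(1 - t) * x0, by
          simp only [mem_preimage, mem_ofPred_eq]
          rwa [inv_mul_cancel_left₀ h1t.ne']⟩
        ⟨t * y0, by
          simp only [mem_preimage, mem_ofPred_eq]
          rwa [inv_mul_cancel_left₀ ht0.ne']⟩
        (by
          intro a ha b hb
          simp only [mem_preimage, mem_ofPred_eq] at ha hb ⊢
          have hH := H ((1 - t)⁻¹ * a) (t⁻¹ * b)
          rw [mul_inv_cancel_left₀ h1t.ne', mul_inv_cancel_left₀ ht0.ne'] at hH
          refine lt_of_lt_of_le ?_ hH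
          have e : ENNReal.ofReal s = (ENNReal.ofReal s) ^ (1 - t) * (ENNReal.ofReal s) ^ t := by
            rw [← ENNReal.rpow_add_of_nonneg _ _ h1t.le ht0.le]; simp
          rw [e]
          exact ENNReal.mul_lt_mul (ENNReal.rpow_lt_rpow ha h1t) (ENNReal.rpow_lt_rpow hb ht0))
      rw [Real.volume_preimage_mul_left (inv_ne_zero h1t.ne'),
        Real.volume_preimage_mul_left (inv_ne_zero ht0.ne'), inv_inv, inv_inv, abs_of_pos h1t,
        abs_of_pos ht0] at hb
      exact hb
  have hmF : Measurable fun s : ℝ => volume {x | ENNReal.ofReal s < f x} := by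
    have : MeasurableSet {p : ℝ × ℝ | ENNReal.ofReal p.1 < f p.2} :=
      measurableSet_lt (ENNReal.measurable_ofReal.comp measurable_fst) (hf.comp measurable_snd)
    exact measurable_measure_prodMk_left this
  calc (∫⁻ x, f x) ^ (1 - t) * (∫⁻ x, g x) ^ t
      ≤ ENNReal.ofReal (1 - t) * (∫⁻ x, f x) + ENNReal.ofReal t * (∫⁻ x, g x) :=
        amgm t ht0 ht1 _ _
    _ = ∫⁻ s in Ioi (0:ℝ), (ENNReal.ofReal (1 - t) * volume {x | ENNReal.ofReal s < f x} +
          ENNReal.ofReal t * volume {x | ENNReal.ofReal s < g x}) := by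
        rw [layer f hf, layer g hg, lintegral_add_left (hmF.const_mul _),
          lintegral_const_mul' _ _ ENNReal.ofReal_ne_top,
          lintegral_const_mul' _ _ ENNReal.ofReal_ne_top]
    _ ≤ ∫⁻ s in Ioi (0:ℝ), volume {x | ENNReal.ofReal s < h x} :=
        setLIntegral_mono' measurableSet_Ioi hlev
    _ = ∫⁻ x, h x := (layer h hh).symm

/-- One-dimensional Prékopa–Leindler for bounded functions. -/
theorem pl1_bdd (t : ℝ) (ht0 : 0 < t) (ht1 : t < 1) (f g h : ℝ → ℝ≥0∞)
    (hf : Measurable f) (hg : Measurable g) (hh : Measurable h)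
    (hf1 : ⨆ x, f x ≠ ⊤) (hg1 : ⨆ x, g x ≠ ⊤)
    (H : ∀ x y, f x ^ (1 - t) * g y ^ t ≤ h ((1 - t) * x + t * y)) :
    (∫⁻ x, f x) ^ (1 - t) * (∫⁻ x, g x) ^ t ≤ ∫⁻ x, h x := by
  have h1t : 0 < 1 - t := by linarith
  set a := ⨆ x, f x with ha
  set b := ⨆ x, g x with hb
  by_cases ha0 : a = 0
  · have : ∀ x, f x = 0 := fun x => le_antisymm (ha0 ▸ le_iSup f x) (by simp)
    simp [this, h1t]
  by_cases hb0 : b = 0
  · have : ∀ x, g x = 0 := fun x => le_antisymm (hb0 ▸ le_iSup g x) (by simp)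
    simp [this, ht0]
  have hcinv : (a ^ (1 - t) * b ^ t)⁻¹ = a⁻¹ ^ (1 - t) * b⁻¹ ^ t := by
    rw [ENNReal.mul_inv, ENNReal.inv_rpow, ENNReal.inv_rpow]
    · left; simp [ENNReal.rpow_eq_zero_iff, ha0, h1t, ht1.le]
    · left; simp [ENNReal.rpow_eq_top_iff, ha0, hf1]
  have hc0 : a ^ (1 - t) * b ^ t ≠ 0 := by
    refine mul_ne_zero ?_ ?_
    · simp [ENNReal.rpow_eq_zero_iff, ha0, ht1.le]
    · simp [ENNReal.rpow_eq_zero_iff, hb0, ht0.le]
  have hct : a ^ (1 - t) * b ^ t ≠ ⊤ :=
    ENNReal.mul_ne_top (ENNReal.rpow_ne_top_of_nonneg h1t.le hf1)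
      (ENNReal.rpow_ne_top_of_nonneg ht0.le hg1)
  have key := pl1_norm t ht0 ht1 (fun x => a⁻¹ * f x) (fun x => b⁻¹ * g x)
    (fun x => (a ^ (1 - t) * b ^ t)⁻¹ * h x) (hf.const_mul _) (hg.const_mul _) (hh.const_mul _)
    (by rw [← ENNReal.mul_iSup, ← ha, ENNReal.inv_mul_cancel ha0 hf1])
    (by rw [← ENNReal.mul_iSup, ← hb, ENNReal.inv_mul_cancel hb0 hg1])
    (by
      intro x y
      rw [ENNReal.mul_rpow_of_nonneg _ _ h1t.le, ENNReal.mul_rpow_of_nonneg _ _ ht0.le, hcinv,
        mul_mul_mul_comm]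
      exact mul_le_mul_right (H x y) _)
  rw [lintegral_const_mul _ hf, lintegral_const_mul _ hg, lintegral_const_mul _ hh,
    ENNReal.mul_rpow_of_nonneg _ _ h1t.le, ENNReal.mul_rpow_of_nonneg _ _ ht0.le, hcinv,
    mul_mul_mul_comm, ← hcinv] at key
  exact (ENNReal.mul_le_mul_iff_right (ENNReal.inv_ne_zero.2 hct) (ENNReal.inv_ne_top.2 hc0)).1 key

/-- One-dimensional Prékopa–Leindler. -/
theorem pl1 (t : ℝ) (ht0 : 0 < t) (ht1 : t < 1) (f g h : ℝ → ℝ≥0∞)
    (hf : Measurable f) (hg : Measurable g) (hh : Measurable h)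
    (H : ∀ x y, f x ^ (1 - t) * g y ^ t ≤ h ((1 - t) * x + t * y)) :
    (∫⁻ x, f x) ^ (1 - t) * (∫⁻ x, g x) ^ t ≤ ∫⁻ x, h x := by
  have h1t : 0 < 1 - t := by linarith
  by_cases hF0 : ∫⁻ x, f x = 0
  · rw [hF0, ENNReal.zero_rpow_of_pos h1t, zero_mul]; exact zero_le
  by_cases hG0 : ∫⁻ x, g x = 0
  · rw [hG0, ENNReal.zero_rpow_of_pos ht0, mul_zero]; exact zero_le
  have hn : ∀ n : ℕ, (∫⁻ x, min (f x) n) ^ (1 - t) * (∫⁻ x, min (g x) n) ^ t ≤ ∫⁻ x, h x := by
    intro n
    refine pl1_bdd t ht0 ht1 (fun x => min (f x) n) (fun x => min (g x) n) h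
      (hf.min measurable_const) (hg.min measurable_const) hh ?_ ?_ ?_
    · exact ne_top_of_le_ne_top (ENNReal.natCast_ne_top n) (iSup_le fun x => min_le_right _ _)
    · exact ne_top_of_le_ne_top (ENNReal.natCast_ne_top n) (iSup_le fun x => min_le_right _ _)
    · intro x y
      refine le_trans (mul_le_mul' ?_ ?_) (H x y)
      · exact ENNReal.rpow_le_rpow (min_le_left _ _) h1t.le
      · exact ENNReal.rpow_le_rpow (min_le_left _ _) ht0.le
  have hlim : ∀ u : ℝ → ℝ≥0∞, Measurable u →
      Tendsto (fun n : ℕ => ∫⁻ x, min (u x) n) atTop (𝓝 (∫⁻ x, u x)) := by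
    intro u hu
    refine lintegral_tendsto_of_tendsto_of_monotone (fun n => (hu.min measurable_const).aemeasurable)
      (Eventually.of_forall fun x => ?_) (Eventually.of_forall fun x => ?_)
    · intro n m hnm
      exact min_le_min_left _ (by exact_mod_cast hnm)
    · have h1 : Tendsto (fun n : ℕ => ((n : ℕ) : ℝ≥0∞)) atTop (𝓝 ⊤) :=
        ENNReal.tendsto_nat_nhds_top
      have h2 := (tendsto_const_nhds (x := u x)).min h1
      simpa using h2
  have hL : Tendsto (fun n : ℕ => (∫⁻ x, min (f x) n) ^ (1 - t) * (∫⁻ x, min (g x) n) ^ t) atTop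
      (𝓝 ((∫⁻ x, f x) ^ (1 - t) * (∫⁻ x, g x) ^ t)) := by
    refine ENNReal.Tendsto.mul ((ENNReal.continuous_rpow_const.tendsto _).comp (hlim f hf)) ?_
      ((ENNReal.continuous_rpow_const.tendsto _).comp (hlim g hg)) ?_
    · left; simp [ENNReal.rpow_eq_zero_iff, hF0, ht1.le]
    · left; simp [ENNReal.rpow_eq_zero_iff, hG0, ht0.le]
  exact le_of_tendsto' hL hn

end PL

theorem prekopa_leindler (m : ℕ) (t : ℝ) (ht0 : 0 < t) (ht1 : t < 1)
    (f g h : (Fin m → ℝ) → ℝ≥0∞) (hf : Measurable f) (hg : Measurable g) (hh : Measurable h)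
    (H : ∀ x y, f x ^ (1 - t) * g y ^ t ≤ h ((1 - t) • x + t • y)) :
    (∫⁻ x, f x) ^ (1 - t) * (∫⁻ x, g x) ^ t ≤ ∫⁻ x, h x := by
  have h1t : 0 < 1 - t := by linarith
  induction m with
  | zero =>
    have e : ∀ u : (Fin 0 → ℝ) → ℝ≥0∞, ∫⁻ x, u x = u 0 := by
      intro u
      rw [lintegral_unique]
      have h1 : volume (univ : Set (Fin 0 → ℝ)) = 1 := by
        rw [volume_pi, Measure.pi_univ]; simp
      rw [h1, mul_one]
      congr 1
      exact Subsingleton.elim _ _
    rw [e f, e g, e h]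
    refine (H 0 0).trans (le_of_eq ?_)
    congr 1
    exact Subsingleton.elim _ _
  | succ m ih =>
    have hmp := volume_preserving_piFinSuccAbove (fun _ : Fin (m + 1) => ℝ) 0
    have e : ∀ u : (Fin (m + 1) → ℝ) → ℝ≥0∞, Measurable u →
        ∫⁻ x, u x = ∫⁻ a : ℝ, ∫⁻ x : Fin m → ℝ, u (Fin.cons a x) := by
      intro u hu
      have hsymm := hmp.symm
      rw [← hsymm.lintegral_comp hu, Measure.volume_eq_prod, lintegral_prod]
      · refine lintegral_congr fun a => lintegral_congr fun x => ?_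
        congr 1
        simp [MeasurableEquiv.piFinSuccAbove_symm_apply, Fin.insertNthEquiv]
      · exact (hu.comp hsymm.measurable).aemeasurable
    have hcons : ∀ a : ℝ, Measurable fun x : Fin m → ℝ => (Fin.cons a x : Fin (m + 1) → ℝ) := by
      intro a
      refine measurable_pi_iff.2 fun i => ?_
      refine Fin.cases ?_ (fun j => ?_) i
      · simp
      · simpa using measurable_pi_apply j
    have hmeas : ∀ u : (Fin (m + 1) → ℝ) → ℝ≥0∞, Measurable u →
        Measurable fun a : ℝ => ∫⁻ x : Fin m → ℝ, u (Fin.cons a x) := by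
      intro u hu
      have : Measurable fun p : ℝ × (Fin m → ℝ) => u (Fin.cons p.1 p.2) := by
        refine hu.comp ?_
        refine measurable_pi_iff.2 fun i => ?_
        refine Fin.cases ?_ (fun j => ?_) i
        · simpa using measurable_fst
        · simpa using measurable_snd.eval
      exact this.lintegral_prod_right'
    rw [e f hf, e g hg, e h hh]
    refine PL.pl1 t ht0 ht1 _ _ _ (hmeas f hf) (hmeas g hg) (hmeas h hh) ?_
    intro a b
    refine ih (fun x => f (Fin.cons a x)) (fun x => g (Fin.cons b x))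
      (fun x => h (Fin.cons ((1 - t) * a + t * b) x)) (hf.comp (hcons a)) (hg.comp (hcons b))
      (hh.comp (hcons _)) ?_
    intro x y
    refine (H (Fin.cons a x) (Fin.cons b y)).trans (le_of_eq ?_)
    congr 1
    ext i
    refine Fin.cases ?_ (fun j => ?_) i
    · simp
    · simp

/-- single version, also useful (log-concavity of section volumes) -/
theorem brunn_minkowski_rpow (m : ℕ) (t : ℝ) (ht0 : 0 < t) (ht1 : t < 1)
    (A B C : Set (Fin m → ℝ)) (hA : MeasurableSet A) (hB : MeasurableSet B)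
    (hC : MeasurableSet C) (hsub : ∀ a ∈ A, ∀ b ∈ B, (1 - t) • a + t • b ∈ C) :
    volume A ^ (1 - t) * volume B ^ t ≤ volume C := by
  have h1t : 0 < 1 - t := by linarith
  have h := prekopa_leindler m t ht0 ht1 (A.indicator 1) (B.indicator 1) (C.indicator 1)
    (measurable_one.indicator hA) (measurable_one.indicator hB) (measurable_one.indicator hC) (by
      intro x y
      by_cases hx : x ∈ A
      · by_cases hy : y ∈ B
        · simp [hx, hy, hsub x hx y hy]
        · simp [hy, ht0]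
      · simp [hx, h1t])
  rwa [lintegral_indicator_one hA, lintegral_indicator_one hB, lintegral_indicator_one hC] at h

theorem brunn_minkowski_prod (m : ℕ) (t : ℝ) (ht0 : 0 ≤ t) (ht1 : t ≤ 1)
    (A B C D : Set (Fin m → ℝ)) (hA : MeasurableSet A) (hB : MeasurableSet B)
    (hC : MeasurableSet C) (hD : MeasurableSet D)
    (hsubC : ∀ a ∈ A, ∀ b ∈ B, (1 - t) • a + t • b ∈ C)
    (hsubD : ∀ a ∈ A, ∀ b ∈ B, t • a + (1 - t) • b ∈ D) :
    volume A * volume B ≤ volume C * volume D := by
  rcases A.eq_empty_or_nonempty with rfl | ⟨a0, ha0⟩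
  · simp
  rcases B.eq_empty_or_nonempty with rfl | ⟨b0, hb0⟩
  · simp
  rcases ht0.eq_or_lt with rfl | ht0
  · refine mul_le_mul' (measure_mono fun a ha => ?_) (measure_mono fun b hb => ?_)
    · simpa using hsubC a ha b0 hb0
    · simpa using hsubD a0 ha0 b hb
  rcases ht1.eq_or_lt with rfl | ht1
  · rw [mul_comm]
    refine mul_le_mul' (measure_mono fun a ha => ?_) (measure_mono fun b hb => ?_)
    · simpa using hsubC a0 ha0 a ha
    · simpa using hsubD b hb b0 hb0
  have h1 := brunn_minkowski_rpow m t ht0 ht1 A B C hA hB hC hsubC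
  have h2 := brunn_minkowski_rpow m (1 - t) (by linarith) (by linarith) A B D hA hB hD (by
    intro a ha b hb
    simpa using hsubD a ha b hb)
  refine le_trans (le_of_eq ?_) (mul_le_mul' h1 h2)
  rw [sub_sub_cancel, mul_mul_mul_comm, ← ENNReal.rpow_add_of_nonneg _ _ (by linarith) ht0.le,
    ← ENNReal.rpow_add_of_nonneg _ _ ht0.le (by linarith)]
  simp

end Pool.H40.EV
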